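import Pool.Agent.Helper85.BTE.Spec

/-!
Basic combinatorics of reduced words, and the space of ends of a free group (as ultrafilters of
almost invariant sets).
-/

set_option autoImplicit false

namespace Helper85.BTE

open FreeGroup Pointwise

variable {X : Type} [DecidableEq X]

/-- Inverse letter. -/
def il (s : X × Bool) : X × Bool := (s.1, !s.2)

omit [DecidableEq X] in
@[simp] theorem il_il (s : X × Bool) : il (il s) = s := by simp [il]

omit [DecidableEq X] in
theorem il_ne (s : X × Bool) : il s ≠ s := by
  rcases s with ⟨a, b⟩; cases b <;> simp [il]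

omit [DecidableEq X] in
theorem il_inj {s t : X × Bool} : il s = il t ↔ s = t := by
  constructor
  · intro h
    have := congrArg il h
    simpa using this
  · rintro rfl; rfl

/-- The group element of a letter. -/
def lt (s : X × Bool) : FreeGroup X := FreeGroup.mk [s]

omit [DecidableEq X] in
theorem lt_inv (s : X × Bool) : (lt s)⁻¹ = lt (il s) := by
  simp [lt, il, FreeGroup.invRev]

/-- First letter. -/
def hd (g : FreeGroup X) : Option (X × Bool) := g.toWord.head?

@[simp] theorem hd_one : hd (1 : FreeGroup X) = none := by simp [hd]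

theorem hd_eq_none {g : FreeGroup X} : hd g = none ↔ g = 1 := by
  simp [hd, List.head?_eq_none_iff]

theorem toWord_lt (s : X × Bool) : (lt s).toWord = [s] := by
  simp [lt, FreeGroup.toWord_mk]

@[simp] theorem hd_lt (s : X × Bool) : hd (lt s) = some s := by simp [hd, toWord_lt]

theorem toWord_lt_mul (s : X × Bool) (g : FreeGroup X) :
    (lt s * g).toWord = if hd g = some (il s) then g.toWord.tail else s :: g.toWord := by
  rw [lt, ← FreeGroup.mk_toWord (x := g), FreeGroup.mul_mk, FreeGroup.toWord_mk,
    FreeGroup.mk_toWord]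
  rw [List.singleton_append, FreeGroup.reduce.cons]
  rw [FreeGroup.reduce_toWord]
  unfold hd
  rcases h : g.toWord with _ | ⟨a, L⟩
  · simp
  · simp only [List.head?_cons, Option.some.injEq, List.tail_cons]
    rcases s with ⟨s1, s2⟩
    rcases a with ⟨a1, a2⟩
    simp only [il, Prod.mk.injEq]
    by_cases h1 : s1 = a1
    · subst h1
      cases s2 <;> cases a2 <;> simp
    · have h2 : ¬ (a1 = s1) := fun h => h1 h.symm
      simp [h1, h2]

theorem toWord_cons_ne {g : FreeGroup X} {a b : X × Bool} {L : List (X × Bool)}
    (h : g.toWord = a :: b :: L) : b ≠ il a := by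
  have hr := FreeGroup.isReduced_toWord (x := g)
  rw [h, FreeGroup.IsReduced.eq_1] at hr
  intro hb
  rw [List.isChain_cons_cons] at hr
  have := hr.1
  rw [hb] at this
  simp only [il] at this
  have h3 := this trivial
  cases ha : a.2 <;> simp [ha] at h3

theorem hd_lt_mul (s : X × Bool) (g : FreeGroup X) : hd (lt s * g) = some s ↔ hd g ≠ some (il s) := by
  have h := toWord_lt_mul s g
  constructor
  · intro h1 h2
    rw [if_pos h2] at h
    unfold hd at h1 h2
    rw [h] at h1
    rcases hg : g.toWord with _ | ⟨a, L⟩
    · rw [hg] at h2; simp at h2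
    · rw [hg] at h2 h1
      simp only [List.head?_cons, Option.some.injEq] at h2
      simp only [List.tail_cons] at h1
      rcases L with _ | ⟨b, L⟩
      · simp at h1
      · simp only [List.head?_cons, Option.some.injEq] at h1
        have := toWord_cons_ne hg
        rw [h1, h2] at this
        simp at this
  · intro h2
    rw [if_neg h2] at h
    unfold hd
    rw [h]
    simp

theorem norm_lt_mul_of_ne {s : X × Bool} {g : FreeGroup X} (h : hd g ≠ some (il s)) :
    (lt s * g).norm = g.norm + 1 := by
  unfold FreeGroup.norm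
  rw [toWord_lt_mul, if_neg h]
  simp

theorem norm_lt_mul_of_eq {s : X × Bool} {g : FreeGroup X} (h : hd g = some (il s)) :
    (lt s * g).norm + 1 = g.norm := by
  unfold FreeGroup.norm
  rw [toWord_lt_mul, if_pos h]
  unfold hd at h
  rcases hg : g.toWord with _ | ⟨a, L⟩
  · rw [hg] at h; simp at h
  · simp

theorem norm_mul_lt_of_ne {s : X × Bool} {g : FreeGroup X} (h : hd g⁻¹ ≠ some s) :
    (g * lt s).norm = g.norm + 1 := by
  have h1 : (g * lt s).norm = (lt (il s) * g⁻¹).norm := by
    rw [← FreeGroup.norm_inv_eq, mul_inv_rev, lt_inv]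
  rw [h1, norm_lt_mul_of_ne (by simpa using h), FreeGroup.norm_inv_eq]

theorem norm_mul_lt_of_eq {s : X × Bool} {g : FreeGroup X} (h : hd g⁻¹ = some s) :
    (g * lt s).norm + 1 = g.norm := by
  have h1 : (g * lt s).norm = (lt (il s) * g⁻¹).norm := by
    rw [← FreeGroup.norm_inv_eq, mul_inv_rev, lt_inv]
  rw [h1, norm_lt_mul_of_eq (by simpa using h), FreeGroup.norm_inv_eq]

/-- Induction on reduced words, adding letters on the right. -/
theorem right_ind {P : FreeGroup X → Prop} (h1 : P 1)
    (hs : ∀ y t, hd y⁻¹ ≠ some t → P y → P (y * lt t)) : ∀ y, P y := by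
  intro y
  induction hn : y.norm using Nat.strong_induction_on generalizing y with
  | _ n ih =>
    rcases hy : hd y⁻¹ with _ | s
    · rw [hd_eq_none, inv_eq_one] at hy
      rw [hy]; exact h1
    · have h2 : (y * lt s).norm + 1 = y.norm := norm_mul_lt_of_eq hy
      have h3 : P (y * lt s) := ih _ (by omega) _ rfl
      have h4 : hd (y * lt s)⁻¹ ≠ some (il s) := by
        rw [mul_inv_rev, lt_inv]
        intro h5
        rw [hd_lt_mul] at h5
        apply h5
        rw [il_il]; exact hy
      have h5 := hs _ _ h4 h3
      rwa [← lt_inv, mul_inv_cancel_right] at h5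

/-- Every element is a product of letters: simple induction. -/
theorem letter_ind {P : FreeGroup X → Prop} (h1 : P 1)
    (hs : ∀ y t, P y → P (y * lt t)) : ∀ y, P y :=
  right_ind h1 (fun y t _ h => hs y t h)

/-- First letter after right multiplication by a letter, on a reduced product. -/
theorem hd_mul_lt_of_ne {s : X × Bool} {g : FreeGroup X} (hg : g ≠ 1) (h : hd g⁻¹ ≠ some s) :
    hd (g * lt s) = hd g := by
  have h1 : (g * lt s).toWord = g.toWord ++ [s] := by
    have h2 : (g * lt s)⁻¹.toWord = il s :: g⁻¹.toWord := by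
      rw [mul_inv_rev, lt_inv, toWord_lt_mul, if_neg (by simpa using h)]
    have h3 : (g * lt s).toWord = FreeGroup.invRev (g * lt s)⁻¹.toWord := by
      rw [FreeGroup.toWord_inv, FreeGroup.invRev_invRev]
    rw [h3, h2, FreeGroup.toWord_inv]
    have h4 : ∀ L : List (X × Bool), FreeGroup.invRev (il s :: L) = FreeGroup.invRev L ++ [s] := by
      intro L
      simp [FreeGroup.invRev, il]
    rw [h4, FreeGroup.invRev_invRev]
  unfold hd
  rw [h1]
  rcases hw : g.toWord with _ | ⟨a, L⟩
  · exact absurd (FreeGroup.toWord_eq_nil_iff.1 hw) hg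
  · simp

/-- Right multiplication by a letter changes membership in `W_s` only at the edge `(1,s)`. -/
theorem hd_mul_lt {s r : X × Bool} {g : FreeGroup X} (h1 : ¬ (g = 1 ∧ r = s))
    (h2 : ¬ (g * lt r = 1 ∧ r = il s)) : hd (g * lt r) = some s ↔ hd g = some s := by
  by_cases hg : g = 1
  · subst hg
    simp only [one_mul, hd_lt, hd_one, Option.some.injEq]
    constructor
    · intro h; exact absurd ⟨rfl, h⟩ h1
    · intro h; simp at h
  · by_cases h : hd g⁻¹ = some r
    · -- cancellation
      by_cases h3 : g * lt r = 1
      · rw [h3]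
        have h4 : g = lt (il r) := by
          rw [← lt_inv]; exact eq_inv_of_mul_eq_one_left h3
        rw [h4]
        simp only [hd_lt, hd_one, Option.some.injEq]
        constructor
        · intro h; simp at h
        · intro h5
          exact absurd ⟨h3, by rw [← h5, il_il]⟩ h2
      · have h4 : hd ((g * lt r) * lt (il r)) = hd (g * lt r) := by
          apply hd_mul_lt_of_ne h3
          rw [mul_inv_rev, lt_inv]
          intro h5
          rw [hd_lt_mul] at h5
          apply h5
          rw [il_il]; exact h
        rw [← h4, ← lt_inv, mul_inv_cancel_right]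
    · rw [hd_mul_lt_of_ne hg h]

/-- Two sets of group elements with the same coboundary which agree at `1` are equal. -/
theorem eq_of_coboundary {S T : Set (FreeGroup X)} (h1 : (1 ∈ S ↔ 1 ∈ T))
    (h : ∀ g s, ((g ∈ S ↔ g * lt s ∈ S) ↔ (g ∈ T ↔ g * lt s ∈ T))) : S = T := by
  ext g
  induction g using letter_ind with
  | h1 => exact h1
  | hs y t ih =>
    have := h y t
    tauto

end Helper85.BTE
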