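import Pool.Agent.Helper85.BTE.Rank2

/-!
Soundness and completeness of the certificates.
-/

set_option autoImplicit false
set_option linter.unusedSectionVars false
set_option linter.unusedVariables false

namespace Helper85.BTE

open FreeGroup Pointwise Classical Filter

/-- Domination. -/
def Dom {X : Type} [DecidableEq X] [Fintype X] (u v : FreeGroup X) : Prop :=
  ∃ C : ℕ, ∀ φ : MulAut (FreeGroup X), n1 (φ u) ≤ C * n1 (φ v)

section

variable {X : Type} [DecidableEq X] [Fintype X]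

theorem n1_smul_conj (φ : MulAut (FreeGroup X)) {a b : FreeGroup X} (h : IsConj a b) :
    IsConj (φ a) (φ b) :=
  MonoidHom.map_isConj (φ : FreeGroup X →* FreeGroup X) h

theorem Dom.aut {u v : FreeGroup X} (h : Dom u v) (ψ : MulAut (FreeGroup X)) :
    Dom (ψ u) (ψ v) := by
  obtain ⟨C, hC⟩ := h
  exact ⟨C, fun φ => hC (φ * ψ)⟩

/-- Necessity of the zero condition. -/
theorem Dom.zero {u v : FreeGroup X} (h : Dom u v) (hX : 3 ≤ Fintype.card X)
    (ψ : MulAut (FreeGroup X)) (s : X × Bool) (h0 : c1 (ψ v) (Hs 1 s) = 0) :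
    c1 (ψ u) (Hs 1 s) = 0 := by
  by_contra h1
  obtain ⟨C, hC⟩ := h.aut ψ
  obtain ⟨φ, hφ⟩ := not_dom_of_zero hX (ψ u) (ψ v) s h0 h1 C
  exact absurd (hC φ) (by omega)

theorem dom_one_iff (u : FreeGroup X) : Dom u 1 ↔ u = 1 := by
  constructor
  · rintro ⟨C, hC⟩
    have h1 := hC 1
    simp only [MulAut.one_apply, n1_one, mul_zero] at h1
    exact n1_eq_zero (Nat.le_zero.1 h1)
  · rintro rfl
    exact ⟨1, fun φ => by simp⟩

end

section

variable {N : ℕ}

theorem card_fin : Fintype.card (Fin N) = N := Fintype.card_fin N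

/-- Unified good set criterion. -/
theorem good (hN : 2 ≤ N) (u v : FreeGroup (Fin N)) (hv : v ≠ 1)
    (S : Set (MulAut (FreeGroup (Fin N))))
    (h1 : (1 : MulAut (FreeGroup (Fin N))) ∈ S) (hNG : S ⊆ NG (Fin N))
    (hcl : ∀ ψ ∈ S, ∀ (B : Set (Fin N × Bool)) (b : Fin N × Bool), b ∈ B → il b ∉ B →
      n1 (wh B b (ψ v)) ≤ n1 (ψ v) → wh B b * ψ ∈ S)
    (R : ℕ) (hR : ∀ ψ ∈ S, n1 (ψ u) ≤ R)
    (hL : 3 ≤ N → ∀ ψ ∈ S, ∀ s : Fin N × Bool, c1 (ψ v) (Hs 1 s) = 0 → c1 (ψ u) (Hs 1 s) = 0) :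
    Dom u v := by
  rcases Nat.lt_or_ge 2 N with h | h
  · exact good3 (by rw [card_fin]; omega) u v S h1 hcl R hR (hL h)
  · have h2 : N = 2 := by omega
    subst h2
    exact good2 u v hv S h1 hNG hcl R hR

/-- **Soundness of the domination certificate.** -/
theorem dom_of_cert (hN : 2 ≤ N) {u v : FreeGroup (Fin N)} (hv : v ≠ 1) (h : DomCert u v) :
    Dom u v := by
  obtain ⟨P, G, hcyc, ⟨ab0, hab0, g0, -, h0, -, hg0, hh0⟩, hstep, hzero⟩ := h
  -- invariant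
  let Q : MulAut (FreeGroup (Fin N)) → Prop := fun ψ =>
    ∃ ab ∈ P, IsConj (ψ u) ab.1 ∧ IsConj (ψ v) ab.2
  have hQ1 : Q 1 := ⟨ab0, hab0, isConj_iff.2 ⟨g0, hg0⟩, isConj_iff.2 ⟨h0, hh0⟩⟩
  have hn1v : n1 v ≤ 2 * v.norm := n1_le v
  -- one Nielsen step
  have hQstep : ∀ ψ, Q ψ → ∀ (i j : Fin N), i ≠ j → ∀ e sd : Bool,
      n1 (nielsen i j e sd (ψ v)) ≤ 3 * n1 v → Q (nielsen i j e sd * ψ) := by
    rintro ψ ⟨ab, hab, hu, hv'⟩ i j hij e sd hle
    rcases hstep ab hab i j hij e sd with ⟨h, -, h1, h2⟩ | ⟨ab', hab', g, -, h, -, h1, h2⟩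
    · exfalso
      have h3 := n1_cyc h1
      rw [n1_conj] at h3
      have h4 : n1 (nielsen i j e sd (ψ v)) = n1 (nielsen i j e sd ab.2) :=
        n1_isConj (n1_smul_conj _ hv')
      omega
    · refine ⟨ab', hab', ?_, ?_⟩
      · exact (n1_smul_conj (nielsen i j e sd) hu).trans (isConj_iff.2 ⟨g, h1⟩)
      · exact (n1_smul_conj (nielsen i j e sd) hv').trans (isConj_iff.2 ⟨h, h2⟩)
  -- Whitehead steps
  have hQwh : ∀ ψ, Q ψ → n1 (ψ v) ≤ n1 v → ∀ (B : Set (Fin N × Bool)) (b : Fin N × Bool),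
      Q (wh B b * ψ) := by
    intro ψ hψ hle B b
    obtain ⟨L, hL, hB⟩ := exists_finset B b
    rw [hB]
    refine wh_finset_induction (P := fun L => Q (wh L b * ψ)) ?_ ?_ L hL
    · rw [wh_empty, one_mul]; exact hψ
    · intro s L hs hsL ih
      have h1 : wh (insert s (L : Set (Fin N × Bool))) b =
          wh {s} b * wh (L : Set (Fin N × Bool)) b := wh_insert (by simpa using hsL)
      have h2 : n1 (wh (insert s (L : Set (Fin N × Bool))) b (ψ v)) ≤ 3 * n1 v :=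
        le_trans (n1_wh_le _ _ _) (by omega)
      rw [h1] at h2 ⊢
      obtain ⟨e, sd, h3⟩ := wh_single hs
      rw [h3] at h2 ⊢
      rw [mul_assoc]
      exact hQstep _ ih _ _ hs e sd h2
  let S : Set (MulAut (FreeGroup (Fin N))) := {ψ | ψ ∈ NG (Fin N) ∧ n1 (ψ v) ≤ n1 v ∧ Q ψ}
  -- bound
  obtain ⟨R, hR⟩ : ∃ R, ∀ ab ∈ P, n1 ab.1 ≤ R := by
    refine ⟨(P.map fun ab => n1 ab.1).sum, fun ab hab => ?_⟩
    exact List.single_le_sum (fun _ _ => Nat.zero_le _) _ (List.mem_map.2 ⟨ab, hab, rfl⟩)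
  apply good hN u v hv S ⟨one_mem_NG, le_rfl, hQ1⟩ (fun ψ h => h.1) _ R
  · rintro ψ ⟨-, -, ab, hab, hu, -⟩
    rw [n1_isConj hu]
    exact hR ab hab
  · rintro h3 ψ ⟨-, -, ab, hab, hu, hv'⟩ s h4
    rw [c1_isConj hv' (cl_Hs 1 s), c1_single_eq_zero_iff (hcyc ab hab).2] at h4
    rw [c1_isConj hu (cl_Hs 1 s), c1_single_eq_zero_iff (hcyc ab hab).1]
    exact hzero h3 ab hab s.1 h4
  · rintro ψ ⟨h1, h2, h3⟩ B b hb hb' hle
    exact ⟨mul_mem_NG (wh_mem_NG B b) h1, le_trans hle h2, hQwh ψ h3 h2 B b⟩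

/-- **Completeness of the domination certificate.** -/
theorem cert_of_dom {u v : FreeGroup (Fin N)} (h : Dom u v) : DomCert u v := by
  obtain ⟨C, hC⟩ := h
  set L := 3 * v.norm with hL
  set PS : Set (FreeGroup (Fin N) × FreeGroup (Fin N)) :=
    {ab | Cyc ab.1 ∧ Cyc ab.2 ∧ ab.2.norm ≤ L ∧
      ∃ ψ : MulAut (FreeGroup (Fin N)), IsConj (ψ u) ab.1 ∧ IsConj (ψ v) ab.2} with hPS
  have hfin : PS.Finite := by
    refine ((finite_norm_le (X := Fin N) (C * L)).prod (finite_norm_le (X := Fin N) L)).subset ?_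
    rintro ⟨a, b⟩ ⟨h1, h2, h3, ψ, h4, h5⟩
    simp only [Set.mem_prod, Set.mem_ofPred_eq] at *
    refine ⟨?_, h3⟩
    have h6 := hC ψ
    rw [n1_isConj h4, n1_isConj h5, n1_cyc h1, n1_cyc h2] at h6
    have h7 := Nat.mul_le_mul_left C h3
    nlinarith
  -- index type
  let I := PS × (Fin N × Fin N) × (Bool × Bool)
  have : Finite PS := hfin
  have hch : ∀ x : I, ∃ g h : FreeGroup (Fin N),
      (Cyc (h * nielsen x.2.1.1 x.2.1.2 x.2.2.1 x.2.2.2 x.1.1.2 * h⁻¹) ∧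
        L < norm (h * nielsen x.2.1.1 x.2.1.2 x.2.2.1 x.2.2.2 x.1.1.2 * h⁻¹)) ∨
      ∃ ab' ∈ PS, g * nielsen x.2.1.1 x.2.1.2 x.2.2.1 x.2.2.2 x.1.1.1 * g⁻¹ = ab'.1 ∧
        h * nielsen x.2.1.1 x.2.1.2 x.2.2.1 x.2.2.2 x.1.1.2 * h⁻¹ = ab'.2 := by
    rintro ⟨⟨ab, hab⟩, ⟨i, j⟩, ⟨e, sd⟩⟩
    simp only
    obtain ⟨g, hg⟩ := exists_cyc (nielsen i j e sd ab.1)
    obtain ⟨h, hh⟩ := exists_cyc (nielsen i j e sd ab.2)
    refine ⟨g, h, ?_⟩
    by_cases h1 : L < norm (h * nielsen i j e sd ab.2 * h⁻¹)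
    · exact Or.inl ⟨hh, h1⟩
    · right
      obtain ⟨-, -, -, ψ, h4, h5⟩ := hab
      refine ⟨(g * nielsen i j e sd ab.1 * g⁻¹, h * nielsen i j e sd ab.2 * h⁻¹),
        ⟨hg, hh, by simpa using h1, nielsen i j e sd * ψ, ?_, ?_⟩, rfl, rfl⟩
      · exact (n1_smul_conj (nielsen i j e sd) h4).trans (isConj_iff.2 ⟨g, rfl⟩)
      · exact (n1_smul_conj (nielsen i j e sd) h5).trans (isConj_iff.2 ⟨h, rfl⟩)
  choose g h hgh using hch
  obtain ⟨g0, hg0⟩ := exists_cyc u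
  obtain ⟨h0, hh0⟩ := exists_cyc v
  have hGfin : (Set.range g ∪ Set.range h ∪ {g0, h0}).Finite :=
    ((Set.finite_range g).union (Set.finite_range h)).union (Set.toFinite _)
  refine ⟨hfin.toFinset.toList, hGfin.toFinset.toList, ?_, ?_, ?_, ?_⟩
  · intro ab hab
    rw [Finset.mem_toList, Set.Finite.mem_toFinset] at hab
    exact ⟨hab.1, hab.2.1⟩
  · refine ⟨(g0 * u * g0⁻¹, h0 * v * h0⁻¹), ?_, g0, ?_, h0, ?_, rfl, rfl⟩
    · rw [Finset.mem_toList, Set.Finite.mem_toFinset]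
      refine ⟨hg0, hh0, ?_, 1, isConj_iff.2 ⟨g0, rfl⟩, isConj_iff.2 ⟨h0, rfl⟩⟩
      have h1 := n1_cyc hh0
      rw [n1_conj] at h1
      have h2 := n1_le v
      simp only
      omega
    · rw [Finset.mem_toList, Set.Finite.mem_toFinset]
      simp
    · rw [Finset.mem_toList, Set.Finite.mem_toFinset]
      simp
  · intro ab hab i j hij e sd
    rw [Finset.mem_toList, Set.Finite.mem_toFinset] at hab
    have h1 := hgh (⟨ab, hab⟩, (i, j), (e, sd))
    have hg : g (⟨ab, hab⟩, (i, j), (e, sd)) ∈ hGfin.toFinset.toList := by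
      rw [Finset.mem_toList, Set.Finite.mem_toFinset]
      exact Or.inl (Or.inl ⟨_, rfl⟩)
    have hh : h (⟨ab, hab⟩, (i, j), (e, sd)) ∈ hGfin.toFinset.toList := by
      rw [Finset.mem_toList, Set.Finite.mem_toFinset]
      exact Or.inl (Or.inr ⟨_, rfl⟩)
    rcases h1 with ⟨h2, h3⟩ | ⟨ab', hab', h2, h3⟩
    · exact Or.inl ⟨_, hh, h2, h3⟩
    · exact Or.inr ⟨ab', by rw [Finset.mem_toList, Set.Finite.mem_toFinset]; exact hab',
        _, hg, _, hh, h2, h3⟩
  · intro h3 ab hab i habs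
    rw [Finset.mem_toList, Set.Finite.mem_toFinset] at hab
    obtain ⟨h4, h5, -, ψ, h6, h7⟩ := hab
    have h8 : c1 (ψ v) (Hs 1 (i, true)) = 0 := by
      rw [c1_isConj h7 (cl_Hs 1 _), c1_single_eq_zero_iff h5]
      exact habs
    have h9 := Dom.zero ⟨C, hC⟩ (by rw [card_fin]; exact h3) ψ (i, true) h8
    rw [c1_isConj h6 (cl_Hs 1 _), c1_single_eq_zero_iff h4] at h9
    exact h9

/-- The periodicity statement (task A). -/
def IAStatement (N : ℕ) : Prop := ∀ (ψ : MulAut (FreeGroup (Fin N))),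
    (∀ i, abMod 6 (ψ (FreeGroup.of i)) = abMod 6 (FreeGroup.of i)) →
    ∀ (u : FreeGroup (Fin N)) (k : ℕ), 0 < k → IsConj ((ψ ^ k) u) u → IsConj (ψ u) u

theorem pow_conj_of {ψ : MulAut (FreeGroup (Fin N))} {u : FreeGroup (Fin N)} {i j : ℕ}
    (hij : i < j) (h : IsConj ((ψ ^ i) u) ((ψ ^ j) u)) : IsConj ((ψ ^ (j - i)) u) u := by
  have h1 := n1_smul_conj (ψ ^ i)⁻¹ h
  have h2 : (ψ ^ i)⁻¹ ((ψ ^ i) u) = u := MulAut.inv_apply_self _ _ _
  have h3 : (ψ ^ i)⁻¹ ((ψ ^ j) u) = (ψ ^ (j - i)) u := by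
    have : ψ ^ j = ψ ^ i * ψ ^ (j - i) := by rw [← pow_add]; congr 1; omega
    rw [this, MulAut.mul_apply]
    exact MulAut.inv_apply_self _ _ _
  rw [h2, h3] at h1
  exact h1.symm

theorem pow_fix {ψ : MulAut (FreeGroup (Fin N))} {v : FreeGroup (Fin N)} (h : IsConj (ψ v) v)
    (k : ℕ) : IsConj ((ψ ^ k) v) v := by
  induction k with
  | zero => exact IsConj.refl v
  | succ k ih =>
    rw [pow_succ', MulAut.mul_apply]
    exact (n1_smul_conj ψ ih).trans h

/-- **Soundness of the non-domination certificate.** -/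
theorem not_dom_of_cert (hIA : IAStatement N) {u v : FreeGroup (Fin N)} (h : NonDomCert u v) :
    ¬ Dom u v := by
  rintro ⟨C, hC⟩
  rcases h with ⟨ms, h6, ⟨g, hg⟩, g', h', hc1, hc2, hne⟩ | ⟨h3, ms, g, h', i, hc1, hc2, ha1, ha2⟩
  · set ψ := nielsenProd ms
    have hv : IsConj (ψ v) v := isConj_iff.2 ⟨g, hg⟩
    have hu : ¬ IsConj (ψ u) u := by
      intro hcon
      have e1 := n1_cyc hc1
      have e2 := n1_cyc hc2
      rw [n1_conj] at e1 e2
      have e3 := n1_isConj hcon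
      omega
    have hbd : ∀ n, n1 ((ψ ^ n) u) ≤ C * n1 v := by
      intro n
      have := hC (ψ ^ n)
      rwa [n1_isConj (pow_fix hv n)] at this
    obtain ⟨i, j, hij, hconj⟩ := exists_conj_of_bdd (fun n => (ψ ^ n) u) _ hbd
    exact hu (hIA ψ h6 u (j - i) (by omega) (pow_conj_of hij hconj))
  · set ψ := nielsenProd ms
    have hD : Dom u v := ⟨C, hC⟩
    have h8 : c1 (ψ v) (Hs 1 (i, true)) = 0 := by
      rw [← c1_conj (ψ v) g (cl_Hs 1 _), c1_single_eq_zero_iff hc1]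
      exact ha1
    have h9 := hD.zero (by rw [card_fin]; exact h3) ψ (i, true) h8
    rw [← c1_conj (ψ u) h' (cl_Hs 1 _), c1_single_eq_zero_iff hc2] at h9
    exact ha2 h9

/-- **Completeness of the non-domination certificate.** -/
theorem dom_of_no_cert (hIA : IAStatement N) (hN : 2 ≤ N) {u v : FreeGroup (Fin N)} (hv : v ≠ 1)
    (h : ¬ NonDomCert u v) : Dom u v := by
  let S : Set (MulAut (FreeGroup (Fin N))) := {ψ | ψ ∈ NG (Fin N) ∧ n1 (ψ v) ≤ n1 v}
  obtain ⟨R, hR⟩ : ∃ R, ∀ ψ ∈ S, n1 (ψ u) ≤ R := by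
    by_contra hcon
    push Not at hcon
    choose ψ hψ hψn using hcon
    -- a subsequence with strictly increasing lengths
    let a : ℕ → ℕ := fun n => Nat.rec 0 (fun _ m => n1 (ψ m u)) n
    have ha : ∀ n, a (n + 1) = n1 (ψ (a n) u) := fun n => rfl
    let f : ℕ → MulAut (FreeGroup (Fin N)) := fun n => ψ (a n)
    have hmono : StrictMono fun n => n1 (f n u) := by
      apply strictMono_nat_of_lt_succ
      intro n
      change n1 (ψ (a n) u) < n1 (ψ (a (n + 1)) u)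
      have := hψn (a (n + 1))
      rw [ha n] at this ⊢
      exact this
    have hch : ∀ n, ∃ c : FreeGroup (Fin N), Cyc (c * f n v * c⁻¹) := fun n => exists_cyc _
    choose c hc using hch
    let K : ℕ → (FreeGroup (Fin N)) × (Fin N → Multiplicative (Fin N → ZMod 6)) := fun n =>
      (c n * f n v * (c n)⁻¹, fun i => abMod 6 (f n (FreeGroup.of i)))
    have hKfin : ({x : FreeGroup (Fin N) | x.norm ≤ n1 v} ×ˢ
        (Set.univ : Set (Fin N → Multiplicative (Fin N → ZMod 6)))).Finite := by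
      have : Finite (Multiplicative (Fin N → ZMod 6)) :=
        inferInstanceAs (Finite (Fin N → ZMod 6))
      exact (finite_norm_le _).prod Set.finite_univ
    obtain ⟨i, -, j, -, hij, heq⟩ := Set.infinite_univ.exists_ne_map_eq_of_mapsTo
      (f := K) (fun n _ => by
        refine ⟨?_, Set.mem_univ _⟩
        have h2 := n1_cyc (hc n)
        rw [n1_conj] at h2
        have h3 := (hψ (a n)).2
        simp only [Set.mem_ofPred_eq, K]
        change n1 (f n v) ≤ n1 v at h3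
        omega) hKfin
    have hK1 : c i * f i v * (c i)⁻¹ = c j * f j v * (c j)⁻¹ := congrArg Prod.fst heq
    have hK2 : ∀ k, abMod 6 (f i (FreeGroup.of k)) = abMod 6 (f j (FreeGroup.of k)) := by
      intro k
      exact congrFun (congrArg Prod.snd heq) k
    set θ := (f i)⁻¹ * f j with hθ
    have hθNG : θ ∈ NG (Fin N) := mul_mem_NG (inv_mem_NG (hψ (a i)).1) (hψ (a j)).1
    have hθ6 : ∀ x, abMod 6 (θ x) = abMod 6 x := abMod_quot 6 (f i) (f j) hK2
    have hθv : IsConj (θ v) v := by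
      have e1 : IsConj (f j v) (f i v) := by
        have x1 : IsConj (f i v) (c i * f i v * (c i)⁻¹) := isConj_iff.2 ⟨c i, rfl⟩
        have x2 : IsConj (f j v) (c j * f j v * (c j)⁻¹) := isConj_iff.2 ⟨c j, rfl⟩
        rw [hK1] at x1
        exact x2.trans x1.symm
      have e2 := n1_smul_conj (f i)⁻¹ e1
      have e3 : (f i)⁻¹ (f i v) = v := MulAut.inv_apply_self _ _ _
      rw [e3] at e2
      exact e2
    have hθu : ¬ IsConj (θ u) u := by
      intro hcon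
      have e2 := n1_smul_conj (f i) hcon
      have e3 : f i (θ u) = f j u := by
        rw [hθ, MulAut.mul_apply]
        exact MulAut.apply_inv_self _ _ _
      rw [e3] at e2
      exact hij (hmono.injective (n1_isConj e2)).symm
    -- some power changes the length
    obtain ⟨k, hk⟩ : ∃ k, n1 ((θ ^ k) u) ≠ n1 u := by
      by_contra hcon
      push Not at hcon
      obtain ⟨i', j', hij', hconj⟩ := exists_conj_of_bdd (fun n => (θ ^ n) u) (n1 u)
        (fun n => (hcon n).le)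
      exact hθu (hIA θ (fun i => hθ6 _) u (j' - i') (by omega) (pow_conj_of hij' hconj))
    apply h
    left
    obtain ⟨ms, hms⟩ := pow_mem_NG hθNG k
    refine ⟨ms, ?_, ?_, ?_⟩
    · intro x
      rw [hms]
      have : ∀ (k : ℕ) y, abMod 6 ((θ ^ k) y) = abMod 6 y := by
        intro k
        induction k with
        | zero => intro y; simp
        | succ k ih => intro y; rw [pow_succ', MulAut.mul_apply, hθ6, ih]
      exact this k _
    · rw [hms]
      exact isConj_iff.1 (pow_fix hθv k)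
    · rw [hms]
      obtain ⟨g, hg⟩ := exists_cyc ((θ ^ k) u)
      obtain ⟨g', hg'⟩ := exists_cyc u
      refine ⟨g, g', hg, hg', ?_⟩
      intro hcon
      have e1 := n1_cyc hg
      have e2 := n1_cyc hg'
      rw [n1_conj] at e1 e2
      omega
  apply good hN u v hv S ⟨one_mem_NG, le_rfl⟩ (fun ψ h => h.1) _ R hR
  · rintro h3 ψ ⟨hψ, -⟩ s h4
    by_contra h5
    apply h
    right
    obtain ⟨ms, rfl⟩ := hψ
    obtain ⟨g, hg⟩ := exists_cyc (nielsenProd ms v)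
    obtain ⟨g', hg'⟩ := exists_cyc (nielsenProd ms u)
    refine ⟨h3, ms, g, g', s.1, hg, hg', ?_, ?_⟩
    · rw [← c1_single_eq_zero_iff hg s, c1_conj _ _ (cl_Hs 1 s)]
      exact h4
    · rw [← c1_single_eq_zero_iff hg' s, c1_conj _ _ (cl_Hs 1 s)]
      exact h5
  · rintro ψ ⟨h1, h2⟩ B b hb hb' hle
    exact ⟨mul_mem_NG (wh_mem_NG B b) h1, le_trans hle h2⟩

end

end Helper85.BTE
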