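import Pool.Agent.Helper85.BTE.CompA

/-! Decidability from certificates. -/

set_option autoImplicit false

namespace Helper85.BTE

open FreeGroup Pool.Agent.Helper70.OD

section prim
variable {α : Type} [Primcodable α]

theorem P_ite_eq {β γ : Type} [Primcodable β] [DecidableEq β] [Primcodable γ] {f g : α → β}
    {h k : α → γ} (hf : Primrec f) (hg : Primrec g) (hh : Primrec h) (hk : Primrec k) :
    Primrec (fun a => if f a = g a then h a else k a) :=
  Primrec.ite (Primrec.eq.comp hf hg) hh hk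

theorem P_flatMap {β γ : Type} [Primcodable β] [Primcodable γ] {f : α → List β}
    {g : α → β → List γ} (h : Primrec f) (h' : Primrec (fun p : α × β => g p.1 p.2)) :
    Primrec (fun a => (f a).flatMap (fun b => g a b)) := Primrec.list_flatMap h h'

theorem P_reduce : Primrec (fun w : W => FreeGroup.reduce w) := by
  have h1 : Primrec (fun w : W => w.foldr (fun x (acc : W) =>
      (List.casesOn acc [x] (fun y t => if x.1 = y.1 then (if x.2 = !y.2 then t else x :: y :: t)
        else x :: y :: t) : W)) []) := by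
    refine P_foldr (α := W) (β := ℕ × Bool) (σ := W) (f := fun w => w) (g := fun _ => [])
      (h := fun _ x acc => (List.casesOn acc [x] (fun y t => if x.1 = y.1 then
        (if x.2 = !y.2 then t else x :: y :: t) else x :: y :: t) : W))
      (by fun_prop) (by fun_prop) ?_
    have h2 : Primrec₂ (fun (p : W × ((ℕ × Bool) × W)) (q : (ℕ × Bool) × W) =>
        if p.2.1.1 = q.1.1 then (if p.2.1.2 = !q.1.2 then q.2
        else p.2.1 :: q.1 :: q.2) else p.2.1 :: q.1 :: q.2) := by
      unfold Primrec₂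
      exact P_ite_eq (by fun_prop) (by fun_prop) (P_ite_eq (by fun_prop) (by fun_prop)
        (by fun_prop) (by fun_prop)) (by fun_prop)
    exact Primrec.list_casesOn (f := fun p : W × ((ℕ × Bool) × W) => p.2.2)
      (g := fun p => [p.2.1]) (by fun_prop) (by fun_prop) h2
  refine h1.of_eq fun w => ?_
  induction w with
  | nil => rfl
  | cons x w ih =>
    rw [List.foldr_cons, ih, reduce.cons]
    rcases FreeGroup.reduce w with _ | ⟨y, t⟩
    · rfl
    · simp only
      by_cases h : x.1 = y.1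
      · by_cases h' : x.2 = !y.2
        · simp [h, h']
        · simp [h, h']
      · simp [h]

@[fun_prop] theorem P_nf {f : α → ℕ} {g : α → W} (hf : Primrec f) (hg : Primrec g) :
    Primrec (fun a => nf (f a) (g a)) := by
  unfold nf
  exact P_reduce.comp (by fun_prop)

@[fun_prop] theorem P_cj {f g : α → W} (hf : Primrec f) (hg : Primrec g) :
    Primrec (fun a => cj (f a) (g a)) := by
  unfold cj invRev
  fun_prop

@[fun_prop] theorem P_nielW {n i j : α → ℕ} {e sd : α → Bool} {w : α → W} (hn : Primrec n)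
    (hi : Primrec i) (hj : Primrec j) (he : Primrec e) (hs : Primrec sd) (hw : Primrec w) :
    Primrec (fun a => nielW (n a) (i a) (j a) (e a) (sd a) (w a)) := by
  unfold nielW
  refine P_ite_eq (by fun_prop) (by fun_prop) hw ?_
  refine P_flatMap hw ?_
  unfold nielL
  have hb : Primrec (fun p : α × (ℕ × Bool) => if p.2.2 = true then e p.1 else !(e p.1)) :=
    P_ite_eq (by fun_prop) (by fun_prop) (by fun_prop) (by fun_prop)
  refine P_ite_eq (by fun_prop) (by fun_prop) ?_ (by fun_prop)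
  refine P_ite_eq (by fun_prop) (by fun_prop) ?_ ?_
  · fun_prop
  · fun_prop

@[fun_prop] theorem P_prodW {n : α → ℕ} {ms : α → List (ℕ × ℕ × Bool × Bool)} {w : α → W}
    (hn : Primrec n) (hm : Primrec ms) (hw : Primrec w) :
    Primrec (fun a => prodW (n a) (ms a) (w a)) := by
  unfold prodW
  fun_prop

@[fun_prop] theorem P_es {n k : α → ℕ} {w : α → W}
    (hn : Primrec n) (hm : Primrec k) (hw : Primrec w) :
    Primrec (fun a => es (n a) (k a) (w a)) := by
  unfold es
  refine P_foldr hw (by fun_prop) ?_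
  refine P_ite_eq (by fun_prop) (by fun_prop) ?_ (by fun_prop)
  have hb : Primrec (fun p : α × ((ℕ × Bool) × ℕ) => if p.2.1.2 = true then 1 else 5) :=
    P_ite_eq (by fun_prop) (by fun_prop) (by fun_prop) (by fun_prop)
  fun_prop

end prim

theorem RE_CycW : RE CycW := by
  unfold CycW
  fun_prop

theorem RE_CycW' {α : Type} [Primcodable α] {f : α → W} (hf : Primrec f) :
    RE (fun a => CycW (f a)) := RE.comp RE_CycW hf

attribute [local fun_prop] RE_CycW'

/-- both booleans -/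
def bools : List Bool := [true, false]

/-- word-level certificate for domination -/
def DomW (p : ℕ × W × W) : Prop :=
  ∃ (P : List (W × W)) (G : List W),
    LAll P (fun ab => CycW (nf p.1 ab.1) ∧ CycW (nf p.1 ab.2)) ∧
    LEx P (fun ab => LEx G fun g => LEx G fun h =>
      nf p.1 (cj g p.2.1) = nf p.1 ab.1 ∧ nf p.1 (cj h p.2.2) = nf p.1 ab.2) ∧
    LAll P (fun ab => BAll (p.1 + 1) fun i => BAll (p.1 + 1) fun j => i = j ∨
      LAll bools fun e => LAll bools fun sd =>
      (LEx G fun h => CycW (nf p.1 (cj h (nielW p.1 i j e sd ab.2))) ∧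
        3 * (nf p.1 p.2.2).length < (nf p.1 (cj h (nielW p.1 i j e sd ab.2))).length) ∨
      (LEx P fun ab' => LEx G fun g => LEx G fun h =>
        nf p.1 (cj g (nielW p.1 i j e sd ab.1)) = nf p.1 ab'.1 ∧
        nf p.1 (cj h (nielW p.1 i j e sd ab.2)) = nf p.1 ab'.2)) ∧
    (p.1 < 2 ∨ LAll P fun ab => BAll (p.1 + 1) fun i =>
      (LEx (nf p.1 ab.2) fun x => x.1 = i) ∨ LAll (nf p.1 ab.1) fun x => x.1 ≠ i)

/-- word-level certificate for non-domination -/
def NonW (p : ℕ × W × W) : Prop :=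
  (∃ ms : List (ℕ × ℕ × Bool × Bool),
    (BAll (p.1 + 1) fun i => BAll (p.1 + 1) fun k =>
      es p.1 k (prodW p.1 ms [(i, true)]) = es p.1 k [(i, true)]) ∧
    (∃ g, nf p.1 (cj g (prodW p.1 ms p.2.2)) = nf p.1 p.2.2) ∧
    (∃ g h, CycW (nf p.1 (cj g (prodW p.1 ms p.2.1))) ∧ CycW (nf p.1 (cj h p.2.1)) ∧
      (nf p.1 (cj g (prodW p.1 ms p.2.1))).length ≠ (nf p.1 (cj h p.2.1)).length)) ∨
  (2 ≤ p.1 ∧ ∃ (ms : List (ℕ × ℕ × Bool × Bool)) (g h : W), ∃ i : ℕ, i < p.1 + 1 ∧
    CycW (nf p.1 (cj g (prodW p.1 ms p.2.2))) ∧ CycW (nf p.1 (cj h (prodW p.1 ms p.2.1))) ∧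
    (LAll (nf p.1 (cj g (prodW p.1 ms p.2.2))) fun x => x.1 ≠ i) ∧
    (LEx (nf p.1 (cj h (prodW p.1 ms p.2.1))) fun x => x.1 = i))

theorem RE_DomW : RE DomW := by
  unfold DomW
  fun_prop

theorem RE_NonW : RE NonW := by
  unfold NonW
  fun_prop

theorem fm_val {n : ℕ} (i : Fin (n + 1)) : fm n i.val = i := Fin.ext (Nat.mod_eq_of_lt i.2)

theorem exists_ev {n : ℕ} {R : FreeGroup (Fin (n + 1)) → Prop} :
    (∃ g, R g) ↔ ∃ g : W, R (ev n g) :=
  ⟨fun ⟨g, h⟩ => ⟨toW g, by rwa [ev_toW]⟩, fun ⟨_, h⟩ => ⟨_, h⟩⟩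

theorem exists_list {α β : Type} {f : α → β} (hf : Function.Surjective f) {R : List β → Prop} :
    (∃ l, R l) ↔ ∃ l : List α, R (l.map f) :=
  ⟨fun ⟨l, h⟩ => by
    obtain ⟨l', rfl⟩ := (List.map_surjective_iff.2 hf) l
    exact ⟨l', h⟩, fun ⟨_, h⟩ => ⟨_, h⟩⟩

theorem ev_pair_surj (n : ℕ) : Function.Surjective
    (fun ab : W × W => (ev n ab.1, ev n ab.2)) := by
  rintro ⟨a, b⟩
  exact ⟨(toW a, toW b), by simp [ev_toW]⟩

theorem ball_map {α β : Type} {f : α → β} {l : List α} {R : β → Prop} :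
    (∀ b ∈ l.map f, R b) ↔ LAll l (fun a => R (f a)) := by
  unfold LAll
  simp

theorem bex_map {α β : Type} {f : α → β} {l : List α} {R : β → Prop} :
    (∃ b ∈ l.map f, R b) ↔ LEx l (fun a => R (f a)) := by
  unfold LEx
  simp

theorem lall_congr {α : Type} {l : List α} {R Q : α → Prop} (h : ∀ a, R a ↔ Q a) :
    LAll l R ↔ LAll l Q := forall₂_congr fun a _ => h a

theorem lex_congr {α : Type} {l : List α} {R Q : α → Prop} (h : ∀ a, R a ↔ Q a) :
    LEx l R ↔ LEx l Q := exists_congr fun a => and_congr Iff.rfl (h a)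

theorem ev_cj_eq (n : ℕ) (g a b : W) :
    ev n g * ev n a * (ev n g)⁻¹ = ev n b ↔ nf n (cj g a) = nf n b := by
  rw [← ev_cj, ev_eq_iff]

theorem forall_fin {n : ℕ} {R : Fin (n + 1) → Prop} :
    (∀ i, R i) ↔ BAll (n + 1) (fun i => R (fm n i)) := by
  unfold BAll
  constructor
  · intro h i _
    exact h _
  · intro h i
    have := h i.1 i.2
    simp only [fm_val] at this
    exact this

theorem forall_bool {R : Bool → Prop} : (∀ b, R b) ↔ LAll bools R := by
  unfold LAll bools
  constructor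
  · intro h b _
    exact h b
  · intro h b
    exact h b (by cases b <;> simp)

theorem ball_congr {n : ℕ} {R Q : ℕ → Prop} (h : ∀ a < n, (R a ↔ Q a)) :
    BAll n R ↔ BAll n Q := forall₂_congr fun a ha => h a ha

theorem fm_ne_imp {n i j : ℕ} (hi : i < n + 1) (hj : j < n + 1) {P : Prop} :
    (fm n i ≠ fm n j → P) ↔ (i = j ∨ P) := by
  have : fm n i = fm n j ↔ i = j := by
    unfold fm
    rw [Fin.ext_iff]
    simp only
    rw [Nat.mod_eq_of_lt hi, Nat.mod_eq_of_lt hj]
  rw [ne_eq, this, or_iff_not_imp_left]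

theorem fm_val' {n i : ℕ} (hi : i < n + 1) : (fm n i).val = i := Nat.mod_eq_of_lt hi

theorem absent_fm {n i : ℕ} (hi : i < n + 1) (a : W) :
    Absent (fm n i) (ev n a) ↔ LAll (nf n a) (fun x => x.1 ≠ i) := by
  rw [absent_ev, fm_val' hi]
  rfl

theorem not_lall {n i : ℕ} (a : W) :
    (¬ LAll (nf n a) (fun x => x.1 ≠ i)) ↔ LEx (nf n a) (fun x => x.1 = i) := by
  unfold LAll LEx
  constructor
  · intro h
    by_contra h'
    exact h fun x hx hxi => h' ⟨x, hx, hxi⟩
  · rintro ⟨x, hx, hxi⟩ h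
    exact h x hx hxi

theorem domCert_ev (n : ℕ) (u v : W) : DomCert (ev n u) (ev n v) ↔ DomW (n, u, v) := by
  unfold DomCert DomW
  rw [exists_list (ev_pair_surj n)]
  refine exists_congr fun P => ?_
  rw [exists_list (f := ev n) ev_surj]
  refine exists_congr fun G => ?_
  refine and_congr ?_ (and_congr ?_ (and_congr ?_ ?_))
  · rw [ball_map]
    refine lall_congr fun ab => ?_
    rw [cyc_ev, cyc_ev]
  · rw [bex_map]
    refine lex_congr fun ab => ?_
    rw [bex_map]
    refine lex_congr fun g => ?_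
    rw [bex_map]
    refine lex_congr fun h => ?_
    rw [ev_cj_eq, ev_cj_eq]
  · rw [ball_map]
    refine lall_congr fun ab => ?_
    rw [forall_fin]
    refine ball_congr fun i hi => ?_
    rw [forall_fin]
    refine ball_congr fun j hj => ?_
    rw [fm_ne_imp hi hj]
    refine or_congr Iff.rfl ?_
    rw [forall_bool]
    refine lall_congr fun e => ?_
    rw [forall_bool]
    refine lall_congr fun sd => ?_
    refine or_congr ?_ ?_
    · rw [bex_map]
      refine lex_congr fun h => ?_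
      rw [← ev_nielW, ← ev_cj, cyc_ev, norm_ev, norm_ev]
    · rw [bex_map]
      refine lex_congr fun ab' => ?_
      rw [bex_map]
      refine lex_congr fun g => ?_
      rw [bex_map]
      refine lex_congr fun h => ?_
      rw [← ev_nielW, ← ev_nielW, ev_cj_eq, ev_cj_eq]
  · have h2 : (3 ≤ n + 1) ↔ ¬ (n < 2) := by omega
    rw [h2, ← or_iff_not_imp_left]
    refine or_congr Iff.rfl ?_
    rw [ball_map]
    refine lall_congr fun ab => ?_
    rw [forall_fin]
    refine ball_congr fun i hi => ?_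
    rw [absent_fm hi, absent_fm hi, ← not_lall, ← imp_iff_not_or]

theorem nonDomCert_ev (n : ℕ) (u v : W) : NonDomCert (ev n u) (ev n v) ↔ NonW (n, u, v) := by
  unfold NonDomCert NonW
  refine or_congr ?_ (and_congr (by simp) ?_)
  · rw [exists_list (mv_surj n)]
    refine exists_congr fun ms => ?_
    refine and_congr ?_ (and_congr ?_ ?_)
    · rw [forall_fin]
      refine ball_congr fun i hi => ?_
      have h1 : (of (fm n i) : FreeGroup (Fin (n + 1))) = ev n [(i, true)] := rfl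
      rw [h1, ← ev_prodW, abMod_eq_iff]
      rfl
    · rw [exists_ev]
      refine exists_congr fun g => ?_
      rw [← ev_prodW, ev_cj_eq]
    · rw [exists_ev]
      refine exists_congr fun g => ?_
      rw [exists_ev]
      refine exists_congr fun h => ?_
      rw [← ev_prodW, ← ev_cj, ← ev_cj, cyc_ev, cyc_ev, norm_ev, norm_ev]
  · rw [exists_list (mv_surj n)]
    refine exists_congr fun ms => ?_
    rw [exists_ev]
    refine exists_congr fun g => ?_
    rw [exists_ev]
    refine exists_congr fun h => ?_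
    rw [← ev_prodW, ← ev_prodW, ← ev_cj, ← ev_cj, cyc_ev, cyc_ev]
    constructor
    · rintro ⟨i, h1, h2, h3, h4⟩
      rw [← fm_val i, absent_fm i.2] at h3
      rw [← fm_val i, absent_fm i.2, not_lall] at h4
      exact ⟨i.1, i.2, h1, h2, h3, h4⟩
    · rintro ⟨i, hi, h1, h2, h3, h4⟩
      refine ⟨fm n i, h1, h2, ?_, ?_⟩
      · rw [absent_fm hi]; exact h3
      · rw [absent_fm hi, not_lall]; exact h4

theorem computablePred_of_RE {α : Type} [Primcodable α] {R : α → Prop} (h : RE R)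
    (h' : RE (fun a => ¬ R a)) : ComputablePred R := by
  classical
  refine ⟨fun a => Classical.propDecidable (R a), ?_⟩
  refine computable_of_RE ?_
  have h1 : RE (fun p : α × Bool => (R p.1 ∧ p.2 = true) ∨ (¬ R p.1 ∧ p.2 = false)) := by
    refine RE.or (RE.and (RE.comp (f := fun p : α × Bool => p.1) h (by fun_prop)) (by fun_prop))
      (RE.and (RE.comp (R := fun a => ¬ R a) (f := fun p : α × Bool => p.1) h' (by fun_prop))
        (by fun_prop))
  refine h1.of_eq fun p => ?_
  rcases p with ⟨a, b⟩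
  simp only
  by_cases hR : R a
  · cases b <;> simp [hR]
  · cases b <;> simp [hR]

/-- Decidability from the two kinds of certificates. -/
theorem computable_of_certs
    (D : ∀ n : ℕ, FreeGroup (Fin (n+1)) → FreeGroup (Fin (n+1)) → Prop)
    (h1 : ∀ n (u v : FreeGroup (Fin (n+1))), D n u v ↔
       (v = 1 ∧ u = 1) ∨ (n = 0 ∧ v ≠ 1) ∨ (1 ≤ n ∧ v ≠ 1 ∧ DomCert u v))
    (h2 : ∀ n (u v : FreeGroup (Fin (n+1))), ¬ D n u v ↔
       (v = 1 ∧ u ≠ 1) ∨ (1 ≤ n ∧ v ≠ 1 ∧ NonDomCert u v)) :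
    ComputablePred (fun p : ℕ × List (ℕ × Bool) × List (ℕ × Bool) =>
      D p.1 (ev p.1 p.2.1) (ev p.1 p.2.2) ∧ D p.1 (ev p.1 p.2.2) (ev p.1 p.2.1)) := by
  have e1 : RE (fun p : ℕ × W × W => D p.1 (ev p.1 p.2.1) (ev p.1 p.2.2)) := by
    have : RE (fun p : ℕ × W × W => (nf p.1 p.2.2 = [] ∧ nf p.1 p.2.1 = []) ∨
        (p.1 = 0 ∧ nf p.1 p.2.2 ≠ []) ∨ (1 ≤ p.1 ∧ nf p.1 p.2.2 ≠ [] ∧ DomW p)) := by
      refine RE.or (by fun_prop) (RE.or (by fun_prop) (RE.and (by fun_prop)
        (RE.and (by fun_prop) RE_DomW)))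
    refine this.of_eq fun p => ?_
    rw [h1, ev_eq_one, ev_eq_one, ne_eq, ev_eq_one, domCert_ev]
  have e2 : RE (fun p : ℕ × W × W => ¬ D p.1 (ev p.1 p.2.1) (ev p.1 p.2.2)) := by
    have : RE (fun p : ℕ × W × W => (nf p.1 p.2.2 = [] ∧ nf p.1 p.2.1 ≠ []) ∨
        (1 ≤ p.1 ∧ nf p.1 p.2.2 ≠ [] ∧ NonW p)) := by
      refine RE.or (by fun_prop) (RE.and (by fun_prop)
        (RE.and (by fun_prop) RE_NonW))
    refine this.of_eq fun p => ?_
    rw [h2, ev_eq_one, ne_eq, ev_eq_one, ne_eq, ev_eq_one, nonDomCert_ev]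
  have sw : Primrec (fun p : ℕ × W × W => ((p.1, p.2.2, p.2.1) : ℕ × W × W)) := by fun_prop
  have e3 := RE.comp (f := fun p : ℕ × W × W => ((p.1, p.2.2, p.2.1) : ℕ × W × W)) e1 sw
  have e4 := RE.comp (f := fun p : ℕ × W × W => ((p.1, p.2.2, p.2.1) : ℕ × W × W)) e2 sw
  refine computablePred_of_RE (RE.and e1 e3) ?_
  refine (RE.or e2 e4).of_eq fun p => ?_
  exact not_and_or

end Helper85.BTE
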