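import Mathlib

/-!
Shared definitions for the decidability of bounded translation equivalence (MP_35732b_al, S01159).
-/

set_option autoImplicit false

namespace Helper85.BTE

open FreeGroup

/-- The elementary Nielsen map on a free generator: `x_i` goes to `x_i x_j^e` (`sd = true`) or to
`x_j^e x_i` (`sd = false`); all other generators are fixed. -/
def nielsenGen {X : Type} [DecidableEq X] (i j : X) (e sd : Bool) (k : X) : FreeGroup X :=
  if k = i then (if sd then FreeGroup.mk [(i, true), (j, e)] else FreeGroup.mk [(j, e), (i, true)])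
  else FreeGroup.of k

/-- The elementary Nielsen endomorphism. -/
def nielsenHom {X : Type} [DecidableEq X] (i j : X) (e sd : Bool) : FreeGroup X →* FreeGroup X :=
  FreeGroup.lift (nielsenGen i j e sd)

theorem nielsenHom_comp {X : Type} [DecidableEq X] {i j : X} (h : i ≠ j) (e sd : Bool) :
    (nielsenHom i j (!e) sd).comp (nielsenHom i j e sd) = MonoidHom.id _ := by
  ext k
  have hj : nielsenHom i j (!e) sd (FreeGroup.mk [(j, e)]) = FreeGroup.mk [(j, e)] := by
    rcases e with _ | _
    · have : (FreeGroup.mk [(j, false)] : FreeGroup X) = (FreeGroup.of j)⁻¹ := rfl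
      rw [this, _root_.map_inv]
      simp [nielsenHom, nielsenGen, Ne.symm h]
    · have : (FreeGroup.mk [(j, true)] : FreeGroup X) = (FreeGroup.of j) := rfl
      rw [this]
      simp [nielsenHom, nielsenGen, Ne.symm h]
  have hi : nielsenHom i j (!e) sd (FreeGroup.mk [(i, true)]) =
      (if sd then FreeGroup.mk [(i, true), (j, !e)] else FreeGroup.mk [(j, !e), (i, true)]) := by
    have : (FreeGroup.mk [(i, true)] : FreeGroup X) = (FreeGroup.of i) := rfl
    rw [this]
    simp [nielsenHom, nielsenGen]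
  simp only [MonoidHom.comp_apply, MonoidHom.id_apply]
  by_cases hk : k = i
  · subst hk
    have h0 : nielsenHom k j e sd (FreeGroup.of k) =
      (if sd then FreeGroup.mk [(k, true), (j, e)] else FreeGroup.mk [(j, e), (k, true)]) := by
      simp [nielsenHom, nielsenGen]
    rw [h0]
    rcases sd with _ | _
    · have h2 : (FreeGroup.mk [(j, e), (k, true)] : FreeGroup X) =
        FreeGroup.mk [(j, e)] * FreeGroup.mk [(k, true)] := by simp
      simp only [Bool.false_eq_true, if_false] at hi ⊢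
      rw [h2, _root_.map_mul, hi, hj]
      have h3 : (FreeGroup.mk [(j, !e), (k, true)] : FreeGroup X) =
        FreeGroup.mk [(j, !e)] * FreeGroup.mk [(k, true)] := by simp
      have h4 : (FreeGroup.mk [(j, !e)] : FreeGroup X) = (FreeGroup.mk [(j, e)])⁻¹ := by
        simp [FreeGroup.invRev]
      rw [h3, h4, mul_inv_cancel_left]
      rfl
    · have h2 : (FreeGroup.mk [(k, true), (j, e)] : FreeGroup X) =
        FreeGroup.mk [(k, true)] * FreeGroup.mk [(j, e)] := by simp
      simp only [if_true] at hi ⊢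
      rw [h2, _root_.map_mul, hi, hj]
      have h3 : (FreeGroup.mk [(k, true), (j, !e)] : FreeGroup X) =
        FreeGroup.mk [(k, true)] * FreeGroup.mk [(j, !e)] := by simp
      have h4 : (FreeGroup.mk [(j, !e)] : FreeGroup X) = (FreeGroup.mk [(j, e)])⁻¹ := by
        simp [FreeGroup.invRev]
      rw [h3, h4, inv_mul_cancel_right]
      rfl
  · simp [nielsenHom, nielsenGen, hk]

/-- The elementary Nielsen automorphism (identity when `i = j`). -/
def nielsen {X : Type} [DecidableEq X] (i j : X) (e sd : Bool) : MulAut (FreeGroup X) :=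
  if h : i = j then 1 else
    MonoidHom.toMulEquiv (nielsenHom i j e sd) (nielsenHom i j (!e) sd)
      (nielsenHom_comp h e sd)
      (by
        have := nielsenHom_comp h (!e) sd
        rwa [Bool.not_not] at this)

/-- The product of a list of elementary Nielsen automorphisms. -/
def nielsenProd {X : Type} [DecidableEq X] (ms : List (X × X × Bool × Bool)) :
    MulAut (FreeGroup X) :=
  (ms.map fun m => nielsen m.1 m.2.1 m.2.2.1 m.2.2.2).prod

/-- The word of `a` is cyclically reduced. -/
def Cyc {X : Type} [DecidableEq X] (a : FreeGroup X) : Prop :=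
  FreeGroup.IsCyclicallyReduced a.toWord

/-- The generator `i` does not occur in the reduced word of `a`. -/
def Absent {X : Type} [DecidableEq X] (i : X) (a : FreeGroup X) : Prop :=
  ∀ x ∈ a.toWord, x.1 ≠ i

/-- The exponent sums modulo `m`. -/
def abMod {X : Type} [DecidableEq X] (m : ℕ) :
    FreeGroup X →* Multiplicative (X → ZMod m) :=
  FreeGroup.lift fun i => Multiplicative.ofAdd (Pi.single i 1)

/-- The (finite) certificate for domination. -/
def DomCert {N : ℕ} (u v : FreeGroup (Fin N)) : Prop :=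
  ∃ (P : List (FreeGroup (Fin N) × FreeGroup (Fin N))) (G : List (FreeGroup (Fin N))),
    (∀ ab ∈ P, Cyc ab.1 ∧ Cyc ab.2) ∧
    (∃ ab ∈ P, ∃ g ∈ G, ∃ h ∈ G, g * u * g⁻¹ = ab.1 ∧ h * v * h⁻¹ = ab.2) ∧
    (∀ ab ∈ P, ∀ i j : Fin N, i ≠ j → ∀ e sd : Bool,
      (∃ h ∈ G, Cyc (h * nielsen i j e sd ab.2 * h⁻¹) ∧
        3 * norm v < norm (h * nielsen i j e sd ab.2 * h⁻¹)) ∨
      (∃ ab' ∈ P, ∃ g ∈ G, ∃ h ∈ G, g * nielsen i j e sd ab.1 * g⁻¹ = ab'.1 ∧
        h * nielsen i j e sd ab.2 * h⁻¹ = ab'.2)) ∧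
    (3 ≤ N → ∀ ab ∈ P, ∀ i : Fin N, Absent i ab.2 → Absent i ab.1)

/-- The (finite) certificate for non-domination. -/
def NonDomCert {N : ℕ} (u v : FreeGroup (Fin N)) : Prop :=
  (∃ ms : List (Fin N × Fin N × Bool × Bool),
    (∀ i, abMod 6 (nielsenProd ms (of i)) = abMod 6 (of i)) ∧
    (∃ g, g * nielsenProd ms v * g⁻¹ = v) ∧
    (∃ g h, Cyc (g * nielsenProd ms u * g⁻¹) ∧ Cyc (h * u * h⁻¹) ∧
      norm (g * nielsenProd ms u * g⁻¹) ≠ norm (h * u * h⁻¹))) ∨
  (3 ≤ N ∧ ∃ (ms : List (Fin N × Fin N × Bool × Bool)) (g h : FreeGroup (Fin N)) (i : Fin N),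
    Cyc (g * nielsenProd ms v * g⁻¹) ∧ Cyc (h * nielsenProd ms u * h⁻¹) ∧
    Absent i (g * nielsenProd ms v * g⁻¹) ∧ ¬ Absent i (h * nielsenProd ms u * h⁻¹))

/-- Interpretation of a word over `ℕ × Bool` in the free group on `Fin (n+1)` (same expression as in
the frozen statement). -/
def ev (n : ℕ) (w : List (ℕ × Bool)) : FreeGroup (Fin (n + 1)) :=
  FreeGroup.mk (w.map (fun x =>
    ((⟨x.1 % (n + 1), Nat.mod_lt x.1 (Nat.succ_pos n)⟩ : Fin (n + 1)), x.2)))

end Helper85.BTE
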