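import Pool.Agent.Helper70.OD.Rec
import Pool.Agent.Helper85.BTE.Spec

/-! Word-level versions of the operations of `Spec`. -/

set_option autoImplicit false

namespace Helper85.BTE

open FreeGroup

/-- words over `ℕ × Bool` -/
abbrev W := List (ℕ × Bool)

/-- normal form -/
def nf (n : ℕ) (w : W) : W := FreeGroup.reduce (w.map fun x => (x.1 % (n + 1), x.2))

/-- the reduced word, with letters in `ℕ` -/
def toW {n : ℕ} (a : FreeGroup (Fin (n + 1))) : W := a.toWord.map fun x => (x.1.val, x.2)

theorem reduce_map_inj {α β : Type} [DecidableEq α] [DecidableEq β] {f : α → β}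
    (hf : Function.Injective f) (L : List (α × Bool)) :
    FreeGroup.reduce (L.map fun x => (f x.1, x.2)) =
      (FreeGroup.reduce L).map fun x => (f x.1, x.2) := by
  induction L with
  | nil => rfl
  | cons a L ih =>
    rw [List.map_cons, reduce.cons, reduce.cons, ih]
    rcases FreeGroup.reduce L with _ | ⟨b, t⟩
    · rfl
    · simp only [List.map_cons]
      by_cases h : a.1 = b.1 ∧ a.2 = !b.2
      · rw [if_pos h, if_pos ⟨congrArg f h.1, h.2⟩]
      · rw [if_neg h, if_neg (fun h' => h ⟨hf h'.1, h'.2⟩)]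
        rfl

theorem toW_ev (n : ℕ) (w : W) : toW (ev n w) = nf n w := by
  unfold toW ev nf
  rw [toWord_mk, ← reduce_map_inj Fin.val_injective]
  rw [List.map_map]
  rfl

theorem toW_injective {n : ℕ} : Function.Injective (toW (n := n)) := by
  intro a b h
  apply toWord_injective
  unfold toW at h
  refine (List.map_injective_iff.2 ?_) h
  rintro ⟨x, s⟩ ⟨y, t⟩ h
  simp only [Prod.mk.injEq] at h ⊢
  exact ⟨Fin.ext h.1, h.2⟩

theorem ev_eq_iff {n : ℕ} {w w' : W} : ev n w = ev n w' ↔ nf n w = nf n w' := by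
  rw [← toW_ev, ← toW_ev]
  exact ⟨congrArg _, fun h => toW_injective h⟩

theorem ev_toW {n : ℕ} (a : FreeGroup (Fin (n + 1))) : ev n (toW a) = a := by
  unfold ev toW
  rw [List.map_map]
  have : ((fun x : ℕ × Bool =>
      ((⟨x.1 % (n + 1), Nat.mod_lt x.1 (Nat.succ_pos n)⟩ : Fin (n + 1)), x.2)) ∘
      fun x : Fin (n + 1) × Bool => (x.1.val, x.2)) = id := by
    funext x
    rcases x with ⟨x, s⟩
    simp only [Function.comp_apply, id_eq, Prod.mk.injEq, and_true]
    exact Fin.ext (Nat.mod_eq_of_lt x.2)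
  rw [this, List.map_id, mk_toWord]

theorem ev_surj {n : ℕ} (a : FreeGroup (Fin (n + 1))) : ∃ w, ev n w = a := ⟨_, ev_toW a⟩

theorem ev_append (n : ℕ) (a b : W) : ev n (a ++ b) = ev n a * ev n b := by
  unfold ev; rw [List.map_append, mul_mk]

theorem ev_nil (n : ℕ) : ev n [] = 1 := rfl

theorem ev_cons (n : ℕ) (x : ℕ × Bool) (b : W) : ev n (x :: b) = ev n [x] * ev n b :=
  ev_append n [x] b

theorem ev_inv (n : ℕ) (a : W) : ev n (invRev a) = (ev n a)⁻¹ := by
  unfold ev
  rw [inv_mk]
  congr 1
  unfold invRev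
  simp [List.map_reverse, Function.comp_def]

/-- conjugate word -/
def cj (g u : W) : W := g ++ (u ++ invRev g)

theorem ev_cj (n : ℕ) (g u : W) : ev n (cj g u) = ev n g * ev n u * (ev n g)⁻¹ := by
  unfold cj
  rw [ev_append, ev_append, ev_inv, mul_assoc]

theorem norm_ev (n : ℕ) (a : W) : FreeGroup.norm (ev n a) = (nf n a).length := by
  rw [← toW_ev]; unfold toW FreeGroup.norm; simp

theorem ev_eq_one (n : ℕ) (a : W) : ev n a = 1 ↔ nf n a = [] := by
  rw [← ev_nil n, ev_eq_iff]
  rfl

/-- first and last letter do not cancel -/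
def CycW (L : W) : Prop :=
  L = [] ∨ ∃ a b : ℕ × Bool, L.reverse[0]? = some a ∧ L[0]? = some b ∧ (a.1 ≠ b.1 ∨ a.2 = b.2)

theorem cyc_ev (n : ℕ) (a : W) : Cyc (ev n a) ↔ CycW (nf n a) := by
  have h1 : Cyc (ev n a) ↔ ∀ x ∈ (ev n a).toWord.getLast?, ∀ y ∈ (ev n a).toWord.head?,
      x.1 = y.1 → x.2 = y.2 := by
    unfold Cyc IsCyclicallyReduced
    exact ⟨fun h => h.2, fun h => ⟨isReduced_toWord, h⟩⟩
  rw [h1, ← toW_ev]
  unfold CycW toW
  generalize (ev n a).toWord = L
  rw [← List.map_reverse, ← List.head?_eq_getElem?, ← List.head?_eq_getElem?,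
    List.head?_map, List.head?_map, List.head?_reverse]
  rcases L with _ | ⟨y, L⟩
  · simp
  · have h2 : ((y :: L).getLast?) = some ((y :: L).getLast (by simp)) := by
      rw [List.getLast?_eq_getLast_of_ne_nil]
    rw [h2]
    generalize (y :: L).getLast (by simp) = x
    simp only [List.head?_cons, Option.mem_def, Option.some.injEq, Option.map_some, List.map_cons,
      reduceCtorEq, false_or]
    constructor
    · intro h
      refine ⟨_, _, rfl, rfl, ?_⟩
      by_cases h3 : x.1 = y.1
      · exact Or.inr (h x rfl y rfl h3)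
      · exact Or.inl fun h4 => h3 (Fin.ext h4)
    · rintro ⟨_, _, rfl, rfl, h⟩ _ rfl _ rfl h3
      rcases h with h | h
      · exact absurd (congrArg Fin.val h3) h
      · exact h

theorem absent_ev {n : ℕ} (i : Fin (n + 1)) (a : W) :
    Absent i (ev n a) ↔ ∀ x ∈ nf n a, x.1 ≠ i.val := by
  rw [← toW_ev]
  unfold Absent toW
  simp only [List.mem_map, forall_exists_index, and_imp, forall_apply_eq_imp_iff₂]
  refine forall₂_congr fun x _ => ?_
  rw [not_iff_not]
  exact Fin.ext_iff

/-- image of a letter under an elementary Nielsen map (`i`, `j` already reduced) -/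
def nielL (n i j : ℕ) (e sd : Bool) (x : ℕ × Bool) : W :=
  if x.1 % (n + 1) = i % (n + 1) then
    (if x.2 = sd then [(i, x.2), (j, if x.2 then e else !e)]
      else [(j, if x.2 then e else !e), (i, x.2)])
  else [x]

/-- image of a word under an elementary Nielsen map -/
def nielW (n i j : ℕ) (e sd : Bool) (w : W) : W :=
  if i % (n + 1) = j % (n + 1) then w else w.flatMap (nielL n i j e sd)

/-- the class of a natural number in `Fin (n+1)` -/
def fm (n i : ℕ) : Fin (n + 1) := ⟨i % (n + 1), Nat.mod_lt i (Nat.succ_pos n)⟩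

theorem ev_single (n : ℕ) (x : ℕ × Bool) : ev n [x] = FreeGroup.mk [(fm n x.1, x.2)] := rfl

theorem nielsen_apply {X : Type} [DecidableEq X] {i j : X} (h : i ≠ j) (e sd : Bool)
    (a : FreeGroup X) : nielsen i j e sd a = nielsenHom i j e sd a := by
  unfold nielsen
  rw [dif_neg h]
  rfl

theorem nielW_single (n i j : ℕ) (e sd : Bool) (x : ℕ × Bool) :
    ev n (nielL n i j e sd x) = nielsenHom (fm n i) (fm n j) e sd (ev n [x]) := by
  have h2 : ∀ k : Fin (n + 1), (FreeGroup.mk [(k, true)] : FreeGroup (Fin (n + 1))) =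
      FreeGroup.of k := fun _ => rfl
  have h3 : ∀ k : Fin (n + 1), (FreeGroup.mk [(k, false)] : FreeGroup (Fin (n + 1))) =
      (FreeGroup.of k)⁻¹ := fun _ => rfl
  have h4 : fm n x.1 = fm n i ↔ x.1 % (n + 1) = i % (n + 1) := by
    unfold fm; exact Fin.ext_iff
  have h5 : ∀ y z : ℕ × Bool, ev n [y, z] = FreeGroup.mk [(fm n y.1, y.2), (fm n z.1, z.2)] :=
    fun _ _ => rfl
  rcases x with ⟨x, s⟩
  unfold nielL
  simp only at h4 ⊢
  by_cases hx : x % (n + 1) = i % (n + 1)
  · rw [if_pos hx, ev_single]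
    simp only
    rw [h4.2 hx]
    rcases s with _ | _
    · rw [h3, _root_.map_inv]
      unfold nielsenHom
      rw [lift_apply_of]
      unfold nielsenGen
      rw [if_pos rfl]
      rcases sd with _ | _ <;> rcases e with _ | _ <;> simp [h5, invRev]
    · rw [h2]
      unfold nielsenHom
      rw [lift_apply_of]
      unfold nielsenGen
      rw [if_pos rfl]
      rcases sd with _ | _ <;> rcases e with _ | _ <;> simp [h5]
  · rw [if_neg hx, ev_single]
    have hx' : fm n x ≠ fm n i := fun h => hx (h4.1 h)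
    rcases s with _ | _
    · simp only
      rw [h3, _root_.map_inv]
      unfold nielsenHom
      rw [lift_apply_of]
      unfold nielsenGen
      rw [if_neg hx']
    · simp only
      rw [h2]
      unfold nielsenHom
      rw [lift_apply_of]
      unfold nielsenGen
      rw [if_neg hx']

theorem ev_nielW (n i j : ℕ) (e sd : Bool) (w : W) :
    ev n (nielW n i j e sd w) = nielsen (fm n i) (fm n j) e sd (ev n w) := by
  have h4 : fm n i = fm n j ↔ i % (n + 1) = j % (n + 1) := by
    unfold fm; exact Fin.ext_iff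
  unfold nielW
  by_cases h : i % (n + 1) = j % (n + 1)
  · rw [if_pos h]
    unfold nielsen
    rw [dif_pos (h4.2 h)]
    rfl
  · rw [if_neg h, nielsen_apply (fun h' => h (h4.1 h'))]
    induction w with
    | nil => simp [ev_nil]
    | cons x w ih =>
      rw [List.flatMap_cons, ev_append, ih, ev_cons n x w, _root_.map_mul, nielW_single]

/-- word-level product of elementary Nielsen maps -/
def prodW (n : ℕ) (ms : List (ℕ × ℕ × Bool × Bool)) (w : W) : W :=
  ms.foldr (fun m acc => nielW n m.1 m.2.1 m.2.2.1 m.2.2.2 acc) w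

/-- interpretation of a move -/
def mv (n : ℕ) (m : ℕ × ℕ × Bool × Bool) : Fin (n + 1) × Fin (n + 1) × Bool × Bool :=
  (fm n m.1, fm n m.2.1, m.2.2.1, m.2.2.2)

theorem mv_surj (n : ℕ) : Function.Surjective (mv n) := by
  rintro ⟨i, j, e, sd⟩
  refine ⟨(i.val, j.val, e, sd), ?_⟩
  unfold mv fm
  simp only [Prod.mk.injEq, and_true]
  exact ⟨Fin.ext (Nat.mod_eq_of_lt i.2), Fin.ext (Nat.mod_eq_of_lt j.2)⟩

theorem ev_prodW (n : ℕ) (ms : List (ℕ × ℕ × Bool × Bool)) (w : W) :
    ev n (prodW n ms w) = nielsenProd (ms.map (mv n)) (ev n w) := by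
  induction ms with
  | nil => rfl
  | cons m ms ih =>
    have h1 : prodW n (m :: ms) w = nielW n m.1 m.2.1 m.2.2.1 m.2.2.2 (prodW n ms w) := rfl
    rw [h1, ev_nielW, ih]
    unfold nielsenProd
    rw [List.map_cons, List.map_cons, List.prod_cons]
    rfl

/-- exponent sum modulo 6 -/
def es (n k : ℕ) (w : W) : ℕ :=
  w.foldr (fun x acc => if x.1 % (n + 1) = k then (acc + (if x.2 then 1 else 5)) % 6 else acc) 0

theorem abMod_ev (n k : ℕ) (hk : k < n + 1) (w : W) :
    (Multiplicative.toAdd (abMod 6 (ev n w))) ⟨k, hk⟩ = (es n k w : ZMod 6) := by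
  induction w with
  | nil => simp [ev_nil, es]
  | cons x w ih =>
    have h1 : es n k (x :: w) = if x.1 % (n + 1) = k then
      (es n k w + (if x.2 then 1 else 5)) % 6 else es n k w := rfl
    rw [ev_cons, _root_.map_mul, toAdd_mul, Pi.add_apply, ih, h1, ev_single]
    have h2 : ∀ k : Fin (n + 1), (FreeGroup.mk [(k, true)] : FreeGroup (Fin (n + 1))) =
      FreeGroup.of k := fun _ => rfl
    have h3 : ∀ k : Fin (n + 1), (FreeGroup.mk [(k, false)] : FreeGroup (Fin (n + 1))) =
      (FreeGroup.of k)⁻¹ := fun _ => rfl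
    have h6 : (6 : ZMod 6) = 0 := by decide
    have h5 : (5 : ZMod 6) = -1 := by decide
    rcases x with ⟨x, s⟩
    by_cases hx : x % (n + 1) = k
    · have hfm : fm n x = ⟨k, hk⟩ := Fin.ext hx
      simp only [hx, if_true]
      rw [hfm]
      rcases s with _ | _
      · rw [h3, _root_.map_inv]
        unfold abMod
        rw [lift_apply_of]
        simp [h5, add_comm]
      · rw [h2]
        unfold abMod
        rw [lift_apply_of]
        simp [add_comm]
    · have hfm : (⟨k, hk⟩ : Fin (n + 1)) ≠ fm n x := fun h => hx (congrArg Fin.val h).symm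
      simp only [hx, if_false]
      rcases s with _ | _
      · rw [h3, _root_.map_inv]
        unfold abMod
        rw [lift_apply_of]
        simp [hfm]
      · rw [h2]
        unfold abMod
        rw [lift_apply_of]
        simp [hfm]

theorem es_lt (n k : ℕ) (w : W) : es n k w < 6 := by
  induction w with
  | nil => simp [es]
  | cons x w ih =>
    have h1 : es n k (x :: w) = if x.1 % (n + 1) = k then
      (es n k w + (if x.2 then 1 else 5)) % 6 else es n k w := rfl
    rw [h1]
    split_ifs
    · exact Nat.mod_lt _ (by norm_num)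
    · exact Nat.mod_lt _ (by norm_num)
    · exact ih

theorem abMod_eq_iff (n : ℕ) (a b : W) :
    abMod 6 (ev n a) = abMod 6 (ev n b) ↔ ∀ k < n + 1, es n k a = es n k b := by
  constructor
  · intro h k hk
    have h1 := abMod_ev n k hk a
    rw [h, abMod_ev n k hk b] at h1
    have h2 := (ZMod.natCast_eq_natCast_iff' _ _ _).1 h1
    rw [Nat.mod_eq_of_lt (es_lt n k a), Nat.mod_eq_of_lt (es_lt n k b)] at h2
    exact h2.symm
  · intro h
    apply Multiplicative.toAdd.injective
    funext k
    have h1 := abMod_ev n k.1 k.2 a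
    have h2 := abMod_ev n k.1 k.2 b
    rw [h k.1 k.2] at h1
    exact h1.trans h2.symm

end Helper85.BTE
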