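import Pool.Agent.Helper85.BTE.Surgery

/-!
Level sets of the edge weight, tree counting, and the bound for the number of crossed edges.
-/

set_option autoImplicit false
set_option linter.unusedSectionVars false
set_option linter.unusedVariables false

namespace Helper85.BTE

open FreeGroup Pointwise Classical Filter

variable {X : Type} [DecidableEq X] [Fintype X] {ι : Type} [Finite ι]

/-- `A` can be cut into two free cuts of smaller complexity. -/
def Reducible (v : ι → FreeGroup X) (A : Set (Endp X)) : Prop :=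
  ∃ P Q : Set (Endp X), FreeCut P ∧ FreeCut Q ∧ (Cr P).ncard < (Cr A).ncard ∧
    (Cr Q).ncard < (Cr A).ncard ∧ cnt v P + cnt v Q ≤ cnt v A ∧
    ∀ {κ : Type} [Finite κ] (u : κ → FreeGroup X), cnt u A ≤ cnt u P + cnt u Q

variable {v : ι → FreeGroup X} {A : Set (Endp X)} {N : ℕ}

/-- `H` is one of the two halves of the translate `k • A`. -/
def Half (A : Set (Endp X)) (k : FreeGroup X) (H : Set (Endp X)) : Prop :=
  H = k • A ∨ H = (k • A)ᶜ

theorem Half.compl {k : FreeGroup X} {H : Set (Endp X)} (h : Half A k H) : Half A k Hᶜ := by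
  rcases h with h | h
  · right; rw [h]
  · left; rw [h, compl_compl]

theorem Half.cross_iff {k : FreeGroup X} {H S : Set (Endp X)} (h : Half A k H) :
    cross H S ↔ cross (k • A) S := by
  rcases h with h | h
  · rw [h]
  · rw [h, cross_compl_left]

theorem Half.freeCut {k : FreeGroup X} {H : Set (Endp X)} (h : Half A k H) (hA : FreeCut A) :
    FreeCut H := by
  rcases h with h | h
  · rw [h]; exact hA.smul k
  · rw [h]; exact (hA.smul k).compl

theorem Half.cnt_eq {k : FreeGroup X} {H : Set (Endp X)} (h : Half A k H)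
    {κ : Type} (u : κ → FreeGroup X) : cnt u H = cnt u A := by
  rcases h with h | h
  · rw [h, cnt_smul]
  · rw [h, cnt_compl, cnt_smul]

theorem Half.ins_iff {k : FreeGroup X} {H : Set (Endp X)} (h : Half A k H) (j : FreeGroup X)
    (S : Set (Endp X)) : Ins (j • H) S ↔ Ins ((j * k) • A) S := by
  unfold Ins
  rcases h with h | h
  · rw [h, mul_smul]
  · rw [h, Set.smul_set_compl, compl_compl, mul_smul]
    tauto

theorem Cr_compl (A : Set (Endp X)) : Cr Aᶜ = Cr A := by
  ext e
  exact cross_compl_left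

theorem Cr_smul_ncard (A : Set (Endp X)) (g : FreeGroup X) : (Cr (g • A)).ncard = (Cr A).ncard := by
  have : Cr (g • A) = (fun e : FreeGroup X × (X × Bool) => (g * e.1, e.2)) '' Cr A := by
    ext ⟨x, s⟩
    simp only [Set.mem_image, Prod.mk.injEq]
    constructor
    · intro h
      refine ⟨(g⁻¹ * x, s), ?_, by simp, rfl⟩
      rw [mem_Cr, ← cross_smul g, smul_Hs, mul_inv_cancel_left]
      exact h
    · rintro ⟨⟨y, t⟩, hy, rfl, rfl⟩
      rw [mem_Cr, ← smul_Hs, cross_smul]
      exact hy
  rw [this, Set.ncard_image_of_injective]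
  rintro ⟨a, s⟩ ⟨b, t⟩ h
  simpa using h

theorem Half.Cr_ncard {k : FreeGroup X} {H : Set (Endp X)} (h : Half A k H) :
    (Cr H).ncard = (Cr A).ncard := by
  rcases h with h | h
  · rw [h, Cr_smul_ncard]
  · rw [h, Cr_compl, Cr_smul_ncard]

/-- In the irreducible case every half crossing `Hs 1 s` contains a line crossing `Hs 1 s`. -/
theorem exists_line (hA : FreeCut A) (hirr : ¬ Reducible v A) (s : X × Bool) :
    ∀ (n : ℕ) (k : FreeGroup X) (H : Set (Endp X)), Half A k H → cross H (Hs 1 s) →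
      (wT A s H).ncard = n → (wL v s H).Nonempty := by
  intro n
  induction n using Nat.strong_induction_on with
  | _ n ih =>
    intro k H hH hcr hn
    by_cases hw : ∃ j, j ∈ wT A s H
    · obtain ⟨j, hj1, hj2⟩ := hw
      obtain ⟨H1, hH1, hsub⟩ : ∃ H1, Half A j H1 ∧ H1 ⊂ H := by
        rcases hj2 with h | h
        · exact ⟨_, Or.inl rfl, h⟩
        · exact ⟨_, Or.inr rfl, h⟩
      have hcr1 : cross H1 (Hs 1 s) := hH1.cross_iff.2 hj1
      have hlt : (wT A s H1).ncard < n := by
        rw [← hn]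
        apply Set.ncard_lt_ncard _ (wT_finite hA.cl s H)
        constructor
        · rintro i ⟨hi1, hi2⟩
          refine ⟨hi1, ?_⟩
          rcases hi2 with h | h
          · exact Or.inl (h.trans hsub)
          · exact Or.inr (h.trans hsub)
        · intro h
          have hjm : j ∈ wT A s H1 := h ⟨hj1, by
            rcases hH1 with h1 | h1
            · rw [h1] at hsub; exact Or.inl hsub
            · rw [h1] at hsub; exact Or.inr hsub⟩
          obtain ⟨-, hjm⟩ := hjm
          obtain ⟨⟨p, hp, -⟩, -, ⟨q, hq, -⟩, -⟩ := hj1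
          rcases hH1 with h1 | h1
          · rw [h1] at hjm
            rcases hjm with h2 | h2
            · exact h2.2 (fun x hx => hx)
            · exact hq (h2.1 hq)
          · rw [h1] at hjm
            rcases hjm with h2 | h2
            · exact h2.1 hp hp
            · exact h2.2 (fun x hx => hx)
      obtain ⟨l, hl1, hl2, hl3⟩ := ih _ hlt j H1 hH1 hcr1 rfl
      exact ⟨l, hl1, hsub.1 hl2, hsub.1 hl3⟩
    · by_contra hne
      apply hirr
      have hfc := hH.freeCut hA
      obtain ⟨P, Q, hP, hQ, h1, h2, h3, h4⟩ := surgery v hfc (x := 1) (t := s) hcr (by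
        intro j hj hc
        apply hw
        rw [hH.ins_iff] at hj
        refine ⟨j * k, ?_, hj⟩
        rcases hH with h | h
        · rw [h] at hc
          rwa [mul_smul]
        · rw [h, Set.smul_set_compl, cross_compl_left] at hc
          rwa [mul_smul]) (by
        rintro l hl ⟨hp, hq⟩
        exact hne ⟨l, hl, hp, hq⟩)
      refine ⟨P, Q, hP, hQ, ?_, ?_, ?_, ?_⟩
      · rw [← hH.Cr_ncard]
        exact Set.ncard_lt_ncard h1 (finite_Cr hfc.cl)
      · rw [← hH.Cr_ncard]
        exact Set.ncard_lt_ncard h2 (finite_Cr hfc.cl)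
      · rw [hH.cnt_eq] at h3
        exact h3
      · intro κ _ u
        have := h4 u
        rw [hH.cnt_eq] at this
        exact this

/-- The weight increases strictly along strict inclusions of halves. -/
theorem wt_lt (hA : FreeCut A) {s : X × Bool} {k : FreeGroup X} {H H' : Set (Endp X)}
    (hH : Half A k H) (hcr : cross H (Hs 1 s)) (hsub : H ⊂ H') :
    wgt v A N s H < wgt v A N s H' := by
  have h1 : (wL v s H).ncard ≤ (wL v s H').ncard := by
    apply Set.ncard_le_ncard _ (wL_finite s H')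
    rintro l ⟨h1, h2, h3⟩
    exact ⟨h1, hsub.1 h2, hsub.1 h3⟩
  have h2 : (wT A s H).ncard < (wT A s H').ncard := by
    apply Set.ncard_lt_ncard _ (wT_finite hA.cl s H')
    constructor
    · rintro i ⟨hi1, hi2⟩
      refine ⟨hi1, ?_⟩
      rcases hi2 with h | h
      · exact Or.inl (h.trans hsub)
      · exact Or.inr (h.trans hsub)
    · intro h
      have hj1 := hH.cross_iff.1 hcr
      have hjm : k ∈ wT A s H := h ⟨hj1, by
        rcases hH with h1 | h1
        · rw [h1] at hsub; exact Or.inl hsub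
        · rw [h1] at hsub; exact Or.inr hsub⟩
      obtain ⟨-, hjm⟩ := hjm
      obtain ⟨⟨p, hp, -⟩, -, ⟨q, hq, -⟩, -⟩ := hj1
      rcases hH with h1 | h1
      · rw [h1] at hjm
        rcases hjm with h2 | h2
        · exact h2.2 (fun x hx => hx)
        · exact hq (h2.1 hq)
      · rw [h1] at hjm
        rcases hjm with h2 | h2
        · exact h2.1 hp hp
        · exact h2.2 (fun x hx => hx)
  unfold wgt
  have := Nat.mul_le_mul_left N h1
  omega

variable (v A N) in
/-- The value of an edge crossed by `A`. -/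
noncomputable def mm (e : FreeGroup X × (X × Bool)) : ℕ :=
  min (wgt v A N e.2 (e.1⁻¹ • A)) (wgt v A N e.2 (e.1⁻¹ • A)ᶜ)

theorem level_card (hA : FreeCut A) (hirr : ¬ Reducible v A) (s : X × Bool) (m : ℕ) :
    {x : FreeGroup X | (x, s) ∈ Cr A ∧ mm v A N (x, s) = m}.ncard ≤ cnt v (Hs 1 s) := by
  have hch : ∀ x : FreeGroup X, (x, s) ∈ Cr A → mm v A N (x, s) = m →
      ∃ H : Set (Endp X), ∃ l : Line v, Half A x⁻¹ H ∧ cross H (Hs 1 s) ∧ wgt v A N s H = m ∧
        m ≤ wgt v A N s Hᶜ ∧ l ∈ wL v s H := by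
    intro x hx hm
    have hcr : cross (x⁻¹ • A) (Hs 1 s) := by
      rw [cross_smul_left, inv_inv, smul_Hs, mul_one]
      exact hx
    unfold mm at hm
    simp only at hm
    rcases le_total (wgt v A N s (x⁻¹ • A)) (wgt v A N s (x⁻¹ • A)ᶜ) with h | h
    · rw [min_eq_left h] at hm
      obtain ⟨l, hl⟩ := exists_line hA hirr s _ x⁻¹ (x⁻¹ • A) (Or.inl rfl) hcr rfl
      exact ⟨x⁻¹ • A, l, Or.inl rfl, hcr, hm, by rw [← hm]; exact h, hl⟩
    · rw [min_eq_right h] at hm
      have hcr' : cross (x⁻¹ • A)ᶜ (Hs 1 s) := cross_compl_left.2 hcr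
      obtain ⟨l, hl⟩ := exists_line hA hirr s _ x⁻¹ (x⁻¹ • A)ᶜ (Or.inr rfl) hcr' rfl
      exact ⟨(x⁻¹ • A)ᶜ, l, Or.inr rfl, hcr', hm, by rw [← hm, compl_compl]; exact h, hl⟩
  by_cases hLne : Nonempty (Line v)
  swap
  · have : {x : FreeGroup X | (x, s) ∈ Cr A ∧ mm v A N (x, s) = m} = ∅ := by
      ext x
      simp only [Set.mem_ofPred_eq, Set.mem_empty_iff_false, iff_false]
      rintro ⟨hx, hm⟩
      obtain ⟨-, l, -⟩ := hch x hx hm
      exact hLne ⟨l⟩
    rw [this]; simp
  choose! H l h1 h2 h3 h4 h5 using hch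
  unfold cnt
  apply Set.ncard_le_ncard_of_injOn l (ht := crL_finite v (cl_Hs 1 s))
  · rintro x ⟨hx, hm⟩
    exact (h5 x hx hm).1
  · rintro x ⟨hx, hxm⟩ y ⟨hy, hym⟩ hxy
    by_contra hne
    have hHx := h1 x hx hxm
    have hHy := h1 y hy hym
    have hnest : ¬ cross (H x) (H y) := by
      intro h
      rw [hHx.cross_iff, cross_symm, hHy.cross_iff, cross_smul_left, inv_inv, smul_smul,
        cross_symm] at h
      exact hA.nest _ h
    have hxyne : ∀ k : FreeGroup X, x⁻¹ • A ≠ y⁻¹ • A := by
      intro _ h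
      have h6 : (y * x⁻¹) • A = A := by rw [mul_smul, h, smul_inv_smul]
      have := hA.free _ h6
      exact hne (mul_inv_eq_one.1 this).symm
    have hxyne' : x⁻¹ • A ≠ (y⁻¹ • A)ᶜ := by
      intro h
      have h6 : (y * x⁻¹) • A = Aᶜ := by
        rw [mul_smul, h, Set.smul_set_compl, smul_inv_smul]
      exact hA.free' _ h6
    have e1 : H x ≠ H y := by
      intro h
      rcases hHx with h6 | h6 <;> rcases hHy with h7 | h7 <;> rw [h6, h7] at h
      · exact hxyne 1 h
      · exact hxyne' h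
      · exact hxyne' (by rw [← h, compl_compl])
      · exact hxyne 1 (compl_inj_iff.1 h)
    have e2 : H x ≠ (H y)ᶜ := by
      intro h
      rcases hHx with h6 | h6 <;> rcases hHy with h7 | h7 <;> rw [h6, h7] at h
      · exact hxyne' h
      · rw [compl_compl] at h; exact hxyne 1 h
      · exact hxyne 1 (compl_inj_iff.1 h)
      · rw [compl_compl] at h; exact hxyne' (compl_eq_comm.1 h).symm
    have hlx := h5 x hx hxm
    have hly := h5 y hy hym
    rw [hxy] at hlx
    rcases nested_cases hnest e1 e2 with (h | h) | (h | h)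
    · have := wt_lt (v := v) (N := N) hA hHx (h2 x hx hxm) h
      rw [h3 x hx hxm, h3 y hy hym] at this
      omega
    · have := wt_lt (v := v) (N := N) hA hHx.compl (cross_compl_left.2 (h2 x hx hxm)) h
      rw [h3 y hy hym] at this
      have := h4 x hx hxm
      omega
    · exact h.1 hlx.2.1 hly.2.1
    · have h6 : H y ⊂ H x := by
        constructor
        · intro p hp
          by_contra hq
          exact h.1 hq hp
        · intro h7
          apply h.2
          intro p hp hq
          exact hp (h7 hq)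
      have := wt_lt (v := v) (N := N) hA hHy (h2 y hy hym) h6
      rw [h3 x hx hxm, h3 y hy hym] at this
      omega

/-- Flip invariance of the value. -/
theorem mm_flip (x : FreeGroup X) (s : X × Bool) :
    mm v A N (x * lt s, il s) = mm v A N (x, s) := by
  have key : ∀ H : Set (Endp X), wgt v A N (il s) ((lt s)⁻¹ • H) = wgt v A N s H := by
    intro H
    unfold wgt
    have e1 : wL v (il s) ((lt s)⁻¹ • H) = (lt s)⁻¹ • wL v s H := by
      ext l
      rw [Set.mem_smul_set_iff_inv_smul_mem, inv_inv]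
      unfold wL
      simp only [Set.mem_ofPred_eq, Set.mem_smul_set_iff_inv_smul_mem, inv_inv, pos_smul, neg_smul]
      rw [Hs_il_eq, crL_smul, crL_compl, Set.mem_smul_set_iff_inv_smul_mem, inv_inv]
    have e2 : wT A (il s) ((lt s)⁻¹ • H) = (fun k => (lt s)⁻¹ * k) '' wT A s H := by
      ext k
      unfold wT Ins
      simp only [Set.mem_ofPred_eq, Set.mem_image]
      have hsub : ∀ C : Set (Endp X), C ⊂ (lt s)⁻¹ • H ↔ lt s • C ⊂ H := by
        intro C
        constructor
        · rintro ⟨h1, h2⟩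
          constructor
          · intro p hp
            rw [Set.mem_smul_set_iff_inv_smul_mem] at hp
            have := h1 hp
            rwa [Set.smul_mem_smul_set_iff] at this
          · intro h3
            apply h2
            intro p hp
            rw [Set.mem_smul_set_iff_inv_smul_mem, inv_inv] at hp
            have := h3 hp
            rwa [Set.smul_mem_smul_set_iff] at this
        · rintro ⟨h1, h2⟩
          constructor
          · intro p hp
            rw [Set.mem_smul_set_iff_inv_smul_mem, inv_inv]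
            exact h1 (Set.smul_mem_smul_set hp)
          · intro h3
            apply h2
            intro p hp
            rw [Set.mem_smul_set_iff_inv_smul_mem]
            exact h3 (Set.smul_mem_smul_set hp)
      constructor
      · rintro ⟨h1, h2⟩
        refine ⟨lt s * k, ⟨?_, ?_⟩, by simp⟩
        · rw [Hs_il_eq, ← cross_smul (lt s), smul_inv_smul, cross_compl_right, smul_smul] at h1
          exact h1
        · rw [hsub, hsub, Set.smul_set_compl, smul_smul] at h2
          exact h2
      · rintro ⟨j, ⟨h1, h2⟩, rfl⟩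
        refine ⟨?_, ?_⟩
        · rw [Hs_il_eq, ← cross_smul (lt s), smul_inv_smul, cross_compl_right, smul_smul,
            mul_inv_cancel_left]
          exact h1
        · rw [hsub, hsub, Set.smul_set_compl, smul_smul, mul_inv_cancel_left]
          exact h2
    rw [e1, e2, Set.ncard_image_of_injective _ (mul_right_injective _)]
    congr 2
    exact Set.ncard_image_of_injective _ (MulAction.injective _)
  unfold mm
  simp only
  have h1 : (x * lt s)⁻¹ • A = (lt s)⁻¹ • (x⁻¹ • A) := by rw [mul_inv_rev, mul_smul]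
  rw [h1, ← Set.smul_set_compl, key, key]

/-- Changing the base translate. -/
theorem wt_smul_base (g : FreeGroup X) (s : X × Bool) (H : Set (Endp X)) :
    wgt v (g • A) N s H = wgt v A N s H := by
  unfold wgt
  have : wT A s H = (fun k => k * g) '' wT (g • A) s H := by
    ext k
    unfold wT
    simp only [Set.mem_ofPred_eq, Set.mem_image]
    constructor
    · rintro ⟨h1, h2⟩
      refine ⟨k * g⁻¹, ⟨?_, ?_⟩, by group⟩
      · rw [smul_smul, inv_mul_cancel_right]; exact h1
      · rw [smul_smul, inv_mul_cancel_right]; exact h2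
    · rintro ⟨j, ⟨h1, h2⟩, rfl⟩
      rw [smul_smul] at h1 h2
      exact ⟨h1, h2⟩
  rw [this, Set.ncard_image_of_injective _ (mul_left_injective g)]

theorem LM_smul (hLM : LM v A N) (g : FreeGroup X) : LM v (g • A) N := by
  intro B b h1 h2
  have := hLM B b h1 h2
  unfold cst at *
  rw [nA_smul_left, nA_smul_left]
  exact this

/-- Translating crossed edges to the base vertex. -/
theorem mem_Cr_smul (x : FreeGroup X) (s : X × Bool) :
    (1, s) ∈ Cr (x⁻¹ • A) ↔ (x, s) ∈ Cr A := by
  rw [mem_Cr, mem_Cr, cross_smul_left, inv_inv, smul_Hs, mul_one]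

theorem mm_eq_of_reg (hA : FreeCut A) (hLM : LM v A N) {y : FreeGroup X} {s t : X × Bool}
    (h : Reg v (y⁻¹ • A) s t) : mm v A N (y, s) = mm v A N (y, t) := by
  have := h.eq (hA.smul y⁻¹) (LM_smul hLM y⁻¹)
  rw [wt_smul_base, wt_smul_base, wt_smul_base, wt_smul_base] at this
  exact this

variable (v A) in
/-- Irregular vertices. -/
def Irr : Set (FreeGroup X) := {y | y ∈ Vx A ∧ ¬ ∃ s t, Reg v (y⁻¹ • A) s t}

theorem values_card (hA : FreeCut A) (hLM : LM v A N) :
    (mm v A N '' Cr A).ncard ≤ (Irr v A).ncard := by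
  have hfin : (Irr v A).Finite := (finite_Vx hA.cl).subset (fun _ h => h.1)
  let f : FreeGroup X → ℕ := fun y =>
    match hd y⁻¹ with
    | some r => mm v A N (y, r)
    | none => 0
  have hsub : mm v A N '' Cr A ⊆ f '' Irr v A := by
    rintro m ⟨e0, he0, hm0⟩
    -- outward edges with this value
    set E : Set (FreeGroup X × (X × Bool)) :=
      {e | e ∈ Cr A ∧ mm v A N e = m ∧ hd e.1⁻¹ ≠ some e.2} with hE
    have hEfin : E.Finite := (finite_Cr hA.cl).subset (fun _ h => h.1)
    have hEne : E.Nonempty := by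
      by_cases h : hd e0.1⁻¹ = some e0.2
      · refine ⟨(e0.1 * lt e0.2, il e0.2), Cr_flip.2 he0, ?_, ?_⟩
        · rw [mm_flip]; exact hm0
        · simp only
          rw [mul_inv_rev, lt_inv]
          intro h5
          rw [hd_lt_mul] at h5
          apply h5
          rw [il_il]; exact h
      · exact ⟨e0, he0, hm0, h⟩
    obtain ⟨⟨x, s⟩, ⟨hx1, hx2, hx3⟩, hmax⟩ := hEfin.exists_maximalFor
      (fun e : FreeGroup X × (X × Bool) => (e.1 * lt e.2).norm) E hEne
    simp only at hx3
    set y := x * lt s with hy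
    have hynorm : y.norm = x.norm + 1 := norm_mul_lt_of_ne hx3
    have hyhd : hd y⁻¹ = some (il s) := by
      rw [hy, mul_inv_rev, lt_inv, hd_lt_mul, il_il]
      exact hx3
    have hye : (y, il s) ∈ Cr A := Cr_flip.2 hx1
    refine ⟨y, ⟨⟨il s, hye⟩, ?_⟩, ?_⟩
    · rintro ⟨a, b, hab⟩
      -- the other direction
      obtain ⟨c, hc1, hc2, hc3⟩ : ∃ c, c ≠ il s ∧ (y, c) ∈ Cr A ∧
          mm v A N (y, c) = mm v A N (y, il s) := by
        have h1 : (1, il s) ∈ Cr (y⁻¹ • A) := (mem_Cr_smul y (il s)).2 hye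
        rcases hab.hM _ h1 with h2 | h2
        · refine ⟨b, ?_, (mem_Cr_smul y b).1 hab.ht, ?_⟩
          · rw [h2]; exact hab.st.symm
          · rw [h2]; exact (mm_eq_of_reg hA hLM hab).symm
        · refine ⟨a, ?_, (mem_Cr_smul y a).1 hab.hs, ?_⟩
          · rw [h2]; exact hab.st
          · rw [h2]; exact mm_eq_of_reg hA hLM hab
      have hmem : (y, c) ∈ E := by
        refine ⟨hc2, ?_, ?_⟩
        · rw [hc3, hy, mm_flip]; exact hx2
        · simp only
          rw [hyhd]
          intro h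
          exact hc1 (Option.some.inj h).symm
      have h1 := hmax hmem
      simp only at h1
      have h2 : (y * lt c).norm = y.norm + 1 := by
        apply norm_mul_lt_of_ne
        rw [hyhd]
        intro h
        exact hc1 (Option.some.inj h).symm
      have h3 := h1 (by rw [h2, ← hy]; omega)
      rw [h2, ← hy] at h3
      omega
    · simp only [f]
      rw [hyhd]
      simp only
      rw [hy, mm_flip]
      exact hx2
  exact le_trans (Set.ncard_le_ncard hsub (hfin.image f)) (Set.ncard_image_le hfin)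

theorem Cr_le_values (hA : FreeCut A) (hirr : ¬ Reducible v A) :
    (Cr A).ncard ≤ (mm v A N '' Cr A).ncard * nl v := by
  have hfin := finite_Cr hA.cl
  have himg : (mm v A N '' Cr A).Finite := hfin.image _
  have h1 : (hfin.toFinset).card = ∑ m ∈ himg.toFinset,
      ((hfin.toFinset).filter (fun e => mm v A N e = m)).card := by
    apply Finset.card_eq_sum_card_fiberwise
    intro e he
    simp only [Set.Finite.coe_toFinset] at he ⊢
    exact ⟨e, he, rfl⟩
  rw [Set.ncard_eq_toFinset_card _ hfin, h1, Set.ncard_eq_toFinset_card _ himg]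
  rw [← smul_eq_mul, ← Finset.sum_const]
  apply Finset.sum_le_sum
  intro m _
  have h2 : ((hfin.toFinset).filter (fun e => mm v A N e = m)).card = ∑ s : X × Bool,
      (((hfin.toFinset).filter (fun e => mm v A N e = m)).filter (fun e => e.2 = s)).card := by
    apply Finset.card_eq_sum_card_fiberwise
    intro e he
    simp
  rw [h2]
  unfold nl
  apply Finset.sum_le_sum
  intro s _
  refine le_trans (le_of_eq ?_) (level_card (N := N) hA hirr s m)
  rw [← Set.ncard_coe_finset]
  have : ((((hfin.toFinset).filter (fun e => mm v A N e = m)).filter (fun e => e.2 = s) :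
      Finset (FreeGroup X × (X × Bool))) : Set (FreeGroup X × (X × Bool))) =
      (fun x : FreeGroup X => (x, s)) '' {x | (x, s) ∈ Cr A ∧ mm v A N (x, s) = m} := by
    ext ⟨x, r⟩
    simp only [Finset.coe_filter, Finset.mem_filter, Set.Finite.mem_toFinset, Set.mem_ofPred_eq,
      Set.mem_image, Prod.mk.injEq]
    constructor
    · rintro ⟨⟨h3, h4⟩, rfl⟩
      exact ⟨x, ⟨h3, h4⟩, rfl, rfl⟩
    · rintro ⟨y, ⟨h3, h4⟩, rfl, rfl⟩
      exact ⟨⟨h3, h4⟩, rfl⟩
  rw [this, Set.ncard_image_of_injective]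
  intro a b h
  simpa using h

variable (A) in
/-- Crossed directions at a vertex. -/
def Md (y : FreeGroup X) : Set (X × Bool) := {s | (y, s) ∈ Cr A}

/-- In a finite nonempty crossed tree, the number of edges is less than the number of vertices. -/
theorem in_edges_lt (hA : Cl A) (hne : (Cr A).Nonempty) :
    {e | e ∈ Cr A ∧ hd e.1⁻¹ = some e.2}.ncard < (Vx A).ncard := by
  have hVfin := finite_Vx hA
  obtain ⟨⟨x0, s0⟩, h0⟩ := hne
  obtain ⟨y, hy, hmin⟩ := hVfin.exists_minimalFor FreeGroup.norm (Vx A) ⟨x0, s0, h0⟩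
  have h1 : {e | e ∈ Cr A ∧ hd e.1⁻¹ = some e.2}.ncard ≤ (Vx A \ {y}).ncard := by
    apply Set.ncard_le_ncard_of_injOn Prod.fst (ht := hVfin.subset Set.sdiff_subset)
    · rintro ⟨x, s⟩ ⟨h1, h2⟩
      simp only at h2
      refine ⟨⟨s, h1⟩, ?_⟩
      rintro rfl
      have h3 : x * lt s ∈ Vx A := ⟨il s, Cr_flip.2 h1⟩
      have h4 : (x * lt s).norm + 1 = x.norm := norm_mul_lt_of_eq h2
      have h5 : x.norm ≤ (x * lt s).norm := hmin h3 (by
        change (x * lt s).norm ≤ x.norm
        omega)
      omega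
    · rintro ⟨x, s⟩ ⟨h1, h2⟩ ⟨x', s'⟩ ⟨h1', h2'⟩ h
      simp only at h h2 h2'
      subst h
      rw [h2] at h2'
      rw [Option.some.inj h2']
  have h2 : (Vx A \ {y}).ncard < (Vx A).ncard :=
    Set.ncard_sdiff_singleton_lt_of_mem hy hVfin
  omega

theorem out_eq_in (hA : Cl A) :
    {e | e ∈ Cr A ∧ hd e.1⁻¹ ≠ some e.2}.ncard = {e | e ∈ Cr A ∧ hd e.1⁻¹ = some e.2}.ncard := by
  have hfin := finite_Cr hA
  have hinj : Function.Injective (fun e : FreeGroup X × (X × Bool) => (e.1 * lt e.2, il e.2)) := by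
    rintro ⟨x, s⟩ ⟨y, t⟩ h
    simp only [Prod.mk.injEq] at h
    have h2 := il_inj.1 h.2
    subst h2
    have h1 := mul_right_cancel h.1
    rw [h1]
  apply le_antisymm
  · apply Set.ncard_le_ncard_of_injOn _ _ hinj.injOn (hfin.subset (fun _ h => h.1))
    rintro ⟨x, s⟩ ⟨h1, h2⟩
    refine ⟨Cr_flip.2 h1, ?_⟩
    simp only at h2 ⊢
    rw [mul_inv_rev, lt_inv, hd_lt_mul, il_il]
    exact h2
  · apply Set.ncard_le_ncard_of_injOn _ _ hinj.injOn (hfin.subset (fun _ h => h.1))
    rintro ⟨x, s⟩ ⟨h1, h2⟩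
    refine ⟨Cr_flip.2 h1, ?_⟩
    simp only at h2 ⊢
    rw [mul_inv_rev, lt_inv]
    intro h3
    rw [hd_lt_mul] at h3
    apply h3
    rw [il_il]; exact h2

theorem sum_deg (hA : Cl A) :
    ∑ y ∈ (finite_Vx hA).toFinset, (Md A y).ncard = (Cr A).ncard := by
  have hfin := finite_Cr hA
  rw [Set.ncard_eq_toFinset_card _ hfin]
  rw [Finset.card_eq_sum_card_fiberwise (f := Prod.fst) (t := (finite_Vx hA).toFinset)]
  · apply Finset.sum_congr rfl
    intro y _
    rw [← Set.ncard_coe_finset]
    have : (((hfin.toFinset).filter (fun e => e.1 = y) :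
        Finset (FreeGroup X × (X × Bool))) : Set (FreeGroup X × (X × Bool))) =
        (fun s => (y, s)) '' Md A y := by
      ext ⟨x, r⟩
      simp only [Finset.coe_filter, Set.Finite.mem_toFinset, Set.mem_ofPred_eq, Set.mem_image,
        Prod.mk.injEq, Md]
      constructor
      · rintro ⟨h1, rfl⟩
        exact ⟨r, h1, rfl, rfl⟩
      · rintro ⟨s, h1, rfl, rfl⟩
        exact ⟨h1, rfl⟩
    rw [this, Set.ncard_image_of_injective]
    intro a b h
    simpa using h
  · rintro ⟨x, s⟩ he
    simp only [Set.Finite.coe_toFinset] at he ⊢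
    exact ⟨s, he⟩

/-- Branch vertices are at most as many as leaves. -/
theorem branch_le_leaf (hA : Cl A) :
    {y | y ∈ Vx A ∧ 3 ≤ (Md A y).ncard}.ncard ≤ {y | y ∈ Vx A ∧ (Md A y).ncard = 1}.ncard := by
  by_cases hne : (Cr A).Nonempty
  swap
  · have : {y | y ∈ Vx A ∧ 3 ≤ (Md A y).ncard} = ∅ := by
      ext y
      simp only [Set.mem_ofPred_eq, Set.mem_empty_iff_false, iff_false]
      rintro ⟨⟨s, hs⟩, -⟩
      exact hne ⟨_, hs⟩
    rw [this]; simp
  have hfin := finite_Cr hA
  have hV := finite_Vx hA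
  have h1 := in_edges_lt hA hne
  have h2 := out_eq_in hA
  have h3 : (Cr A).ncard = {e | e ∈ Cr A ∧ hd e.1⁻¹ ≠ some e.2}.ncard +
      {e | e ∈ Cr A ∧ hd e.1⁻¹ = some e.2}.ncard := by
    rw [← Set.ncard_union_eq _ (hfin.subset (fun _ h => h.1)) (hfin.subset (fun _ h => h.1))]
    · congr 1
      ext e
      simp only [Set.mem_union, Set.mem_ofPred_eq]
      tauto
    · rw [Set.disjoint_left]
      rintro e ⟨-, h⟩ ⟨-, h'⟩
      exact h h'
  have h4 := sum_deg hA
  have h5 : ∑ y ∈ hV.toFinset, ((Md A y).ncard + if (Md A y).ncard = 1 then 1 else 0) ≥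
      ∑ y ∈ hV.toFinset, (2 + if 3 ≤ (Md A y).ncard then 1 else 0) := by
    apply Finset.sum_le_sum
    intro y hy
    simp only [Set.Finite.mem_toFinset] at hy
    have h6 : (Md A y).ncard ≠ 0 := by
      obtain ⟨s, hs⟩ := hy
      exact Set.ncard_ne_zero_of_mem (a := s) hs (Set.toFinite _)
    split_ifs <;> omega
  rw [Finset.sum_add_distrib, Finset.sum_add_distrib, h4, ← Finset.card_filter,
    ← Finset.card_filter, Finset.sum_const, smul_eq_mul] at h5
  have h6 : hV.toFinset.card = (Vx A).ncard := (Set.ncard_eq_toFinset_card _ hV).symm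
  have h7 : (hV.toFinset.filter fun y => (Md A y).ncard = 1).card =
      {y | y ∈ Vx A ∧ (Md A y).ncard = 1}.ncard := by
    rw [← Set.ncard_coe_finset]
    congr 1
    ext y; simp
  have h8 : (hV.toFinset.filter fun y => 3 ≤ (Md A y).ncard).card =
      {y | y ∈ Vx A ∧ 3 ≤ (Md A y).ncard}.ncard := by
    rw [← Set.ncard_coe_finset]
    congr 1
    ext y; simp
  rw [h6, h7, h8] at h5
  omega

variable (v A) in
/-- Vertices at which some crossing line has a pure direction. -/
def D1 : Set (FreeGroup X) := {y | y ∈ Vx A ∧ ∃ l, l ∈ crL v A ∧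
  ((y, dr y (pos l)) ∉ Cr A ∨ (y, dr y (neg l)) ∉ Cr A)}

theorem D1_card (hA : Cl A) : (D1 v A).ncard ≤ 2 * cnt v A := by
  have hV := finite_Vx hA
  have hcl := crL_finite v hA
  set Dp : Set (FreeGroup X) := {y | y ∈ Vx A ∧ ∃ l, l ∈ crL v A ∧ (y, dr y (pos l)) ∉ Cr A}
  set Dn : Set (FreeGroup X) := {y | y ∈ Vx A ∧ ∃ l, l ∈ crL v A ∧ (y, dr y (neg l)) ∉ Cr A}
  have hp : Dp.ncard ≤ cnt v A := by
    by_cases hne : Nonempty (Line v)
    swap
    · have : Dp = ∅ := by
        ext y
        simp only [Set.mem_empty_iff_false, iff_false]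
        rintro ⟨-, l, -⟩
        exact hne ⟨l⟩
      rw [this]; simp
    have hch : ∀ y : FreeGroup X, y ∈ Dp → ∃ l : Line v, l ∈ crL v A ∧ (y, dr y (pos l)) ∉ Cr A :=
      fun y hy => hy.2
    choose! l h1 h2 using hch
    apply Set.ncard_le_ncard_of_injOn l (fun y hy => h1 y hy) _ hcl
    intro y hy z hz h
    apply proj_unique hy.1 hz.1 (h2 y hy)
    rw [h]; exact h2 z hz
  have hn : Dn.ncard ≤ cnt v A := by
    by_cases hne : Nonempty (Line v)
    swap
    · have : Dn = ∅ := by
        ext y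
        simp only [Set.mem_empty_iff_false, iff_false]
        rintro ⟨-, l, -⟩
        exact hne ⟨l⟩
      rw [this]; simp
    have hch : ∀ y : FreeGroup X, y ∈ Dn → ∃ l : Line v, l ∈ crL v A ∧ (y, dr y (neg l)) ∉ Cr A :=
      fun y hy => hy.2
    choose! l h1 h2 using hch
    apply Set.ncard_le_ncard_of_injOn l (fun y hy => h1 y hy) _ hcl
    intro y hy z hz h
    apply proj_unique hy.1 hz.1 (h2 y hy)
    rw [h]; exact h2 z hz
  have hsub : D1 v A ⊆ Dp ∪ Dn := by
    rintro y ⟨hy, l, hl, h | h⟩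
    · exact Or.inl ⟨hy, l, hl, h⟩
    · exact Or.inr ⟨hy, l, hl, h⟩
  have := Set.ncard_le_ncard hsub ((hV.subset (fun _ h => h.1)).union (hV.subset (fun _ h => h.1)))
  have h2 := Set.ncard_union_le Dp Dn
  omega

theorem dr_smul_pos (y : FreeGroup X) (l : Line v) : dr y (pos (y • l)) = dir (pos l) := by
  rw [pos_smul]
  have := dr_smul y 1 (pos l)
  rwa [mul_one, dr_one] at this

theorem dr_smul_neg (y : FreeGroup X) (l : Line v) : dr y (neg (y • l)) = dir (neg l) := by
  rw [neg_smul]
  have := dr_smul y 1 (neg l)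
  rwa [mul_one, dr_one] at this

theorem crL_smul_mem (y : FreeGroup X) (l : Line v) (h : l ∈ crL v (y⁻¹ • A)) :
    y • l ∈ crL v A := by
  rw [crL_smul, Set.mem_smul_set_iff_inv_smul_mem, inv_inv] at h
  exact h

theorem leaf_mem_D1 (hA : FreeCut A) (hLM : LM v A N) {y : FreeGroup X} (hy : y ∈ Vx A)
    (h1 : (Md A y).ncard = 1) : y ∈ D1 v A := by
  rw [Set.ncard_eq_one] at h1
  obtain ⟨s, hs⟩ := h1
  have hsm : (y, s) ∈ Cr A := by
    have : s ∈ Md A y := by rw [hs]; rfl
    exact this
  obtain ⟨l, hl1, hl2, hl3⟩ := leaf (v := v) (N := N) (hA.smul y⁻¹) (s := s)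
    ((mem_Cr_smul y s).2 hsm) (by
      intro r hr
      have : r ∈ Md A y := (mem_Cr_smul y r).1 hr
      rw [hs] at this
      exact this) (LM_smul hLM y⁻¹)
  refine ⟨hy, y • l, crL_smul_mem y l hl1, Or.inl ?_⟩
  rw [dr_smul_pos]
  intro h
  have : dir (pos l) ∈ Md A y := h
  rw [hs] at this
  exact hl2 this

theorem deg2_mem_D1 {y : FreeGroup X} (hy : y ∈ Irr v A)
    (h1 : (Md A y).ncard = 2) : y ∈ D1 v A := by
  rw [Set.ncard_eq_two] at h1
  obtain ⟨s, t, hst, hs⟩ := h1
  by_contra hcon
  apply hy.2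
  refine ⟨s, t, hst, ?_, ?_, ?_, ?_⟩
  · rw [mem_Cr_smul]
    have : s ∈ Md A y := by rw [hs]; simp
    exact this
  · rw [mem_Cr_smul]
    have : t ∈ Md A y := by rw [hs]; simp
    exact this
  · intro r hr
    rw [mem_Cr_smul] at hr
    have : r ∈ Md A y := hr
    rw [hs] at this
    simpa using this
  · intro l hl hd
    have h2 : ∀ r, (y, r) ∈ Cr A → r = s ∨ r = t := by
      intro r hr
      have : r ∈ Md A y := hr
      rw [hs] at this
      simpa using this
    constructor
    · apply h2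
      by_contra h3
      apply hcon
      refine ⟨hy.1, y • l, crL_smul_mem y l hl, Or.inl ?_⟩
      rw [dr_smul_pos]; exact h3
    · apply h2
      by_contra h3
      apply hcon
      refine ⟨hy.1, y • l, crL_smul_mem y l hl, Or.inr ?_⟩
      rw [dr_smul_neg]; exact h3

theorem Irr_card (hA : FreeCut A) (hLM : LM v A N) : (Irr v A).ncard ≤ 4 * cnt v A := by
  have hV := finite_Vx hA.cl
  have hsub : Irr v A ⊆ D1 v A ∪ {y | y ∈ Vx A ∧ 3 ≤ (Md A y).ncard} := by
    intro y hy
    by_cases h3 : 3 ≤ (Md A y).ncard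
    · exact Or.inr ⟨hy.1, h3⟩
    · left
      have h0 : (Md A y).ncard ≠ 0 := by
        obtain ⟨s, hs⟩ := hy.1
        exact Set.ncard_ne_zero_of_mem (a := s) hs (Set.toFinite _)
      by_cases h1 : (Md A y).ncard = 1
      · exact leaf_mem_D1 hA hLM hy.1 h1
      · exact deg2_mem_D1 hy (by omega)
  have h1 := Set.ncard_le_ncard hsub ((hV.subset (fun _ h => h.1)).union
    (hV.subset (fun _ h => h.1)))
  have h2 := Set.ncard_union_le (D1 v A) {y | y ∈ Vx A ∧ 3 ≤ (Md A y).ncard}
  have h3 := D1_card (v := v) hA.cl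
  have h4 := branch_le_leaf hA.cl
  have h5 : {y | y ∈ Vx A ∧ (Md A y).ncard = 1}.ncard ≤ (D1 v A).ncard := by
    apply Set.ncard_le_ncard _ (hV.subset (fun _ h => h.1))
    rintro y ⟨hy1, hy2⟩
    exact leaf_mem_D1 hA hLM hy1 hy2
  omega

/-- **Main local estimate.** -/
theorem Cr_bound (hA : FreeCut A) (hLM : LM v A N) (hirr : ¬ Reducible v A) :
    (Cr A).ncard ≤ 4 * cnt v A * nl v := by
  refine le_trans (Cr_le_values (N := N) hA hirr) ?_
  exact Nat.mul_le_mul_right _ (le_trans (values_card hA hLM) (Irr_card hA hLM))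

end Helper85.BTE
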