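import Pool.Agent.Helper85.BTE.Count

/-!
The domination theorem.
-/

set_option autoImplicit false
set_option linter.unusedSectionVars false
set_option linter.unusedVariables false

namespace Helper85.BTE

open FreeGroup Pointwise Classical Filter

variable {X : Type} [DecidableEq X] [Fintype X] {ι : Type} [Finite ι] {κ : Type} [Finite κ]

theorem ncard_biUnion_le' {α β : Type} (V : Finset β) (T : β → Set α) (hT : ∀ x ∈ V, (T x).Finite) :
    (⋃ x ∈ V, T x).ncard ≤ ∑ x ∈ V, (T x).ncard := by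
  induction V using Finset.induction_on with
  | empty => simp
  | insert a V ha ih =>
    rw [Finset.set_biUnion_insert, Finset.sum_insert ha]
    refine le_trans (Set.ncard_union_le _ _) ?_
    exact Nat.add_le_add_left (ih (fun x hx => hT x (Finset.mem_insert_of_mem hx))) _

/-- A point of `A` and a point outside are separated at some vertex of the crossed tree. -/
theorem exists_vertex {A : Set (Endp X)} (hA : Cl A) (hne : (Cr A).Nonempty) {p q : Endp X}
    (hp : p ∈ A) (hq : q ∉ A) : ∃ x ∈ Vx A, dr x p ≠ dr x q := by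
  by_contra hcon
  push Not at hcon
  have hV := finite_Vx hA
  have hcr : ∀ x ∈ Vx A, (x, dr x p) ∈ Cr A := by
    intro x hx
    exact cross_of_mixed hx ⟨p, hp, rfl⟩ ⟨q, hq, (hcon x hx).symm⟩
  obtain ⟨⟨x0, s0⟩, h0⟩ := hne
  set T : Set (FreeGroup X) := {x | x ∈ Vx A ∧ hd (x⁻¹ * x0) ≠ some (dr x p)} with hT
  have hTfin : T.Finite := hV.subset (fun _ h => h.1)
  have hTne : T.Nonempty := ⟨x0, ⟨s0, h0⟩, by simp⟩
  obtain ⟨x, ⟨hx1, hx2⟩, hmax⟩ := hTfin.exists_maximalFor
    (fun x : FreeGroup X => (x⁻¹ * x0).norm) T hTne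
  have h1 : (x * lt (dr x p))⁻¹ * x0 = lt (il (dr x p)) * (x⁻¹ * x0) := by
    rw [mul_inv_rev, lt_inv, mul_assoc]
  have h2 : (x * lt (dr x p)) ∈ T := by
    refine ⟨⟨il (dr x p), Cr_flip.2 (hcr x hx1)⟩, ?_⟩
    rw [h1]
    have h3 : hd (lt (il (dr x p)) * (x⁻¹ * x0)) = some (il (dr x p)) := by
      rw [hd_lt_mul, il_il]; exact hx2
    rw [h3]
    intro h4
    have h5 : dr (x * lt (dr x p)) p = il (dr x p) := (Option.some.inj h4).symm
    rw [dr_mul_lt] at h5
    exact h5 rfl
  have h3 : (lt (il (dr x p)) * (x⁻¹ * x0)).norm = (x⁻¹ * x0).norm + 1 :=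
    norm_lt_mul_of_ne (by rw [il_il]; exact hx2)
  have h4 := hmax h2 (by
    change (x⁻¹ * x0).norm ≤ ((x * lt (dr x p))⁻¹ * x0).norm
    rw [h1, h3]; omega)
  change ((x * lt (dr x p))⁻¹ * x0).norm ≤ (x⁻¹ * x0).norm at h4
  rw [h1, h3] at h4
  omega

/-- Lines through a vertex. -/
def thru (u : κ → FreeGroup X) (x : FreeGroup X) : Set (Line u) :=
  {l | dr x (pos l) ≠ dr x (neg l)}

theorem thru_sub (u : κ → FreeGroup X) (x : FreeGroup X) :
    thru u x ⊆ ⋃ s ∈ (Finset.univ : Finset (X × Bool)), crL u (Hs x s) := by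
  intro l hl
  simp only [Set.mem_iUnion, Finset.mem_univ, exists_const]
  refine ⟨dr x (pos l), ?_⟩
  rw [mem_crL, mem_Hs, mem_Hs]
  intro h
  exact hl (h.1 rfl).symm

theorem thru_finite (u : κ → FreeGroup X) (x : FreeGroup X) : (thru u x).Finite := by
  refine Set.Finite.subset ?_ (thru_sub u x)
  exact Set.Finite.biUnion (Finset.finite_toSet _) (fun s _ => crL_finite u (cl_Hs x s))

theorem thru_card (u : κ → FreeGroup X) (x : FreeGroup X) : (thru u x).ncard ≤ nl u := by
  have h1 : (⋃ s ∈ (Finset.univ : Finset (X × Bool)), crL u (Hs x s)).Finite :=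
    Set.Finite.biUnion (Finset.finite_toSet _) (fun s _ => crL_finite u (cl_Hs x s))
  refine le_trans (Set.ncard_le_ncard (thru_sub u x) h1) ?_
  refine le_trans (ncard_biUnion_le' _ _ (fun s _ => crL_finite u (cl_Hs x s))) ?_
  unfold nl
  apply Finset.sum_le_sum
  intro s _
  have : Hs x s = x • Hs 1 s := by rw [smul_Hs, mul_one]
  rw [this]
  exact le_of_eq (cnt_smul u x (Hs 1 s))

theorem cnt_WB_le (u : κ → FreeGroup X) (B : Set (X × Bool)) : cnt u (WB B) ≤ nl u := by
  refine le_trans (Set.ncard_le_ncard ?_ (thru_finite u 1)) (thru_card u 1)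
  intro l hl
  rw [mem_crL, mem_WB, mem_WB] at hl
  intro h
  rw [dr_one, dr_one] at h
  rw [h] at hl
  exact hl Iff.rfl

theorem cnt_le_Cr (u : κ → FreeGroup X) {A : Set (Endp X)} (hA : Cl A) (hne : (Cr A).Nonempty) :
    cnt u A ≤ (Cr A).ncard * nl u := by
  have hV := finite_Vx hA
  have hsub : crL u A ⊆ ⋃ x ∈ hV.toFinset, thru u x := by
    intro l hl
    simp only [Set.mem_iUnion, Set.Finite.mem_toFinset, exists_prop]
    rw [mem_crL] at hl
    by_cases h : pos l ∈ A
    · have h2 : neg l ∉ A := fun h2 => hl ⟨fun _ => h2, fun _ => h⟩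
      obtain ⟨x, hx, hx'⟩ := exists_vertex hA hne h h2
      exact ⟨x, hx, hx'⟩
    · have h2 : neg l ∈ A := by
        by_contra h2
        exact hl ⟨fun h3 => absurd h3 h, fun h3 => absurd h3 h2⟩
      obtain ⟨x, hx, hx'⟩ := exists_vertex hA hne h2 h
      exact ⟨x, hx, hx'.symm⟩
  have h1 : (⋃ x ∈ hV.toFinset, thru u x).Finite :=
    Set.Finite.biUnion (Finset.finite_toSet _) (fun x _ => thru_finite u x)
  have h2 : cnt u A ≤ ∑ x ∈ hV.toFinset, (thru u x).ncard :=
    le_trans (Set.ncard_le_ncard hsub h1) (ncard_biUnion_le' _ _ (fun x _ => thru_finite u x))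
  have h3 : ∑ x ∈ hV.toFinset, (thru u x).ncard ≤ ∑ x ∈ hV.toFinset, nl u :=
    Finset.sum_le_sum (fun x _ => thru_card u x)
  rw [Finset.sum_const, smul_eq_mul] at h3
  have h4 : hV.toFinset.card ≤ (Cr A).ncard := by
    rw [← Set.ncard_eq_toFinset_card _ hV]
    have : Vx A ⊆ Prod.fst '' Cr A := by
      rintro x ⟨s, hs⟩
      exact ⟨_, hs, rfl⟩
    exact le_trans (Set.ncard_le_ncard this ((finite_Cr hA).image _))
      (Set.ncard_image_le (finite_Cr hA))
  exact le_trans h2 (le_trans h3 (Nat.mul_le_mul_right _ h4))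

/-- A clopen set crossing no edge is a union of directions at one vertex. -/
theorem local_of_no_cross {A : Set (Endp X)} (hA : Cl A) (h1 : ∃ p, p ∈ A) (h2 : ∃ p, p ∉ A)
    (hCr : Cr A = ∅) : ∃ (x : FreeGroup X) (B : Set (X × Bool)), A = x • WB B := by
  obtain ⟨R, hR⟩ := pure_far hA
  have hpure : ∃ x : FreeGroup X, ∀ s, Hs x s ⊆ A ∨ Hs x s ⊆ Aᶜ := by
    by_contra hcon
    push Not at hcon
    choose s hs1 hs2 using hcon
    have key : ∀ n : ℕ, ∃ x : FreeGroup X, x.norm = n ∧ hd x⁻¹ ≠ some (s x) := by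
      intro n
      induction n with
      | zero => exact ⟨1, by simp, by simp⟩
      | succ n ih =>
        obtain ⟨x, hx1, hx2⟩ := ih
        refine ⟨x * lt (s x), ?_, ?_⟩
        · rw [norm_mul_lt_of_ne hx2, hx1]
        · rw [mul_inv_rev, lt_inv]
          have h3 : hd (lt (il (s x)) * x⁻¹) = some (il (s x)) := by
            rw [hd_lt_mul, il_il]; exact hx2
          rw [h3]
          intro h4
          have h5 : s (x * lt (s x)) = il (s x) := (Option.some.inj h4).symm
          have h6 := hs1 (x * lt (s x))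
          have h7 := hs2 (x * lt (s x))
          rw [h5, ← Hs_compl] at h6 h7
          have h8 : cross A (Hs x (s x)) := by
            rw [Set.not_subset] at h6 h7
            have h9 := hs1 x
            have h10 := hs2 x
            rw [Set.not_subset] at h9 h10
            obtain ⟨a, ha, ha'⟩ := h6
            obtain ⟨b, hb, hb'⟩ := h7
            obtain ⟨c, hc, hc'⟩ := h9
            obtain ⟨d, hd', hd''⟩ := h10
            refine ⟨⟨d, by_contra fun h => hd'' h, hd'⟩, ⟨b, by_contra fun h => hb' h, hb⟩,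
              ⟨c, hc', hc⟩, ⟨a, ha', ha⟩⟩
          have h9 : (x, s x) ∈ Cr A := h8
          rw [hCr] at h9
          exact h9
    obtain ⟨x, hx1, hx2⟩ := key R
    rcases hR x (by omega) (s x) hx2 with h | h
    · exact hs1 x h
    · exact hs2 x h
  obtain ⟨x, hx⟩ := hpure
  refine ⟨x, {s | Hs x s ⊆ A}, ?_⟩
  ext p
  rw [Set.mem_smul_set_iff_inv_smul_mem, mem_WB]
  change p ∈ A ↔ Hs x (dr x p) ⊆ A
  constructor
  · intro hp
    rcases hx (dr x p) with h | h
    · exact h
    · exact absurd hp (h (mem_Hs.2 rfl))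
  · intro h
    exact h (mem_Hs.2 rfl)

theorem aut_mul_smul_set (φ ψ : MulAut (FreeGroup X)) (A : Set (Endp X)) :
    (φ * ψ) • A = φ • (ψ • A) := mul_smul φ ψ A

/-- **Domination theorem.** -/
theorem domination (v : ι → FreeGroup X) (u : κ → FreeGroup X) (S : Set (MulAut (FreeGroup X)))
    (h1 : (1 : MulAut (FreeGroup X)) ∈ S)
    (hcl : ∀ ψ ∈ S, ∀ (B : Set (X × Bool)) (b : X × Bool), b ∈ B → il b ∉ B →
      nl (fun i => wh B b (ψ (v i))) ≤ nl (fun i => ψ (v i)) → wh B b * ψ ∈ S)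
    (R : ℕ) (hR : ∀ ψ ∈ S, nl (fun i => ψ (u i)) ≤ R)
    (hZ : ∀ ψ ∈ S, ∀ B : Set (X × Bool), cnt (fun i => ψ (v i)) (WB B) = 0 →
      cnt (fun i => ψ (u i)) (WB B) = 0) :
    ∃ C : ℕ, ∀ A : Set (Endp X), FreeCut A → cnt u A ≤ C * cnt v A := by
  -- minimal length
  obtain ⟨ψ0, hψ0, hmin⟩ : ∃ ψ0 ∈ S, ∀ ψ ∈ S, nl (fun i => ψ0 (v i)) ≤ nl (fun i => ψ (v i)) := by
    have hne : {n | ∃ ψ ∈ S, nl (fun i => ψ (v i)) = n}.Nonempty := ⟨_, 1, h1, rfl⟩
    obtain ⟨ψ0, h2, h3⟩ := Nat.sInf_mem hne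
    refine ⟨ψ0, h2, fun ψ hψ => ?_⟩
    rw [h3]
    exact Nat.sInf_le ⟨ψ, hψ, rfl⟩
  set r0 := nl (fun i => ψ0 (v i)) with hr0
  refine ⟨4 * r0 * R + R, ?_⟩
  have claim : ∀ (n : ℕ) (A : Set (Endp X)), FreeCut A →
      (∃ ψ ∈ S, nl (fun i => ψ (v i)) = r0 ∧ (Cr (ψ • A)).ncard = n) →
      (∀ ψ ∈ S, nl (fun i => ψ (v i)) = r0 → n ≤ (Cr (ψ • A)).ncard) →
      cnt u A ≤ (4 * r0 * R + R) * cnt v A := by
    intro n
    induction n using Nat.strong_induction_on with
    | _ n ih =>
      rintro A hA ⟨ψ, hψ, hψr, hψn⟩ hAmin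
      set A' := ψ • A with hA'
      have hfc : FreeCut A' := hA.aut ψ
      have hv : cnt (fun i => ψ (v i)) A' = cnt v A := cnt_aut ψ v hA.cl
      have hu : cnt (fun i => ψ (u i)) A' = cnt u A := cnt_aut ψ u hA.cl
      by_cases hred : Reducible (fun i => ψ (v i)) A'
      · obtain ⟨P', Q', hP, hQ, hPn, hQn, hPQ, hu'⟩ := hred
        -- pull back
        have pull : ∀ P' : Set (Endp X), FreeCut P' → (Cr P').ncard < (Cr A').ncard →
            cnt u (ψ⁻¹ • P') ≤ (4 * r0 * R + R) * cnt v (ψ⁻¹ • P') := by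
          intro P' hP hPn
          set P := ψ⁻¹ • P' with hPdef
          have hPf : FreeCut P := hP.aut ψ⁻¹
          have hne : {m | ∃ φ ∈ S, nl (fun i => φ (v i)) = r0 ∧ (Cr (φ • P)).ncard = m}.Nonempty :=
            ⟨_, ψ, hψ, hψr, rfl⟩
          have hmem := Nat.sInf_mem hne
          have hle : sInf {m | ∃ φ ∈ S, nl (fun i => φ (v i)) = r0 ∧ (Cr (φ • P)).ncard = m} < n := by
            refine lt_of_le_of_lt (Nat.sInf_le ⟨ψ, hψ, hψr, rfl⟩) ?_
            rw [hPdef, smul_inv_smul, ← hψn]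
            exact hPn
          refine ih _ hle P hPf hmem ?_
          intro φ hφ hφr
          exact Nat.sInf_le ⟨φ, hφ, hφr, rfl⟩
        have hP1 := pull P' hP hPn
        have hQ1 := pull Q' hQ hQn
        have e1 : cnt v (ψ⁻¹ • P') = cnt (fun i => ψ (v i)) P' := by
          have := cnt_aut ψ v (hP.cl.aut ψ⁻¹)
          rw [smul_inv_smul] at this
          exact this.symm
        have e2 : cnt v (ψ⁻¹ • Q') = cnt (fun i => ψ (v i)) Q' := by
          have := cnt_aut ψ v (hQ.cl.aut ψ⁻¹)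
          rw [smul_inv_smul] at this
          exact this.symm
        have e3 : cnt u (ψ⁻¹ • P') = cnt (fun i => ψ (u i)) P' := by
          have := cnt_aut ψ u (hP.cl.aut ψ⁻¹)
          rw [smul_inv_smul] at this
          exact this.symm
        have e4 : cnt u (ψ⁻¹ • Q') = cnt (fun i => ψ (u i)) Q' := by
          have := cnt_aut ψ u (hQ.cl.aut ψ⁻¹)
          rw [smul_inv_smul] at this
          exact this.symm
        rw [e1, e3] at hP1
        rw [e2, e4] at hQ1
        have h5 := hu' (fun i => ψ (u i))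
        rw [hu] at h5
        rw [hv] at hPQ
        calc cnt u A ≤ cnt (fun i => ψ (u i)) P' + cnt (fun i => ψ (u i)) Q' := h5
          _ ≤ (4 * r0 * R + R) * cnt (fun i => ψ (v i)) P' +
              (4 * r0 * R + R) * cnt (fun i => ψ (v i)) Q' := Nat.add_le_add hP1 hQ1
          _ = (4 * r0 * R + R) * (cnt (fun i => ψ (v i)) P' + cnt (fun i => ψ (v i)) Q') := by ring
          _ ≤ _ := Nat.mul_le_mul_left _ hPQ
      · by_cases hne : (Cr A').Nonempty
        · -- local minimality
          have hLM : LM (fun i => ψ (v i)) A' ((Cr A').ncard + 1) := by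
            intro B b hb hb'
            have e1 := nl_wh hb hb' (fun i => ψ (v i))
            have e2 := Cr_wh hb hb' hfc.cl
            have e3 : nA A' (Hs 1 b) ≤ (Cr A').ncard := by
              rw [ncard_Cr hfc.cl]
              exact Finset.single_le_sum (f := fun s => nA A' (Hs 1 s)) (fun _ _ => Nat.zero_le _)
                (Finset.mem_univ b)
            unfold cst
            rcases lt_trichotomy (cnt (fun i => ψ (v i)) (WB B)) (cnt (fun i => ψ (v i)) (Hs 1 b))
              with h | h | h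
            · exfalso
              have h6 := hcl ψ hψ B b hb hb' (by omega)
              have h7 := hmin _ h6
              have h8 : nl (fun i => (wh B b * ψ) (v i)) = nl (fun i => wh B b (ψ (v i))) := rfl
              omega
            · have h6 := hcl ψ hψ B b hb hb' (by omega)
              have h8 : nl (fun i => (wh B b * ψ) (v i)) = nl (fun i => wh B b (ψ (v i))) := rfl
              have h7 := hAmin _ h6 (by omega)
              rw [aut_mul_smul_set, ← hA'] at h7
              rw [h]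
              omega
            · have h9 : ((Cr A').ncard + 1) * cnt (fun i => ψ (v i)) (Hs 1 b) + ((Cr A').ncard + 1) ≤
                  ((Cr A').ncard + 1) * cnt (fun i => ψ (v i)) (WB B) := by
                have : cnt (fun i => ψ (v i)) (Hs 1 b) + 1 ≤ cnt (fun i => ψ (v i)) (WB B) := h
                calc _ = ((Cr A').ncard + 1) * (cnt (fun i => ψ (v i)) (Hs 1 b) + 1) := by ring
                  _ ≤ _ := Nat.mul_le_mul_left _ this
              omega
          have h5 := Cr_bound hfc hLM hred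
          have h6 := cnt_le_Cr (fun i => ψ (u i)) hfc.cl hne
          have h7 := hR ψ hψ
          rw [hu] at h6
          rw [hv, hψr] at h5
          calc cnt u A ≤ (Cr A').ncard * nl (fun i => ψ (u i)) := h6
            _ ≤ (4 * cnt v A * r0) * R := Nat.mul_le_mul h5 h7
            _ ≤ (4 * r0 * R + R) * cnt v A := by nlinarith [Nat.zero_le (R * cnt v A)]
        · rw [Set.not_nonempty_iff_eq_empty] at hne
          obtain ⟨x, B, hB⟩ := local_of_no_cross hfc.cl hfc.ne hfc.nc hne
          rw [← hv, ← hu, hB, cnt_smul, cnt_smul]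
          by_cases h0 : cnt (fun i => ψ (v i)) (WB B) = 0
          · rw [hZ ψ hψ B h0]; exact Nat.zero_le _
          · have h5 := cnt_WB_le (fun i => ψ (u i)) B
            have h7 := hR ψ hψ
            have h8 : 1 ≤ cnt (fun i => ψ (v i)) (WB B) := Nat.one_le_iff_ne_zero.2 h0
            calc cnt (fun i => ψ (u i)) (WB B) ≤ R := le_trans h5 h7
              _ ≤ (4 * r0 * R + R) * 1 := by omega
              _ ≤ _ := Nat.mul_le_mul_left _ h8
  intro A hA
  have hne : {m | ∃ φ ∈ S, nl (fun i => φ (v i)) = r0 ∧ (Cr (φ • A)).ncard = m}.Nonempty :=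
    ⟨_, ψ0, hψ0, rfl, rfl⟩
  exact claim _ A hA (Nat.sInf_mem hne) (fun φ hφ hφr => Nat.sInf_le ⟨φ, hφ, hφr, rfl⟩)

/-- Domination of lengths from domination of crossing numbers. -/
theorem nl_le_of_cnt_le (hX : 2 ≤ Fintype.card X) (v : ι → FreeGroup X) (u : κ → FreeGroup X)
    (C : ℕ) (hC : ∀ A : Set (Endp X), FreeCut A → cnt u A ≤ C * cnt v A)
    (φ : MulAut (FreeGroup X)) : nl (fun i => φ (u i)) ≤ C * nl (fun i => φ (v i)) := by
  unfold nl
  rw [Finset.mul_sum]
  apply Finset.sum_le_sum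
  intro s _
  have h1 : FreeCut (φ⁻¹ • Hs 1 s) := (freeCut_Hs hX s).aut φ⁻¹
  have h2 := cnt_aut φ u h1.cl
  have h3 := cnt_aut φ v h1.cl
  rw [smul_inv_smul] at h2 h3
  rw [h2, h3]
  exact hC _ h1

end Helper85.BTE
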