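import Pool.Agent.Helper85.BTE.Basic

/-!
The space of ends of a free group.
-/

set_option autoImplicit false

namespace Helper85.BTE

open FreeGroup Pointwise

variable {X : Type} [DecidableEq X]

/-- Almost invariant sets. -/
def AI (S : Set (FreeGroup X)) : Prop := ∀ g : FreeGroup X, {h | ¬ (h ∈ S ↔ h * g ∈ S)}.Finite

omit [DecidableEq X] in
theorem AI.compl {S : Set (FreeGroup X)} (h : AI S) : AI Sᶜ := by
  intro g
  refine (h g).subset ?_
  intro x hx
  simp only [Set.mem_compl_iff, Set.mem_ofPred_eq] at hx ⊢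
  tauto

omit [DecidableEq X] in
theorem AI.inter {S T : Set (FreeGroup X)} (h : AI S) (h' : AI T) : AI (S ∩ T) := by
  intro g
  refine ((h g).union (h' g)).subset ?_
  intro x hx
  simp only [Set.mem_inter_iff, Set.mem_ofPred_eq, Set.mem_union] at hx ⊢
  tauto

omit [DecidableEq X] in
theorem AI.union {S T : Set (FreeGroup X)} (h : AI S) (h' : AI T) : AI (S ∪ T) := by
  intro g
  refine ((h g).union (h' g)).subset ?_
  intro x hx
  simp only [Set.mem_ofPred_eq, Set.mem_union] at hx ⊢
  tauto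

omit [DecidableEq X] in
theorem AI.univ : AI (Set.univ : Set (FreeGroup X)) := by
  intro g; simp

omit [DecidableEq X] in
theorem AI.of_finite {S : Set (FreeGroup X)} (h : S.Finite) : AI S := by
  intro g
  have h2 : ((fun x => x * g) ⁻¹' S).Finite :=
    h.preimage (fun a _ b _ hab => mul_right_cancel hab)
  refine (h.union h2).subset ?_
  intro x hx
  simp only [Set.mem_ofPred_eq, Set.mem_union, Set.mem_preimage] at hx ⊢
  tauto

theorem AI.of_letters {S : Set (FreeGroup X)}
    (h : ∀ s : X × Bool, {h | ¬ (h ∈ S ↔ h * lt s ∈ S)}.Finite) : AI S := by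
  intro g
  induction g using letter_ind with
  | h1 => simp
  | hs y t ih =>
    have h2 : ((fun x => x * y) ⁻¹' {h | ¬ (h ∈ S ↔ h * lt t ∈ S)}).Finite :=
      (h t).preimage (fun a _ b _ hab => mul_right_cancel hab)
    refine (ih.union h2).subset ?_
    intro x hx
    simp only [Set.mem_ofPred_eq, Set.mem_union, Set.mem_preimage, ← mul_assoc] at hx ⊢
    tauto

omit [DecidableEq X] in
theorem AI.preimage_mul {S : Set (FreeGroup X)} (h : AI S) (g : FreeGroup X) :
    AI ((fun x => g * x) ⁻¹' S) := by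
  intro k
  have h2 : ((fun x => g * x) ⁻¹' {h | ¬ (h ∈ S ↔ h * k ∈ S)}).Finite :=
    (h k).preimage (fun a _ b _ hab => mul_left_cancel hab)
  refine h2.subset ?_
  intro x hx
  simpa only [Set.mem_ofPred_eq, Set.mem_preimage, ← mul_assoc] using hx

omit [DecidableEq X] in
theorem AI.preimage_aut {S : Set (FreeGroup X)} (h : AI S) (φ : MulAut (FreeGroup X)) :
    AI (φ ⁻¹' S) := by
  intro k
  have h2 : (φ ⁻¹' {h | ¬ (h ∈ S ↔ h * φ k ∈ S)}).Finite :=
    (h (φ k)).preimage (fun a _ b _ hab => φ.injective hab)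
  refine h2.subset ?_
  intro x hx
  simpa only [Set.mem_ofPred_eq, Set.mem_preimage, _root_.map_mul] using hx

/-- An end: an ultrafilter of almost invariant sets without finite sets. -/
@[ext] structure Endp (X : Type) where
  sets : Set (Set (FreeGroup X))
  ai : ∀ {S}, S ∈ sets → AI S
  inter : ∀ {S T}, S ∈ sets → T ∈ sets → S ∩ T ∈ sets
  compl : ∀ {S}, AI S → (Sᶜ ∈ sets ↔ S ∉ sets)
  inf : ∀ {S}, S ∈ sets → S.Infinite

namespace Endp

omit [DecidableEq X] in
theorem mono {p : Endp X} {S T : Set (FreeGroup X)} (hS : S ∈ p.sets) (hT : AI T)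
    (h : (S \ T).Finite) : T ∈ p.sets := by
  by_contra h1
  have h2 := (p.compl hT).2 h1
  have h3 := p.inf (p.inter hS h2)
  exact h3 h

/-- Pushforward of an end under a bijection preserving almost invariant sets. -/
def push (f : FreeGroup X ≃ FreeGroup X) (hf : ∀ S, AI (f ⁻¹' S) ↔ AI S) (p : Endp X) :
    Endp X where
  sets := {S | f ⁻¹' S ∈ p.sets}
  ai := fun {S} h => (hf S).1 (p.ai h)
  inter := fun {S T} h h' => by
    simp only [Set.mem_ofPred_eq, Set.preimage_inter] at h h' ⊢
    exact p.inter h h'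
  compl := fun {S} h => by
    simp only [Set.mem_ofPred_eq, Set.preimage_compl]
    exact p.compl ((hf S).2 h)
  inf := fun {S} h h' => by
    refine p.inf h (h'.preimage f.injective.injOn)

end Endp

omit [DecidableEq X] in
theorem ai_mul_iff (g : FreeGroup X) (S : Set (FreeGroup X)) :
    AI ((Equiv.mulLeft g) ⁻¹' S) ↔ AI S := by
  constructor
  · intro h
    have := h.preimage_mul g⁻¹
    have h2 : (fun x => g⁻¹ * x) ⁻¹' ((Equiv.mulLeft g) ⁻¹' S) = S := by
      ext x; simp
    rwa [h2] at this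
  · intro h
    exact h.preimage_mul g

omit [DecidableEq X] in
theorem ai_aut_iff (φ : MulAut (FreeGroup X)) (S : Set (FreeGroup X)) :
    AI (φ.toEquiv ⁻¹' S) ↔ AI S := by
  constructor
  · intro h
    have := h.preimage_aut φ⁻¹
    have h2 : (φ⁻¹ : MulAut (FreeGroup X)) ⁻¹' (φ.toEquiv ⁻¹' S) = S := by
      ext x
      simp only [Set.mem_preimage]
      have : φ.toEquiv ((φ⁻¹ : MulAut (FreeGroup X)) x) = x := MulAut.apply_inv_self _ φ x
      rw [this]
    rwa [h2] at this
  · intro h
    exact h.preimage_aut φ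

instance : MulAction (FreeGroup X) (Endp X) where
  smul g p := p.push (Equiv.mulLeft g) (ai_mul_iff g)
  one_smul p := by
    apply Endp.ext
    ext S
    change ((Equiv.mulLeft 1) ⁻¹' S) ∈ p.sets ↔ _
    have : ((Equiv.mulLeft (1 : FreeGroup X)) ⁻¹' S) = S := by ext x; simp
    rw [this]
  mul_smul g h p := by
    apply Endp.ext
    ext S
    change ((Equiv.mulLeft (g * h)) ⁻¹' S) ∈ p.sets ↔
      ((Equiv.mulLeft h) ⁻¹' ((Equiv.mulLeft g) ⁻¹' S)) ∈ p.sets
    have : ((Equiv.mulLeft (g * h)) ⁻¹' S) = ((Equiv.mulLeft h) ⁻¹' ((Equiv.mulLeft g) ⁻¹' S)) := by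
      ext x; simp [mul_assoc]
    rw [this]

instance : MulAction (MulAut (FreeGroup X)) (Endp X) where
  smul φ p := p.push φ.toEquiv (ai_aut_iff φ)
  one_smul p := by
    apply Endp.ext
    ext S
    change ((1 : MulAut (FreeGroup X)).toEquiv ⁻¹' S) ∈ p.sets ↔ _
    have : ((1 : MulAut (FreeGroup X)).toEquiv ⁻¹' S) = S := by ext x; simp
    rw [this]
  mul_smul g h p := by
    apply Endp.ext
    ext S
    change ((g * h).toEquiv ⁻¹' S) ∈ p.sets ↔
      (h.toEquiv ⁻¹' (g.toEquiv ⁻¹' S)) ∈ p.sets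
    have : ((g * h).toEquiv ⁻¹' S) = (h.toEquiv ⁻¹' (g.toEquiv ⁻¹' S)) := by
      ext x; rfl
    rw [this]

omit [DecidableEq X] in
theorem mem_smul_sets {g : FreeGroup X} {p : Endp X} {S : Set (FreeGroup X)} :
    S ∈ (g • p).sets ↔ (fun x => g * x) ⁻¹' S ∈ p.sets := Iff.rfl

omit [DecidableEq X] in
theorem mem_aut_smul_sets {φ : MulAut (FreeGroup X)} {p : Endp X} {S : Set (FreeGroup X)} :
    S ∈ (φ • p).sets ↔ φ ⁻¹' S ∈ p.sets := Iff.rfl

omit [DecidableEq X] in
theorem aut_smul_smul (φ : MulAut (FreeGroup X)) (g : FreeGroup X) (p : Endp X) :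
    φ • (g • p) = (φ g) • (φ • p) := by
  apply Endp.ext
  ext S
  rw [mem_aut_smul_sets, mem_smul_sets, mem_smul_sets, mem_aut_smul_sets]
  have : (fun x => g * x) ⁻¹' (φ ⁻¹' S) = φ ⁻¹' ((fun x => φ g * x) ⁻¹' S) := by
    ext x; simp
  rw [this]

/-- The clopen subset of ends given by an almost invariant set. -/
def st (S : Set (FreeGroup X)) : Set (Endp X) := {p | S ∈ p.sets}

/-- Clopen subsets of the space of ends. -/
def Cl (A : Set (Endp X)) : Prop := ∃ S, AI S ∧ A = st S

omit [DecidableEq X] in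
theorem st_compl {S : Set (FreeGroup X)} (h : AI S) : st Sᶜ = (st S)ᶜ := by
  ext p; exact p.compl h

omit [DecidableEq X] in
theorem st_inter {S T : Set (FreeGroup X)} (h : AI S) (h' : AI T) :
    st (S ∩ T) = st S ∩ st T := by
  ext p
  constructor
  · intro h2
    exact ⟨p.mono h2 h (by
      have : (S ∩ T) \ S = ∅ := by ext x; simp; tauto
      rw [this]; exact Set.finite_empty), p.mono h2 h' (by
      have : (S ∩ T) \ T = ∅ := by ext x; simp
      rw [this]; exact Set.finite_empty)⟩
  · rintro ⟨h1, h2⟩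
    exact p.inter h1 h2

omit [DecidableEq X] in
theorem Cl.compl {A : Set (Endp X)} (h : Cl A) : Cl Aᶜ := by
  obtain ⟨S, hS, rfl⟩ := h
  exact ⟨Sᶜ, hS.compl, (st_compl hS).symm⟩

omit [DecidableEq X] in
theorem Cl.inter {A B : Set (Endp X)} (h : Cl A) (h' : Cl B) : Cl (A ∩ B) := by
  obtain ⟨S, hS, rfl⟩ := h
  obtain ⟨T, hT, rfl⟩ := h'
  exact ⟨S ∩ T, hS.inter hT, (st_inter hS hT).symm⟩

omit [DecidableEq X] in
theorem smul_st (g : FreeGroup X) (S : Set (FreeGroup X)) :
    g • st S = st ((fun x => g⁻¹ * x) ⁻¹' S) := by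
  ext p
  rw [Set.mem_smul_set_iff_inv_smul_mem]
  exact Iff.rfl

omit [DecidableEq X] in
theorem aut_smul_st (φ : MulAut (FreeGroup X)) (S : Set (FreeGroup X)) :
    φ • st S = st ((φ⁻¹ : MulAut (FreeGroup X)) ⁻¹' S) := by
  ext p
  rw [Set.mem_smul_set_iff_inv_smul_mem]
  exact Iff.rfl

omit [DecidableEq X] in
theorem Cl.smul {A : Set (Endp X)} (h : Cl A) (g : FreeGroup X) : Cl (g • A) := by
  obtain ⟨S, hS, rfl⟩ := h
  exact ⟨_, hS.preimage_mul g⁻¹, smul_st g S⟩

omit [DecidableEq X] in
theorem Cl.aut {A : Set (Endp X)} (h : Cl A) (φ : MulAut (FreeGroup X)) : Cl (φ • A) := by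
  obtain ⟨S, hS, rfl⟩ := h
  exact ⟨_, hS.preimage_aut φ⁻¹, aut_smul_st φ S⟩

omit [DecidableEq X] in
theorem aut_smul_set (φ : MulAut (FreeGroup X)) (g : FreeGroup X) (A : Set (Endp X)) :
    φ • (g • A) = (φ g) • (φ • A) := by
  ext p
  simp only [Set.mem_smul_set_iff_inv_smul_mem]
  have : (φ⁻¹ : MulAut (FreeGroup X)) • ((φ g)⁻¹ • p) = g⁻¹ • ((φ⁻¹ : MulAut (FreeGroup X)) • p) := by
    rw [aut_smul_smul]
    congr 1
    rw [_root_.map_inv, MulAut.inv_apply_self]
  rw [this]

/-- The set of group elements beginning with the letter `s`. -/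
def WF (s : X × Bool) : Set (FreeGroup X) := {h | hd h = some s}

theorem ai_WF (s : X × Bool) : AI (WF s) := by
  apply AI.of_letters
  intro r
  refine (Set.toFinite ({1, lt s} : Set (FreeGroup X))).subset ?_
  intro g hg
  simp only [Set.mem_insert_iff, Set.mem_singleton_iff]
  by_contra h
  push Not at h
  apply hg
  change hd g = some s ↔ hd (g * lt r) = some s
  rw [hd_mul_lt]
  · rintro ⟨h1, -⟩; exact h.1 h1
  · rintro ⟨h1, h2⟩
    apply h.2
    rw [h2, ← lt_inv] at h1
    exact mul_inv_eq_one.1 h1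

/-- Direction at the base vertex. -/
theorem exists_dir [Finite X] (p : Endp X) : ∃ s : X × Bool, WF s ∈ p.sets := by
  by_contra h
  push Not at h
  have h1 : ∀ s, (WF s)ᶜ ∈ p.sets := fun s => (p.compl (ai_WF s)).2 (h s)
  have h2 : ∀ T : Set (X × Bool), T.Finite → (⋂ s ∈ T, (WF s)ᶜ) ∈ p.sets := by
    intro T hT
    induction T, hT using Set.Finite.induction_on with
    | empty =>
      simp only [Set.mem_empty_iff_false, Set.iInter_of_empty, Set.iInter_univ]
      by_contra h3
      have h4 := (p.compl AI.univ).2 h3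
      have h5 := p.inf h4
      simp at h5
    | insert _ _ ih =>
      rw [Set.biInter_insert]
      exact p.inter (h1 _) ih
  have h3 := h2 Set.univ Set.finite_univ
  have h4 := p.inf h3
  apply h4
  refine (Set.finite_singleton (1 : FreeGroup X)).subset ?_
  intro g hg
  simp only [Set.mem_univ, Set.iInter_true, Set.mem_iInter, Set.mem_compl_iff] at hg
  rcases hh : hd g with _ | s
  · exact hd_eq_none.1 hh
  · exact absurd hh (hg s)

/-- Direction at the base vertex. -/
noncomputable def dir [Finite X] (p : Endp X) : X × Bool := (exists_dir p).choose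

theorem WF_mem_iff [Finite X] {p : Endp X} {s : X × Bool} : WF s ∈ p.sets ↔ dir p = s := by
  have h0 := (exists_dir p).choose_spec
  constructor
  · intro h
    have h1 := p.inf (p.inter h h0)
    by_contra h2
    apply h1
    have : WF s ∩ WF (exists_dir p).choose = ∅ := by
      ext g
      simp only [WF, Set.mem_inter_iff, Set.mem_ofPred_eq, Set.mem_empty_iff_false, iff_false,
        not_and]
      intro h3 h4
      rw [h3] at h4
      exact h2 (Option.some.inj h4).symm
    rw [this]; exact Set.finite_empty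
  · rintro rfl; exact h0

theorem dir_lt_smul [Finite X] {p : Endp X} {s : X × Bool} :
    dir (lt s • p) = s ↔ dir p ≠ il s := by
  rw [← WF_mem_iff, mem_smul_sets]
  have h : (fun x => lt s * x) ⁻¹' (WF s) = (WF (il s))ᶜ := by
    ext g
    exact hd_lt_mul s g
  rw [h, p.compl (ai_WF _), WF_mem_iff]

/-- Direction at a vertex `x` towards an end. -/
noncomputable def dr [Finite X] (x : FreeGroup X) (p : Endp X) : X × Bool := dir (x⁻¹ • p)

theorem dr_one [Finite X] (p : Endp X) : dr 1 p = dir p := by simp [dr]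

theorem dr_smul [Finite X] (g x : FreeGroup X) (p : Endp X) : dr (g * x) (g • p) = dr x p := by
  unfold dr
  rw [smul_smul]
  congr 2
  group

theorem dr_mul_lt [Finite X] (x : FreeGroup X) (s : X × Bool) (p : Endp X) :
    dr (x * lt s) p = il s ↔ dr x p ≠ s := by
  unfold dr
  rw [mul_inv_rev, lt_inv, mul_smul, dir_lt_smul, il_il]

/-- If the direction of `p` at `1` is not the direction to `y`, then the direction of `p` at `y`
is the direction to `1`. -/
theorem dr_of_hd_ne [Finite X] {y : FreeGroup X} (hy : y ≠ 1) {p : Endp X}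
    (h : hd y ≠ some (dir p)) : hd y⁻¹ = some (dr y p) := by
  induction y using right_ind with
  | h1 => exact absurd rfl hy
  | hs y t ht ih =>
    have h1 : hd (y * lt t)⁻¹ = some (il t) := by
      rw [mul_inv_rev, lt_inv, hd_lt_mul, il_il]; exact ht
    rw [h1]
    congr 1
    symm
    rw [dr_mul_lt]
    by_cases hy1 : y = 1
    · subst hy1
      rw [dr_one]
      intro h2
      apply h
      rw [one_mul, hd_lt, h2]
    · have h2 := ih hy1 (by rw [← hd_mul_lt_of_ne hy1 ht]; exact h)
      intro h3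
      rw [h3] at h2
      exact ht h2

/-- General version at two vertices `x, y`. -/
theorem dr_of_ne [Finite X] {x y : FreeGroup X} (hy : x ≠ y) {p : Endp X}
    (h : hd (x⁻¹ * y) ≠ some (dr x p)) : hd (y⁻¹ * x) = some (dr y p) := by
  have h1 : x⁻¹ * y ≠ 1 := fun h => hy (inv_mul_eq_one.1 h)
  have h2 := dr_of_hd_ne h1 (p := x⁻¹ • p) h
  rw [mul_inv_rev, inv_inv] at h2
  rw [h2]
  congr 1
  unfold dr
  rw [smul_smul]
  congr 2
  group

end Helper85.BTE
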