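import Mathlib

/-!
Filtration of the group ring by powers of the kernel of the augmentation modulo `p`, and its
consequence: an automorphism of a group acting trivially on `m / m ^ 2` has the property that
`ψ ^ (p ^ a)` does not change the values of congruence representations modulo `p ^ (a + 1)`.
-/

set_option autoImplicit false

namespace Helper85.BTE

section General

variable {A : Type*} [Ring A] (m : Submodule ℤ A)

theorem filt_mono (hm : m * m ≤ m) {i j : ℕ} (hi : 1 ≤ i) (hij : i ≤ j) : m ^ j ≤ m ^ i := by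
  induction j, hij using Nat.le_induction with
  | base => exact le_rfl
  | succ j hj ih =>
    obtain ⟨j', rfl⟩ : ∃ j', j = j' + 1 := ⟨j - 1, by omega⟩
    calc m ^ (j' + 1 + 1) = m ^ j' * (m * m) := by rw [pow_succ, pow_succ, mul_assoc]
      _ ≤ m ^ j' * m := by gcongr
      _ = m ^ (j' + 1) := (pow_succ _ _).symm
      _ ≤ m ^ i := ih

theorem filt_pres (T : A →+* A) (h1 : ∀ x ∈ m, T x ∈ m) (i : ℕ) :
    ∀ x ∈ m ^ i, T x ∈ m ^ i := by
  induction i with
  | zero =>
    intro x hx
    rw [pow_zero] at hx ⊢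
    obtain ⟨z, rfl⟩ := Submodule.mem_one.1 hx
    rw [Submodule.mem_one]
    exact ⟨z, by simp⟩
  | succ i ih =>
    intro x hx
    rw [pow_succ] at hx ⊢
    induction hx using Submodule.mul_induction_on' with
    | mem_mul_mem a ha b hb => rw [map_mul]; exact Submodule.mul_mem_mul (ih a ha) (h1 b hb)
    | add a ha b hb iha ihb => rw [map_add]; exact add_mem iha ihb

theorem filt_deriv (T : A →+* A) (h1 : ∀ x ∈ m, T x ∈ m) (h2 : ∀ x ∈ m, T x - x ∈ m ^ 2) (i : ℕ) :
    ∀ x ∈ m ^ i, T x - x ∈ m ^ (i + 1) := by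
  induction i with
  | zero =>
    intro x hx
    rw [pow_zero] at hx
    obtain ⟨z, rfl⟩ := Submodule.mem_one.1 hx
    simp
  | succ i ih =>
    intro x hx
    rw [pow_succ] at hx
    induction hx using Submodule.mul_induction_on' with
    | mem_mul_mem a ha b hb =>
      have : T (a * b) - a * b = (T a - a) * T b + a * (T b - b) := by
        rw [map_mul, sub_mul, mul_sub]; abel
      rw [this]
      refine add_mem ?_ ?_
      · rw [pow_succ]
        exact Submodule.mul_mem_mul (ih a ha) (h1 b hb)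
      · rw [add_assoc, pow_add]
        exact Submodule.mul_mem_mul ha (h2 b hb)
    | add a ha b hb iha ihb =>
      rw [map_add, add_sub_add_comm]; exact add_mem iha ihb

theorem filt_iter (E : A →+* A) (c : ℕ) (h1 : ∀ i, ∀ x ∈ m ^ i, E x ∈ m ^ i)
    (h2 : ∀ i, ∀ x ∈ m ^ i, E x - x ∈ m ^ (i + c)) (k : ℕ) :
    ∀ i, ∀ x ∈ m ^ i, E^[k] x - x ∈ m ^ (i + c) := by
  induction k with
  | zero => intro i x hx; simp
  | succ k ih =>
    intro i x hx
    have : E^[k + 1] x - x = E (E^[k] x - x) + (E x - x) := by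
      rw [Function.iterate_succ_apply', map_sub]; abel
    rw [this]
    exact add_mem (h1 _ _ (ih i x hx)) (h2 i x hx)

theorem filt_p (p : ℕ) (hp : (p : A) ∈ m) (hm : m * m ≤ m) (E : A →+* A) (c : ℕ) (hc : 1 ≤ c)
    (h1 : ∀ i, ∀ x ∈ m ^ i, E x ∈ m ^ i)
    (h2 : ∀ i, ∀ x ∈ m ^ i, E x - x ∈ m ^ (i + c)) :
    ∀ i, ∀ x ∈ m ^ i, E^[p] x - x ∈ m ^ (i + (c + 1)) := by
  intro i x hx
  have key : ∀ n : ℕ, E^[n] x - x - (n : A) * (E x - x) ∈ m ^ (i + (c + 1)) := by
    intro n
    induction n with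
    | zero => simp
    | succ n ih =>
      have e1 : E^[n + 1] x - x - ((n + 1 : ℕ) : A) * (E x - x) =
          (E^[n] x - x - (n : A) * (E x - x)) + (E^[n] (E x - x) - (E x - x)) := by
        have e2 : E^[n] (E x - x) = E^[n + 1] x - E^[n] x := by
          rw [Function.iterate_succ_apply]
          exact iterate_map_sub E n (E x) x
        rw [e2]
        push_cast
        rw [add_mul, one_mul]
        abel
      rw [e1]
      refine add_mem ih ?_
      have h3 := filt_iter m E c h1 h2 n (i + c) (E x - x) (h2 i x hx)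
      exact filt_mono m hm (by omega) (by omega) h3
  have h4 := key p
  have h5 : (p : A) * (E x - x) ∈ m ^ (i + (c + 1)) := by
    have : i + (c + 1) = 1 + (i + c) := by ring
    rw [this, pow_add, pow_one]
    exact Submodule.mul_mem_mul hp (h2 i x hx)
  have : E^[p] x - x = (E^[p] x - x - (p : A) * (E x - x)) + (p : A) * (E x - x) := by abel
  rw [this]
  exact add_mem h4 h5

theorem filt_pow (p : ℕ) (hp : (p : A) ∈ m) (hm : m * m ≤ m) (T : A →+* A)
    (h1 : ∀ x ∈ m, T x ∈ m) (h2 : ∀ x ∈ m, T x - x ∈ m ^ 2) (a : ℕ) :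
    ∀ i, ∀ x ∈ m ^ i, T^[p ^ a] x - x ∈ m ^ (i + (a + 1)) := by
  have hpres : ∀ n : ℕ, ∀ i, ∀ x ∈ m ^ i, T^[n] x ∈ m ^ i := by
    intro n
    induction n with
    | zero => intro i x hx; simpa using hx
    | succ n ih =>
      intro i x hx
      rw [Function.iterate_succ_apply']
      exact filt_pres m T h1 i _ (ih i x hx)
  induction a with
  | zero =>
    intro i x hx
    simpa using filt_deriv m T h1 h2 i x hx
  | succ a ih =>
    intro i x hx
    have e0 : ∀ y, T^[p ^ (a + 1)] y = (T ^ (p ^ a) : A →+* A)^[p] y := by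
      intro y
      rw [pow_succ, Function.iterate_mul, RingHom.coe_pow]
    rw [e0]
    refine filt_p m p hp hm (T ^ (p ^ a)) (a + 1) (by omega) ?_ ?_ i x hx
    · intro i x hx
      rw [RingHom.coe_pow]
      exact hpres _ i x hx
    · intro i x hx
      rw [RingHom.coe_pow]
      exact ih i x hx

end General

section GroupRing

variable (F : Type) [Group F] (p : ℕ)

/-- The kernel of the augmentation modulo `p` of the integral group ring. -/
noncomputable def mSub : Submodule ℤ (MonoidAlgebra ℤ F) :=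
  Submodule.span ℤ ({(p : MonoidAlgebra ℤ F)} ∪
    Set.range (fun g : F => MonoidAlgebra.of ℤ F g - 1))

theorem p_mem_mSub : (p : MonoidAlgebra ℤ F) ∈ mSub F p :=
  Submodule.subset_span (Or.inl rfl)

theorem of_sub_one_mem (g : F) : MonoidAlgebra.of ℤ F g - 1 ∈ mSub F p :=
  Submodule.subset_span (Or.inr ⟨g, rfl⟩)

theorem natCast_mul_mem (x : MonoidAlgebra ℤ F) (hx : x ∈ mSub F p) (n : ℕ) :
    (n : MonoidAlgebra ℤ F) * x ∈ mSub F p := by
  rw [← nsmul_eq_mul]
  exact Submodule.smul_of_tower_mem _ n hx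

theorem mSub_mul_le : mSub F p * mSub F p ≤ mSub F p := by
  conv_lhs => rw [mSub, Submodule.span_mul_span]
  rw [Submodule.span_le]
  rintro _ ⟨x, hx, y, hy, rfl⟩
  simp only [SetLike.mem_coe]
  rcases hx with hx | ⟨g, rfl⟩
  · rw [Set.mem_singleton_iff] at hx
    subst hx
    exact natCast_mul_mem F p y (Submodule.subset_span hy) p
  · rcases hy with hy | ⟨h, rfl⟩
    · rw [Set.mem_singleton_iff] at hy
      subst hy
      have : (MonoidAlgebra.of ℤ F g - 1) * (p : MonoidAlgebra ℤ F) =
          (p : MonoidAlgebra ℤ F) * (MonoidAlgebra.of ℤ F g - 1) :=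
        (Nat.cast_commute p _).symm.eq
      show (MonoidAlgebra.of ℤ F g - 1) * (p : MonoidAlgebra ℤ F) ∈ mSub F p
      rw [this]
      exact natCast_mul_mem F p _ (of_sub_one_mem F p g) p
    · have : (MonoidAlgebra.of ℤ F g - 1) * (MonoidAlgebra.of ℤ F h - 1) =
          (MonoidAlgebra.of ℤ F (g * h) - 1)
          - (MonoidAlgebra.of ℤ F g - 1) - (MonoidAlgebra.of ℤ F h - 1) := by
        rw [map_mul]
        noncomm_ring
      show (MonoidAlgebra.of ℤ F g - 1) * (MonoidAlgebra.of ℤ F h - 1) ∈ mSub F p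
      rw [this]
      exact sub_mem (sub_mem (of_sub_one_mem F p _) (of_sub_one_mem F p _)) (of_sub_one_mem F p _)

variable {F}

/-- The ring endomorphism of the group ring induced by a group endomorphism. -/
noncomputable def grT (ψ : F →* F) : MonoidAlgebra ℤ F →+* MonoidAlgebra ℤ F :=
  MonoidAlgebra.mapDomainRingHom ℤ ψ

theorem grT_of (ψ : F →* F) (g : F) :
    grT ψ (MonoidAlgebra.of ℤ F g) = MonoidAlgebra.of ℤ F (ψ g) := by
  simp [grT]

theorem grT_iter (ψ : F →* F) (n : ℕ) (g : F) :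
    (grT ψ)^[n] (MonoidAlgebra.of ℤ F g) = MonoidAlgebra.of ℤ F (ψ^[n] g) := by
  induction n with
  | zero => rfl
  | succ n ih => rw [Function.iterate_succ_apply', ih, grT_of, Function.iterate_succ_apply']

theorem grT_mem (ψ : F →* F) : ∀ x ∈ mSub F p, grT ψ x ∈ mSub F p := by
  intro x hx
  induction hx using Submodule.span_induction with
  | mem x hx =>
    rcases hx with hx | ⟨g, rfl⟩
    · rw [Set.mem_singleton_iff] at hx
      subst hx
      rw [map_natCast]
      exact p_mem_mSub F p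
    · simp only [map_sub, map_one]
      rw [grT_of]
      exact of_sub_one_mem F p _
  | zero => rw [map_zero]; exact zero_mem _
  | add x y _ _ hx hy => rw [map_add]; exact add_mem hx hy
  | smul a x _ hx => rw [map_zsmul]; exact Submodule.smul_mem _ _ hx

theorem grT_sub_mem (ψ : F →* F)
    (h : ∀ g, MonoidAlgebra.of ℤ F (ψ g) - MonoidAlgebra.of ℤ F g ∈ mSub F p ^ 2) :
    ∀ x ∈ mSub F p, grT ψ x - x ∈ mSub F p ^ 2 := by
  intro x hx
  induction hx using Submodule.span_induction with
  | mem x hx =>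
    rcases hx with hx | ⟨g, rfl⟩
    · rw [Set.mem_singleton_iff] at hx
      subst hx
      rw [map_natCast, sub_self]
      exact zero_mem _
    · simp only [map_sub, map_one]
      rw [grT_of, sub_sub_sub_cancel_right]
      exact h g
  | zero => rw [map_zero, sub_zero]; exact zero_mem _
  | add x y _ _ hx hy => rw [map_add, add_sub_add_comm]; exact add_mem hx hy
  | smul a x _ hx => rw [map_zsmul, ← smul_sub]; exact Submodule.smul_mem _ _ hx

/-- A congruence representation maps `m ^ j` to multiples of `p ^ j`. -/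
theorem lift_mem {B : Type*} [Ring B] (ρ : F →* B) (hρ : ∀ g, ∃ c, ρ g - 1 = (p : B) * c)
    (j : ℕ) : ∀ x ∈ mSub F p ^ j, ∃ c, MonoidAlgebra.lift ℤ B F ρ x = (p : B) ^ j * c := by
  have hbase : ∀ x ∈ mSub F p, ∃ c, MonoidAlgebra.lift ℤ B F ρ x = (p : B) * c := by
    intro x hx
    induction hx using Submodule.span_induction with
    | mem x hx =>
      rcases hx with hx | ⟨g, rfl⟩
      · rw [Set.mem_singleton_iff] at hx
        subst hx
        exact ⟨1, by rw [map_natCast, mul_one]⟩
      · obtain ⟨c, hc⟩ := hρ g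
        refine ⟨c, ?_⟩
        simp only [map_sub, map_one]
        rw [MonoidAlgebra.lift_of]
        exact hc
    | zero => exact ⟨0, by simp⟩
    | add x y _ _ hx hy =>
      obtain ⟨c, hc⟩ := hx
      obtain ⟨d, hd⟩ := hy
      exact ⟨c + d, by rw [map_add, hc, hd, mul_add]⟩
    | smul a x _ hx =>
      obtain ⟨c, hc⟩ := hx
      exact ⟨a • c, by rw [map_zsmul, hc, mul_smul_comm]⟩
  induction j with
  | zero => intro x hx; exact ⟨MonoidAlgebra.lift ℤ B F ρ x, by simp⟩
  | succ j ih =>
    intro x hx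
    rw [pow_succ] at hx
    induction hx using Submodule.mul_induction_on' with
    | mem_mul_mem a ha b hb =>
      obtain ⟨c, hc⟩ := ih a ha
      obtain ⟨d, hd⟩ := hbase b hb
      refine ⟨c * d, ?_⟩
      rw [map_mul, hc, hd, pow_succ]
      have : c * ((p : B) * d) = (p : B) * (c * d) := by
        rw [← mul_assoc, ← mul_assoc, (Nat.cast_commute p c).eq]
      rw [mul_assoc, this, mul_assoc]
    | add a ha b hb iha ihb =>
      obtain ⟨c, hc⟩ := iha
      obtain ⟨d, hd⟩ := ihb
      exact ⟨c + d, by rw [map_add, hc, hd, mul_add]⟩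

/-- The main consequence: `ψ ^ (p ^ a)` preserves congruence representations
modulo `p ^ J` with `J ≤ a + 1`. -/
theorem rep_iter_eq (ψ : F →* F)
    (h : ∀ g, MonoidAlgebra.of ℤ F (ψ g) - MonoidAlgebra.of ℤ F g ∈ mSub F p ^ 2)
    {B : Type*} [Ring B] (ρ : F →* B) (hρ : ∀ g, ∃ c, ρ g - 1 = (p : B) * c)
    (J a : ℕ) (hJ : (p : B) ^ J = 0) (ha : J ≤ a) (g : F) :
    ρ (ψ^[p ^ a] g) = ρ g := by
  have h1 := filt_pow (mSub F p) p (p_mem_mSub F p) (mSub_mul_le F p) (grT ψ) (grT_mem p ψ)
    (grT_sub_mem p ψ h) a 1 (MonoidAlgebra.of ℤ F g - 1)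
    (by rw [pow_one]; exact of_sub_one_mem F p g)
  have e1 : (grT ψ)^[p ^ a] (MonoidAlgebra.of ℤ F g - 1) - (MonoidAlgebra.of ℤ F g - 1) =
      MonoidAlgebra.of ℤ F (ψ^[p ^ a] g) - MonoidAlgebra.of ℤ F g := by
    rw [iterate_map_sub, iterate_map_one, grT_iter]
    abel
  rw [e1] at h1
  obtain ⟨c, hc⟩ := lift_mem p ρ hρ _ _ h1
  rw [map_sub, MonoidAlgebra.lift_of, MonoidAlgebra.lift_of] at hc
  have : (p : B) ^ (1 + (a + 1)) = 0 := pow_eq_zero_of_le (by omega) hJ
  rw [this, zero_mul] at hc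
  exact sub_eq_zero.1 hc

end GroupRing

end Helper85.BTE
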