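import Mathlib

/-!
Words in matrices with adjugates, and the passage from congruence representations
`x_i ↦ 1 + p X_i` modulo `p ^ J` to arbitrary representations over commutative rings.
-/

set_option autoImplicit false

namespace Helper85.BTE

open Matrix

section Words

variable {R : Type*} [CommRing R] {S : Type*} [CommRing S] {X : Type} {ι : Type} [Fintype ι]
  [DecidableEq ι]

/-- The word `L` evaluated at matrices, with adjugates for the inverse letters. -/
def WY (Y : X → Matrix ι ι R) (L : List (X × Bool)) : Matrix ι ι R :=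
  (L.map fun s => if s.2 then Y s.1 else (Y s.1).adjugate).prod

/-- The product of the determinants over the inverse letters of the word `L`. -/
def DY (Y : X → Matrix ι ι R) (L : List (X × Bool)) : R :=
  (L.map fun s => if s.2 then 1 else (Y s.1).det).prod

theorem map_WY (f : R →+* S) (Y : X → Matrix ι ι R) (L : List (X × Bool)) :
    f.mapMatrix (WY Y L) = WY (fun i => f.mapMatrix (Y i)) L := by
  unfold WY
  rw [map_list_prod, List.map_map]
  congr 1
  refine List.map_congr_left fun s _ => ?_
  simp only [Function.comp_apply]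
  split_ifs
  · rfl
  · exact f.map_adjugate _

theorem map_DY (f : R →+* S) (Y : X → Matrix ι ι R) (L : List (X × Bool)) :
    f (DY Y L) = DY (fun i => f.mapMatrix (Y i)) L := by
  unfold DY
  rw [map_list_prod, List.map_map]
  congr 1
  refine List.map_congr_left fun s _ => ?_
  simp only [Function.comp_apply]
  split_ifs
  · exact map_one f
  · exact f.map_det _

theorem WY_eq (ρ : FreeGroup X →* Matrix ι ι R) (L : List (X × Bool)) :
    WY (fun i => ρ (FreeGroup.of i)) L =
      DY (fun i => ρ (FreeGroup.of i)) L • ρ (FreeGroup.mk L) := by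
  induction L with
  | nil =>
    have : (FreeGroup.mk ([] : List (X × Bool))) = 1 := rfl
    rw [this]
    simp [WY, DY]
  | cons s L ih =>
    have e1 : WY (fun i => ρ (FreeGroup.of i)) (s :: L) =
      (if s.2 then ρ (FreeGroup.of s.1) else (ρ (FreeGroup.of s.1)).adjugate) *
        WY (fun i => ρ (FreeGroup.of i)) L := by simp [WY]
    have e2 : DY (fun i => ρ (FreeGroup.of i)) (s :: L) =
      (if s.2 then 1 else (ρ (FreeGroup.of s.1)).det) *
        DY (fun i => ρ (FreeGroup.of i)) L := by simp [DY]
    have e3 : (FreeGroup.mk (s :: L)) = FreeGroup.mk [s] * FreeGroup.mk L := by simp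
    rw [e1, e2, e3, ih, map_mul]
    obtain ⟨i, b⟩ := s
    cases b
    · have e4 : FreeGroup.mk [(i, false)] = (FreeGroup.of i)⁻¹ := rfl
      have e5 : (ρ (FreeGroup.of i)).adjugate =
          (ρ (FreeGroup.of i)).det • ρ ((FreeGroup.of i)⁻¹) := by
        have : ρ (FreeGroup.of i) * ρ ((FreeGroup.of i)⁻¹) = 1 := by
          rw [← map_mul, mul_inv_cancel, map_one]
        calc (ρ (FreeGroup.of i)).adjugate
            = (ρ (FreeGroup.of i)).adjugate * (ρ (FreeGroup.of i) * ρ ((FreeGroup.of i)⁻¹)) := by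
              rw [this, mul_one]
          _ = _ := by
              rw [← mul_assoc, Matrix.adjugate_mul, Matrix.smul_mul, one_mul]
      simp only [Bool.false_eq_true, if_false]
      rw [e5, e4]
      simp only [Matrix.smul_mul, Matrix.mul_smul, smul_smul]
      rw [mul_comm]
    · have e4 : FreeGroup.mk [(i, true)] = FreeGroup.of i := rfl
      simp only [if_true]
      rw [e4, one_mul, Matrix.mul_smul]

theorem isUnit_DY (ρ : FreeGroup X →* Matrix ι ι R) (L : List (X × Bool)) :
    IsUnit (DY (fun i => ρ (FreeGroup.of i)) L) := by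
  have hu : ∀ i, IsUnit (ρ (FreeGroup.of i)).det := by
    intro i
    rw [← Matrix.isUnit_iff_isUnit_det]
    refine ⟨⟨ρ (FreeGroup.of i), ρ ((FreeGroup.of i)⁻¹), ?_, ?_⟩, rfl⟩
    · rw [← map_mul, mul_inv_cancel, map_one]
    · rw [← map_mul, inv_mul_cancel, map_one]
  induction L with
  | nil => simp [DY]
  | cons s L ih =>
    have e2 : DY (fun i => ρ (FreeGroup.of i)) (s :: L) =
      (if s.2 then 1 else (ρ (FreeGroup.of s.1)).det) *
        DY (fun i => ρ (FreeGroup.of i)) L := by simp [DY]
    rw [e2]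
    refine IsUnit.mul ?_ ih
    split_ifs
    · exact isUnit_one
    · exact hu _

end Words

section CongruenceRep

variable {X : Type} {ι : Type} [Fintype ι] [DecidableEq ι] (p J : ℕ)

theorem natCast_pow_eq_zero : ((p : ℕ) : Matrix ι ι (ZMod (p ^ J))) ^ J = 0 := by
  rw [← Nat.cast_pow, ← map_natCast (Matrix.scalar ι (α := ZMod (p ^ J))), ZMod.natCast_self,
    map_zero]

theorem isUnit_cong (M : Matrix ι ι (ZMod (p ^ J))) :
    IsUnit (1 + (p : Matrix ι ι (ZMod (p ^ J))) * M) := by
  refine IsNilpotent.isUnit_one_add ⟨J, ?_⟩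
  rw [(Nat.cast_commute p M).mul_pow, natCast_pow_eq_zero, zero_mul]

/-- The congruence representation. -/
noncomputable def congRep (M : X → Matrix ι ι (ZMod (p ^ J))) :
    FreeGroup X →* Matrix ι ι (ZMod (p ^ J)) :=
  (Units.coeHom _).comp (FreeGroup.lift fun i => (isUnit_cong p J (M i)).unit)

theorem congRep_of (M : X → Matrix ι ι (ZMod (p ^ J))) (i : X) :
    congRep p J M (FreeGroup.of i) = 1 + (p : Matrix ι ι (ZMod (p ^ J))) * M i := by
  simp [congRep]

theorem congRep_sub_one (M : X → Matrix ι ι (ZMod (p ^ J))) (g : FreeGroup X) :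
    ∃ c, congRep p J M g - 1 = (p : Matrix ι ι (ZMod (p ^ J))) * c := by
  have hinv : ∀ g, (∃ c, congRep p J M g - 1 = (p : Matrix ι ι (ZMod (p ^ J))) * c) →
      ∃ c, congRep p J M g⁻¹ - 1 = (p : Matrix ι ι (ZMod (p ^ J))) * c := by
    rintro g ⟨c, hc⟩
    refine ⟨-(congRep p J M g⁻¹ * c), ?_⟩
    have e1 : congRep p J M g⁻¹ - 1 = -(congRep p J M g⁻¹ * (congRep p J M g - 1)) := by
      rw [mul_sub, ← map_mul, inv_mul_cancel, map_one, mul_one, neg_sub]
    rw [e1, hc, mul_neg, ← mul_assoc, ← mul_assoc, (Nat.cast_commute p _).eq]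
  induction g using FreeGroup.induction_on with
  | C1 => exact ⟨0, by simp⟩
  | of x => exact ⟨M x, by rw [congRep_of]; simp⟩
  | inv_of x h => exact hinv _ h
  | mul x y hx hy =>
    obtain ⟨c, hc⟩ := hx
    obtain ⟨d, hd⟩ := hy
    refine ⟨c * congRep p J M y + d, ?_⟩
    have e1 : congRep p J M (x * y) - 1 =
      (congRep p J M x - 1) * congRep p J M y + (congRep p J M y - 1) := by
      rw [map_mul, sub_mul, one_mul]; abel
    rw [e1, hc, hd, mul_add, mul_assoc]

end CongruenceRep

section Transfer

variable {X : Type} {ι : Type} [Fintype ι] [DecidableEq ι]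

theorem trace_conj {R : Type*} [CommRing R] {F : Type*} [Group F] (ρ : F →* Matrix ι ι R) (a b : F)
    (h : IsConj a b) : Matrix.trace (ρ a) = Matrix.trace (ρ b) := by
  obtain ⟨c, rfl⟩ := isConj_iff.1 h
  rw [map_mul, map_mul, Matrix.trace_mul_comm, ← mul_assoc, ← map_mul, inv_mul_cancel, map_one,
    one_mul]

theorem int_eq_zero_of_zmod (p : ℕ) (hp : 2 ≤ p) (z : ℤ)
    (h : ∀ J : ℕ, ((z : ℤ) : ZMod (p ^ J)) = 0) : z = 0 := by
  have h1 : ((p ^ z.natAbs : ℕ) : ℤ) ∣ z := (ZMod.intCast_zmod_eq_zero_iff_dvd z _).1 (h z.natAbs)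
  have h2 : z.natAbs < p ^ z.natAbs := Nat.lt_pow_self hp
  have h3 := Int.natAbs_dvd_natAbs.2 h1
  rw [Int.natAbs_natCast] at h3
  exact Int.natAbs_eq_zero.1 (Nat.eq_zero_of_dvd_of_lt h3 h2)

/-- The generic matrices. -/
noncomputable def genY (X ι : Type) (i : X) : Matrix ι ι (MvPolynomial (X × ι × ι) ℤ) :=
  Matrix.of fun a b => MvPolynomial.X (i, a, b)

/-- If two words have the same trace in all congruence representations then they
have the same trace in all representations. -/
theorem trace_eq_of_congRep (p : ℕ) (hp : 2 ≤ p) (u v : List (X × Bool))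
    (h : ∀ (J : ℕ) (M : X → Matrix ι ι (ZMod (p ^ J))),
      Matrix.trace (congRep p J M (FreeGroup.mk u)) =
        Matrix.trace (congRep p J M (FreeGroup.mk v)))
    {K : Type} [CommRing K] (ρ : FreeGroup X →* Matrix ι ι K) :
    Matrix.trace (ρ (FreeGroup.mk u)) = Matrix.trace (ρ (FreeGroup.mk v)) := by
  -- the polynomial identity
  set G : MvPolynomial (X × ι × ι) ℤ :=
    DY (genY X ι) v * Matrix.trace (WY (genY X ι) u) -
      DY (genY X ι) u * Matrix.trace (WY (genY X ι) v) with hG
  have hmap : ∀ {S : Type} [CommRing S] (f : MvPolynomial (X × ι × ι) ℤ →+* S),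
      f G = DY (fun i => f.mapMatrix (genY X ι i)) v *
        Matrix.trace (WY (fun i => f.mapMatrix (genY X ι i)) u) -
        DY (fun i => f.mapMatrix (genY X ι i)) u *
        Matrix.trace (WY (fun i => f.mapMatrix (genY X ι i)) v) := by
    intro S _ f
    rw [hG, map_sub, map_mul, map_mul, map_DY, map_DY, ← map_WY, ← map_WY]
    congr 2
    · exact AddMonoidHom.map_trace f _
    · exact AddMonoidHom.map_trace f _
  have hzero : ∀ {S : Type} [CommRing S] (ρ' : FreeGroup X →* Matrix ι ι S),
      Matrix.trace (ρ' (FreeGroup.mk u)) = Matrix.trace (ρ' (FreeGroup.mk v)) →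
      DY (fun i => ρ' (FreeGroup.of i)) v *
        Matrix.trace (WY (fun i => ρ' (FreeGroup.of i)) u) -
        DY (fun i => ρ' (FreeGroup.of i)) u *
        Matrix.trace (WY (fun i => ρ' (FreeGroup.of i)) v) = 0 := by
    intro S _ ρ' hρ'
    rw [WY_eq, WY_eq, Matrix.trace_smul, Matrix.trace_smul, hρ']
    simp only [smul_eq_mul]
    ring
  have hG0 : G = 0 := by
    refine MvPolynomial.funext_set
      (fun t : X × ι × ι => Set.range fun z : ℤ => (if t.2.1 = t.2.2 then 1 else 0) + (p : ℤ) * z)
      ?_ ?_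
    · intro t
      refine Set.infinite_range_of_injective ?_
      intro a b hab
      have h1 : (p : ℤ) * a = p * b := add_left_cancel hab
      exact mul_left_cancel₀ (by positivity) h1
    · intro y hy
      rw [map_zero]
      choose z hz using fun t => hy t (Set.mem_univ t)
      refine int_eq_zero_of_zmod p hp _ fun J => ?_
      have e0 := hmap ((Int.castRingHom (ZMod (p ^ J))).comp (MvPolynomial.eval y))
      rw [RingHom.comp_apply] at e0
      rw [← eq_intCast (Int.castRingHom (ZMod (p ^ J))), e0]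
      have e1 : ∀ i, ((Int.castRingHom (ZMod (p ^ J))).comp (MvPolynomial.eval y)).mapMatrix
          (genY X ι i) = congRep p J
            (fun i => Matrix.of fun a b => ((z (i, a, b) : ℤ) : ZMod (p ^ J))) (FreeGroup.of i) := by
        intro i
        rw [congRep_of]
        ext a b
        have e2 : ((p : Matrix ι ι (ZMod (p ^ J))) *
            (Matrix.of fun a b => ((z (i, a, b) : ℤ) : ZMod (p ^ J)))) a b =
            (p : ZMod (p ^ J)) * ((z (i, a, b) : ℤ) : ZMod (p ^ J)) := by
          rw [← nsmul_eq_mul, Matrix.smul_apply, Matrix.of_apply, nsmul_eq_mul]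
        rw [Matrix.add_apply, e2]
        simp only [genY, RingHom.mapMatrix_apply, Matrix.map_apply, Matrix.of_apply,
          RingHom.comp_apply, MvPolynomial.eval_X, Matrix.one_apply]
        rw [← hz (i, a, b)]
        simp only [map_add, map_mul]
        congr 1
        · split_ifs <;> simp
        · simp
      simp only [e1]
      exact hzero _ (h J _)
  -- specialise
  have e0 := hmap (MvPolynomial.aeval (R := ℤ)
    (fun t : X × ι × ι => ρ (FreeGroup.of t.1) t.2.1 t.2.2)).toRingHom
  have e1 : ∀ i, ((MvPolynomial.aeval (R := ℤ)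
    (fun t : X × ι × ι => ρ (FreeGroup.of t.1) t.2.1 t.2.2)).toRingHom).mapMatrix
      (genY X ι i) = ρ (FreeGroup.of i) := by
    intro i
    ext a b
    simp [genY]
  rw [hG0, map_zero] at e0
  simp only [e1] at e0
  rw [WY_eq, WY_eq, Matrix.trace_smul, Matrix.trace_smul] at e0
  simp only [smul_eq_mul] at e0
  have e2 : (DY (fun i => ρ (FreeGroup.of i)) v * DY (fun i => ρ (FreeGroup.of i)) u) *
      (Matrix.trace (ρ (FreeGroup.mk u)) - Matrix.trace (ρ (FreeGroup.mk v))) = 0 := by
    rw [eq_comm] at e0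
    calc _ = _ := by ring
      _ = 0 := e0
  have e3 := ((isUnit_DY ρ v).mul (isUnit_DY ρ u)).mul_right_eq_zero.1 e2
  exact sub_eq_zero.1 e3

end Transfer

end Helper85.BTE
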