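import Mathlib

/-!
Traces of representations over commutative rings separate conjugacy classes of free groups
(weighted permutation representations along a cyclically reduced word).
-/

set_option autoImplicit false

namespace Helper85.BTE

open Matrix

section Mon

variable {ι : Type} [Fintype ι] [DecidableEq ι] {Z : Type} [AddCommGroup Z]

/-- Monomial matrix. -/
noncomputable def Mon (π : ι → ι) (w : ι → Z) : Matrix ι ι (AddMonoidAlgebra ℤ Z) :=
  Matrix.of fun a b => if a = π b then AddMonoidAlgebra.single (w b) (1 : ℤ) else 0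

theorem Mon_mul (π π' : ι → ι) (w w' : ι → Z) :
    Mon π w * Mon π' w' = Mon (fun b => π (π' b)) (fun b => w (π' b) + w' b) := by
  ext1 a b
  rw [Matrix.mul_apply]
  simp only [Mon, Matrix.of_apply]
  rw [Finset.sum_eq_single (π' b)]
  · simp only [if_true]
    split_ifs
    · rw [AddMonoidAlgebra.single_mul_single, one_mul]
    · rw [zero_mul]
  · intro c _ hc
    rw [if_neg hc, mul_zero]
  · intro h
    exact absurd (Finset.mem_univ _) h

omit [Fintype ι] in
theorem Mon_one : Mon (ι := ι) (Z := Z) (fun b => b) (fun _ => 0) = 1 := by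
  ext1 a b
  simp only [Mon, Matrix.of_apply, Matrix.one_apply]
  rfl

/-- The monomial matrix of a weighted permutation as a unit. -/
noncomputable def monUnit (σ : Equiv.Perm ι) (w : ι → Z) : (Matrix ι ι (AddMonoidAlgebra ℤ Z))ˣ where
  val := Mon σ w
  inv := Mon σ.symm (fun a => -w (σ.symm a))
  val_inv := by
    rw [Mon_mul, ← Mon_one]
    congr 1
    · ext b; simp
    · ext b; simp
  inv_val := by
    rw [Mon_mul, ← Mon_one]
    congr 1
    · ext b; simp
    · ext b; simp

variable {X : Type} (σ : X → Equiv.Perm ι) (w : X → ι → Z)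

/-- The step of a letter. -/
def step (t : X × Bool) : ι → ι := if t.2 then σ t.1 else (σ t.1).symm

/-- The weight of a letter. -/
def wt (t : X × Bool) : ι → Z := if t.2 then w t.1 else fun a => -w t.1 ((σ t.1).symm a)

/-- The steps of a word. -/
def stepL : List (X × Bool) → ι → ι
  | [] => fun b => b
  | t :: L => fun b => step σ t (stepL L b)

/-- The weights of a word. -/
def wtL : List (X × Bool) → ι → Z
  | [] => fun _ => 0
  | t :: L => fun b => wt σ w t (stepL σ L b) + wtL L b

/-- The monomial representation. -/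
noncomputable def monRep : FreeGroup X →* Matrix ι ι (AddMonoidAlgebra ℤ Z) :=
  (Units.coeHom _).comp (FreeGroup.lift fun i => monUnit (σ i) (w i))

theorem monRep_mk (L : List (X × Bool)) :
    monRep σ w (FreeGroup.mk L) = Mon (stepL σ L) (wtL σ w L) := by
  induction L with
  | nil =>
    have : (FreeGroup.mk ([] : List (X × Bool))) = 1 := rfl
    rw [this, map_one]
    exact Mon_one.symm
  | cons t L ih =>
    have e3 : (FreeGroup.mk (t :: L)) = FreeGroup.mk [t] * FreeGroup.mk L := by simp
    rw [e3, map_mul, ih]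
    have e1 : monRep σ w (FreeGroup.mk [t]) = Mon (step σ t) (wt σ w t) := by
      obtain ⟨i, b⟩ := t
      cases b
      · have e4 : FreeGroup.mk [(i, false)] = (FreeGroup.of i)⁻¹ := rfl
        rw [e4]
        simp only [monRep, MonoidHom.comp_apply, map_inv, FreeGroup.lift_apply_of, step, wt,
          Bool.false_eq_true, if_false]
        rfl
      · have e4 : FreeGroup.mk [(i, true)] = FreeGroup.of i := rfl
        rw [e4]
        simp only [monRep, MonoidHom.comp_apply, FreeGroup.lift_apply_of, step, wt, if_true]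
        rfl
    rw [e1, Mon_mul]
    rfl

theorem trace_Mon_coeff [DecidableEq Z] (π : ι → ι) (v : ι → Z) (τ : Z) :
    (Matrix.trace (Mon π v)).coeff τ =
      ((Finset.univ.filter fun a => a = π a ∧ v a = τ).card : ℤ) := by
  rw [Matrix.trace]
  simp only [Matrix.diag_apply, Mon, Matrix.of_apply]
  rw [AddMonoidAlgebra.coeff_sum, Finsupp.finsetSum_apply, Finset.natCast_card_filter]
  refine Finset.sum_congr rfl fun a _ => ?_
  by_cases h1 : a = π a
  · rw [if_pos h1, AddMonoidAlgebra.coeff_single, Finsupp.single_apply]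
    by_cases h2 : v a = τ
    · rw [if_pos h2, if_pos ⟨h1, h2⟩]
    · rw [if_neg h2, if_neg (fun h => h2 h.2)]
  · rw [if_neg h1, if_neg (fun h => h1 h.1)]
    rfl

end Mon

section Sep

variable {X : Type} [DecidableEq X] (m : ℕ) (s : ZMod (m + 1) → X × Bool)

/-- The letters of a cyclic word never cancel. -/
def CycRed : Prop := ∀ i, (s i).1 = (s (i + 1)).1 → (s i).2 = (s (i + 1)).2

/-- The injection (on `pdom`) attached to a letter. -/
def pmap (j : X) (v : ZMod (m + 1)) : ZMod (m + 1) := if s (v - 1) = (j, true) then v - 1 else v + 1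

/-- The domain of the injection `pmap`. -/
def pdom (j : X) : Set (ZMod (m + 1)) := {v | s (v - 1) = (j, true) ∨ s v = (j, false)}

variable {m s}

omit [DecidableEq X] in
theorem cycRed_ne (h : CycRed m s) (j : X) (i i' : ZMod (m + 1)) (hi : i' = i + 1 ∨ i = i' + 1)
    (h1 : s i = (j, true)) (h2 : s i' = (j, false)) : False := by
  rcases hi with rfl | rfl
  · have := h i (by rw [h1, h2])
    rw [h1, h2] at this
    exact Bool.noConfusion this
  · have := h i' (by rw [h1, h2])
    rw [h1, h2] at this
    exact Bool.noConfusion this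

theorem pmap_injOn (h : CycRed m s) (j : X) : Set.InjOn (pmap m s j) (pdom m s j) := by
  intro v hv v' hv' hvv
  simp only [pmap] at hvv
  by_cases h1 : s (v - 1) = (j, true)
  · by_cases h2 : s (v' - 1) = (j, true)
    · rw [if_pos h1, if_pos h2] at hvv
      exact sub_left_injective hvv
    · rw [if_pos h1, if_neg h2] at hvv
      have h3 : s v' = (j, false) := hv'.resolve_left h2
      exact (cycRed_ne h j (v - 1) v' (Or.inr hvv) h1 h3).elim
  · by_cases h2 : s (v' - 1) = (j, true)
    · rw [if_neg h1, if_pos h2] at hvv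
      have h3 : s v = (j, false) := hv.resolve_left h1
      exact (cycRed_ne h j (v' - 1) v (Or.inr hvv.symm) h2 h3).elim
    · rw [if_neg h1, if_neg h2] at hvv
      exact add_left_injective 1 hvv

theorem exists_perm (h : CycRed m s) (j : X) :
    ∃ σ : Equiv.Perm (ZMod (m + 1)), ∀ v ∈ pdom m s j, σ v = pmap m s j v := by
  obtain ⟨g, hg⟩ := Set.MapsTo.exists_equiv_extend_of_card_eq (α := ZMod (m + 1))
    (t := (Finset.univ : Finset (ZMod (m + 1)))) (by rw [Finset.card_univ])
    (s := pdom m s j) (f := pmap m s j) (fun _ _ => by simp) (pmap_injOn h j)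
  refine ⟨g.trans (Equiv.subtypeUnivEquiv (by simp)), ?_⟩
  intro v hv
  exact hg v hv

variable (m s) in
/-- The weights of the generators. -/
def pwt (j : X) (v : ZMod (m + 1)) : ZMod (m + 1) → ℤ :=
  if s (v - 1) = (j, true) then Pi.single (v - 1) 1
  else if s v = (j, false) then -Pi.single v 1 else 0

section

variable (σ : X → Equiv.Perm (ZMod (m + 1)))
  (hσ : ∀ j, ∀ v ∈ pdom m s j, σ j v = pmap m s j v) (h : CycRed m s)

include hσ h

theorem step_read (i : ZMod (m + 1)) : step σ (s i) (i + 1) = i := by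
  rcases hs : s i with ⟨j, b⟩
  cases b
  · simp only [step, Bool.false_eq_true, if_false]
    rw [Equiv.symm_apply_eq, hσ j i (Or.inr hs), pmap, if_neg]
    intro h1
    exact cycRed_ne h j (i - 1) i (Or.inl (by ring)) h1 hs
  · simp only [step, if_true]
    rw [hσ j (i + 1) (Or.inl (by rwa [add_sub_cancel_right])), pmap, if_pos, add_sub_cancel_right]
    rwa [add_sub_cancel_right]

theorem wt_read (i : ZMod (m + 1)) : wt σ (pwt m s) (s i) (i + 1) = Pi.single i 1 := by
  rcases hs : s i with ⟨j, b⟩
  cases b
  · simp only [wt, Bool.false_eq_true, if_false]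
    have h1 : (σ j).symm (i + 1) = i := by
      rw [Equiv.symm_apply_eq, hσ j i (Or.inr hs), pmap, if_neg]
      intro h1
      exact cycRed_ne h j (i - 1) i (Or.inl (by ring)) h1 hs
    rw [h1, pwt, if_neg, if_pos hs, neg_neg]
    intro h1
    exact cycRed_ne h j (i - 1) i (Or.inl (by ring)) h1 hs
  · simp only [wt, if_true]
    rw [pwt, if_pos, add_sub_cancel_right]
    rwa [add_sub_cancel_right]

omit h in
theorem wt_sum (t : X × Bool) (v : ZMod (m + 1)) :
    (∑ k, wt σ (pwt m s) t v k) ≤ 1 ∧
      ((∑ k, wt σ (pwt m s) t v k) = 1 → t = s (v - 1) ∧ step σ t v = v - 1) := by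
  have hpw : ∀ j v, (∑ k, pwt m s j v k) = if s (v - 1) = (j, true) then 1
      else if s v = (j, false) then -1 else 0 := by
    intro j v
    rw [pwt]
    split_ifs with h1 h2
    · simp
    · simp
    · simp
  obtain ⟨j, b⟩ := t
  cases b
  · simp only [wt, step, Bool.false_eq_true, if_false, Pi.neg_apply, Finset.sum_neg_distrib]
    rw [hpw]
    set c := (σ j).symm v with hc
    have hvc : v = σ j c := by rw [hc, Equiv.apply_symm_apply]
    split_ifs with h1 h2
    · exact ⟨by norm_num, by norm_num⟩
    · refine ⟨by norm_num, fun _ => ?_⟩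
      have h3 : σ j c = c + 1 := by
        rw [hσ j c (Or.inr h2), pmap, if_neg h1]
      rw [hvc, h3, add_sub_cancel_right]
      exact ⟨h2.symm, rfl⟩
    · exact ⟨by norm_num, by norm_num⟩
  · simp only [wt, step, if_true]
    rw [hpw]
    split_ifs with h1 h2
    · refine ⟨le_rfl, fun _ => ⟨h1.symm, ?_⟩⟩
      rw [hσ j v (Or.inl h1), pmap, if_pos h1]
    · exact ⟨by norm_num, by norm_num⟩
    · exact ⟨by norm_num, by norm_num⟩

/-- Reading the word. -/
theorem read_word (l i : ℕ) :
    stepL σ ((List.range' i l).map fun k : ℕ => s (k : ZMod (m + 1))) ((i + l : ℕ) : ZMod (m + 1)) = i ∧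
    wtL σ (pwt m s) ((List.range' i l).map fun k : ℕ => s (k : ZMod (m + 1)))
      ((i + l : ℕ) : ZMod (m + 1)) =
      ((List.range' i l).map fun k : ℕ => Pi.single (k : ZMod (m + 1)) (1 : ℤ)).sum := by
  induction l generalizing i with
  | zero => simp [stepL, wtL]
  | succ l ih =>
    obtain ⟨h1, h2⟩ := ih (i + 1)
    have e : i + 1 + l = i + (l + 1) := by ring
    rw [e] at h1 h2
    rw [List.range'_succ]
    simp only [List.map_cons, stepL, wtL, List.sum_cons]
    rw [h1, h2, Nat.cast_succ, step_read σ hσ h, wt_read σ hσ h]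
    exact ⟨rfl, rfl⟩

omit h in
theorem path_rigid (L : List (X × Bool)) (v : ZMod (m + 1)) :
    (∑ k, wtL σ (pwt m s) L v k) ≤ L.length ∧
      ((∑ k, wtL σ (pwt m s) L v k) = L.length →
        stepL σ L v = v - (L.length : ZMod (m + 1)) ∧
        L = (List.range L.length).map fun k : ℕ => s (v - (L.length : ZMod (m + 1)) + (k : ZMod (m + 1)))) := by
  induction L with
  | nil => simp [wtL, stepL]
  | cons t L ih =>
    obtain ⟨h1, h2⟩ := ih
    obtain ⟨h3, h4⟩ := wt_sum σ hσ t (stepL σ L v)
    simp only [wtL, stepL, Pi.add_apply, Finset.sum_add_distrib, List.length_cons]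
    push_cast
    refine ⟨by linarith, fun h5 => ?_⟩
    obtain ⟨h6, h7⟩ := h2 (by linarith)
    obtain ⟨h8, h9⟩ := h4 (by linarith)
    rw [h6] at h8 h9 ⊢
    refine ⟨by rw [h9]; ring, ?_⟩
    rw [List.range_succ_eq_map, List.map_cons, List.map_map]
    congr 1
    · rw [h8]
      congr 1
      push_cast
      ring
    · conv_lhs => rw [h7]
      refine List.map_congr_left fun k _ => ?_
      simp only [Function.comp_apply, Nat.cast_succ]
      congr 1
      ring

end

variable (m s) in
/-- The word read along the cycle from the vertex `v`. -/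
def cword (v : ZMod (m + 1)) : List (X × Bool) :=
  (List.range (m + 1)).map fun k : ℕ => s (v + (k : ZMod (m + 1)))

omit [DecidableEq X] in
theorem isConj_cword_succ (v : ZMod (m + 1)) :
    IsConj (FreeGroup.mk (cword m s v)) (FreeGroup.mk (cword m s (v + 1))) := by
  have e1 : cword m s v = [s v] ++ (List.range m).map fun k : ℕ => s (v + 1 + (k : ZMod (m + 1))) := by
    rw [cword, List.range_succ_eq_map, List.map_cons, List.map_map]
    simp only [Nat.cast_zero, add_zero, List.singleton_append]
    congr 1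
    refine List.map_congr_left fun k _ => ?_
    simp only [Function.comp_apply, Nat.cast_succ]
    congr 1
    ring
  have e2 : cword m s (v + 1) = ((List.range m).map fun k : ℕ => s (v + 1 + (k : ZMod (m + 1)))) ++ [s v] := by
    rw [cword, List.range_succ, List.map_append, List.map_singleton]
    congr 3
    have : ((m : ℕ) : ZMod (m + 1)) + 1 = 0 := by
      have := ZMod.natCast_self (m + 1)
      rwa [Nat.cast_succ] at this
    calc v + 1 + (m : ZMod (m + 1)) = v + ((m : ZMod (m + 1)) + 1) := by ring
      _ = v := by rw [this, add_zero]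
  rw [e1, e2, ← FreeGroup.mul_mk, ← FreeGroup.mul_mk, isConj_iff]
  refine ⟨(FreeGroup.mk [s v])⁻¹, ?_⟩
  group

omit [DecidableEq X] in
theorem isConj_cword (v : ZMod (m + 1)) :
    IsConj (FreeGroup.mk (cword m s 0)) (FreeGroup.mk (cword m s v)) := by
  have key : ∀ k : ℕ, IsConj (FreeGroup.mk (cword m s 0))
      (FreeGroup.mk (cword m s (k : ZMod (m + 1)))) := by
    intro k
    induction k with
    | zero => rw [Nat.cast_zero]
    | succ k ih =>
      rw [Nat.cast_succ]
      exact ih.trans (isConj_cword_succ _)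
  have := key v.val
  rwa [ZMod.natCast_zmod_val] at this

/-- Separation for cyclic words. -/
theorem sep_cyclic (h : CycRed m s) (y : List (X × Bool)) (hy : y.length ≤ m + 1)
    (htr : ∀ {K : Type} [CommRing K] (ρ : FreeGroup X →* Matrix (ZMod (m + 1)) (ZMod (m + 1)) K),
      Matrix.trace (ρ (FreeGroup.mk y)) = Matrix.trace (ρ (FreeGroup.mk (cword m s 0)))) :
    IsConj (FreeGroup.mk (cword m s 0)) (FreeGroup.mk y) := by
  choose σ hσ using fun j => exists_perm h j
  have h1 := htr (monRep σ (pwt m s))
  rw [monRep_mk, monRep_mk] at h1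
  have h2 := congrArg (fun z => AddMonoidAlgebra.coeff z (fun _ => (1 : ℤ))) h1
  rw [trace_Mon_coeff, trace_Mon_coeff] at h2
  have h3 : (0 : ZMod (m + 1)) ∈ Finset.univ.filter fun a => a = stepL σ (cword m s 0) a ∧
      wtL σ (pwt m s) (cword m s 0) a = fun _ => (1 : ℤ) := by
    have e1 : cword m s 0 = (List.range' 0 (m + 1)).map fun k : ℕ => s (k : ZMod (m + 1)) := by
      rw [cword, List.range_eq_range']
      refine List.map_congr_left fun k _ => ?_
      rw [zero_add]
    obtain ⟨h4, h5⟩ := read_word σ hσ h (m + 1) 0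
    rw [← e1, zero_add, ZMod.natCast_self] at h4 h5
    rw [Finset.mem_filter]
    refine ⟨Finset.mem_univ _, by rw [h4, Nat.cast_zero], ?_⟩
    rw [h5, ← List.range_eq_range']
    have e2 : ((List.range (m + 1)).map fun k : ℕ => (Pi.single (k : ZMod (m + 1)) (1 : ℤ) :
        ZMod (m + 1) → ℤ)).sum = ∑ k ∈ Finset.range (m + 1), (Pi.single (k : ZMod (m + 1)) (1 : ℤ) :
        ZMod (m + 1) → ℤ) := by
      rw [Finset.sum_range, ← List.sum_ofFn, List.ofFn_eq_map]
      congr 1
      rw [← List.map_coe_finRange_eq_range, List.map_map]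
      rfl
    rw [e2]
    funext i
    rw [Finset.sum_apply, Finset.sum_eq_single i.val]
    · rw [ZMod.natCast_zmod_val, Pi.single_eq_same]
    · intro b hb hbi
      rw [Pi.single_apply, if_neg]
      intro hib
      apply hbi
      rw [hib, ZMod.val_natCast, Nat.mod_eq_of_lt (Finset.mem_range.1 hb)]
    · intro hi
      exact absurd (Finset.mem_range.2 (ZMod.val_lt i)) hi
  have h4 : 0 < (Finset.univ.filter fun a => a = stepL σ y a ∧
      wtL σ (pwt m s) y a = fun _ => (1 : ℤ)).card := by
    have : 0 < (Finset.univ.filter fun a => a = stepL σ (cword m s 0) a ∧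
      wtL σ (pwt m s) (cword m s 0) a = fun _ => (1 : ℤ)).card := Finset.card_pos.2 ⟨0, h3⟩
    have h5 : (Finset.univ.filter fun a => a = stepL σ y a ∧
      wtL σ (pwt m s) y a = fun _ => (1 : ℤ)).card = (Finset.univ.filter fun a => a = stepL σ
      (cword m s 0) a ∧ wtL σ (pwt m s) (cword m s 0) a = fun _ => (1 : ℤ)).card := by
      exact_mod_cast h2
    rw [h5]
    exact this
  obtain ⟨v, hv⟩ := Finset.card_pos.1 h4
  rw [Finset.mem_filter] at hv
  obtain ⟨_, hv1, hv2⟩ := hv
  obtain ⟨h5, h6⟩ := path_rigid σ hσ y v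
  have h7 : (∑ k, wtL σ (pwt m s) y v k) = m + 1 := by
    rw [hv2]
    simp [ZMod.card]
  have h8 : (y.length : ℤ) = m + 1 := by
    have : (y.length : ℤ) ≤ ((m + 1 : ℕ) : ℤ) := by exact_mod_cast hy
    push_cast at this
    linarith
  obtain ⟨h9, h10⟩ := h6 (by rw [h7, h8])
  have h11 : y.length = m + 1 := by exact_mod_cast h8
  have h12 : y = cword m s v := by
    rw [h10, cword, h11, ZMod.natCast_self, sub_zero]
  rw [h12]
  exact isConj_cword v

end Sep

end Helper85.BTE
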