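import Mathlib
import Pool.Agent.Helper85.BTE.Spec
import Pool.Agent.Helper85.BTE.IA1
import Pool.Agent.Helper85.BTE.IA2
import Pool.Agent.Helper85.BTE.IA3

/-!
Periodic conjugacy classes of automorphisms of free groups acting trivially on the homology
modulo 6 are fixed.
-/

set_option autoImplicit false

namespace Helper85.BTE

section Separation

variable {X : Type} [DecidableEq X]

omit [DecidableEq X] in
/-- A cyclically reduced word of positive length is a cyclic word without cancellation. -/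
theorem exists_cword (x : List (X × Bool)) (hx : FreeGroup.IsCyclicallyReduced x) (m : ℕ)
    (hm : x.length = m + 1) : ∃ s : ZMod (m + 1) → X × Bool, CycRed m s ∧ cword m s 0 = x := by
  have hlt : ∀ i : ZMod (m + 1), i.val < x.length := fun i => by rw [hm]; exact ZMod.val_lt i
  refine ⟨fun i => x[i.val]'(hlt i), ?_, ?_⟩
  · intro i h1
    by_cases hi : i.val + 1 < m + 1
    · have e1 : (i + 1).val = i.val + 1 := by
        have h4 : i + 1 = ((i.val + 1 : ℕ) : ZMod (m + 1)) := by
          rw [Nat.cast_succ, ZMod.natCast_zmod_val]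
        rw [h4, ZMod.val_natCast, Nat.mod_eq_of_lt hi]
      have h2 := hx.1
      rw [FreeGroup.IsReduced, List.isChain_iff_getElem] at h2
      have h3 := h2 i.val (by omega)
      simp only [e1] at h1 ⊢
      exact h3 h1
    · have e0 : i.val = m := by have := ZMod.val_lt i; omega
      have e1 : (i + 1).val = 0 := by
        have : i + 1 = 0 := by
          rw [← ZMod.natCast_zmod_val i, e0]
          have := ZMod.natCast_self (m + 1)
          rwa [Nat.cast_succ] at this
        rw [this, ZMod.val_zero]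
      have h2 := hx.2
      simp only [e0, e1] at h1 ⊢
      refine h2 _ ?_ _ ?_ h1
      · rw [Option.mem_def, List.getLast?_eq_getElem?, hm]
        simp [hm]
      · rw [Option.mem_def, List.head?_eq_getElem?]
        simp [hm]
  · rw [cword]
    apply List.ext_getElem
    · simp [hm]
    · intro k h1 h2
      simp only [List.getElem_map, List.getElem_range, zero_add]
      congr 1
      rw [ZMod.val_natCast, Nat.mod_eq_of_lt (by omega)]

/-- Separation of a word from a cyclically reduced word which is at least as long. -/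
theorem sep_word (x y : List (X × Bool)) (hx : FreeGroup.IsCyclicallyReduced x)
    (hy : y.length ≤ x.length)
    (htr : ∀ {ι : Type} [Fintype ι] [DecidableEq ι] {K : Type} [CommRing K]
      (ρ : FreeGroup X →* Matrix ι ι K),
      Matrix.trace (ρ (FreeGroup.mk y)) = Matrix.trace (ρ (FreeGroup.mk x))) :
    IsConj (FreeGroup.mk x) (FreeGroup.mk y) := by
  rcases Nat.eq_zero_or_pos x.length with h0 | h0
  · have h1 : x = [] := List.length_eq_zero_iff.1 h0
    have h2 : y = [] := List.length_eq_zero_iff.1 (by omega)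
    rw [h1, h2]
  · obtain ⟨m, hm⟩ : ∃ m, x.length = m + 1 := ⟨x.length - 1, by omega⟩
    obtain ⟨s, hs, rfl⟩ := exists_cword x hx m hm
    refine sep_cyclic hs y (by omega) ?_
    intro K _ ρ
    exact htr ρ

theorem isConj_reduceCyclically (u : FreeGroup X) :
    IsConj u (FreeGroup.mk (FreeGroup.reduceCyclically u.toWord)) := by
  have h := FreeGroup.reduceCyclically.conj_conjugator_reduceCyclically u.toWord
  have h2 : u = FreeGroup.mk (FreeGroup.reduceCyclically.conjugator u.toWord) *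
      FreeGroup.mk (FreeGroup.reduceCyclically u.toWord) *
      (FreeGroup.mk (FreeGroup.reduceCyclically.conjugator u.toWord))⁻¹ := by
    rw [FreeGroup.inv_mk, FreeGroup.mul_mk, FreeGroup.mul_mk, h, FreeGroup.mk_toWord]
  refine IsConj.symm (isConj_iff.2 ⟨FreeGroup.mk (FreeGroup.reduceCyclically.conjugator u.toWord),
    h2.symm⟩)

/-- Traces separate conjugacy classes of a free group. -/
theorem isConj_of_trace (u v : FreeGroup X)
    (htr : ∀ {ι : Type} [Fintype ι] [DecidableEq ι] {K : Type} [CommRing K]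
      (ρ : FreeGroup X →* Matrix ι ι K), Matrix.trace (ρ u) = Matrix.trace (ρ v)) :
    IsConj u v := by
  have hu := isConj_reduceCyclically u
  have hv := isConj_reduceCyclically v
  have h1 : FreeGroup.IsCyclicallyReduced (FreeGroup.reduceCyclically u.toWord) :=
    FreeGroup.reduceCyclically.isCyclicallyReduced FreeGroup.isReduced_toWord
  have h2 : FreeGroup.IsCyclicallyReduced (FreeGroup.reduceCyclically v.toWord) :=
    FreeGroup.reduceCyclically.isCyclicallyReduced FreeGroup.isReduced_toWord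
  rcases le_total (FreeGroup.reduceCyclically v.toWord).length
    (FreeGroup.reduceCyclically u.toWord).length with h | h
  · refine hu.trans (IsConj.trans (sep_word _ _ h1 h ?_) hv.symm)
    intro ι _ _ K _ ρ
    rw [← trace_conj ρ _ _ hu, ← trace_conj ρ _ _ hv]
    exact (htr ρ).symm
  · refine hu.trans (IsConj.trans (sep_word _ _ h2 h ?_).symm hv.symm)
    intro ι _ _ K _ ρ
    rw [← trace_conj ρ _ _ hu, ← trace_conj ρ _ _ hv]
    exact htr ρ

end Separation

section Periodic

theorem pow_apply_eq_iterate {F : Type} [Group F] (ψ : MulAut F) (n : ℕ) (g : F) :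
    (ψ ^ n) g = (ψ.toMonoidHom)^[n] g := by
  induction n with
  | zero => rfl
  | succ n ih =>
    rw [pow_succ', MulAut.mul_apply, ih, Function.iterate_succ_apply']
    rfl

theorem isConj_map {F : Type} [Group F] (ψ : MulAut F) {a b : F} (h : IsConj a b) :
    IsConj (ψ a) (ψ b) := by
  obtain ⟨c, rfl⟩ := isConj_iff.1 h
  exact isConj_iff.2 ⟨ψ c, by simp⟩

theorem isConj_pow_mul {F : Type} [Group F] (θ : MulAut F) (u : F) (m : ℕ)
    (h : IsConj ((θ ^ m) u) u) (t : ℕ) : IsConj ((θ ^ (m * t)) u) u := by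
  induction t with
  | zero => rw [mul_zero, pow_zero]; exact IsConj.refl _
  | succ t ih =>
    have : θ ^ (m * (t + 1)) = θ ^ m * θ ^ (m * t) := by rw [← pow_add]; congr 1; ring
    rw [this, MulAut.mul_apply]
    exact (isConj_map (θ ^ m) ih).trans h

theorem isConj_pow_modEq {F : Type} [Group F] (θ : MulAut F) (u : F) (m n : ℕ)
    (h : IsConj ((θ ^ m) u) u) (hn : 1 ≤ n) (hmod : n ≡ 1 [MOD m]) :
    IsConj ((θ ^ n) u) (θ u) := by
  obtain ⟨t, ht⟩ : m ∣ n - 1 := (Nat.modEq_iff_dvd' hn).1 hmod.symm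
  have : n = 1 + m * t := by omega
  rw [this, pow_add, pow_one, MulAut.mul_apply]
  exact isConj_map θ (isConj_pow_mul θ u m h t)

variable {N : ℕ}

/-- The condition modulo 6 implies the condition in the group ring. -/
theorem of_sub_of_mem_sq (p : ℕ) (hp : p ∣ 6) (ψ : FreeGroup (Fin N) →* FreeGroup (Fin N))
    (h6 : ∀ i, abMod 6 (ψ (FreeGroup.of i)) = abMod 6 (FreeGroup.of i))
    (g : FreeGroup (Fin N)) :
    MonoidAlgebra.of ℤ (FreeGroup (Fin N)) (ψ g) - MonoidAlgebra.of ℤ (FreeGroup (Fin N)) g ∈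
      mSub (FreeGroup (Fin N)) p ^ 2 := by
  set M := mSub (FreeGroup (Fin N)) p with hM
  let Q := MonoidAlgebra ℤ (FreeGroup (Fin N)) ⧸ (M ^ 2)
  let φ : FreeGroup (Fin N) →* Multiplicative Q :=
    { toFun := fun g => Multiplicative.ofAdd
        ((M ^ 2).mkQ (MonoidAlgebra.of ℤ (FreeGroup (Fin N)) g - 1))
      map_one' := by rw [map_one, sub_self, map_zero]; rfl
      map_mul' := by
        intro a b
        rw [← ofAdd_add, ← map_add]
        congr 1
        rw [Submodule.mkQ_apply, Submodule.mkQ_apply, Submodule.Quotient.eq]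
        have : MonoidAlgebra.of ℤ (FreeGroup (Fin N)) (a * b) - 1 -
          (MonoidAlgebra.of ℤ (FreeGroup (Fin N)) a - 1 +
            (MonoidAlgebra.of ℤ (FreeGroup (Fin N)) b - 1)) =
          (MonoidAlgebra.of ℤ (FreeGroup (Fin N)) a - 1) *
            (MonoidAlgebra.of ℤ (FreeGroup (Fin N)) b - 1) := by
          rw [map_mul]; noncomm_ring
        rw [this, pow_two]
        exact Submodule.mul_mem_mul (of_sub_one_mem _ p a) (of_sub_one_mem _ p b) }
  have h6φ : ∀ g, (6 : ℤ) • (φ g).toAdd = 0 := by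
    intro g
    show (6 : ℤ) • (M ^ 2).mkQ (MonoidAlgebra.of ℤ (FreeGroup (Fin N)) g - 1) = 0
    rw [← map_smul, Submodule.mkQ_apply, Submodule.Quotient.mk_eq_zero]
    obtain ⟨c, hc⟩ := hp
    have : (6 : ℤ) • (MonoidAlgebra.of ℤ (FreeGroup (Fin N)) g - 1) =
        (c : ℤ) • ((p : MonoidAlgebra ℤ (FreeGroup (Fin N))) *
          (MonoidAlgebra.of ℤ (FreeGroup (Fin N)) g - 1)) := by
      have e1 : (p : MonoidAlgebra ℤ (FreeGroup (Fin N))) *
          (MonoidAlgebra.of ℤ (FreeGroup (Fin N)) g - 1) = (p : ℤ) •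
          (MonoidAlgebra.of ℤ (FreeGroup (Fin N)) g - 1) := by
        rw [zsmul_eq_mul, Int.cast_natCast]
      rw [e1, smul_smul]
      congr 1
      rw [mul_comm]
      exact_mod_cast hc
    rw [this, pow_two]
    exact Submodule.smul_mem _ _
      (Submodule.mul_mem_mul (p_mem_mSub _ p) (of_sub_one_mem _ p g))
  let l : Fin N → (ZMod 6 →+ Q) := fun i =>
    ZMod.lift 6 ⟨zmultiplesHom Q (φ (FreeGroup.of i)).toAdd, by
      rw [zmultiplesHom_apply]
      exact h6φ _⟩
  let Lh : (Fin N → ZMod 6) →+ Q := ∑ i, (l i).comp (Pi.evalAddMonoidHom _ i)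
  have hcomp : φ = (AddMonoidHom.toMultiplicative Lh).comp (abMod 6) := by
    ext i
    apply Multiplicative.toAdd.injective
    have e1 : abMod 6 (FreeGroup.of i) = Multiplicative.ofAdd (Pi.single i (1 : ZMod 6)) := by
      simp [abMod]
    rw [MonoidHom.comp_apply, e1]
    show (φ (FreeGroup.of i)).toAdd = Lh (Pi.single i 1)
    simp only [Lh, AddMonoidHom.finsetSum_apply, AddMonoidHom.comp_apply,
      Pi.evalAddMonoidHom_apply]
    rw [Finset.sum_eq_single i]
    · rw [Pi.single_eq_same]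
      have : (1 : ZMod 6) = ((1 : ℤ) : ZMod 6) := by simp
      rw [this]
      simp only [l]
      rw [ZMod.lift_coe]
      simp [zmultiplesHom_apply]
    · intro j _ hj
      rw [Pi.single_eq_of_ne hj, map_zero]
    · intro h
      exact absurd (Finset.mem_univ _) h
  have hφψ : φ.comp ψ = φ := by
    ext i
    rw [MonoidHom.comp_apply, hcomp, MonoidHom.comp_apply, MonoidHom.comp_apply, h6 i]
  have h1 : φ (ψ g) = φ g := DFunLike.congr_fun hφψ g
  have h2 : (M ^ 2).mkQ (MonoidAlgebra.of ℤ (FreeGroup (Fin N)) (ψ g) - 1) =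
      (M ^ 2).mkQ (MonoidAlgebra.of ℤ (FreeGroup (Fin N)) g - 1) :=
    Multiplicative.ofAdd.injective h1
  rw [Submodule.mkQ_apply, Submodule.mkQ_apply, Submodule.Quotient.eq, sub_sub_sub_cancel_right]
    at h2
  exact h2

/-- The `p`-part: if `k = p ^ b * k'` with `k'` prime to `p` then `ψ ^ (p ^ b)` fixes the
conjugacy class. -/
theorem isConj_ppart (p : ℕ) (hp : p.Prime) (h6p : p ∣ 6) (ψ : MulAut (FreeGroup (Fin N)))
    (h6 : ∀ i, abMod 6 (ψ (FreeGroup.of i)) = abMod 6 (FreeGroup.of i))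
    (u : FreeGroup (Fin N)) (b k' : ℕ) (hk : 0 < k') (hcop : Nat.Coprime p k')
    (hfix : IsConj ((ψ ^ (p ^ b * k')) u) u) : IsConj ((ψ ^ (p ^ b)) u) u := by
  set θ := ψ ^ (p ^ b) with hθ
  have hfix' : IsConj ((θ ^ k') u) u := by rwa [hθ, ← pow_mul]
  have hmem := of_sub_of_mem_sq p h6p ψ.toMonoidHom (fun i => h6 i)
  refine isConj_of_trace _ _ ?_
  intro ι _ _ K _ ρ
  rw [← FreeGroup.mk_toWord (x := θ u), ← FreeGroup.mk_toWord (x := u)]
  refine trace_eq_of_congRep p hp.two_le _ _ ?_ ρ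
  intro J M
  rw [FreeGroup.mk_toWord, FreeGroup.mk_toWord]
  -- choose the exponent
  set a := Nat.totient k' * J with ha
  have hφ : 1 ≤ Nat.totient k' := Nat.totient_pos.2 hk
  have haJ : J ≤ a := Nat.le_mul_of_pos_left _ hφ
  have hmod : p ^ a ≡ 1 [MOD k'] := by
    have h1 := (Nat.ModEq.pow_totient hcop).pow J
    rwa [one_pow, ← pow_mul] at h1
  have h1 : IsConj ((θ ^ (p ^ a)) u) (θ u) :=
    isConj_pow_modEq θ u k' (p ^ a) hfix' (Nat.one_le_pow _ _ hp.pos) hmod
  rw [← trace_conj _ _ _ h1, hθ, ← pow_mul, ← pow_add, pow_apply_eq_iterate,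
    rep_iter_eq p ψ.toMonoidHom hmem (congRep p J M) (congRep_sub_one p J M) J (b + a)
      (natCast_pow_eq_zero p J) (by omega) u]

/-- Periodic conjugacy classes of automorphisms of free groups which act trivially on the
homology modulo `6` are fixed. -/
theorem isConj_of_isConj_pow (ψ : MulAut (FreeGroup (Fin N)))
    (h6 : ∀ i, abMod 6 (ψ (FreeGroup.of i)) = abMod 6 (FreeGroup.of i))
    (u : FreeGroup (Fin N)) (k : ℕ) (hk : 0 < k) (hfix : IsConj ((ψ ^ k) u) u) :
    IsConj (ψ u) u := by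
  have key : ∀ p : ℕ, p.Prime → p ∣ 6 → ∃ b, IsConj ((ψ ^ (p ^ b)) u) u := by
    intro p hp hp6
    obtain ⟨b, k', hk', hkk⟩ := Nat.exists_eq_pow_mul_and_not_dvd hk.ne' p hp.ne_one
    refine ⟨b, isConj_ppart p hp hp6 ψ h6 u b k' ?_ ((Nat.Prime.coprime_iff_not_dvd hp).2 hk')
      (by rwa [← hkk])⟩
    rcases Nat.eq_zero_or_pos k' with h | h
    · subst h
      simp at hk'
    · exact h
  obtain ⟨b, hb⟩ := key 2 Nat.prime_two (by norm_num)
  obtain ⟨c, hc⟩ := key 3 Nat.prime_three (by norm_num)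
  have hcop : Nat.Coprime (2 ^ b) (3 ^ c) := Nat.Coprime.pow _ _ (by norm_num)
  have hφ : 0 < Nat.totient (3 ^ c) := Nat.totient_pos.2 (by positivity)
  have hmod : (2 ^ b) ^ Nat.totient (3 ^ c) ≡ 1 [MOD 3 ^ c] := Nat.ModEq.pow_totient hcop
  have h1 : IsConj ((ψ ^ ((2 ^ b) ^ Nat.totient (3 ^ c))) u) (ψ u) :=
    isConj_pow_modEq ψ u (3 ^ c) _ hc (Nat.one_le_pow _ _ (by positivity)) hmod
  obtain ⟨t, ht⟩ : ∃ t, Nat.totient (3 ^ c) = t + 1 := ⟨Nat.totient (3 ^ c) - 1, by omega⟩
  have h2 : IsConj ((ψ ^ ((2 ^ b) ^ Nat.totient (3 ^ c))) u) u := by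
    rw [ht, pow_succ']
    exact isConj_pow_mul ψ u _ hb _
  exact h1.symm.trans h2

end Periodic

end Helper85.BTE
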