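import Pool.Agent.Helper85.BTE.Domination

/-!
Cyclic length, the letter-zero condition.
-/

set_option autoImplicit false
set_option linter.unusedSectionVars false
set_option linter.unusedVariables false

namespace Helper85.BTE

open FreeGroup Pointwise Classical Filter

variable {X : Type} [DecidableEq X] [Fintype X]

/-- Cyclic length. -/
noncomputable def len (w : FreeGroup X) : ℕ :=
  sInf (Set.range fun g : FreeGroup X => (g * w * g⁻¹).norm)

/-- line length of one element -/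
noncomputable def n1 (w : FreeGroup X) : ℕ := nl (fun _ : Unit => w)

/-- crossing number of one element -/
noncomputable def c1 (w : FreeGroup X) (A : Set (Endp X)) : ℕ := cnt (fun _ : Unit => w) A

theorem exists_cyc (w : FreeGroup X) : ∃ c : FreeGroup X, Cyc (c * w * c⁻¹) := by
  have h1 := FreeGroup.reduceCyclically.conj_conjugator_reduceCyclically w.toWord
  have h2 := FreeGroup.reduceCyclically.isCyclicallyReduced (FreeGroup.isReduced_toWord (x := w))
  refine ⟨(FreeGroup.mk (FreeGroup.reduceCyclically.conjugator w.toWord))⁻¹, ?_⟩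
  have h3 : w = FreeGroup.mk (FreeGroup.reduceCyclically.conjugator w.toWord) *
      FreeGroup.mk (FreeGroup.reduceCyclically w.toWord) *
      (FreeGroup.mk (FreeGroup.reduceCyclically.conjugator w.toWord))⁻¹ := by
    rw [FreeGroup.inv_mk, FreeGroup.mul_mk, FreeGroup.mul_mk, h1, FreeGroup.mk_toWord]
  have h4 : (FreeGroup.mk (FreeGroup.reduceCyclically.conjugator w.toWord))⁻¹ * w *
      ((FreeGroup.mk (FreeGroup.reduceCyclically.conjugator w.toWord))⁻¹)⁻¹ =
      FreeGroup.mk (FreeGroup.reduceCyclically w.toWord) := by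
    have key : ∀ a b w : FreeGroup X, w = a * b * a⁻¹ → a⁻¹ * w * (a⁻¹)⁻¹ = b := by
      rintro a b w rfl; group
    exact key _ _ _ h3
  rw [h4]
  unfold Cyc
  rw [toWord_mk_of_red h2.isReduced]
  exact h2

theorem n1_conj (w c : FreeGroup X) : n1 (c * w * c⁻¹) = n1 w :=
  nl_conj (fun _ : Unit => w) (fun _ => c)

theorem c1_conj (w c : FreeGroup X) {A : Set (Endp X)} (hA : Cl A) :
    c1 (c * w * c⁻¹) A = c1 w A :=
  cnt_conj (fun _ : Unit => w) (fun _ => c) hA

theorem isConj_iff' {a b : FreeGroup X} : IsConj a b ↔ ∃ c, c * a * c⁻¹ = b := isConj_iff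

theorem n1_isConj {a b : FreeGroup X} (h : IsConj a b) : n1 a = n1 b := by
  obtain ⟨c, rfl⟩ := isConj_iff.1 h
  rw [n1_conj]

theorem c1_isConj {a b : FreeGroup X} (h : IsConj a b) {A : Set (Endp X)} (hA : Cl A) :
    c1 a A = c1 b A := by
  obtain ⟨c, rfl⟩ := isConj_iff.1 h
  rw [c1_conj _ _ hA]

theorem n1_cyc {w : FreeGroup X} (h : Cyc w) : n1 w = 2 * w.norm := nl_single_cyc h

theorem n1_le (w : FreeGroup X) : n1 w ≤ 2 * w.norm := nl_single_le w

theorem two_len (w : FreeGroup X) : 2 * len w = n1 w := by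
  obtain ⟨c, hc⟩ := exists_cyc w
  have h1 := n1_cyc hc
  rw [n1_conj] at h1
  have h2 : len w = (c * w * c⁻¹).norm := by
    apply le_antisymm
    · exact Nat.sInf_le ⟨c, rfl⟩
    · apply le_csInf (Set.range_nonempty _)
      rintro _ ⟨g, rfl⟩
      have h3 := n1_le (g * w * g⁻¹)
      rw [n1_conj] at h3
      simp only
      omega
  rw [h2, h1]

theorem n1_aut (φ : MulAut (FreeGroup X)) (w : FreeGroup X) :
    n1 (φ w) = ∑ s : X × Bool, c1 w (φ⁻¹ • Hs 1 s) := by
  unfold n1 nl c1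
  apply Finset.sum_congr rfl
  intro s _
  have h3 := cnt_aut φ (fun _ : Unit => w) ((cl_Hs 1 s).aut φ⁻¹)
  rw [smul_inv_smul] at h3
  exact h3

theorem c1_aut (φ : MulAut (FreeGroup X)) (w : FreeGroup X) {A : Set (Endp X)} (hA : Cl A) :
    c1 (φ w) (φ • A) = c1 w A := cnt_aut φ (fun _ : Unit => w) hA

theorem c1_aut' (φ : MulAut (FreeGroup X)) (w : FreeGroup X) {A : Set (Endp X)} (hA : Cl A) :
    c1 (φ w) A = c1 w (φ⁻¹ • A) := by
  have h3 := c1_aut φ w (hA.aut φ⁻¹)
  rwa [smul_inv_smul] at h3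

theorem n1_wh {B : Set (X × Bool)} {b : X × Bool} (hb : b ∈ B) (hb' : il b ∉ B)
    (w : FreeGroup X) : n1 (wh B b w) + 2 * c1 w (Hs 1 b) = n1 w + 2 * c1 w (WB B) :=
  nl_wh hb hb' (fun _ : Unit => w)

theorem c1_wh {B : Set (X × Bool)} {b : X × Bool} (hb : b ∈ B) (hb' : il b ∉ B)
    (w : FreeGroup X) : c1 (wh B b w) (Hs 1 b) = c1 w (WB B) := by
  rw [c1_aut' _ _ (cl_Hs 1 b), wh_inv_smul_b hb hb']

/-! ### Nonzero lengths and finiteness -/

theorem n1_eq_zero {w : FreeGroup X} (h : n1 w = 0) : w = 1 := by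
  obtain ⟨c, hc⟩ := exists_cyc w
  have h1 := n1_cyc hc
  rw [n1_conj, h] at h1
  have h2 : (c * w * c⁻¹).norm = 0 := by omega
  rw [FreeGroup.norm_eq_zero, conj_eq_one_iff] at h2
  exact h2

theorem n1_pos {w : FreeGroup X} (h : w ≠ 1) : 1 ≤ n1 w :=
  Nat.one_le_iff_ne_zero.2 (fun h1 => h (n1_eq_zero h1))

theorem n1_one : n1 (1 : FreeGroup X) = 0 := by
  have := n1_le (1 : FreeGroup X)
  simpa using this

theorem c1_single_eq_zero_iff {w : FreeGroup X} (hc : Cyc w) (s : X × Bool) :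
    c1 w (Hs 1 s) = 0 ↔ Absent s.1 w := cnt_single_eq_zero_iff hc s

/-- Among infinitely many elements of bounded length, two are conjugate. -/
theorem exists_conj_of_bdd (f : ℕ → FreeGroup X) (R : ℕ) (h : ∀ n, n1 (f n) ≤ R) :
    ∃ i j, i < j ∧ IsConj (f i) (f j) := by
  have hch : ∀ n, ∃ c : FreeGroup X, Cyc (c * f n * c⁻¹) := fun n => exists_cyc (f n)
  choose c hc using hch
  have h1 : ∀ n, c n * f n * (c n)⁻¹ ∈ {x : FreeGroup X | x.norm ≤ R} := by
    intro n
    have h2 := n1_cyc (hc n)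
    rw [n1_conj] at h2
    have := h n
    simp only [Set.mem_ofPred_eq]
    omega
  have hfin := finite_norm_le (X := X) R
  obtain ⟨i, -, j, -, hij, heq⟩ := Set.infinite_univ.exists_ne_map_eq_of_mapsTo
    (f := fun n => c n * f n * (c n)⁻¹) (fun n _ => h1 n) hfin
  have hconj : IsConj (f i) (f j) := by
    have e1 : IsConj (f i) (c i * f i * (c i)⁻¹) := isConj_iff.2 ⟨c i, rfl⟩
    have e2 : IsConj (f j) (c j * f j * (c j)⁻¹) := isConj_iff.2 ⟨c j, rfl⟩
    rw [heq] at e1
    exact e1.trans e2.symm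
  rcases Nat.lt_or_gt_of_ne hij with h3 | h3
  · exact ⟨i, j, h3, hconj⟩
  · exact ⟨j, i, h3, hconj.symm⟩

end Helper85.BTE
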