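import Pool.Agent.Helper85.BTE.Tree

/-!
Lines of a family of elements, crossing numbers.
-/

set_option autoImplicit false

namespace Helper85.BTE

open FreeGroup Pointwise Filter

variable {X : Type}

theorem pow_inj' {v : FreeGroup X} (hv : v ≠ 1) : Function.Injective (fun n : ℕ => v ^ n) :=
  IsMulTorsionFree.pow_right_injective hv

theorem eventually_const {v : FreeGroup X} (hv : v ≠ 1) (h : FreeGroup X)
    {S : Set (FreeGroup X)} (hS : AI S) :
    ∃ K : ℕ, ∀ k, K ≤ k → (h * v ^ k ∈ S ↔ h * v ^ K ∈ S) := by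
  have h1 : {k : ℕ | ¬ (h * v ^ k ∈ S ↔ h * v ^ (k + 1) ∈ S)}.Finite := by
    have h2 := (hS v).preimage (f := fun k : ℕ => h * v ^ k)
      (fun a _ b _ hab => pow_inj' hv (mul_left_cancel hab))
    refine h2.subset ?_
    intro k hk
    simpa only [Set.mem_preimage, Set.mem_ofPred_eq, pow_succ, ← mul_assoc] using hk
  obtain ⟨K, hK⟩ := h1.bddAbove
  refine ⟨K + 1, fun k hk => ?_⟩
  induction k, hk using Nat.le_induction with
  | base => rfl
  | succ k hk ih =>
    rw [← ih]
    by_contra h3
    have h4 : k ≤ K := hK (by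
      simp only [Set.mem_ofPred_eq]
      tauto)
    omega

/-- The end of the ray `h v^k`. -/
def endp (h v : FreeGroup X) (hv : v ≠ 1) : Endp X where
  sets := {S | AI S ∧ ∀ᶠ k : ℕ in atTop, h * v ^ k ∈ S}
  ai := fun h => h.1
  inter := fun {S T} h1 h2 => ⟨h1.1.inter h2.1, h1.2.and h2.2⟩
  compl := fun {S} hS => by
    obtain ⟨K, hK⟩ := eventually_const hv h hS
    simp only [Set.mem_ofPred_eq, Set.mem_compl_iff]
    constructor
    · rintro ⟨-, h1⟩ ⟨-, h2⟩
      obtain ⟨k, hk⟩ := (h1.and h2).exists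
      exact hk.1 hk.2
    · intro h1
      refine ⟨hS.compl, ?_⟩
      by_cases h2 : h * v ^ K ∈ S
      · exact absurd ⟨hS, (eventually_ge_atTop K).mono fun k hk => (hK k hk).2 h2⟩ h1
      · exact (eventually_ge_atTop K).mono fun k hk h3 => h2 ((hK k hk).1 h3)
  inf := fun {S} hS hfin => by
    obtain ⟨K, hK⟩ := eventually_atTop.1 hS.2
    have h1 : (Set.Ici K).Finite := by
      refine (hfin.preimage (f := fun k : ℕ => h * v ^ k)
        (fun a _ b _ hab => pow_inj' hv (mul_left_cancel hab))).subset ?_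
      intro k hk
      exact hK k hk
    exact (Set.Ici_infinite K) h1

theorem mem_endp {h v : FreeGroup X} {hv : v ≠ 1} {S : Set (FreeGroup X)} :
    S ∈ (endp h v hv).sets ↔ AI S ∧ ∀ᶠ k : ℕ in atTop, h * v ^ k ∈ S := Iff.rfl

theorem smul_endp (g h v : FreeGroup X) (hv : v ≠ 1) : g • endp h v hv = endp (g * h) v hv := by
  apply Endp.ext
  ext S
  rw [mem_smul_sets, mem_endp, mem_endp]
  have h1 : AI ((fun x => g * x) ⁻¹' S) ↔ AI S := ai_mul_iff g S
  rw [h1]
  simp only [Set.mem_preimage, mul_assoc]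

theorem aut_smul_endp (φ : MulAut (FreeGroup X)) (h v : FreeGroup X) (hv : v ≠ 1)
    (hv' : φ v ≠ 1) : φ • endp h v hv = endp (φ h) (φ v) hv' := by
  apply Endp.ext
  ext S
  rw [mem_aut_smul_sets, mem_endp, mem_endp]
  have h1 : AI (φ ⁻¹' S) ↔ AI S := ai_aut_iff φ S
  rw [h1]
  simp only [Set.mem_preimage, _root_.map_mul, map_pow]

theorem endp_mul_self (h v : FreeGroup X) (hv : v ≠ 1) : endp (h * v) v hv = endp h v hv := by
  apply Endp.ext
  ext S
  rw [mem_endp, mem_endp]
  refine and_congr_right fun _ => ?_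
  have h1 : ∀ k, h * v * v ^ k = h * v ^ (k + 1) := by
    intro k; rw [mul_assoc, ← pow_succ']
  simp only [h1]
  constructor
  · intro h2
    obtain ⟨K, hK⟩ := eventually_atTop.1 h2
    refine eventually_atTop.2 ⟨K + 1, fun k hk => ?_⟩
    have := hK (k - 1) (by omega)
    rwa [Nat.sub_add_cancel (by omega)] at this
  · intro h2
    obtain ⟨K, hK⟩ := eventually_atTop.1 h2
    exact eventually_atTop.2 ⟨K, fun k hk => hK (k + 1) (by omega)⟩

theorem endp_mul_zpow (h v : FreeGroup X) (hv : v ≠ 1) (m : ℤ) :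
    endp (h * v ^ m) v hv = endp h v hv := by
  induction m with
  | zero => simp
  | succ m ih => rw [zpow_add_one, ← mul_assoc, endp_mul_self, ih]
  | pred m ih =>
    rw [← ih, ← endp_mul_self (h * v ^ (-(m : ℤ) - 1)), mul_assoc, ← zpow_add_one]
    congr 3
    ring

theorem endp_inv_mul_self (h v : FreeGroup X) (hv : v⁻¹ ≠ 1) :
    endp (h * v) v⁻¹ hv = endp h v⁻¹ hv := by
  have := endp_mul_self (h * v) v⁻¹ hv
  rw [mul_inv_cancel_right] at this
  exact this.symm

theorem endp_inv_mul_zpow (h v : FreeGroup X) (hv : v⁻¹ ≠ 1) (m : ℤ) :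
    endp (h * v ^ m) v⁻¹ hv = endp h v⁻¹ hv := by
  have := endp_mul_zpow h v⁻¹ hv (-m)
  rw [inv_zpow, zpow_neg, inv_inv] at this
  exact this

variable {ι : Type}

/-- The lines of a family of elements: cosets of the cyclic groups generated by the nontrivial
members. -/
abbrev Line (v : ι → FreeGroup X) : Type :=
  Σ i : {i // v i ≠ 1}, FreeGroup X ⧸ Subgroup.zpowers (v i)

/-- Positive end of a line. -/
def pos {v : ι → FreeGroup X} (l : Line v) : Endp X :=
  Quotient.liftOn' l.2 (fun h => endp h (v l.1) l.1.2) (by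
    intro a b hab
    rw [QuotientGroup.leftRel_apply] at hab
    obtain ⟨m, hm⟩ := hab
    have : b = a * (v l.1) ^ m := by
      simp only at hm
      rw [hm]; group
    rw [this, endp_mul_zpow])

/-- Negative end of a line. -/
def neg {v : ι → FreeGroup X} (l : Line v) : Endp X :=
  Quotient.liftOn' l.2 (fun h => endp h (v l.1)⁻¹ (inv_ne_one.2 l.1.2)) (by
    intro a b hab
    rw [QuotientGroup.leftRel_apply] at hab
    obtain ⟨m, hm⟩ := hab
    have : b = a * (v l.1) ^ m := by
      simp only at hm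
      rw [hm]; group
    rw [this, endp_inv_mul_zpow])

theorem pos_mk {v : ι → FreeGroup X} (i : {i // v i ≠ 1}) (h : FreeGroup X) :
    pos (⟨i, (QuotientGroup.mk h : FreeGroup X ⧸ Subgroup.zpowers (v i))⟩ : Line v) =
      endp h (v i) i.2 := rfl

theorem neg_mk {v : ι → FreeGroup X} (i : {i // v i ≠ 1}) (h : FreeGroup X) :
    neg (⟨i, (QuotientGroup.mk h : FreeGroup X ⧸ Subgroup.zpowers (v i))⟩ : Line v) =
      endp h (v i)⁻¹ (inv_ne_one.2 i.2) := rfl

theorem pos_smul {v : ι → FreeGroup X} (g : FreeGroup X) (l : Line v) :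
    pos (g • l) = g • pos l := by
  obtain ⟨i, q⟩ := l
  induction q using QuotientGroup.induction_on with
  | H h => rw [pos_mk, smul_endp]; rfl

theorem neg_smul {v : ι → FreeGroup X} (g : FreeGroup X) (l : Line v) :
    neg (g • l) = g • neg l := by
  obtain ⟨i, q⟩ := l
  induction q using QuotientGroup.induction_on with
  | H h => rw [neg_mk, smul_endp]; rfl

/-- The lines crossing a set of ends. -/
def crL (v : ι → FreeGroup X) (A : Set (Endp X)) : Set (Line v) :=
  {l | ¬ (pos l ∈ A ↔ neg l ∈ A)}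

theorem mem_crL {v : ι → FreeGroup X} {A : Set (Endp X)} {l : Line v} :
    l ∈ crL v A ↔ ¬ (pos l ∈ A ↔ neg l ∈ A) := Iff.rfl

/-- The group elements where the path `g, g v` changes sides. -/
def chg (v : FreeGroup X) (S : Set (FreeGroup X)) : Set (FreeGroup X) := {g | ¬ (g ∈ S ↔ g * v ∈ S)}

theorem exists_chg {v : ι → FreeGroup X} {S : Set (FreeGroup X)} {l : Line v}
    (hl : l ∈ crL v (st S)) : ∃ g ∈ chg (v l.1) S, (⟨l.1, QuotientGroup.mk g⟩ : Line v) = l := by
  obtain ⟨i, q⟩ := l
  induction q using QuotientGroup.induction_on with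
  | H h =>
    by_contra hcon
    push Not at hcon
    have h1 : ∀ m : ℤ, (h * (v i) ^ m ∈ S ↔ h * (v i) ^ (m + 1) ∈ S) := by
      intro m
      by_contra h2
      apply hcon (h * (v i) ^ m)
      · change ¬ (h * (v i) ^ m ∈ S ↔ h * (v i) ^ m * v i ∈ S)
        rw [mul_assoc, ← zpow_add_one]
        exact h2
      · congr 1
        rw [QuotientGroup.eq]
        refine ⟨-m, ?_⟩
        simp only [zpow_neg]
        group
    have h2 : ∀ m : ℤ, (h * (v i) ^ m ∈ S ↔ h ∈ S) := by
      intro m
      induction m with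
      | zero => simp
      | succ m ih => rw [← h1, ih]
      | pred m ih =>
        rw [← ih, h1]
        have : -(m : ℤ) - 1 + 1 = -m := by ring
        rw [this]
    apply hl
    rw [pos_mk, neg_mk]
    change S ∈ (endp h (v i) i.2).sets ↔ S ∈ (endp h (v i)⁻¹ (inv_ne_one.2 i.2)).sets
    rw [mem_endp, mem_endp]
    refine and_congr_right fun _ => ?_
    have h3 : ∀ k : ℕ, (h * (v i) ^ k ∈ S ↔ h ∈ S) := by
      intro k; exact_mod_cast h2 k
    have h4 : ∀ k : ℕ, (h * (v i)⁻¹ ^ k ∈ S ↔ h ∈ S) := by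
      intro k
      have := h2 (-(k : ℤ))
      rwa [zpow_neg, zpow_natCast, ← inv_pow] at this
    simp only [h3, h4]

theorem crL_finite [Finite ι] (v : ι → FreeGroup X) {A : Set (Endp X)} (hA : Cl A) :
    (crL v A).Finite := by
  obtain ⟨S, hS, rfl⟩ := hA
  have h1 : (⋃ i : {i // v i ≠ 1}, (fun g => (⟨i, QuotientGroup.mk g⟩ : Line v)) ''
      (chg (v i) S)).Finite := by
    apply Set.finite_iUnion
    intro i
    exact (hS (v i)).image _
  refine h1.subset ?_
  intro l hl
  obtain ⟨g, hg, hgl⟩ := exists_chg hl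
  rw [Set.mem_iUnion]
  exact ⟨l.1, g, hg, hgl⟩

/-- Crossing number. -/
noncomputable def cnt (v : ι → FreeGroup X) (A : Set (Endp X)) : ℕ := (crL v A).ncard

theorem crL_smul (v : ι → FreeGroup X) (g : FreeGroup X) (A : Set (Endp X)) :
    crL v (g • A) = g • crL v A := by
  ext l
  rw [Set.mem_smul_set_iff_inv_smul_mem, mem_crL, mem_crL, pos_smul, neg_smul,
    Set.mem_smul_set_iff_inv_smul_mem, Set.mem_smul_set_iff_inv_smul_mem]

theorem cnt_smul (v : ι → FreeGroup X) (g : FreeGroup X) (A : Set (Endp X)) :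
    cnt v (g • A) = cnt v A := by
  unfold cnt
  rw [crL_smul]
  exact Set.ncard_image_of_injective _ (MulAction.injective g)

theorem crL_compl (v : ι → FreeGroup X) (A : Set (Endp X)) : crL v Aᶜ = crL v A := by
  ext l
  simp only [mem_crL, Set.mem_compl_iff]
  tauto

theorem cnt_compl (v : ι → FreeGroup X) (A : Set (Endp X)) : cnt v Aᶜ = cnt v A := by
  unfold cnt; rw [crL_compl]

/-- Transport of lines by an automorphism. -/
def mapLine (φ : MulAut (FreeGroup X)) (v : ι → FreeGroup X) (l : Line v) :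
    Line (fun i => φ (v i)) :=
  ⟨⟨l.1.1, by
    intro h
    exact l.1.2 ((map_eq_one_iff φ φ.injective).1 h)⟩,
   Quotient.map' (fun h => φ h) (by
    intro a b hab
    rw [QuotientGroup.leftRel_apply] at hab ⊢
    obtain ⟨m, hm⟩ := hab
    refine ⟨m, ?_⟩
    simp only at hm ⊢
    rw [← map_zpow, hm, _root_.map_mul, _root_.map_inv]) l.2⟩

theorem mapLine_inj (φ : MulAut (FreeGroup X)) (v : ι → FreeGroup X) :
    Function.Injective (mapLine φ v) := by
  rintro ⟨i, q⟩ ⟨j, r⟩ h
  induction q using QuotientGroup.induction_on with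
  | H a =>
    induction r using QuotientGroup.induction_on with
    | H b =>
      have h1 : (mapLine φ v ⟨i, QuotientGroup.mk a⟩).fst.1 =
        (mapLine φ v ⟨j, QuotientGroup.mk b⟩).fst.1 := by rw [h]
      have h2 : i = j := Subtype.ext h1
      subst h2
      have h3 := eq_of_heq (Sigma.mk.inj h).2
      congr 1
      change (QuotientGroup.mk (φ a) : FreeGroup X ⧸ Subgroup.zpowers (φ (v i))) =
        QuotientGroup.mk (φ b) at h3
      rw [QuotientGroup.eq] at h3 ⊢
      obtain ⟨m, hm⟩ := h3
      refine ⟨m, ?_⟩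
      simp only at hm ⊢
      apply φ.injective
      rw [map_zpow, hm, _root_.map_mul, _root_.map_inv]

theorem pos_mapLine (φ : MulAut (FreeGroup X)) (v : ι → FreeGroup X) (l : Line v) :
    pos (mapLine φ v l) = φ • pos l := by
  obtain ⟨i, q⟩ := l
  induction q using QuotientGroup.induction_on with
  | H h =>
    have h0 : φ (v i) ≠ 1 := fun h1 => i.2 ((map_eq_one_iff φ φ.injective).1 h1)
    rw [pos_mk, aut_smul_endp (hv' := h0)]
    rfl

theorem neg_mapLine (φ : MulAut (FreeGroup X)) (v : ι → FreeGroup X) (l : Line v) :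
    neg (mapLine φ v l) = φ • neg l := by
  obtain ⟨i, q⟩ := l
  induction q using QuotientGroup.induction_on with
  | H h =>
    have h0 : φ (v i)⁻¹ ≠ 1 := by
      rw [_root_.map_inv]
      intro h1
      rw [inv_eq_one] at h1
      exact i.2 ((map_eq_one_iff φ φ.injective).1 h1)
    rw [neg_mk, aut_smul_endp (hv' := h0)]
    apply Endp.ext
    ext S
    rw [mem_endp, _root_.map_inv]
    rfl

theorem cnt_aut_le [Finite ι] (φ : MulAut (FreeGroup X)) (v : ι → FreeGroup X)
    {A : Set (Endp X)} (hA : Cl A) : cnt v A ≤ cnt (fun i => φ (v i)) (φ • A) := by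
  unfold cnt
  apply Set.ncard_le_ncard_of_injOn (mapLine φ v) (ht := crL_finite _ (hA.aut φ))
  · intro l hl
    rw [mem_crL] at hl ⊢
    rw [pos_mapLine, neg_mapLine, Set.smul_mem_smul_set_iff, Set.smul_mem_smul_set_iff]
    exact hl
  · exact (mapLine_inj φ v).injOn

theorem cnt_aut [Finite ι] (φ : MulAut (FreeGroup X)) (v : ι → FreeGroup X)
    {A : Set (Endp X)} (hA : Cl A) : cnt (fun i => φ (v i)) (φ • A) = cnt v A := by
  apply le_antisymm _ (cnt_aut_le φ v hA)
  have h := cnt_aut_le φ⁻¹ (fun i => φ (v i)) (hA.aut φ)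
  rw [inv_smul_smul] at h
  have h2 : (fun i => (φ⁻¹ : MulAut (FreeGroup X)) (φ (v i))) = v := by
    funext i
    exact MulAut.inv_apply_self _ φ (v i)
  rwa [h2] at h

/-- Conjugation of the elements does not change crossing numbers. -/
theorem cnt_conj [Finite ι] (v : ι → FreeGroup X) (c : ι → FreeGroup X)
    {A : Set (Endp X)} (hA : Cl A) : cnt (fun i => c i * v i * (c i)⁻¹) A = cnt v A := by
  have key : ∀ (v : ι → FreeGroup X) (c : ι → FreeGroup X),
      cnt v A ≤ cnt (fun i => c i * v i * (c i)⁻¹) A := by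
    intro v c
    have hne : ∀ i : {i // v i ≠ 1}, c i * v i * (c i)⁻¹ ≠ 1 := by
      intro i h
      apply i.2
      rwa [conj_eq_one_iff] at h
    let f : Line v → Line (fun i => c i * v i * (c i)⁻¹) := fun l =>
      ⟨⟨l.1.1, hne l.1⟩, Quotient.map' (fun h => h * (c l.1)⁻¹) (by
        intro a b hab
        rw [QuotientGroup.leftRel_apply] at hab ⊢
        obtain ⟨m, hm⟩ := hab
        refine ⟨m, ?_⟩
        simp only at hm ⊢
        rw [conj_zpow, hm]
        group) l.2⟩
    unfold cnt
    apply Set.ncard_le_ncard_of_injOn f (ht := crL_finite _ hA)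
    · rintro ⟨i, q⟩ hl
      induction q using QuotientGroup.induction_on with
      | H h =>
        rw [mem_crL] at hl ⊢
        rw [pos_mk, neg_mk] at hl
        have e1 : pos (f ⟨i, QuotientGroup.mk h⟩) = endp h (v i) i.2 := by
          apply Endp.ext
          ext S
          change (AI S ∧ ∀ᶠ k : ℕ in atTop, h * (c i)⁻¹ * (c i * v i * (c i)⁻¹) ^ k ∈ S) ↔
            (AI S ∧ ∀ᶠ k : ℕ in atTop, h * v i ^ k ∈ S)
          refine and_congr_right fun hS => ?_
          have h1 : ∀ k : ℕ, h * (c i)⁻¹ * (c i * v i * (c i)⁻¹) ^ k = h * v i ^ k * (c i)⁻¹ := by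
            intro k
            rw [conj_pow]; group
          simp only [h1]
          -- right multiplication changes only finitely many memberships
          have h2 : ∀ᶠ k : ℕ in atTop, (h * v i ^ k ∈ S ↔ h * v i ^ k * (c i)⁻¹ ∈ S) := by
            have h3 := (hS (c i)⁻¹).preimage (f := fun k : ℕ => h * (v i) ^ k)
              (fun a _ b _ hab => pow_inj' i.2 (mul_left_cancel hab))
            rw [← Nat.cofinite_eq_atTop]
            rw [Filter.eventually_cofinite]
            exact h3
          constructor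
          · intro h4
            filter_upwards [h2, h4] with k h5 h6
            exact h5.2 h6
          · intro h4
            filter_upwards [h2, h4] with k h5 h6
            exact h5.1 h6
        have e2 : neg (f ⟨i, QuotientGroup.mk h⟩) = endp h (v i)⁻¹ (inv_ne_one.2 i.2) := by
          apply Endp.ext
          ext S
          change (AI S ∧ ∀ᶠ k : ℕ in atTop, h * (c i)⁻¹ * (c i * v i * (c i)⁻¹)⁻¹ ^ k ∈ S) ↔
            (AI S ∧ ∀ᶠ k : ℕ in atTop, h * (v i)⁻¹ ^ k ∈ S)
          refine and_congr_right fun hS => ?_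
          have h1 : ∀ k : ℕ, h * (c i)⁻¹ * (c i * v i * (c i)⁻¹)⁻¹ ^ k =
              h * (v i)⁻¹ ^ k * (c i)⁻¹ := by
            intro k
            rw [conj_inv, conj_pow]; group
          simp only [h1]
          have h2 : ∀ᶠ k : ℕ in atTop, (h * (v i)⁻¹ ^ k ∈ S ↔ h * (v i)⁻¹ ^ k * (c i)⁻¹ ∈ S) := by
            have h3 := (hS (c i)⁻¹).preimage (f := fun k : ℕ => h * (v i)⁻¹ ^ k)
              (fun a _ b _ hab => pow_inj' (inv_ne_one.2 i.2) (mul_left_cancel hab))
            rw [← Nat.cofinite_eq_atTop]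
            rw [Filter.eventually_cofinite]
            exact h3
          constructor
          · intro h4
            filter_upwards [h2, h4] with k h5 h6
            exact h5.2 h6
          · intro h4
            filter_upwards [h2, h4] with k h5 h6
            exact h5.1 h6
        rw [e1, e2]
        exact hl
    · rintro ⟨i, q⟩ _ ⟨j, r⟩ _ h
      induction q using QuotientGroup.induction_on with
      | H a =>
        induction r using QuotientGroup.induction_on with
        | H b =>
          have h1 : (f ⟨i, QuotientGroup.mk a⟩).fst.1 =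
            (f ⟨j, QuotientGroup.mk b⟩).fst.1 := by rw [h]
          have h2 : i = j := Subtype.ext h1
          subst h2
          have h3 := eq_of_heq (Sigma.mk.inj h).2
          congr 1
          change (QuotientGroup.mk (a * (c i)⁻¹) :
            FreeGroup X ⧸ Subgroup.zpowers (c i * v i * (c i)⁻¹)) =
            QuotientGroup.mk (b * (c i)⁻¹) at h3
          rw [QuotientGroup.eq] at h3 ⊢
          obtain ⟨m, hm⟩ := h3
          refine ⟨m, ?_⟩
          simp only at hm ⊢
          rw [conj_zpow] at hm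
          have h4 : c i * v i ^ m * (c i)⁻¹ = c i * (a⁻¹ * b) * (c i)⁻¹ := by
            rw [hm]; group
          exact mul_left_cancel (mul_right_cancel h4)
  apply le_antisymm _ (key v c)
  have h := key (fun i => c i * v i * (c i)⁻¹) (fun i => (c i)⁻¹)
  have h2 : (fun i => (c i)⁻¹ * (c i * v i * (c i)⁻¹) * ((c i)⁻¹)⁻¹) = v := by
    funext i; group
  rwa [h2] at h

end Helper85.BTE
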