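import Pool.Agent.Helper85.BTE.Whitehead

/-!
Free cuts, the leaf lemma and the regular vertex lemma.
-/

set_option autoImplicit false
set_option linter.unusedSectionVars false

namespace Helper85.BTE

open FreeGroup Pointwise Classical

variable {X : Type} [DecidableEq X] [Fintype X] {ι : Type} [Finite ι]

/-- Free cuts: clopen sets of ends nested with all translates, with trivial stabilizer. -/
structure FreeCut (A : Set (Endp X)) : Prop where
  cl : Cl A
  ne : ∃ p, p ∈ A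
  nc : ∃ p, p ∉ A
  nest : ∀ g : FreeGroup X, ¬ cross (g • A) A
  free : ∀ g : FreeGroup X, g • A = A → g = 1

theorem prop1 (d1s d1t d2s d2t a1 a2 : Prop)
    (hl : ¬((¬d1s ∧ ¬d1t ∧ a1) ↔ (¬d2s ∧ ¬d2t ∧ a2)))
    (h1 : ¬(d1s ∧ d2s)) (h : ¬(a1 ↔ a2) → (d1s ∨ d1t) ∧ (d2s ∨ d2t)) :
    (¬(d1s ↔ d2s) ∧ a1 ∧ a2) ∨ (¬(d1t ↔ d2t) ∧ a1 ∧ a2) := by grind

theorem prop2 (d1s d1t d2s d2t a1 a2 : Prop)
    (hl : ¬((d1s ∨ (¬d1s ∧ ¬d1t ∧ a1)) ↔ (d2s ∨ (¬d2s ∧ ¬d2t ∧ a2))))
    (h1 : ¬(d1s ∧ d2s)) (h2 : ¬(d1t ∧ d2t))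
    (h : ¬(a1 ↔ a2) → (d1s ∨ d1t) ∧ (d2s ∨ d2t)) :
    ((¬(d1s ↔ d2s) ∧ ¬(a1 ↔ a2)) ∨ (¬(d1t ↔ d2t) ∧ a1 ∧ a2)) ∨
      (¬(d1s ↔ d2s) ∧ ¬a1 ∧ ¬a2) := by grind

theorem FreeCut.free' {A : Set (Endp X)} (hA : FreeCut A) (g : FreeGroup X) : g • A ≠ Aᶜ := by
  intro h
  have h1 : (g * g) • A = A := by
    rw [mul_smul, h, Set.smul_set_compl, h, compl_compl]
  have h2 := hA.free _ h1
  have h3 : g = 1 := by
    have : g ^ 2 = 1 := by rw [pow_two]; exact h2
    exact (pow_eq_one_iff_left (by norm_num : (2 : ℕ) ≠ 0)).1 this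
  rw [h3, one_smul] at h
  obtain ⟨p, hp⟩ := hA.ne
  have : p ∈ Aᶜ := by rw [← h]; exact hp
  exact this hp

theorem FreeCut.smul {A : Set (Endp X)} (hA : FreeCut A) (g : FreeGroup X) : FreeCut (g • A) where
  cl := hA.cl.smul g
  ne := by
    obtain ⟨p, hp⟩ := hA.ne
    exact ⟨g • p, Set.smul_mem_smul_set hp⟩
  nc := by
    obtain ⟨p, hp⟩ := hA.nc
    exact ⟨g • p, fun h => hp (Set.smul_mem_smul_set_iff.1 h)⟩
  nest := by
    intro k h
    have h1 : k • g • A = g • (g⁻¹ * k * g) • A := by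
      simp only [smul_smul]; congr 1; group
    rw [h1, cross_smul] at h
    exact hA.nest _ h
  free := by
    intro k h
    have h1 : (g⁻¹ * k * g) • A = A := by
      rw [mul_smul, mul_smul, h, inv_smul_smul]
    have h2 := hA.free _ h1
    have : k = g * (g⁻¹ * k * g) * g⁻¹ := by group
    rw [this, h2]; group

theorem FreeCut.compl {A : Set (Endp X)} (hA : FreeCut A) : FreeCut Aᶜ where
  cl := hA.cl.compl
  ne := hA.nc
  nc := by
    obtain ⟨p, hp⟩ := hA.ne
    exact ⟨p, fun h => h hp⟩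
  nest := by
    intro g h
    rw [Set.smul_set_compl, cross_compl_left, cross_compl_right] at h
    exact hA.nest g h
  free := by
    intro g h
    rw [Set.smul_set_compl, compl_inj_iff] at h
    exact hA.free g h

theorem FreeCut.aut {A : Set (Endp X)} (hA : FreeCut A) (φ : MulAut (FreeGroup X)) :
    FreeCut (φ • A) where
  cl := hA.cl.aut φ
  ne := by
    obtain ⟨p, hp⟩ := hA.ne
    exact ⟨φ • p, Set.smul_mem_smul_set hp⟩
  nc := by
    obtain ⟨p, hp⟩ := hA.nc
    exact ⟨φ • p, fun h => hp (Set.smul_mem_smul_set_iff.1 h)⟩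
  nest := by
    intro k h
    have h1 : k • φ • A = φ • ((φ⁻¹ : MulAut (FreeGroup X)) k) • A := by
      rw [aut_smul_set, MulAut.apply_inv_self]
    rw [h1, cross_smul] at h
    exact hA.nest _ h
  free := by
    intro k h
    have h1 : k • φ • A = φ • ((φ⁻¹ : MulAut (FreeGroup X)) k) • A := by
      rw [aut_smul_set, MulAut.apply_inv_self]
    rw [h1] at h
    have h2 := hA.free _ (smul_left_cancel φ h)
    have h3 : φ ((φ⁻¹ : MulAut (FreeGroup X)) k) = 1 := by rw [h2]; simp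
    rwa [MulAut.apply_inv_self] at h3

/-- Trichotomy for nested sets. -/
theorem nested_cases {α : Type} {C D : Set α} (h : ¬ cross C D) (h1 : C ≠ D) (h2 : C ≠ Dᶜ) :
    (C ⊂ D ∨ Cᶜ ⊂ D) ∨ (C ⊂ Dᶜ ∨ Cᶜ ⊂ Dᶜ) := by
  unfold cross at h
  by_cases e1 : ∃ p, p ∈ C ∧ p ∈ D
  · by_cases e2 : ∃ p, p ∈ C ∧ p ∉ D
    · by_cases e3 : ∃ p, p ∉ C ∧ p ∈ D
      · by_cases e4 : ∃ p, p ∉ C ∧ p ∉ D
        · exact absurd ⟨e1, e2, e3, e4⟩ h
        · left; right
          push Not at e4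
          refine LE.le.ssubset_of_ne (fun p hp => e4 p hp) ?_
          intro h3; apply h2; rw [← h3, compl_compl]
      · right; right
        push Not at e3
        refine LE.le.ssubset_of_ne (fun p hp => e3 p hp) ?_
        intro h3; apply h1; exact compl_inj_iff.1 h3
    · left; left
      push Not at e2
      exact LE.le.ssubset_of_ne (fun p hp => e2 p hp) h1
  · right; left
    push Not at e1
    exact LE.le.ssubset_of_ne (fun p hp => e1 p hp) h2

/-- `C` or its complement is strictly inside `H`. -/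
def Ins {α : Type} (C H : Set α) : Prop := C ⊂ H ∨ Cᶜ ⊂ H

theorem FreeCut.ins_or {A : Set (Endp X)} (hA : FreeCut A) {k : FreeGroup X} (hk : k ≠ 1) :
    Ins (k • A) A ∨ Ins (k • A) Aᶜ :=
  nested_cases (hA.nest k) (fun h => hk (hA.free k h)) (hA.free' k)

/-- translates inside both sides: impossible -/
theorem not_ins_both {α : Type} {C H : Set α}
    (h1 : Ins C H) (h2 : Ins C Hᶜ) (hC : C.Nonempty) (hC' : Cᶜ.Nonempty) : False := by
  rcases h1 with h1 | h1 <;> rcases h2 with h2 | h2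
  · obtain ⟨p, hp⟩ := hC
    exact h2.1 hp (h1.1 hp)
  · -- C ⊂ H, Cᶜ ⊂ Hᶜ
    apply h1.2
    intro p hp
    by_contra h3
    exact h2.1 h3 hp
  · apply h1.2
    intro p hp
    by_contra h3
    simp only [Set.mem_compl_iff, not_not] at h3
    exact h2.1 h3 hp
  · obtain ⟨p, hp⟩ := hC'
    exact h2.1 hp (h1.1 hp)

variable (v : ι → FreeGroup X) (A : Set (Endp X)) (N : ℕ)

/-- lines crossing `Hs 1 s` with both ends in `H` -/
def wL (s : X × Bool) (H : Set (Endp X)) : Set (Line v) :=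
  {l | l ∈ crL v (Hs 1 s) ∧ pos l ∈ H ∧ neg l ∈ H}

/-- translates crossing `Hs 1 s` which are strictly inside `H` -/
def wT (s : X × Bool) (H : Set (Endp X)) : Set (FreeGroup X) :=
  {k | cross (k • A) (Hs 1 s) ∧ Ins (k • A) H}

/-- the weight -/
noncomputable def wgt (s : X × Bool) (H : Set (Endp X)) : ℕ :=
  N * (wL v s H).ncard + (wT A s H).ncard

/-- the cost -/
noncomputable def cst (S : Set (Endp X)) : ℕ := N * cnt v S + nA A S

/-- local minimality -/
def LM : Prop := ∀ (B : Set (X × Bool)) (b : X × Bool), b ∈ B → il b ∉ B →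
  cst v A N (Hs 1 b) ≤ cst v A N (WB B)

variable {v A N}

theorem wL_finite (s : X × Bool) (H : Set (Endp X)) : (wL v s H).Finite :=
  (crL_finite v (cl_Hs 1 s)).subset (fun _ h => h.1)

theorem cross_finite (hA : Cl A) (s : X × Bool) :
    {k : FreeGroup X | cross (k • A) (Hs 1 s)}.Finite := by
  have h1 : (Cr A).Finite := finite_Cr hA
  have h2 := h1.preimage (f := fun k : FreeGroup X => (k⁻¹, s)) (by
    intro a _ b _ h
    simpa using h)
  refine h2.subset ?_
  intro k hk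
  simp only [Set.mem_preimage]
  rw [mem_Cr, ← cross_smul k, smul_Hs, mul_inv_cancel]
  exact hk

theorem wT_finite (hA : Cl A) (s : X × Bool) (H : Set (Endp X)) : (wT A s H).Finite :=
  (cross_finite hA s).subset (fun _ h => h.1)

theorem cst_il (s : X × Bool) : cst v A N (Hs 1 (il s)) = cst v A N (Hs 1 s) := by
  unfold cst
  rw [cnt_Hs_il, Hs_il_eq, nA_smul, nA_compl]

/-- Sufficient condition for crossing a half-space. -/
theorem cross_of_pts {α : Type} {C H W : Set α} (hCH : C ⊆ H) (h1 : ∃ q, q ∈ C ∧ q ∈ W)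
    (h2 : ∃ q, q ∈ C ∧ q ∉ W) (h3 : ∃ z, z ∉ H ∧ z ∈ W) (h4 : ∃ z, z ∉ C ∧ z ∉ W) :
    cross C W := by
  obtain ⟨z, hz⟩ := h3
  exact ⟨h1, h2, ⟨z, fun h => hz.1 (hCH h), hz.2⟩, h4⟩

/-- Same, for `Ins`. -/
theorem cross_of_ins {α : Type} {C H W : Set α} (hCH : Ins C H)
    (h : ∀ D : Set α, D ⊆ H → (D = C ∨ D = Cᶜ) →
      (∃ q, q ∈ D ∧ q ∈ W) ∧ (∃ q, q ∈ D ∧ q ∉ W) ∧ (∃ z, z ∉ D ∧ z ∉ W))
    (h3 : ∃ z, z ∉ H ∧ z ∈ W) : cross C W := by
  rcases hCH with h1 | h1
  · obtain ⟨x1, x2, x3⟩ := h C h1.1 (Or.inl rfl)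
    exact cross_of_pts h1.1 x1 x2 h3 x3
  · obtain ⟨x1, x2, x3⟩ := h Cᶜ h1.1 (Or.inr rfl)
    rw [← cross_compl_left]
    exact cross_of_pts h1.1 x1 x2 h3 x3

/-- **Leaf lemma.** -/
theorem leaf (hA : FreeCut A) {s : X × Bool} (hs : (1, s) ∈ Cr A)
    (hM : ∀ r, (1, r) ∈ Cr A → r = s) (hLM : LM v A N) :
    ∃ l : Line v, l ∈ crL v A ∧ dir (pos l) ≠ s ∧ dir (neg l) ≠ s := by
  by_contra hno
  push Not at hno
  have h1V : (1 : FreeGroup X) ∈ Vx A := ⟨s, hs⟩
  have hpure : ∀ r, r ≠ s → (∀ p, dir p = r → p ∈ A) ∨ (∀ p, dir p = r → p ∉ A) := by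
    intro r hr
    have := pure_of_not_cross h1V (s := r) (fun h => hr (hM r h))
    simpa only [dr_one] using this
  set P : Set (X × Bool) := {r | r ≠ s ∧ ∀ p, dir p = r → p ∈ A} with hP
  set Q : Set (X × Bool) := {r | r ≠ s ∧ ∀ p, dir p = r → p ∉ A} with hQ
  have mP : ∀ p, p ∈ WB P ↔ (dir p ≠ s ∧ p ∈ A) := by
    intro p
    rw [mem_WB, hP]
    constructor
    · rintro ⟨h1, h2⟩; exact ⟨h1, h2 p rfl⟩
    · rintro ⟨h1, h2⟩
      refine ⟨h1, ?_⟩
      rcases hpure _ h1 with h | h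
      · exact h
      · exact absurd h2 (h p rfl)
  have mQ : ∀ p, p ∈ WB Q ↔ (dir p ≠ s ∧ p ∉ A) := by
    intro p
    rw [mem_WB, hQ]
    constructor
    · rintro ⟨h1, h2⟩; exact ⟨h1, h2 p rfl⟩
    · rintro ⟨h1, h2⟩
      refine ⟨h1, ?_⟩
      rcases hpure _ h1 with h | h
      · exact absurd (h p rfl) h2
      · exact h
  have mS : ∀ p, p ∈ Hs 1 s ↔ dir p = s := by intro p; rw [mem_Hs, dr_one]
  have hcr : cross A (Hs 1 s) := hs
  obtain ⟨⟨q1, hq1, hq1'⟩, -, ⟨q3, hq3, hq3'⟩, -⟩ := hcr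
  rw [mS] at hq1' hq3'
  -- translates
  have hTP : ∀ k : FreeGroup X, cross (k • A) (WB P) → k ≠ 1 ∧ Ins (k • A) A ∧ cross (k • A) (Hs 1 s) := by
    intro k hk
    have hk1 : k ≠ 1 := by
      rintro rfl
      rw [one_smul] at hk
      obtain ⟨-, -, ⟨p, hp, hp'⟩, -⟩ := hk
      exact hp ((mP p).1 hp').2
    have hins : Ins (k • A) A := by
      rcases hA.ins_or hk1 with h | h
      · exact h
      · exfalso
        obtain ⟨⟨p, hp, hp'⟩, -, ⟨q, hq, hq'⟩, -⟩ := hk
        rcases h with h | h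
        · exact h.1 hp ((mP p).1 hp').2
        · exact h.1 hq ((mP q).1 hq').2
    refine ⟨hk1, hins, ?_⟩
    apply cross_of_ins hins _ ⟨q3, hq3, (mS q3).2 hq3'⟩
    intro D hD hDC
    have hDk : cross D (WB P) := by
      rcases hDC with rfl | rfl
      · exact hk
      · rwa [cross_compl_left]
    obtain ⟨⟨p1, h1, h1'⟩, ⟨p2, h2, h2'⟩, ⟨p3, h3, h3'⟩, -⟩ := hDk
    refine ⟨⟨p2, h2, ?_⟩, ⟨p1, h1, ?_⟩, ⟨p3, h3, ?_⟩⟩
    · rw [mS]
      by_contra h4
      exact h2' ((mP p2).2 ⟨h4, hD h2⟩)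
    · rw [mS]; exact ((mP p1).1 h1').1
    · rw [mS]; exact ((mP p3).1 h3').1
  have hTQ : ∀ k : FreeGroup X, cross (k • A) (WB Q) → k ≠ 1 ∧ Ins (k • A) Aᶜ ∧ cross (k • A) (Hs 1 s) := by
    intro k hk
    have hk1 : k ≠ 1 := by
      rintro rfl
      rw [one_smul] at hk
      obtain ⟨⟨p, hp, hp'⟩, -⟩ := hk
      exact ((mQ p).1 hp').2 hp
    have hins : Ins (k • A) Aᶜ := by
      rcases hA.ins_or hk1 with h | h
      · exfalso
        obtain ⟨⟨p, hp, hp'⟩, -, ⟨q, hq, hq'⟩, -⟩ := hk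
        rcases h with h | h
        · exact ((mQ p).1 hp').2 (h.1 hp)
        · exact ((mQ q).1 hq').2 (h.1 hq)
      · exact h
    refine ⟨hk1, hins, ?_⟩
    apply cross_of_ins hins _ ⟨q1, fun h => h hq1, (mS q1).2 hq1'⟩
    intro D hD hDC
    have hDk : cross D (WB Q) := by
      rcases hDC with rfl | rfl
      · exact hk
      · rwa [cross_compl_left]
    obtain ⟨⟨p1, h1, h1'⟩, ⟨p2, h2, h2'⟩, ⟨p3, h3, h3'⟩, -⟩ := hDk
    refine ⟨⟨p2, h2, ?_⟩, ⟨p1, h1, ?_⟩, ⟨p3, h3, ?_⟩⟩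
    · rw [mS]
      by_contra h4
      exact h2' ((mQ p2).2 ⟨h4, hD h2⟩)
    · rw [mS]; exact ((mQ p1).1 h1').1
    · rw [mS]; exact ((mQ p3).1 h3').1
  have hfinT := cross_finite hA.cl s
  have hn : nA A (WB P) + nA A (WB Q) + 1 ≤ nA A (Hs 1 s) := by
    unfold nA
    have hdisj : Disjoint {k : FreeGroup X | cross (k • A) (WB P)}
        {k : FreeGroup X | cross (k • A) (WB Q)} := by
      rw [Set.disjoint_left]
      intro k h1 h2
      have e1 := hTP k h1
      have e2 := hTQ k h2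
      obtain ⟨⟨p, hp, -⟩, -, ⟨q, hq, -⟩, -⟩ := e1.2.2
      exact not_ins_both e1.2.1 e2.2.1 ⟨p, hp⟩ ⟨q, hq⟩
    have hfP : {k : FreeGroup X | cross (k • A) (WB P)}.Finite :=
      hfinT.subset (fun k hk => (hTP k hk).2.2)
    have hfQ : {k : FreeGroup X | cross (k • A) (WB Q)}.Finite :=
      hfinT.subset (fun k hk => (hTQ k hk).2.2)
    rw [← Set.ncard_union_eq hdisj hfP hfQ]
    rw [← Set.ncard_insert_of_notMem (a := (1 : FreeGroup X)) _ (hfP.union hfQ)]
    · apply Set.ncard_le_ncard _ hfinT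
      intro k hk
      rcases hk with rfl | hk | hk
      · simp only [Set.mem_ofPred_eq, one_smul]; exact hs
      · exact (hTP k hk).2.2
      · exact (hTQ k hk).2.2
    · rintro (h | h)
      · exact (hTP 1 h).1 rfl
      · exact (hTQ 1 h).1 rfl
  have hc : cnt v (WB P) + cnt v (WB Q) ≤ cnt v (Hs 1 s) := by
    unfold cnt
    have hfP := crL_finite v (cl_WB P)
    have hfQ := crL_finite v (cl_WB Q)
    have hlP : ∀ l, l ∈ crL v (WB P) → l ∈ crL v (Hs 1 s) := by
      intro l hl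
      have h2 := hno l
      simp only [mem_crL, mP, mS] at hl h2 ⊢
      tauto
    have hlQ : ∀ l, l ∈ crL v (WB Q) → l ∈ crL v (Hs 1 s) := by
      intro l hl
      have h2 := hno l
      simp only [mem_crL, mQ, mS] at hl h2 ⊢
      tauto
    have hdisj : Disjoint (crL v (WB P)) (crL v (WB Q)) := by
      rw [Set.disjoint_left]
      intro l h1 h2
      have h3 := hno l
      simp only [mem_crL, mP, mQ] at h1 h2 h3
      tauto
    rw [← Set.ncard_union_eq hdisj hfP hfQ]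
    apply Set.ncard_le_ncard _ (crL_finite v (cl_Hs 1 s))
    rintro l (hl | hl)
    · exact hlP l hl
    · exact hlQ l hl
  have hil := il_ne s
  have hcst := cst_il (v := v) (A := A) (N := N) s
  unfold cst at hcst
  rcases hpure _ hil with h | h
  · have h2 := hLM P (il s) ⟨hil, h⟩ (by rw [il_il]; intro h3; exact h3.1 rfl)
    unfold cst at h2
    nlinarith
  · have h2 := hLM Q (il s) ⟨hil, h⟩ (by rw [il_il]; intro h3; exact h3.1 rfl)
    unfold cst at h2
    nlinarith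

/-- The weights bound the cost of a half-space from below. -/
theorem wt_le_cst (hA : FreeCut A) {s : X × Bool} (hs : (1, s) ∈ Cr A) :
    wgt v A N s A + wgt v A N s Aᶜ + (N * (crL v (Hs 1 s) ∩ crL v A).ncard + 1) ≤
      cst v A N (Hs 1 s) := by
  have hfinT := cross_finite hA.cl s
  have hn : (wT A s A).ncard + (wT A s Aᶜ).ncard + 1 ≤ nA A (Hs 1 s) := by
    unfold nA
    have hfP := wT_finite hA.cl s A
    have hfQ := wT_finite hA.cl s Aᶜ
    have hdisj : Disjoint (wT A s A) (wT A s Aᶜ) := by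
      rw [Set.disjoint_left]
      intro k h1 h2
      obtain ⟨⟨p, hp, -⟩, -, ⟨q, hq, -⟩, -⟩ := h1.1
      exact not_ins_both h1.2 h2.2 ⟨p, hp⟩ ⟨q, hq⟩
    rw [← Set.ncard_union_eq hdisj hfP hfQ]
    rw [← Set.ncard_insert_of_notMem (a := (1 : FreeGroup X)) _ (hfP.union hfQ)]
    · apply Set.ncard_le_ncard _ hfinT
      intro k hk
      rcases hk with rfl | hk | hk
      · simp only [Set.mem_ofPred_eq, one_smul]; exact hs
      · exact hk.1
      · exact hk.1
    · obtain ⟨p, hp⟩ := hA.ne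
      obtain ⟨q, hq⟩ := hA.nc
      rintro (⟨-, h⟩ | ⟨-, h⟩)
      · rw [one_smul] at h
        rcases h with h | h
        · exact h.2 (fun x hx => hx)
        · exact hq (h.1 hq)
      · rw [one_smul] at h
        rcases h with h | h
        · exact h.1 hp hp
        · exact h.2 (fun x hx => hx)
  have hc : (wL v s A).ncard + (wL v s Aᶜ).ncard + (crL v (Hs 1 s) ∩ crL v A).ncard ≤
      cnt v (Hs 1 s) := by
    unfold cnt
    have hfP := wL_finite (v := v) s A
    have hfQ := wL_finite (v := v) s Aᶜ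
    have hfK : (crL v (Hs 1 s) ∩ crL v A).Finite :=
      (crL_finite v (cl_Hs 1 s)).subset Set.inter_subset_left
    have hd1 : Disjoint (wL v s A) (wL v s Aᶜ) := by
      rw [Set.disjoint_left]
      intro l h1 h2
      exact h2.2.1 h1.2.1
    have hd2 : Disjoint (wL v s A ∪ wL v s Aᶜ) (crL v (Hs 1 s) ∩ crL v A) := by
      rw [Set.disjoint_left]
      rintro l (h1 | h1) ⟨-, h2⟩
      · rw [mem_crL] at h2
        exact h2 ⟨fun _ => h1.2.2, fun _ => h1.2.1⟩
      · rw [mem_crL] at h2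
        exact h2 ⟨fun h => absurd h h1.2.1, fun h => absurd h h1.2.2⟩
    rw [← Set.ncard_union_eq hd1 hfP hfQ, ← Set.ncard_union_eq hd2 (hfP.union hfQ) hfK]
    apply Set.ncard_le_ncard _ (crL_finite v (cl_Hs 1 s))
    rintro l ((h | h) | h)
    · exact h.1
    · exact h.1
    · exact h.1
  unfold wgt cst
  nlinarith

section regular

variable {s t : X × Bool}

/-- Data at a regular vertex. -/
structure Reg (v : ι → FreeGroup X) (A : Set (Endp X)) (s t : X × Bool) : Prop where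
  st : s ≠ t
  hs : (1, s) ∈ Cr A
  ht : (1, t) ∈ Cr A
  hM : ∀ r, (1, r) ∈ Cr A → r = s ∨ r = t
  hl : ∀ l ∈ crL v A, dir (pos l) ≠ dir (neg l) →
    (dir (pos l) = s ∨ dir (pos l) = t) ∧ (dir (neg l) = s ∨ dir (neg l) = t)

theorem Reg.symm (h : Reg v A s t) : Reg v A t s where
  st := h.st.symm
  hs := h.ht
  ht := h.hs
  hM := fun r hr => (h.hM r hr).symm
  hl := fun l hl hd => ⟨(h.hl l hl hd).1.symm, (h.hl l hl hd).2.symm⟩

theorem Reg.compl (h : Reg v A s t) : Reg v Aᶜ s t where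
  st := h.st
  hs := by rw [mem_Cr, cross_compl_left]; exact h.hs
  ht := by rw [mem_Cr, cross_compl_left]; exact h.ht
  hM := fun r hr => h.hM r (by rw [mem_Cr, cross_compl_left] at hr; exact hr)
  hl := fun l hl hd => h.hl l (by rw [crL_compl] at hl; exact hl) hd

/-- The pure directions inside `A`. -/
def PD (A : Set (Endp X)) (s t : X × Bool) : Set (X × Bool) :=
  {r | r ≠ s ∧ r ≠ t ∧ ∀ p, dir p = r → p ∈ A}

theorem Reg.pure (h : Reg v A s t) (r : X × Bool) (h1 : r ≠ s) (h2 : r ≠ t) :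
    (∀ p, dir p = r → p ∈ A) ∨ (∀ p, dir p = r → p ∉ A) := by
  have h1V : (1 : FreeGroup X) ∈ Vx A := ⟨s, h.hs⟩
  have := pure_of_not_cross h1V (s := r) (fun h3 => by
    rcases h.hM r h3 with h4 | h4
    · exact h1 h4
    · exact h2 h4)
  simpa only [dr_one] using this

theorem Reg.mem_PD (h : Reg v A s t) (p : Endp X) :
    dir p ∈ PD A s t ↔ (dir p ≠ s ∧ dir p ≠ t ∧ p ∈ A) := by
  constructor
  · rintro ⟨h1, h2, h3⟩; exact ⟨h1, h2, h3 p rfl⟩
  · rintro ⟨h1, h2, h3⟩
    refine ⟨h1, h2, ?_⟩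
    rcases h.pure _ h1 h2 with h4 | h4
    · exact h4
    · exact absurd h3 (h4 p rfl)

theorem Reg.mS (r : X × Bool) (p : Endp X) : p ∈ Hs 1 r ↔ dir p = r := by rw [mem_Hs, dr_one]

/-- points of each side in the mixed directions -/
theorem Reg.pts (h : Reg v A s t) : (∃ p, p ∈ A ∧ dir p = s) ∧ (∃ p, p ∉ A ∧ dir p = s) ∧
    (∃ p, p ∈ A ∧ dir p = t) ∧ (∃ p, p ∉ A ∧ dir p = t) := by
  obtain ⟨⟨p1, h1⟩, -, ⟨p2, h2⟩, -⟩ := h.hs
  obtain ⟨⟨p3, h3⟩, -, ⟨p4, h4⟩, -⟩ := h.ht
  simp only [mem_Hs, dr_one] at h1 h2 h3 h4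
  exact ⟨⟨p1, h1⟩, ⟨p2, h2⟩, ⟨p3, h3⟩, ⟨p4, h4⟩⟩

/-- Cost of the pure part of `A`. -/
theorem Reg.cst_P (hA : FreeCut A) (h : Reg v A s t) :
    cst v A N (WB (PD A s t)) ≤ wgt v A N s A + wgt v A N t A := by
  obtain ⟨-, ⟨z1, hz1, hz1'⟩, -, ⟨z2, hz2, hz2'⟩⟩ := h.pts
  have hn : nA A (WB (PD A s t)) ≤ (wT A s A).ncard + (wT A t A).ncard := by
    unfold nA
    refine le_trans (Set.ncard_le_ncard ?_ ((wT_finite hA.cl s A).union (wT_finite hA.cl t A)))
      (Set.ncard_union_le _ _)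
    intro k hk
    simp only [Set.mem_ofPred_eq] at hk
    have hk1 : k ≠ 1 := by
      rintro rfl
      rw [one_smul] at hk
      obtain ⟨-, -, ⟨p, hp, hp'⟩, -⟩ := hk
      exact hp ((h.mem_PD p).1 hp').2.2
    have hins : Ins (k • A) A := by
      rcases hA.ins_or hk1 with h1 | h1
      · exact h1
      · exfalso
        obtain ⟨⟨p, hp, hp'⟩, -, ⟨q, hq, hq'⟩, -⟩ := hk
        rcases h1 with h1 | h1
        · exact h1.1 hp ((h.mem_PD p).1 hp').2.2
        · exact h1.1 hq ((h.mem_PD q).1 hq').2.2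
    by_contra hcon
    simp only [Set.mem_union, not_or] at hcon
    have key : ∀ r, (r = s ∨ r = t) → ¬ cross (k • A) (Hs 1 r) := by
      rintro r (rfl | rfl) h2
      · exact hcon.1 ⟨h2, hins⟩
      · exact hcon.2 ⟨h2, hins⟩
    -- find the half inside
    obtain ⟨D, hD, hDC⟩ : ∃ D : Set (Endp X), D ⊆ A ∧ (D = k • A ∨ D = (k • A)ᶜ) := by
      rcases hins with h1 | h1
      · exact ⟨_, h1.1, Or.inl rfl⟩
      · exact ⟨_, h1.1, Or.inr rfl⟩
    have hDk : cross D (WB (PD A s t)) := by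
      rcases hDC with rfl | rfl
      · exact hk
      · rwa [cross_compl_left]
    have key2 : ∀ r, (r = s ∨ r = t) → ¬ cross D (Hs 1 r) := by
      intro r hr
      rcases hDC with rfl | rfl
      · exact key r hr
      · rw [cross_compl_left]; exact key r hr
    obtain ⟨⟨p1, h1, h1'⟩, ⟨p2, h2, h2'⟩, ⟨p3, h3, h3'⟩, -⟩ := hDk
    rw [mem_WB] at h1' h2' h3'
    rw [h.mem_PD] at h1' h2' h3'
    have h5 : dir p2 = s ∨ dir p2 = t := by
      by_contra h6
      push Not at h6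
      exact h2' ⟨h6.1, h6.2, hD h2⟩
    rcases h5 with h5 | h5
    · apply key2 s (Or.inl rfl)
      apply cross_of_pts hD
      · exact ⟨p2, h2, by rw [Reg.mS]; exact h5⟩
      · exact ⟨p1, h1, by rw [Reg.mS]; exact h1'.1⟩
      · exact ⟨z1, hz1, by rw [Reg.mS]; exact hz1'⟩
      · exact ⟨p3, h3, by rw [Reg.mS]; exact h3'.1⟩
    · apply key2 t (Or.inr rfl)
      apply cross_of_pts hD
      · exact ⟨p2, h2, by rw [Reg.mS]; exact h5⟩
      · exact ⟨p1, h1, by rw [Reg.mS]; exact h1'.2.1⟩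
      · exact ⟨z2, hz2, by rw [Reg.mS]; exact hz2'⟩
      · exact ⟨p3, h3, by rw [Reg.mS]; exact h3'.2.1⟩
  have hc : cnt v (WB (PD A s t)) ≤ (wL v s A).ncard + (wL v t A).ncard := by
    unfold cnt
    refine le_trans (Set.ncard_le_ncard ?_ ((wL_finite s A).union (wL_finite t A)))
      (Set.ncard_union_le _ _)
    intro l hl
    have h2 := h.hl l
    have h3 : dir (pos l) = dir (neg l) → (pos l ∈ WB (PD A s t) ↔ neg l ∈ WB (PD A s t)) := by
      intro h3; rw [mem_WB, mem_WB, h3]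
    simp only [Set.mem_union, wL, Set.mem_ofPred_eq]
    simp only [mem_crL, Reg.mS] at hl h2 ⊢
    have h4 := h.mem_PD (pos l)
    have h5 := h.mem_PD (neg l)
    rw [mem_WB, mem_WB] at hl h3
    rw [h4, h5] at hl h3
    by_cases e1 : dir (pos l) = dir (neg l)
    · exact absurd (h3 e1) hl
    · exact prop1 _ _ _ _ _ _ hl (fun hh => e1 (hh.1.trans hh.2.symm)) (fun hh => h2 hh e1)
  unfold wgt cst
  nlinarith

/-- Cost of the pure part plus one mixed direction. -/
theorem Reg.cst_Ps (hA : FreeCut A) (h : Reg v A s t) :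
    cst v A N (WB (insert s (PD A s t))) ≤
      (N * (crL v (Hs 1 s) ∩ crL v A).ncard + 1) + wgt v A N t A + wgt v A N s Aᶜ := by
  obtain ⟨⟨z1, hz1, hz1'⟩, -, -, ⟨z2, hz2, hz2'⟩⟩ := h.pts
  have mZ : ∀ p, p ∈ WB (insert s (PD A s t)) ↔ (dir p = s ∨ (dir p ≠ s ∧ dir p ≠ t ∧ p ∈ A)) := by
    intro p
    rw [mem_WB, Set.mem_insert_iff, h.mem_PD]
  have hst := h.st
  have hn : nA A (WB (insert s (PD A s t))) ≤ 1 + (wT A t A).ncard + (wT A s Aᶜ).ncard := by
    unfold nA
    have hsub : {g : FreeGroup X | cross (g • A) (WB (insert s (PD A s t)))} ⊆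
        ({1} ∪ wT A t A) ∪ wT A s Aᶜ := by
      intro k hk
      simp only [Set.mem_ofPred_eq] at hk
      by_cases hk1 : k = 1
      · left; left; exact hk1
      · rcases hA.ins_or hk1 with hins | hins
        · left; right
          refine ⟨?_, hins⟩
          apply cross_of_ins hins _ ⟨z2, hz2, by rw [Reg.mS]; exact hz2'⟩
          intro D hD hDC
          have hDk : cross D (WB (insert s (PD A s t))) := by
            rcases hDC with rfl | rfl
            · exact hk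
            · rwa [cross_compl_left]
          obtain ⟨⟨p1, h1, h1'⟩, ⟨p2, h2, h2'⟩, ⟨p3, h3, h3'⟩, -⟩ := hDk
          rw [mZ] at h1' h2' h3'
          refine ⟨⟨p2, h2, ?_⟩, ⟨p1, h1, ?_⟩, ⟨p3, h3, ?_⟩⟩
          · rw [Reg.mS]
            have := hD h2
            tauto
          · rw [Reg.mS]
            rcases h1' with h4 | h4
            · rw [h4]; exact hst
            · exact h4.2.1
          · rw [Reg.mS]
            rcases h3' with h4 | h4
            · rw [h4]; exact hst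
            · exact h4.2.1
        · right
          refine ⟨?_, hins⟩
          apply cross_of_ins hins _ ⟨z1, fun h => h hz1, by rw [Reg.mS]; exact hz1'⟩
          intro D hD hDC
          have hDk : cross D (WB (insert s (PD A s t))) := by
            rcases hDC with rfl | rfl
            · exact hk
            · rwa [cross_compl_left]
          obtain ⟨⟨p1, h1, h1'⟩, ⟨p2, h2, h2'⟩, -, ⟨p4, h4, h4'⟩⟩ := hDk
          rw [mZ] at h1' h2' h4'
          refine ⟨⟨p1, h1, ?_⟩, ⟨p2, h2, ?_⟩, ⟨p4, h4, ?_⟩⟩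
          · rw [Reg.mS]
            rcases h1' with h5 | h5
            · exact h5
            · exact absurd h5.2.2 (hD h1)
          · rw [Reg.mS]; tauto
          · rw [Reg.mS]; tauto
    refine le_trans (Set.ncard_le_ncard hsub (((Set.finite_singleton _).union
      (wT_finite hA.cl t A)).union (wT_finite hA.cl s Aᶜ))) ?_
    refine le_trans (Set.ncard_union_le _ _) ?_
    have := Set.ncard_union_le ({1} : Set (FreeGroup X)) (wT A t A)
    rw [Set.ncard_singleton] at this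
    omega
  have hc : cnt v (WB (insert s (PD A s t))) ≤
      (crL v (Hs 1 s) ∩ crL v A).ncard + (wL v t A).ncard + (wL v s Aᶜ).ncard := by
    unfold cnt
    have hfK : (crL v (Hs 1 s) ∩ crL v A).Finite :=
      (crL_finite v (cl_Hs 1 s)).subset Set.inter_subset_left
    have hsub : crL v (WB (insert s (PD A s t))) ⊆
        ((crL v (Hs 1 s) ∩ crL v A) ∪ wL v t A) ∪ wL v s Aᶜ := by
      intro l hl
      have h2 := h.hl l
      have h3 : dir (pos l) = dir (neg l) →
          (pos l ∈ WB (insert s (PD A s t)) ↔ neg l ∈ WB (insert s (PD A s t))) := by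
        intro h3; rw [mem_WB, mem_WB, h3]
      simp only [Set.mem_union, wL, Set.mem_ofPred_eq, Set.mem_inter_iff]
      simp only [mem_crL, Reg.mS] at hl h2 ⊢
      rw [mZ, mZ] at hl h3
      by_cases e1 : dir (pos l) = dir (neg l)
      · exact absurd (h3 e1) hl
      · simp only [Set.mem_compl_iff]
        exact prop2 _ _ _ _ _ _ hl (fun hh => e1 (hh.1.trans hh.2.symm))
          (fun hh => e1 (hh.1.trans hh.2.symm)) (fun hh => h2 hh e1)
    refine le_trans (Set.ncard_le_ncard hsub ((hfK.union (wL_finite t A)).union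
      (wL_finite s Aᶜ))) ?_
    refine le_trans (Set.ncard_union_le _ _) ?_
    have := Set.ncard_union_le (crL v (Hs 1 s) ∩ crL v A) (wL v t A)
    omega
  unfold wgt cst
  nlinarith

theorem wT_compl_base (A : Set (Endp X)) (s : X × Bool) (H : Set (Endp X)) :
    wT Aᶜ s H = wT A s H := by
  ext k
  unfold wT Ins
  simp only [Set.mem_ofPred_eq, Set.smul_set_compl, cross_compl_left, compl_compl]
  tauto

theorem wt_compl_base (A : Set (Endp X)) (s : X × Bool) (H : Set (Endp X)) :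
    wgt v Aᶜ N s H = wgt v A N s H := by
  unfold wgt
  rw [wT_compl_base]

theorem cst_compl_base (A S : Set (Endp X)) : cst v Aᶜ N S = cst v A N S := by
  unfold cst nA
  simp only [Set.smul_set_compl, cross_compl_left]

theorem Reg.K_eq (h : Reg v A s t) :
    crL v (Hs 1 s) ∩ crL v A = crL v (Hs 1 t) ∩ crL v A := by
  have key : ∀ s t, Reg v A s t → crL v (Hs 1 s) ∩ crL v A ⊆ crL v (Hs 1 t) ∩ crL v A := by
    rintro s t h l ⟨h1, h2⟩
    refine ⟨?_, h2⟩
    rw [mem_crL, Reg.mS, Reg.mS] at h1 ⊢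
    have h3 : dir (pos l) ≠ dir (neg l) := by
      intro h4; rw [h4] at h1; exact h1 Iff.rfl
    have h4 := h.hl l h2 h3
    have hst := h.st
    rcases h4.1 with h5 | h5 <;> rcases h4.2 with h6 | h6
    · exact absurd (h5.trans h6.symm) h3
    · rw [h5, h6]; simp [hst]
    · rw [h5, h6]; simp [hst]
    · exact absurd (h5.trans h6.symm) h3
  exact Set.Subset.antisymm (key s t h) (key t s h.symm)

theorem PD_symm (A : Set (Endp X)) (s t : X × Bool) : PD A s t = PD A t s := by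
  ext r
  unfold PD
  simp only [Set.mem_ofPred_eq]
  tauto

/-- **Regular vertex lemma**, one inequality. -/
theorem Reg.le (hA : FreeCut A) (h : Reg v A s t) (hLM : LM v A N) :
    min (wgt v A N s A) (wgt v A N s Aᶜ) ≤ min (wgt v A N t A) (wgt v A N t Aᶜ) := by
  have c1 := wt_le_cst (v := v) (N := N) hA h.hs
  have c2 := h.cst_P (N := N) hA
  have c3 := h.compl.cst_P (N := N) hA.compl
  rw [cst_compl_base, wt_compl_base, wt_compl_base] at c3
  have c4 := h.cst_Ps (N := N) hA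
  have c5 := h.symm.cst_Ps (N := N) hA
  rw [← h.K_eq, PD_symm] at c5
  have hil := cst_il (v := v) (A := A) (N := N) s
  have hst := h.st
  by_cases e1 : il s = t
  · -- the two mixed directions are inverse letters
    have l1 := hLM (insert s (PD A s t)) s (Set.mem_insert _ _) (by
      rw [e1, Set.mem_insert_iff]
      rintro (h2 | h2)
      · exact hst h2.symm
      · exact h2.2.1 rfl)
    have l2 := hLM (insert t (PD A s t)) t (Set.mem_insert _ _) (by
      rw [← e1, il_il, Set.mem_insert_iff]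
      rintro (h2 | h2)
      · rw [e1] at h2; exact hst h2
      · exact h2.1 rfl)
    rw [e1] at hil
    have : wgt v A N s A ≤ wgt v A N t A := by omega
    have : wgt v A N s Aᶜ ≤ wgt v A N t Aᶜ := by omega
    omega
  · rcases h.pure (il s) (il_ne s) e1 with h2 | h2
    · have l1 := hLM (PD A s t) (il s) ⟨il_ne s, e1, h2⟩ (by
        rw [il_il]; intro h3; exact h3.1 rfl)
      have l2 := hLM (insert t (PD A s t)) (il s) (Set.mem_insert_of_mem _ ⟨il_ne s, e1, h2⟩) (by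
        rw [il_il, Set.mem_insert_iff]
        rintro (h3 | h3)
        · exact hst h3
        · exact h3.1 rfl)
      omega
    · have l1 := hLM (PD Aᶜ s t) (il s) ⟨il_ne s, e1, h2⟩ (by
        rw [il_il]; intro h3; exact h3.1 rfl)
      have l2 := hLM (insert s (PD A s t)) s (Set.mem_insert _ _) (by
        rw [Set.mem_insert_iff]
        rintro (h3 | h3)
        · exact il_ne s h3
        · obtain ⟨q, hq, hq'⟩ := h.pts.2.2.1
          have h7 : dir (lt (il s) • q) = il s := by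
            rw [dir_lt_smul, il_il, hq']; exact hst.symm
          exact h2 _ h7 (h3.2.2 _ h7))
      omega

/-- **Regular vertex lemma.** -/
theorem Reg.eq (hA : FreeCut A) (h : Reg v A s t) (hLM : LM v A N) :
    min (wgt v A N s A) (wgt v A N s Aᶜ) = min (wgt v A N t A) (wgt v A N t Aᶜ) :=
  le_antisymm (h.le hA hLM) (h.symm.le hA hLM)

end regular

end Helper85.BTE
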