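import Pool.Agent.Helper85.BTE.Zero

/-!
Whitehead automorphisms as products of elementary Nielsen automorphisms.
-/

set_option autoImplicit false
set_option linter.unusedSectionVars false
set_option linter.unusedVariables false

namespace Helper85.BTE

open FreeGroup Pointwise Classical Filter

variable {X : Type} [DecidableEq X]

theorem nielsen_of_ne {i j : X} (h : i ≠ j) (e sd : Bool) (k : X) :
    nielsen i j e sd (FreeGroup.of k) = nielsenGen i j e sd k := by
  unfold nielsen
  rw [dif_neg h]
  change nielsenHom i j e sd (FreeGroup.of k) = _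
  unfold nielsenHom
  simp

theorem aut_ext {φ ψ : MulAut (FreeGroup X)} (h : ∀ k, φ (FreeGroup.of k) = ψ (FreeGroup.of k)) :
    φ = ψ := by
  apply MulEquiv.ext
  intro x
  have : (φ : FreeGroup X →* FreeGroup X) = (ψ : FreeGroup X →* FreeGroup X) := by
    apply FreeGroup.ext_hom
    intro a
    exact h a
  exact DFunLike.congr_fun this x

theorem wh_of (B : Set (X × Bool)) (b : X × Bool) (k : X) :
    wh B b (FreeGroup.of k) = whGen B b k := by
  rw [wh_apply]
  unfold whHom
  simp

/-- Elementary Nielsen automorphisms are Whitehead automorphisms. -/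
theorem wh_single_true {i j : X} (h : i ≠ j) (e : Bool) :
    wh {(i, true)} (j, e) = nielsen i j e false := by
  apply aut_ext
  intro k
  rw [wh_of, nielsen_of_ne h]
  unfold whGen nielsenGen bp
  by_cases hk : k = i
  · subst hk
    simp only [h, if_false, Set.mem_singleton_iff, if_true, Prod.mk.injEq, Bool.false_eq_true,
      and_false, inv_one, mul_one]
    rfl
  · simp only [hk, if_false, Set.mem_singleton_iff, Prod.mk.injEq, false_and, inv_one, mul_one,
      one_mul, ite_self]

theorem wh_single_false {i j : X} (h : i ≠ j) (e : Bool) :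
    wh {(i, false)} (j, e) = nielsen i j (!e) true := by
  apply aut_ext
  intro k
  rw [wh_of, nielsen_of_ne h]
  unfold whGen nielsenGen bp
  by_cases hk : k = i
  · subst hk
    simp only [h, if_false, Set.mem_singleton_iff, if_true, Prod.mk.injEq, Bool.true_eq_false,
      and_false, one_mul]
    rw [lt_inv]
    rfl
  · simp only [hk, if_false, Set.mem_singleton_iff, Prod.mk.injEq, false_and, inv_one, mul_one,
      one_mul, ite_self]

theorem wh_single {s b : X × Bool} (h : s.1 ≠ b.1) :
    ∃ e sd, wh {s} b = nielsen s.1 b.1 e sd := by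
  rcases s with ⟨i, d⟩
  rcases b with ⟨j, e⟩
  cases d
  · exact ⟨!e, true, wh_single_false h e⟩
  · exact ⟨e, false, wh_single_true h e⟩

theorem whHom_bp' (B B' : Set (X × Bool)) (b s : X × Bool) :
    whHom B b (bp B' b s) = bp B' b s := by
  unfold bp
  split_ifs
  · exact whHom_lt_eq B rfl
  · simp

theorem wh_insert {s b : X × Bool} {L : Set (X × Bool)} (hs : s ∉ L) :
    wh (insert s L) b = wh {s} b * wh L b := by
  apply aut_ext
  intro k
  rw [MulAut.mul_apply, wh_of, wh_of]
  unfold whGen
  by_cases hk : k = b.1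
  · rw [if_pos hk, if_pos hk, wh_of]
    unfold whGen
    rw [if_pos hk]
  · rw [if_neg hk, if_neg hk, _root_.map_mul, _root_.map_mul, _root_.map_inv, wh_of,
      wh_apply, wh_apply, whHom_bp', whHom_bp']
    unfold whGen
    rw [if_neg hk]
    have key : ∀ r, bp (insert s L) b r = bp L b r * bp {s} b r := by
      intro r
      unfold bp
      simp only [Set.mem_insert_iff, Set.mem_singleton_iff]
      by_cases h1 : r = s
      · subst h1
        simp [hs]
      · simp [h1]
    have key2 : ∀ r, bp (insert s L) b r = bp {s} b r * bp L b r := by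
      intro r
      unfold bp
      simp only [Set.mem_insert_iff, Set.mem_singleton_iff]
      by_cases h1 : r = s
      · subst h1
        simp [hs]
      · simp [h1]
    rw [key (k, true), key (k, false)]
    group

theorem wh_empty (b : X × Bool) : wh (∅ : Set (X × Bool)) b = 1 := by
  apply aut_ext
  intro k
  rw [wh_of]
  unfold whGen bp
  simp

theorem wh_congr {B B' : Set (X × Bool)} {b : X × Bool}
    (h : ∀ s : X × Bool, s.1 ≠ b.1 → (s ∈ B ↔ s ∈ B')) : wh B b = wh B' b := by
  apply aut_ext
  intro k
  rw [wh_of, wh_of]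
  unfold whGen bp
  by_cases hk : k = b.1
  · rw [if_pos hk, if_pos hk]
  · rw [if_neg hk, if_neg hk]
    have h1 := h (k, true) hk
    have h2 := h (k, false) hk
    simp only [h1, h2]

/-! ### The monoid of products of Nielsen automorphisms -/

/-- Products of elementary Nielsen automorphisms. -/
def NG (X : Type) [DecidableEq X] : Set (MulAut (FreeGroup X)) := Set.range nielsenProd

theorem one_mem_NG : (1 : MulAut (FreeGroup X)) ∈ NG X := ⟨[], rfl⟩

theorem mul_mem_NG {φ ψ : MulAut (FreeGroup X)} (h : φ ∈ NG X) (h' : ψ ∈ NG X) :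
    φ * ψ ∈ NG X := by
  obtain ⟨a, rfl⟩ := h
  obtain ⟨b, rfl⟩ := h'
  refine ⟨a ++ b, ?_⟩
  unfold nielsenProd
  rw [List.map_append, List.prod_append]

theorem nielsen_mem_NG (i j : X) (e sd : Bool) : nielsen i j e sd ∈ NG X :=
  ⟨[(i, j, e, sd)], by simp [nielsenProd]⟩

theorem nielsen_inv (i j : X) (e sd : Bool) : (nielsen i j e sd)⁻¹ = nielsen i j (!e) sd := by
  by_cases h : i = j
  · unfold nielsen
    rw [dif_pos h, dif_pos h, inv_one]
  · symm
    apply eq_inv_of_mul_eq_one_left
    apply aut_ext
    intro k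
    have h1 := nielsenHom_comp h e sd
    have h2 := DFunLike.congr_fun h1 (FreeGroup.of k)
    unfold nielsen
    rw [dif_neg h, dif_neg h]
    exact h2

theorem inv_mem_NG {φ : MulAut (FreeGroup X)} (h : φ ∈ NG X) : φ⁻¹ ∈ NG X := by
  obtain ⟨a, rfl⟩ := h
  induction a with
  | nil =>
    have : nielsenProd ([] : List (X × X × Bool × Bool)) = 1 := rfl
    rw [this, inv_one]; exact one_mem_NG
  | cons m a ih =>
    have h1 : nielsenProd (m :: a) = nielsen m.1 m.2.1 m.2.2.1 m.2.2.2 * nielsenProd a := by
      unfold nielsenProd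
      rw [List.map_cons, List.prod_cons]
    rw [h1, mul_inv_rev, nielsen_inv]
    exact mul_mem_NG ih (nielsen_mem_NG _ _ _ _)

theorem pow_mem_NG {φ : MulAut (FreeGroup X)} (h : φ ∈ NG X) (k : ℕ) : φ ^ k ∈ NG X := by
  induction k with
  | zero => rw [pow_zero]; exact one_mem_NG
  | succ k ih => rw [pow_succ]; exact mul_mem_NG ih h

/-- Finite version, with the property needed for bounded closures. -/
theorem wh_finset_induction {b : X × Bool} {P : Set (X × Bool) → Prop} (h0 : P ∅)
    (hstep : ∀ (s : X × Bool) (L : Finset (X × Bool)), s.1 ≠ b.1 → s ∉ L → P L →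
      P (insert s (L : Set (X × Bool)))) (L : Finset (X × Bool)) (hL : ∀ s ∈ L, s.1 ≠ b.1) :
    P L := by
  induction L using Finset.induction_on with
  | empty => simpa using h0
  | insert a L ha ih =>
    rw [Finset.coe_insert]
    exact hstep a L (hL a (Finset.mem_insert_self _ _)) ha
      (ih (fun s hs => hL s (Finset.mem_insert_of_mem hs)))

/-- Replace `B` by a finset of letters different from `b`. -/
theorem exists_finset [Finite X] (B : Set (X × Bool)) (b : X × Bool) :
    ∃ L : Finset (X × Bool), (∀ s ∈ L, s.1 ≠ b.1) ∧ wh B b = wh (L : Set (X × Bool)) b := by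
  have hfin : (B ∩ {s | s.1 ≠ b.1}).Finite := Set.toFinite _
  refine ⟨hfin.toFinset, ?_, ?_⟩
  · intro s hs
    rw [Set.Finite.mem_toFinset] at hs
    exact hs.2
  · apply wh_congr
    intro s hs
    rw [Set.Finite.coe_toFinset]
    simp [hs]

theorem wh_mem_NG [Finite X] (B : Set (X × Bool)) (b : X × Bool) : wh B b ∈ NG X := by
  obtain ⟨L, hL, hB⟩ := exists_finset B b
  rw [hB]
  refine wh_finset_induction (P := fun L => wh L b ∈ NG X) ?_ ?_ L hL
  · rw [wh_empty]; exact one_mem_NG
  · intro s L hs hsL ih
    rw [wh_insert (by simpa using hsL)]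
    obtain ⟨e, sd, h⟩ := wh_single hs
    rw [h]
    exact mul_mem_NG (nielsen_mem_NG _ _ _ _) ih

/-! ### Length bounds -/

theorem norm_lt (s : X × Bool) : (lt s).norm = 1 := by
  unfold FreeGroup.norm; rw [toWord_lt]; rfl

theorem norm_bp_le (B : Set (X × Bool)) (b s : X × Bool) : (bp B b s).norm ≤ 1 := by
  unfold bp
  split_ifs
  · rw [norm_lt]
  · simp

theorem norm_wh_le (B : Set (X × Bool)) (b : X × Bool) (w : FreeGroup X) :
    (wh B b w).norm ≤ 3 * w.norm := by
  induction w using right_ind with
  | h1 => simp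
  | hs y t ht ih =>
    rw [norm_mul_lt_of_ne ht, _root_.map_mul]
    have h1 := FreeGroup.norm_mul_le (wh B b y) (wh B b (lt t))
    have h2 : (wh B b (lt t)).norm ≤ 3 := by
      rw [wh_apply]
      by_cases h : t.1 = b.1
      · rw [whHom_lt_eq B h, norm_lt]; omega
      · rw [whHom_lt_ne B h]
        have h3 := FreeGroup.norm_mul_le (bp B b t * lt t) (bp B b (il t))⁻¹
        have h4 := FreeGroup.norm_mul_le (bp B b t) (lt t)
        rw [FreeGroup.norm_inv_eq] at h3
        have h5 := norm_bp_le B b t
        have h6 := norm_bp_le B b (il t)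
        rw [norm_lt] at h4
        omega
    omega

theorem n1_wh_le [Fintype X] (B : Set (X × Bool)) (b : X × Bool) (w : FreeGroup X) :
    n1 (wh B b w) ≤ 3 * n1 w := by
  obtain ⟨c, hc⟩ := exists_cyc w
  have h1 := n1_cyc hc
  rw [n1_conj] at h1
  have h2 := norm_wh_le B b (c * w * c⁻¹)
  have h3 := n1_le (wh B b (c * w * c⁻¹))
  rw [_root_.map_mul, _root_.map_mul, _root_.map_inv, n1_conj] at h3
  rw [_root_.map_mul, _root_.map_mul, _root_.map_inv] at h2
  omega

/-! ### Abelianization modulo `m` -/

theorem abMod_char [Fintype X] (m : ℕ) (f : FreeGroup X →* FreeGroup X) {z : FreeGroup X}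
    (hz : abMod m z = 1) : abMod m (f z) = 1 := by
  -- the induced linear map
  let g : X → (X → ZMod m) := fun i => Multiplicative.toAdd (abMod m (f (FreeGroup.of i)))
  let Θ : (X → ZMod m) →+ (X → ZMod m) :=
    { toFun := fun a => ∑ i, a i • g i
      map_zero' := by simp
      map_add' := by
        intro a b
        simp only [Pi.add_apply, add_smul, Finset.sum_add_distrib] }
  have h1 : (abMod m).comp f = (AddMonoidHom.toMultiplicative Θ).comp (abMod m) := by
    apply FreeGroup.ext_hom
    intro i
    simp only [MonoidHom.comp_apply]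
    have h2 : abMod m (FreeGroup.of i) = Multiplicative.ofAdd (Pi.single i (1 : ZMod m)) := by
      unfold abMod; simp
    rw [h2]
    change _ = Multiplicative.ofAdd (Θ (Pi.single i (1 : ZMod m)))
    have h3 : Θ (Pi.single i (1 : ZMod m)) = g i := by
      change ∑ k, (Pi.single i (1 : ZMod m) : X → ZMod m) k • g k = g i
      rw [Finset.sum_eq_single i]
      · simp
      · intro k _ hk
        rw [Pi.single_eq_of_ne hk, zero_smul]
      · intro h; exact absurd (Finset.mem_univ i) h
    rw [h3]
    rfl
  have h2 := DFunLike.congr_fun h1 z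
  simp only [MonoidHom.comp_apply] at h2
  rw [h2, hz, _root_.map_one]

/-- If two automorphisms agree modulo `m` then their quotient is trivial modulo `m`. -/
theorem abMod_quot [Fintype X] (m : ℕ) (φ ψ : MulAut (FreeGroup X))
    (h : ∀ i, abMod m (φ (FreeGroup.of i)) = abMod m (ψ (FreeGroup.of i))) (x : FreeGroup X) :
    abMod m ((φ⁻¹ * ψ) x) = abMod m x := by
  have h1 : ∀ x, abMod m (φ x) = abMod m (ψ x) := by
    intro x
    have : (abMod m).comp (φ : FreeGroup X →* FreeGroup X) =
        (abMod m).comp (ψ : FreeGroup X →* FreeGroup X) := by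
      apply FreeGroup.ext_hom
      intro a
      exact h a
    exact DFunLike.congr_fun this x
  have h2 : abMod m (φ ((φ⁻¹ * ψ) x * x⁻¹)) = 1 := by
    rw [_root_.map_mul, MulAut.mul_apply, MulAut.apply_inv_self, _root_.map_mul, _root_.map_inv,
      _root_.map_inv, h1 x, mul_inv_cancel]
  have h3 := abMod_char m ((φ⁻¹ : MulAut (FreeGroup X)) : FreeGroup X →* FreeGroup X) h2
  have h4 : ((φ⁻¹ : MulAut (FreeGroup X)) : FreeGroup X →* FreeGroup X)
      (φ ((φ⁻¹ * ψ) x * x⁻¹)) = (φ⁻¹ * ψ) x * x⁻¹ := MulAut.inv_apply_self _ φ _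
  rw [h4, _root_.map_mul, _root_.map_inv, mul_inv_eq_one] at h3
  exact h3

end Helper85.BTE
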