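import Pool.Agent.Helper85.BTE.Lines

/-!
Cyclic length as a sum of crossing numbers.
-/

set_option autoImplicit false
set_option linter.unusedSectionVars false

namespace Helper85.BTE

open FreeGroup Pointwise Filter

variable {X : Type} [DecidableEq X]

/-- number of occurrences of the generator `i` -/
def occ (i : X) (w : FreeGroup X) : ℕ := w.toWord.countP (fun x => decide (x.1 = i))

theorem chg_finite (w : FreeGroup X) (s : X × Bool) : (chg w (WF s)).Finite := ai_WF s w

theorem chg_lt_subset (t s : X × Bool) :
    chg (lt t) (WF s) ⊆ if t = s then {1} else if t = il s then {lt s} else ∅ := by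
  intro g hg
  have h1 : (g = 1 ∧ t = s) ∨ (g * lt t = 1 ∧ t = il s) := by
    by_contra h
    push Not at h
    apply hg
    change hd g = some s ↔ hd (g * lt t) = some s
    rw [hd_mul_lt]
    · rintro ⟨h1, h2⟩; exact h.1 h1 h2
    · rintro ⟨h1, h2⟩; exact h.2 h1 h2
  rcases h1 with ⟨h1, h2⟩ | ⟨h1, h2⟩
  · rw [if_pos h2]; exact h1
  · have h3 : t ≠ s := by rw [h2]; exact il_ne s
    rw [if_neg h3, if_pos h2]
    have h4 := eq_inv_of_mul_eq_one_left h1
    rw [h2, lt_inv, il_il] at h4
    exact h4

theorem chg_lt_ncard (t s : X × Bool) :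
    (chg (lt t) (WF s)).ncard ≤ if t.1 = s.1 then 1 else 0 := by
  have h := chg_lt_subset t s
  by_cases h1 : t = s
  · rw [if_pos h1] at h
    have := Set.ncard_le_ncard h (Set.finite_singleton _)
    rw [Set.ncard_singleton] at this
    rw [if_pos (by rw [h1])]; exact this
  · rw [if_neg h1] at h
    by_cases h2 : t = il s
    · rw [if_pos h2] at h
      have := Set.ncard_le_ncard h (Set.finite_singleton _)
      rw [Set.ncard_singleton] at this
      rw [if_pos (by rw [h2]; rfl)]; exact this
    · rw [if_neg h2] at h
      have : chg (lt t) (WF s) = ∅ := Set.subset_empty_iff.1 h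
      rw [this]; simp

theorem chg_ncard (w : FreeGroup X) (s : X × Bool) : (chg w (WF s)).ncard ≤ occ s.1 w := by
  induction w using right_ind with
  | h1 =>
    have : chg (1 : FreeGroup X) (WF s) = ∅ := by
      ext g; simp [chg]
    rw [this]; simp
  | hs y t ht ih =>
    have h1 : chg (y * lt t) (WF s) ⊆ chg y (WF s) ∪ (fun g => g * y) ⁻¹' (chg (lt t) (WF s)) := by
      intro g hg
      by_contra h
      simp only [Set.mem_union, Set.mem_preimage, not_or] at h
      have h2 : (g ∈ WF s ↔ g * y ∈ WF s) := by
        have := h.1; unfold chg at this; simpa using this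
      have h3 : (g * y ∈ WF s ↔ g * y * lt t ∈ WF s) := by
        have := h.2; unfold chg at this; simpa using this
      apply hg
      rw [← mul_assoc, ← h3, h2]
    have hinj : Function.Injective (fun g => g * y) := fun a b h => mul_right_cancel h
    have h2 : ((fun g => g * y) ⁻¹' (chg (lt t) (WF s))).ncard ≤ (chg (lt t) (WF s)).ncard := by
      have h3 := Set.ncard_image_of_injective ((fun g => g * y) ⁻¹' (chg (lt t) (WF s))) hinj
      rw [← h3]
      exact Set.ncard_le_ncard (Set.image_preimage_subset _ _) (chg_finite _ _)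
    have h3 : (y * lt t).toWord = y.toWord ++ [t] := by
      rw [toWord_mul_of_nc, toWord_lt]
      intro r hr
      rw [hd_lt]
      intro h4
      rw [← h4] at hr
      exact ht hr
    have h4 : occ s.1 (y * lt t) = occ s.1 y + if t.1 = s.1 then 1 else 0 := by
      unfold occ
      rw [h3, List.countP_append, List.countP_singleton]
      simp
    rw [h4]
    calc (chg (y * lt t) (WF s)).ncard ≤ (chg y (WF s) ∪ (fun g => g * y) ⁻¹' (chg (lt t) (WF s))).ncard :=
          Set.ncard_le_ncard h1 ((chg_finite _ _).union
            ((chg_finite _ _).preimage hinj.injOn))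
      _ ≤ (chg y (WF s)).ncard + ((fun g => g * y) ⁻¹' (chg (lt t) (WF s))).ncard :=
          Set.ncard_union_le _ _
      _ ≤ _ := by
          have := chg_lt_ncard t s
          omega

theorem sum_occ [Fintype X] (w : FreeGroup X) : ∑ s : X × Bool, occ s.1 w = 2 * w.norm := by
  rw [Fintype.sum_prod_type]
  simp only [Finset.sum_const, Finset.card_univ, Fintype.card_bool, smul_eq_mul, ← Finset.mul_sum]
  congr 1
  unfold occ FreeGroup.norm
  induction w.toWord with
  | nil => simp
  | cons a L ih =>
    simp only [List.countP_cons, Finset.sum_add_distrib, ih, List.length_cons]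
    congr 1
    simp

section

variable [Fintype X] {ι : Type}

/-- (Twice the) cyclic length, as a sum of crossing numbers. -/
noncomputable def nl (v : ι → FreeGroup X) : ℕ := ∑ s : X × Bool, cnt v (Hs 1 s)

theorem Hs_one (s : X × Bool) : Hs 1 s = st (WF s) := by
  ext p
  rw [mem_Hs, dr_one]
  exact WF_mem_iff.symm

theorem cnt_single_le (w : FreeGroup X) (s : X × Bool) :
    cnt (fun _ : Unit => w) (Hs 1 s) ≤ occ s.1 w := by
  refine le_trans ?_ (chg_ncard w s)
  by_cases hw : w = 1
  · have : crL (fun _ : Unit => w) (Hs 1 s) = ∅ := by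
      ext l
      exact absurd hw l.1.2
    unfold cnt
    rw [this]; simp
  · let f : FreeGroup X → Line (fun _ : Unit => w) := fun g => ⟨⟨(), hw⟩, QuotientGroup.mk g⟩
    have h1 : crL (fun _ : Unit => w) (Hs 1 s) ⊆ f '' (chg w (WF s)) := by
      intro l hl
      rw [Hs_one] at hl
      obtain ⟨g, hg, hgl⟩ := exists_chg hl
      exact ⟨g, hg, hgl⟩
    unfold cnt
    calc _ ≤ (f '' (chg w (WF s))).ncard :=
          Set.ncard_le_ncard h1 ((chg_finite w s).image f)
      _ ≤ _ := Set.ncard_image_le (chg_finite w s)

theorem nl_single_le (w : FreeGroup X) : nl (fun _ : Unit => w) ≤ 2 * w.norm := by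
  rw [← sum_occ]
  exact Finset.sum_le_sum fun s _ => cnt_single_le w s

theorem nl_conj [Finite ι] (v : ι → FreeGroup X) (c : ι → FreeGroup X) :
    nl (fun i => c i * v i * (c i)⁻¹) = nl v := by
  unfold nl
  exact Finset.sum_congr rfl fun s _ => cnt_conj v c (cl_Hs 1 s)

/-- words -/
theorem toWord_mk_of_red {L : List (X × Bool)} (h : FreeGroup.IsReduced L) :
    (FreeGroup.mk L).toWord = L := by
  rw [FreeGroup.toWord_mk, h.reduce_eq]

theorem head?_invRev {L : List (X × Bool)} : (FreeGroup.invRev L).head? = L.getLast?.map il := by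
  unfold FreeGroup.invRev
  rw [List.head?_reverse, List.getLast?_map]
  rfl

variable (w : FreeGroup X)

/-- The letter after position `i` in the cyclic word. -/
def nxt (i : Fin w.toWord.length) : X × Bool := w.toWord[i.1]

/-- The letter before position `i` in the cyclic word. -/
def prv (i : Fin w.toWord.length) : X × Bool :=
  w.toWord[(i.1 + w.toWord.length - 1) % w.toWord.length]'(Nat.mod_lt _ (by have := i.2; omega))

variable {w}

theorem rep_red (hc : Cyc w) (k : ℕ) :
    FreeGroup.IsReduced (List.replicate k w.toWord).flatten :=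
  (FreeGroup.IsCyclicallyReduced.flatten_replicate hc k).isReduced

theorem pow_eq_mk (k : ℕ) : w ^ k = FreeGroup.mk (List.replicate k w.toWord).flatten := by
  induction k with
  | zero => rfl
  | succ k ih =>
    rw [pow_succ', ih, List.replicate_succ, List.flatten_cons, ← FreeGroup.mul_mk,
      FreeGroup.mk_toWord]

theorem take_word (i : ℕ) (k : ℕ) (hc : Cyc w) :
    (w ^ k * FreeGroup.mk (w.toWord.take i)).toWord =
      (List.replicate k w.toWord).flatten ++ w.toWord.take i := by
  rw [pow_eq_mk, FreeGroup.mul_mk]
  apply toWord_mk_of_red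
  have h1 := rep_red hc (k + 1)
  rw [List.replicate_succ', List.flatten_append] at h1
  simp only [List.flatten_singleton] at h1
  have h2 : (List.replicate k w.toWord).flatten ++ w.toWord =
      ((List.replicate k w.toWord).flatten ++ w.toWord.take i) ++ w.toWord.drop i := by simp
  rw [h2] at h1
  exact List.IsChain.left_of_append h1

theorem drop_word (i : ℕ) (k : ℕ) (hc : Cyc w) :
    ((FreeGroup.mk (w.toWord.take i))⁻¹ * w ^ (k + 1)).toWord =
      w.toWord.drop i ++ (List.replicate k w.toWord).flatten := by
  have h0 : (FreeGroup.mk (w.toWord.take i))⁻¹ * w ^ (k + 1) =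
      FreeGroup.mk (w.toWord.drop i) * w ^ k := by
    rw [inv_mul_eq_iff_eq_mul, ← mul_assoc, FreeGroup.mul_mk, List.take_append_drop,
      FreeGroup.mk_toWord, pow_succ']
  rw [h0, pow_eq_mk, FreeGroup.mul_mk]
  apply toWord_mk_of_red
  have h1 := rep_red hc (k + 1)
  rw [List.replicate_succ, List.flatten_cons] at h1
  have h2 : w.toWord ++ (List.replicate k w.toWord).flatten =
      w.toWord.take i ++ (w.toWord.drop i ++ (List.replicate k w.toWord).flatten) := by
    rw [← List.append_assoc, List.take_append_drop]
  rw [h2] at h1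
  exact List.IsChain.right_of_append h1

/-- The line through position `i` of the cyclic word. -/
def lnAt (hw : w ≠ 1) (i : Fin w.toWord.length) : Line (fun _ : Unit => w) :=
  ⟨⟨(), hw⟩, QuotientGroup.mk (FreeGroup.mk (w.toWord.take i))⁻¹⟩

theorem dir_pos_lnAt (hw : w ≠ 1) (hc : Cyc w) (i : Fin w.toWord.length) :
    dir (pos (lnAt hw i)) = nxt w i := by
  rw [← WF_mem_iff]
  change WF (nxt w i) ∈ (endp (FreeGroup.mk (w.toWord.take i))⁻¹ w hw).sets
  rw [mem_endp]
  refine ⟨ai_WF _, ?_⟩
  rw [eventually_atTop]
  refine ⟨1, fun k hk => ?_⟩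
  obtain ⟨k, rfl⟩ : ∃ m, k = m + 1 := ⟨k - 1, by omega⟩
  change hd _ = some (nxt w i)
  unfold hd
  rw [drop_word _ _ hc]
  have h1 : w.toWord.drop i = w.toWord[i.1] :: w.toWord.drop (i + 1) :=
    List.drop_eq_getElem_cons i.2
  rw [h1]
  rfl

theorem dir_neg_lnAt (hw : w ≠ 1) (hc : Cyc w) (i : Fin w.toWord.length) :
    dir (neg (lnAt hw i)) = il (prv w i) := by
  rw [← WF_mem_iff]
  change WF (il (prv w i)) ∈ (endp (FreeGroup.mk (w.toWord.take i))⁻¹ w⁻¹ (inv_ne_one.2 hw)).sets
  rw [mem_endp]
  refine ⟨ai_WF _, ?_⟩
  rw [eventually_atTop]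
  refine ⟨1, fun k hk => ?_⟩
  obtain ⟨k, rfl⟩ : ∃ m, k = m + 1 := ⟨k - 1, by omega⟩
  change hd _ = some (il (prv w i))
  unfold hd
  have h0 : (FreeGroup.mk (w.toWord.take i))⁻¹ * w⁻¹ ^ (k + 1) =
      (w ^ (k + 1) * FreeGroup.mk (w.toWord.take i))⁻¹ := by
    rw [mul_inv_rev, inv_pow]
  rw [h0, FreeGroup.toWord_inv, head?_invRev, take_word _ _ hc]
  have hn := i.2
  have h3 : ((List.replicate (k + 1) w.toWord).flatten ++ w.toWord.take i).getLast? =
      some (prv w i) := by
    by_cases hi : i.1 = 0
    · rw [hi, List.take_zero, List.append_nil, List.replicate_succ', List.flatten_append]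
      simp only [List.flatten_singleton]
      rw [List.getLast?_append_of_ne_nil _ (by
        intro h
        have := congrArg List.length h
        simp only [List.length_nil] at this
        omega)]
      rw [List.getLast?_eq_getElem?]
      unfold prv
      rw [List.getElem?_eq_getElem (by omega)]
      congr 2
      rw [hi, Nat.zero_add, Nat.mod_eq_of_lt (by omega)]
    · rw [List.getLast?_append_of_ne_nil _ (by
        intro h
        have := congrArg List.length h
        rw [List.length_take] at this
        simp only [List.length_nil] at this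
        omega)]
      rw [List.getLast?_eq_getElem?, List.length_take]
      have h4 : min i.1 w.toWord.length = i.1 := by omega
      rw [h4, List.getElem?_take_of_lt (by omega)]
      unfold prv
      rw [List.getElem?_eq_getElem (by omega)]
      congr 2
      rw [show i.1 + w.toWord.length - 1 = (i.1 - 1) + w.toWord.length by omega,
        Nat.add_mod_right, Nat.mod_eq_of_lt (by omega)]
  rw [h3]
  rfl

theorem nxt_ne_prv (hc : Cyc w) (i : Fin w.toWord.length) : nxt w i ≠ il (prv w i) := by
  have hn := i.2
  have h1 := rep_red hc 2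
  have h2 : (List.replicate 2 w.toWord).flatten = w.toWord ++ w.toWord := by simp
  rw [h2] at h1
  -- the letters at positions i + n - 1 and i + n
  unfold FreeGroup.IsReduced at h1
  rw [List.isChain_iff_getElem] at h1
  have h3 := h1 (i.1 + w.toWord.length - 1) (by rw [List.length_append]; omega)
  have e1 : (w.toWord ++ w.toWord)[i.1 + w.toWord.length - 1]'(by
      rw [List.length_append]; omega) = prv w i := by
    unfold prv
    by_cases hi : i.1 = 0
    · rw [List.getElem_append_left (by omega)]
      congr 1
      rw [hi, Nat.zero_add, Nat.mod_eq_of_lt (by omega)]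
    · rw [List.getElem_append_right (by omega)]
      congr 1
      rw [show i.1 + w.toWord.length - 1 = (i.1 - 1) + w.toWord.length by omega,
        Nat.add_mod_right, Nat.mod_eq_of_lt (by omega)]
      omega
  have e2 : (w.toWord ++ w.toWord)[i.1 + w.toWord.length - 1 + 1]'(by
      rw [List.length_append]; omega) = nxt w i := by
    unfold nxt
    rw [List.getElem_append_right (by omega)]
    congr 1
    omega
  rw [e1, e2] at h3
  intro h4
  rw [h4] at h3
  simp only [il] at h3
  have := h3 trivial
  cases h5 : (prv w i).2 <;> simp [h5] at this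

theorem lnAt_inj (hw : w ≠ 1) (hc : Cyc w) : Function.Injective (lnAt hw) := by
  have key : ∀ (i j : Fin w.toWord.length) (m : ℕ),
      FreeGroup.mk (w.toWord.take i) = w ^ m * FreeGroup.mk (w.toWord.take j) → i = j := by
    intro i j m h
    have h1 : (FreeGroup.mk (w.toWord.take i)).toWord.length =
      (w ^ m * FreeGroup.mk (w.toWord.take j)).toWord.length := by rw [h]
    rw [take_word _ _ hc] at h1
    have h2 := take_word i 0 hc
    rw [pow_zero, one_mul] at h2
    rw [h2] at h1
    simp only [List.length_append, List.length_flatten, List.map_replicate,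
      List.sum_replicate, smul_eq_mul, Nat.zero_mul, List.length_take] at h1
    have hi := i.2
    have hj := j.2
    have e1 : min i.1 w.toWord.length = i.1 := by omega
    have e2 : min j.1 w.toWord.length = j.1 := by omega
    rw [e1, e2] at h1
    rcases m with _ | m
    · apply Fin.ext; omega
    · exfalso
      rw [Nat.succ_mul] at h1
      omega
  intro i j h
  have h3 := eq_of_heq (Sigma.mk.inj h).2
  rw [QuotientGroup.eq] at h3
  obtain ⟨m, hm⟩ := h3
  simp only [inv_inv] at hm
  -- w^m = p_i * p_j⁻¹
  rcases le_total 0 m with h4 | h4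
  · obtain ⟨k, rfl⟩ := Int.eq_ofNat_of_zero_le h4
    apply key i j k
    rw [zpow_natCast] at hm
    rw [hm, inv_mul_cancel_right]
  · obtain ⟨k, hk⟩ := Int.eq_ofNat_of_zero_le (a := -m) (by omega)
    symm
    apply key j i k
    have h5 : w ^ k = (w ^ m)⁻¹ := by
      rw [← zpow_neg, hk, zpow_natCast]
    rw [h5, hm, mul_inv_rev, inv_inv, inv_mul_cancel_right]

theorem nl_single_cyc (hc : Cyc w) : nl (fun _ : Unit => w) = 2 * w.norm := by
  apply le_antisymm (nl_single_le w)
  by_cases hw : w = 1
  · rw [hw]; simp
  · unfold nl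
    have h1 : ∀ s : X × Bool, (Finset.univ.filter fun i => nxt w i = s).card +
        (Finset.univ.filter fun i => il (prv w i) = s).card ≤
        cnt (fun _ : Unit => w) (Hs 1 s) := by
      intro s
      have hdisj : Disjoint (Finset.univ.filter fun i => nxt w i = s)
          (Finset.univ.filter fun i => il (prv w i) = s) := by
        rw [Finset.disjoint_filter]
        intro i _ h2 h3
        exact nxt_ne_prv hc i (h2.trans h3.symm)
      rw [← Finset.card_union_of_disjoint hdisj, ← Set.ncard_coe_finset]
      unfold cnt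
      apply Set.ncard_le_ncard_of_injOn (lnAt hw) (ht := crL_finite _ (cl_Hs 1 s))
      · intro i hi
        rw [mem_crL, mem_Hs, mem_Hs, dr_one, dr_one, dir_pos_lnAt hw hc, dir_neg_lnAt hw hc]
        have h4 := nxt_ne_prv hc i
        simp only [Finset.coe_union, Finset.coe_filter, Finset.mem_univ, true_and,
          Set.mem_union, Set.mem_ofPred_eq] at hi
        rcases hi with hi | hi
        · rw [hi] at h4 ⊢
          simp only [true_iff]
          exact fun h => h4 h.symm
        · rw [hi] at h4 ⊢
          simp only [iff_true]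
          exact h4
      · exact (lnAt_inj hw hc).injOn
    refine le_trans ?_ (Finset.sum_le_sum fun s _ => h1 s)
    rw [Finset.sum_add_distrib]
    have h2 : ∀ f : Fin w.toWord.length → X × Bool,
        ∑ s : X × Bool, (Finset.univ.filter fun i => f i = s).card = w.norm := by
      intro f
      rw [← Finset.card_eq_sum_card_fiberwise (f := f) (t := Finset.univ)
        (fun _ _ => Finset.mem_coe.2 (Finset.mem_univ _))]
      simp [FreeGroup.norm]
    rw [h2, h2]
    omega

/-- Complementary half-spaces have the same crossing number. -/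
theorem cnt_Hs_il (v : ι → FreeGroup X) (s : X × Bool) :
    cnt v (Hs 1 (il s)) = cnt v (Hs 1 s) := by
  have h : lt s • Hs 1 (il s) = (Hs 1 s)ᶜ := by
    rw [Hs_compl, smul_Hs, mul_one, one_mul]
  rw [← cnt_smul v (lt s), h, cnt_compl]

theorem cnt_single_eq_zero_iff (hc : Cyc w) (s : X × Bool) :
    cnt (fun _ : Unit => w) (Hs 1 s) = 0 ↔ Absent s.1 w := by
  constructor
  · intro h
    by_contra h1
    unfold Absent at h1
    push Not at h1
    obtain ⟨x, hx, hxs⟩ := h1
    have hw : w ≠ 1 := by
      rintro rfl
      simp at hx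
    obtain ⟨n, hn, rfl⟩ := List.mem_iff_getElem.1 hx
    have h2 : cnt (fun _ : Unit => w) (Hs 1 (w.toWord[n])) ≠ 0 := by
      unfold cnt
      refine Set.ncard_ne_zero_of_mem (a := lnAt hw ⟨n, hn⟩) ?_ (crL_finite _ (cl_Hs 1 _))
      rw [mem_crL, mem_Hs, mem_Hs, dr_one, dr_one, dir_pos_lnAt hw hc, dir_neg_lnAt hw hc]
      have h4 := nxt_ne_prv hc ⟨n, hn⟩
      intro h5
      apply h4
      exact (h5.1 rfl).symm
    have h3 : w.toWord[n] = s ∨ w.toWord[n] = il s := by
      rcases h5 : w.toWord[n] with ⟨a, b⟩
      rw [h5] at hxs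
      simp only at hxs
      subst hxs
      rcases s with ⟨s1, s2⟩
      cases b <;> cases s2 <;> simp [il]
    rcases h3 with h3 | h3
    · rw [h3] at h2; exact h2 h
    · rw [h3, cnt_Hs_il] at h2; exact h2 h
  · intro h
    have h1 := cnt_single_le w s
    have h2 : occ s.1 w = 0 := by
      unfold occ
      rw [List.countP_eq_zero]
      intro x hx
      simpa using h x hx
    omega

end

end Helper85.BTE
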