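import Pool.Agent.Helper85.BTE.Certs

/-!
Rank one.
-/

set_option autoImplicit false
set_option linter.unusedSectionVars false
set_option linter.unusedVariables false

namespace Helper85.BTE

open FreeGroup Pointwise Classical Filter

/-- The generator. -/
def x0 : FreeGroup (Fin 1) := FreeGroup.of 0

theorem exists_zpow (w : FreeGroup (Fin 1)) : ∃ k : ℤ, w = x0 ^ k := by
  induction w using letter_ind with
  | h1 => exact ⟨0, by simp⟩
  | hs y t ih =>
    obtain ⟨k, hk⟩ := ih
    rcases t with ⟨i, b⟩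
    have hi : i = 0 := Subsingleton.elim _ _
    subst hi
    cases b
    · refine ⟨k - 1, ?_⟩
      rw [hk, lt_false, zpow_sub_one]
      rfl
    · refine ⟨k + 1, ?_⟩
      rw [hk, lt_true, zpow_add_one]
      rfl

theorem norm_zpow (k : ℤ) : (x0 ^ k).norm = k.natAbs := by
  obtain ⟨n, rfl | rfl⟩ := k.eq_nat_or_neg
  · rw [zpow_natCast]
    unfold x0
    rw [FreeGroup.norm_of_pow]
    simp
  · rw [zpow_neg, zpow_natCast, FreeGroup.norm_inv_eq]
    unfold x0
    rw [FreeGroup.norm_of_pow]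
    simp

theorem len_rank1 (w : FreeGroup (Fin 1)) : len w = w.norm := by
  unfold len
  have h1 : (fun g : FreeGroup (Fin 1) => (g * w * g⁻¹).norm) = fun _ => w.norm := by
    funext g
    obtain ⟨k, rfl⟩ := exists_zpow w
    obtain ⟨m, rfl⟩ := exists_zpow g
    congr 1
    rw [← zpow_add, ← zpow_neg, ← zpow_add]
    congr 1; ring
  rw [h1, Set.range_const, csInf_singleton]

theorem norm_aut_rank1 (φ : MulAut (FreeGroup (Fin 1))) (w : FreeGroup (Fin 1)) :
    (φ w).norm = w.norm := by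
  obtain ⟨m, hm⟩ := exists_zpow (φ x0)
  obtain ⟨m', hm'⟩ := exists_zpow ((φ⁻¹ : MulAut (FreeGroup (Fin 1))) x0)
  have h1 : x0 ^ (m * m') = x0 := by
    rw [zpow_mul, ← hm, ← map_zpow, ← hm']
    exact MulAut.apply_inv_self _ _ _
  have h2 : (x0 ^ (m * m' - 1)).norm = 0 := by
    rw [FreeGroup.norm_eq_zero, zpow_sub_one, h1, mul_inv_cancel]
  rw [norm_zpow] at h2
  have h3 : m * m' = 1 := by omega
  have h4 : m.natAbs = 1 := by
    have := congrArg Int.natAbs h3
    rw [Int.natAbs_mul] at this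
    exact Nat.eq_one_of_mul_eq_one_right (by simpa using this)
  obtain ⟨k, rfl⟩ := exists_zpow w
  rw [map_zpow, hm, ← zpow_mul, norm_zpow, norm_zpow, Int.natAbs_mul, h4, one_mul]

theorem dom_rank1 (u v : FreeGroup (Fin 1)) (hv : v ≠ 1) : Dom u v := by
  refine ⟨u.norm, fun φ => ?_⟩
  rw [← two_len, ← two_len, len_rank1, len_rank1, norm_aut_rank1, norm_aut_rank1]
  have h1 : 1 ≤ v.norm := Nat.one_le_iff_ne_zero.2 (fun h => hv (FreeGroup.norm_eq_zero.1 h))
  nlinarith

end Helper85.BTE
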