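import Pool.Agent.Helper85.BTE.Nielsen

/-!
Free cuts are simplified by Nielsen automorphisms; the commutator in rank two; the domination
criterion for a good set of automorphisms.
-/

set_option autoImplicit false
set_option linter.unusedSectionVars false
set_option linter.unusedVariables false

namespace Helper85.BTE

open FreeGroup Pointwise Classical Filter

section

variable {X : Type} [DecidableEq X] [Fintype X]

/-- Every free cut can be moved by a product of Nielsen automorphisms to a cut crossing no edge. -/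
theorem exists_simplify {A : Set (Endp X)} (hA : FreeCut A) : ∃ ψ ∈ NG X, Cr (ψ • A) = ∅ := by
  obtain ⟨ψ, hψ, hmin⟩ : ∃ ψ ∈ NG X, ∀ φ ∈ NG X, (Cr (ψ • A)).ncard ≤ (Cr (φ • A)).ncard := by
    have hne : {n | ∃ ψ ∈ NG X, (Cr (ψ • A)).ncard = n}.Nonempty := ⟨_, 1, one_mem_NG, rfl⟩
    obtain ⟨ψ, h2, h3⟩ := Nat.sInf_mem hne
    refine ⟨ψ, h2, fun φ hφ => ?_⟩
    rw [h3]
    exact Nat.sInf_le ⟨φ, hφ, rfl⟩
  refine ⟨ψ, hψ, ?_⟩
  by_contra hne
  set A' := ψ • A with hA'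
  have hfc : FreeCut A' := hA.aut ψ
  have hLM : LM (fun e : Empty => (e.elim : FreeGroup X)) A' 0 := by
    intro B b hb hb'
    have e2 := Cr_wh hb hb' hfc.cl
    have h7 := hmin _ (mul_mem_NG (wh_mem_NG B b) hψ)
    rw [aut_mul_smul_set, ← hA'] at h7
    unfold cst
    omega
  -- a leaf
  have hV := finite_Vx hfc.cl
  obtain ⟨⟨x0, s0⟩, h0⟩ := Set.nonempty_iff_ne_empty.2 hne
  obtain ⟨y, ⟨s, hs⟩, hmax⟩ := hV.exists_maximalFor FreeGroup.norm (Vx A') ⟨x0, s0, h0⟩
  have hdir : ∀ r, (y, r) ∈ Cr A' → hd y⁻¹ = some r := by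
    intro r hr
    by_contra h
    have h1 : (y * lt r).norm = y.norm + 1 := norm_mul_lt_of_ne h
    have h2 : y * lt r ∈ Vx A' := ⟨il r, Cr_flip.2 hr⟩
    have h3 := hmax h2 (by omega)
    omega
  obtain ⟨l, -⟩ := leaf (v := fun e : Empty => (e.elim : FreeGroup X)) (N := 0)
    (hfc.smul y⁻¹) (s := s) ((mem_Cr_smul y s).2 hs) (by
      intro r hr
      have h1 := hdir r ((mem_Cr_smul y r).1 hr)
      have h2 := hdir s hs
      rw [h1] at h2
      exact Option.some.inj h2) (LM_smul hLM y⁻¹)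
  exact l.1.1.elim

/-- Crossing numbers of free cuts are bounded for elements whose class is fixed by all Nielsen
automorphisms. -/
theorem c1_le_of_fixed {c : FreeGroup X} (hc : ∀ ψ ∈ NG X, IsConj (ψ c) c) {A : Set (Endp X)}
    (hA : FreeCut A) : c1 c A ≤ n1 c := by
  obtain ⟨ψ, hψ, h0⟩ := exists_simplify hA
  have hfc : FreeCut (ψ • A) := hA.aut ψ
  obtain ⟨x, B, hB⟩ := local_of_no_cross hfc.cl hfc.ne hfc.nc h0
  rw [← c1_aut ψ c hA.cl, hB]
  have h1 : c1 (ψ c) (x • WB B) = c1 (ψ c) (WB B) := cnt_smul _ _ _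
  rw [h1, ← n1_isConj (hc ψ hψ)]
  exact cnt_WB_le _ B

/-- pairs of elements -/
def pr (a b : FreeGroup X) : Bool → FreeGroup X
  | true => a
  | false => b

theorem cnt_pr (a b : FreeGroup X) {A : Set (Endp X)} (hA : Cl A) :
    cnt (pr a b) A = c1 a A + c1 b A := by
  let f1 : Line (fun _ : Unit => a) → Line (pr a b) := fun l => ⟨⟨true, l.1.2⟩, l.2⟩
  let f2 : Line (fun _ : Unit => b) → Line (pr a b) := fun l => ⟨⟨false, l.1.2⟩, l.2⟩
  have hf1 : Function.Injective f1 := by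
    rintro ⟨⟨i, hi⟩, q⟩ ⟨⟨j, hj⟩, r⟩ h
    have h3 := eq_of_heq (Sigma.mk.inj h).2
    simp only at h3
    rw [h3]
  have hf2 : Function.Injective f2 := by
    rintro ⟨⟨i, hi⟩, q⟩ ⟨⟨j, hj⟩, r⟩ h
    have h3 := eq_of_heq (Sigma.mk.inj h).2
    simp only at h3
    rw [h3]
  have hu : crL (pr a b) A = f1 '' crL (fun _ : Unit => a) A ∪ f2 '' crL (fun _ : Unit => b) A := by
    ext l
    constructor
    · intro hl
      obtain ⟨⟨i, hi⟩, q⟩ := l
      cases i
      · right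
        exact ⟨⟨⟨(), hi⟩, q⟩, hl, rfl⟩
      · left
        exact ⟨⟨⟨(), hi⟩, q⟩, hl, rfl⟩
    · rintro (⟨m, hm, rfl⟩ | ⟨m, hm, rfl⟩)
      · exact hm
      · exact hm
  have hdisj : Disjoint (f1 '' crL (fun _ : Unit => a) A) (f2 '' crL (fun _ : Unit => b) A) := by
    rw [Set.disjoint_left]
    rintro _ ⟨m, -, rfl⟩ ⟨m', -, h⟩
    have h1 := congrArg (fun l : Line (pr a b) => l.1.1) h
    simp only [f1, f2] at h1
    exact absurd h1 (by decide)
  unfold c1 cnt
  rw [hu, Set.ncard_union_eq hdisj ((crL_finite _ hA).image _) ((crL_finite _ hA).image _),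
    Set.ncard_image_of_injective _ hf1, Set.ncard_image_of_injective _ hf2]

theorem nl_pr (a b : FreeGroup X) : nl (pr a b) = n1 a + n1 b := by
  unfold n1 nl
  rw [← Finset.sum_add_distrib]
  exact Finset.sum_congr rfl fun s _ => cnt_pr a b (cl_Hs 1 s)

theorem aut_pr (φ : MulAut (FreeGroup X)) (a b : FreeGroup X) :
    (fun i => φ (pr a b i)) = pr (φ a) (φ b) := by
  funext i
  cases i <;> rfl

/-- Domination from a good set of automorphisms, rank at least three. -/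
theorem good3 (hX : 3 ≤ Fintype.card X) (u v : FreeGroup X) (S : Set (MulAut (FreeGroup X)))
    (h1 : (1 : MulAut (FreeGroup X)) ∈ S)
    (hcl : ∀ ψ ∈ S, ∀ (B : Set (X × Bool)) (b : X × Bool), b ∈ B → il b ∉ B →
      n1 (wh B b (ψ v)) ≤ n1 (ψ v) → wh B b * ψ ∈ S)
    (R : ℕ) (hR : ∀ ψ ∈ S, n1 (ψ u) ≤ R)
    (hL : ∀ ψ ∈ S, ∀ s : X × Bool, c1 (ψ v) (Hs 1 s) = 0 → c1 (ψ u) (Hs 1 s) = 0) :
    ∃ C : ℕ, ∀ φ : MulAut (FreeGroup X), n1 (φ u) ≤ C * n1 (φ v) := by
  obtain ⟨C, hC⟩ := domination (fun _ : Unit => v) (fun _ : Unit => u) S h1 hcl R hR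
    (zero_of_letters u v S hcl hL)
  exact ⟨C, fun φ => nl_le_of_cnt_le (by omega) _ _ C hC φ⟩

end

/-! ### Rank two -/

/-- The commutator. -/
def cc : FreeGroup (Fin 2) := FreeGroup.mk [(0, true), (1, true), (0, false), (1, false)]

theorem cc_word : cc.toWord = [(0, true), (1, true), (0, false), (1, false)] := by decide

theorem cc_cyc : Cyc cc := by
  unfold Cyc
  rw [cc_word]
  unfold FreeGroup.IsCyclicallyReduced FreeGroup.IsReduced
  decide

theorem nielsen_cc (i j : Fin 2) (e sd : Bool) : IsConj (nielsen i j e sd cc) cc := by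
  by_cases h : i = j
  · unfold nielsen
    rw [dif_pos h]
    exact IsConj.refl _
  · have h1 : nielsen i j e sd cc = nielsenHom i j e sd cc := by
      unfold nielsen
      rw [dif_neg h]
      rfl
    rw [h1, isConj_iff]
    rcases sd with _ | _
    · refine ⟨FreeGroup.mk [(j, !e)], ?_⟩
      revert h
      revert e
      revert j
      revert i
      decide
    · refine ⟨1, ?_⟩
      revert h
      revert e
      revert j
      revert i
      decide

theorem NG_cc : ∀ ψ ∈ NG (Fin 2), IsConj (ψ cc) cc := by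
  rintro _ ⟨ms, rfl⟩
  induction ms with
  | nil => exact IsConj.refl _
  | cons m a ih =>
    have h1 : nielsenProd (m :: a) = nielsen m.1 m.2.1 m.2.2.1 m.2.2.2 * nielsenProd a := by
      unfold nielsenProd
      rw [List.map_cons, List.prod_cons]
    rw [h1, MulAut.mul_apply]
    refine IsConj.trans ?_ (nielsen_cc m.1 m.2.1 m.2.2.1 m.2.2.2)
    exact MonoidHom.map_isConj
      (nielsen m.1 m.2.1 m.2.2.1 m.2.2.2 : FreeGroup (Fin 2) →* FreeGroup (Fin 2)) ih

theorem n1_cc : n1 cc = 8 := by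
  rw [n1_cyc cc_cyc]
  unfold FreeGroup.norm
  rw [cc_word]
  rfl

theorem n1_aut_cc (φ : MulAut (FreeGroup (Fin 2))) : n1 (φ cc) ≤ 32 := by
  rw [n1_aut]
  have h1 : ∀ s : Fin 2 × Bool, c1 cc (φ⁻¹ • Hs 1 s) ≤ 8 := by
    intro s
    rw [← n1_cc]
    exact c1_le_of_fixed NG_cc ((freeCut_Hs (by simp) s).aut φ⁻¹)
  calc ∑ s : Fin 2 × Bool, c1 cc (φ⁻¹ • Hs 1 s) ≤ ∑ s : Fin 2 × Bool, 8 :=
        Finset.sum_le_sum (fun s _ => h1 s)
    _ = 32 := by simp

/-- The commutator crosses every proper set of directions. -/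
theorem cc_cross (B : Set (Fin 2 × Bool)) (h : c1 cc (WB B) = 0) :
    (∀ s, s ∈ B) ∨ (∀ s, s ∉ B) := by
  have hne : cc ≠ 1 := by decide
  have hlen : cc.toWord.length = 4 := by rw [cc_word]; rfl
  have h1 : ∀ i : Fin cc.toWord.length, (nxt cc i ∈ B ↔ il (prv cc i) ∈ B) := by
    intro i
    have h2 := crL_empty_of (cl_WB B) h (lnAt hne i)
    rw [mem_WB, mem_WB, dir_pos_lnAt hne cc_cyc, dir_neg_lnAt hne cc_cyc] at h2
    exact h2
  have e0 := h1 ⟨0, by decide⟩
  have e1 := h1 ⟨1, by decide⟩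
  have e2 := h1 ⟨2, by decide⟩
  have e3 := h1 ⟨3, by decide⟩
  have a0 : nxt cc ⟨0, by decide⟩ = (0, true) := by decide
  have a1 : nxt cc ⟨1, by decide⟩ = (1, true) := by decide
  have a2 : nxt cc ⟨2, by decide⟩ = (0, false) := by decide
  have a3 : nxt cc ⟨3, by decide⟩ = (1, false) := by decide
  have b0 : il (prv cc ⟨0, by decide⟩) = (1, true) := by decide
  have b1 : il (prv cc ⟨1, by decide⟩) = (0, false) := by decide
  have b2 : il (prv cc ⟨2, by decide⟩) = (1, false) := by decide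
  have b3 : il (prv cc ⟨3, by decide⟩) = (0, true) := by decide
  rw [a0, b0] at e0
  rw [a1, b1] at e1
  rw [a2, b2] at e2
  rw [a3, b3] at e3
  by_cases h0 : ((0 : Fin 2), true) ∈ B
  · left
    rintro ⟨i, b⟩
    fin_cases i <;> cases b <;> simp_all
  · right
    rintro ⟨i, b⟩
    fin_cases i <;> cases b <;> simp_all

/-- Domination from a good set of automorphisms, rank two. -/
theorem good2 (u v : FreeGroup (Fin 2)) (hv : v ≠ 1) (S : Set (MulAut (FreeGroup (Fin 2))))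
    (h1 : (1 : MulAut (FreeGroup (Fin 2))) ∈ S) (hNG : S ⊆ NG (Fin 2))
    (hcl : ∀ ψ ∈ S, ∀ (B : Set (Fin 2 × Bool)) (b : Fin 2 × Bool), b ∈ B → il b ∉ B →
      n1 (wh B b (ψ v)) ≤ n1 (ψ v) → wh B b * ψ ∈ S)
    (R : ℕ) (hR : ∀ ψ ∈ S, n1 (ψ u) ≤ R) :
    ∃ C : ℕ, ∀ φ : MulAut (FreeGroup (Fin 2)), n1 (φ u) ≤ C * n1 (φ v) := by
  have hccn : ∀ ψ ∈ NG (Fin 2), n1 (ψ cc) = 8 := by
    intro ψ hψ
    rw [n1_isConj (NG_cc ψ hψ), n1_cc]
  obtain ⟨C, hC⟩ := domination (pr v cc) (fun _ : Unit => u) S h1 (by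
      intro ψ hψ B b hb hb' hle
      apply hcl ψ hψ B b hb hb'
      have e1 : (fun i => wh B b (ψ (pr v cc i))) = pr (wh B b (ψ v)) (wh B b (ψ cc)) := by
        funext i; cases i <;> rfl
      rw [e1, aut_pr, nl_pr, nl_pr] at hle
      have e2 : wh B b (ψ cc) = (wh B b * ψ) cc := rfl
      rw [e2, hccn _ (mul_mem_NG (wh_mem_NG B b) (hNG hψ)), hccn _ (hNG hψ)] at hle
      omega) R hR (by
      intro ψ hψ B h0
      rw [aut_pr, cnt_pr _ _ (cl_WB B)] at h0
      have h2 : c1 (ψ cc) (WB B) = 0 := by omega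
      rw [c1_isConj (NG_cc ψ (hNG hψ)) (cl_WB B)] at h2
      rcases cc_cross B h2 with h3 | h3
      · apply cnt_zero_of
        intro l
        rw [mem_WB, mem_WB]
        exact ⟨fun _ => h3 _, fun _ => h3 _⟩
      · apply cnt_zero_of
        intro l
        rw [mem_WB, mem_WB]
        exact ⟨fun h => absurd h (h3 _), fun h => absurd h (h3 _)⟩)
  refine ⟨C * 33, fun φ => ?_⟩
  have h2 := nl_le_of_cnt_le (by simp) _ _ C hC φ
  rw [aut_pr, nl_pr] at h2
  have h3 := n1_aut_cc φ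
  have h4 : 1 ≤ n1 (φ v) := n1_pos (fun h => hv ((map_eq_one_iff φ φ.injective).1 h))
  calc n1 (φ u) ≤ C * (n1 (φ v) + n1 (φ cc)) := h2
    _ ≤ C * (33 * n1 (φ v)) := Nat.mul_le_mul_left _ (by omega)
    _ = _ := by ring

end Helper85.BTE
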