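import Pool.Agent.Helper85.BTE.Local

/-!
Surgery on free cuts.
-/

set_option autoImplicit false
set_option linter.unusedSectionVars false
set_option linter.unusedVariables false

namespace Helper85.BTE

open FreeGroup Pointwise Classical Filter

/-- one of four inclusions -/
theorem nested_incl {α : Type} {C D : Set α} (h : ¬ cross C D) :
    (∀ p, p ∈ C → p ∉ D) ∨ (∀ p, p ∈ C → p ∈ D) ∨ (∀ p, p ∈ D → p ∈ C) ∨ (∀ p, p ∉ C → p ∈ D) := by
  unfold cross at h
  by_cases e1 : ∃ p, p ∈ C ∧ p ∈ D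
  · by_cases e2 : ∃ p, p ∈ C ∧ p ∉ D
    · by_cases e3 : ∃ p, p ∉ C ∧ p ∈ D
      · by_cases e4 : ∃ p, p ∉ C ∧ p ∉ D
        · exact absurd ⟨e1, e2, e3, e4⟩ h
        · push Not at e4
          right; right; right; exact e4
      · push Not at e3
        right; right; left
        intro p hp
        by_contra h2
        exact e3 p h2 hp
    · push Not at e2
      right; left; exact e2
  · push Not at e1
    left; exact e1

theorem surg_aux {α : Type} {A B W V : Set α} (h1 : cross A W) (h2 : cross B V)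
    (h3 : ¬ cross V W) (h4 : ¬ cross B A)
    (h5 : (∀ p, p ∈ B → p ∈ A) → ¬ cross B W) (h6 : (∀ p, p ∈ A → p ∈ B) → ¬ cross A V)
    (h7 : (∀ p, p ∉ B → p ∈ A) → ¬ cross B W ∧ ¬ cross A V) :
    ¬ cross (B ∩ V) (A ∩ W) ∧ B ∩ V ≠ A ∩ W := by
  obtain ⟨⟨a1, ha1, ha1'⟩, ⟨a2, ha2, ha2'⟩, ⟨a3, ha3, ha3'⟩, ⟨a4, ha4, ha4'⟩⟩ := h1
  obtain ⟨⟨b1, hb1, hb1'⟩, ⟨b2, hb2, hb2'⟩, ⟨b3, hb3, hb3'⟩, ⟨b4, hb4, hb4'⟩⟩ := h2
  rcases nested_incl h4 with c | c | c | c
  · constructor
    · rintro ⟨⟨p, hp, hp'⟩, -⟩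
      exact c p hp.1 hp'.1
    · intro h
      have : a1 ∈ B ∩ V := by rw [h]; exact ⟨ha1, ha1'⟩
      exact c a1 this.1 ha1
  · rcases nested_incl (h5 c) with d | d | d | d
    · constructor
      · rintro ⟨⟨p, hp, hp'⟩, -⟩
        exact d p hp.1 hp'.2
      · intro h
        have : a1 ∈ B ∩ V := by rw [h]; exact ⟨ha1, ha1'⟩
        exact d a1 this.1 ha1'
    · constructor
      · rintro ⟨-, ⟨p, hp, hp'⟩, -⟩
        exact hp' ⟨c p hp.1, d p hp.1⟩
      · intro h
        have : b2 ∈ B ∩ V := by rw [h]; exact ⟨c _ hb2, d _ hb2⟩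
        exact hb2' this.2
    · exact absurd (c _ (d _ ha3')) ha3
    · by_cases h8 : a4 ∈ B
      · exact absurd (c _ h8) ha4
      · exact absurd (d _ h8) ha4'
  · rcases nested_incl (h6 c) with d | d | d | d
    · constructor
      · rintro ⟨⟨p, hp, hp'⟩, -⟩
        exact d p hp'.1 hp.2
      · intro h
        have : a1 ∈ B ∩ V := by rw [h]; exact ⟨ha1, ha1'⟩
        exact d a1 ha1 this.2
    · constructor
      · rintro ⟨-, -, ⟨p, hp, hp'⟩, -⟩
        exact hp ⟨c p hp'.1, d p hp'.1⟩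
      · intro h
        have : a2 ∈ A ∩ W := by rw [← h]; exact ⟨c _ ha2, d _ ha2⟩
        exact ha2' this.2
    · exact absurd (c _ (d _ hb3')) hb3
    · by_cases h8 : b4 ∈ A
      · exact absurd (c _ h8) hb4
      · exact absurd (d _ h8) hb4'
  · obtain ⟨h8, h9⟩ := h7 c
    have n1 := nested_incl h8
    have n2 := nested_incl h9
    have n3 := nested_incl h3
    constructor
    · rintro ⟨⟨p1, hp1, hp1'⟩, ⟨p2, hp2, hp2'⟩, ⟨p3, hp3, hp3'⟩, ⟨p4, hp4, hp4'⟩⟩
      simp only [Set.mem_inter_iff] at hp1 hp1' hp2 hp2' hp3 hp3' hp4 hp4'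
      clear h3 h4 h5 h6 h7 h8 h9
      rcases n1 with n1 | n1 | n1 | n1 <;> rcases n2 with n2 | n2 | n2 | n2 <;>
        rcases n3 with n3 | n3 | n3 | n3 <;> grind
    · intro h
      have hh : ∀ p, (p ∈ B ∧ p ∈ V) ↔ (p ∈ A ∧ p ∈ W) := by
        intro p
        have : p ∈ B ∩ V ↔ p ∈ A ∩ W := by rw [h]
        simpa using this
      clear h3 h4 h5 h6 h7 h8 h9 h
      rcases n1 with n1 | n1 | n1 | n1 <;> rcases n2 with n2 | n2 | n2 | n2 <;>
        rcases n3 with n3 | n3 | n3 | n3 <;> grind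

variable {X : Type} [DecidableEq X] [Fintype X] {ι : Type} [Finite ι]

theorem hd_lt_pow (s : X × Bool) (k : ℕ) : hd ((lt s) ^ (k + 1)) = some s := by
  induction k with
  | zero => simp
  | succ k ih =>
    rw [pow_succ', hd_lt_mul, ih]
    intro h
    exact il_ne s (Option.some.inj h).symm

theorem lt_ne_one (s : X × Bool) : lt s ≠ 1 := by
  intro h
  have := congrArg hd h
  simp at this

theorem exists_dir_eq (s : X × Bool) : ∃ p : Endp X, dir p = s := by
  refine ⟨endp 1 (lt s) (lt_ne_one s), ?_⟩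
  rw [← WF_mem_iff, mem_endp]
  refine ⟨ai_WF s, ?_⟩
  rw [eventually_atTop]
  refine ⟨1, fun k hk => ?_⟩
  obtain ⟨k, rfl⟩ : ∃ m, k = m + 1 := ⟨k - 1, by omega⟩
  change hd _ = some s
  rw [one_mul]
  exact hd_lt_pow s k

theorem exists_dr_eq (x : FreeGroup X) (s : X × Bool) : ∃ p : Endp X, dr x p = s := by
  obtain ⟨p, hp⟩ := exists_dir_eq s
  refine ⟨x • p, ?_⟩
  have := dr_smul x 1 p
  rw [mul_one] at this
  rw [this, dr_one, hp]

theorem exists_hd {g : FreeGroup X} (h : g ≠ 1) : ∃ s, hd g = some s := by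
  rcases h1 : hd g with _ | s
  · exact absurd (hd_eq_none.1 h1) h
  · exact ⟨s, rfl⟩

/-- Edges are nested. -/
theorem Hs_nested (x y : FreeGroup X) (s t : X × Bool) : ¬ cross (Hs x s) (Hs y t) := by
  by_cases hxy : x = y
  · subst hxy
    rintro ⟨⟨p, hp, hp'⟩, ⟨q, hq, hq'⟩, -, -⟩
    rw [mem_Hs] at hp hp' hq hq'
    exact hq' (hq.trans (hp.symm.trans hp'))
  · obtain ⟨r, hr⟩ := exists_hd (fun h : x⁻¹ * y = 1 => hxy (inv_mul_eq_one.1 h))
    obtain ⟨r', hr'⟩ := exists_hd (fun h : y⁻¹ * x = 1 => hxy (inv_mul_eq_one.1 h).symm)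
    have h1 : ∀ p, dr x p ≠ r → dr y p = r' := by
      intro p hp
      have := dr_of_ne hxy (p := p) (by rw [hr]; intro h; exact hp (Option.some.inj h).symm)
      rw [hr'] at this
      exact (Option.some.inj this).symm
    have h2 : ∀ p, dr y p ≠ r' → dr x p = r := by
      intro p hp
      by_contra h3
      exact hp (h1 p h3)
    rintro ⟨⟨p1, hp1, hp1'⟩, ⟨p2, hp2, hp2'⟩, ⟨p3, hp3, hp3'⟩, ⟨p4, hp4, hp4'⟩⟩
    rw [mem_Hs] at hp1 hp1' hp2 hp2' hp3 hp3' hp4 hp4'
    by_cases e1 : s = r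
    · have e2 : t = r' := by
        by_contra e2
        apply hp3
        rw [e1]
        apply h2
        rw [hp3']; exact e2
      apply hp4'
      rw [e2]
      apply h1
      rw [← e1]; exact hp4
    · have e3 := h1 p1 (by rw [hp1]; exact e1)
      have e4 := h1 p2 (by rw [hp2]; exact e1)
      apply hp2'
      rw [e4, ← e3, hp1']

/-- Half-spaces are free cuts (rank at least two). -/
theorem freeCut_Hs (hX : 2 ≤ Fintype.card X) (s : X × Bool) : FreeCut (Hs 1 s) where
  cl := cl_Hs 1 s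
  ne := by
    obtain ⟨p, hp⟩ := exists_dr_eq 1 s
    exact ⟨p, hp⟩
  nc := by
    obtain ⟨p, hp⟩ := exists_dr_eq 1 (il s)
    refine ⟨p, fun h => ?_⟩
    rw [mem_Hs, hp] at h
    exact il_ne s h
  nest := by
    intro g
    rw [smul_Hs]
    exact Hs_nested _ _ _ _
  free := by
    intro g hg
    rw [smul_Hs, mul_one] at hg
    by_contra hg1
    have hcard : 4 ≤ Fintype.card (X × Bool) := by
      rw [Fintype.card_prod, Fintype.card_bool]; omega
    have hthird : ∀ a b : X × Bool, ∃ c, c ≠ a ∧ c ≠ b := by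
      intro a b
      by_contra hcon
      push Not at hcon
      have h1 : (Finset.univ : Finset (X × Bool)) ⊆ {a, b} := by
        intro c _
        simp only [Finset.mem_insert, Finset.mem_singleton]
        by_cases hc : c = a
        · exact Or.inl hc
        · exact Or.inr (hcon c hc)
      have h2 := Finset.card_le_card h1
      have h3 := Finset.card_le_two (a := a) (b := b)
      rw [Finset.card_univ] at h2
      omega
    have hmem : ∀ p, dr g p = s ↔ dr 1 p = s := by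
      intro p
      have : p ∈ Hs g s ↔ p ∈ Hs 1 s := by rw [hg]
      exact this
    obtain ⟨r, hr⟩ := exists_hd hg1
    obtain ⟨r', hr'⟩ := exists_hd (inv_ne_one.2 hg1)
    have h1 : ∀ p, dr 1 p ≠ r → dr g p = r' := by
      intro p hp
      rw [dr_one] at hp
      have := dr_of_hd_ne hg1 (p := p) (by rw [hr]; intro h; exact hp (Option.some.inj h).symm)
      rw [hr'] at this
      exact (Option.some.inj this).symm
    have h2 : ∀ p, dr g p ≠ r' → dr 1 p = r := by
      intro p hp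
      by_contra h3
      exact hp (h1 p h3)
    by_cases e1 : r' = s
    · obtain ⟨u, hu1, hu2⟩ := hthird s r
      obtain ⟨p, hp⟩ := exists_dr_eq 1 u
      have h3 := h1 p (by rw [hp]; exact hu2)
      rw [e1, hmem, hp] at h3
      exact hu1 h3
    · by_cases e2 : s = r
      · obtain ⟨u, hu1, hu2⟩ := hthird s r'
        obtain ⟨p, hp⟩ := exists_dr_eq g u
        have h3 := h2 p (by rw [hp]; exact hu2)
        rw [← e2, ← hmem, hp] at h3
        exact hu1 h3
      · obtain ⟨p, hp⟩ := exists_dr_eq 1 s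
        have h3 := h1 p (by rw [hp]; exact e2)
        have h4 := (hmem p).2 hp
        rw [h3] at h4
        exact e1 h4

variable {A : Set (Endp X)}

theorem surg (hA : FreeCut A) {W : Set (Endp X)} (hW : Cl W)
    (hWn : ∀ g : FreeGroup X, ¬ cross (g • W) W) (hcr : cross A W)
    (hin : ∀ k : FreeGroup X, Ins (k • A) A → ¬ cross (k • A) W) : FreeCut (A ∩ W) := by
  have main : ∀ g : FreeGroup X, g ≠ 1 →
      ¬ cross (g • (A ∩ W)) (A ∩ W) ∧ g • (A ∩ W) ≠ A ∩ W := by
    intro g hg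
    rw [Set.smul_set_inter]
    -- proper inclusions
    have hne1 : g • A ≠ A := fun h => hg (hA.free g h)
    have hne2 : g • A ≠ Aᶜ := hA.free' g
    have hg' : g⁻¹ ≠ 1 := inv_ne_one.2 hg
    have hcr2 : cross (g • A) (g • W) := by rwa [cross_smul]
    -- if `A ⊆ g A` then `A` does not cross `g W`
    have hV1 : (∀ p, p ∈ A → p ∈ g • A) → ¬ cross A (g • W) := by
      intro h h2
      have h3 : g⁻¹ • A ⊂ A := by
        refine LE.le.ssubset_of_ne ?_ (fun h => hg' (hA.free _ h))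
        intro p hp
        rw [Set.mem_smul_set_iff_inv_smul_mem, inv_inv] at hp
        have := h _ hp
        rwa [Set.smul_mem_smul_set_iff] at this
      apply hin g⁻¹ (Or.inl h3)
      rw [cross_smul_left, inv_inv]
      exact h2
    have hV2 : (∀ p, p ∉ g • A → p ∈ A) → ¬ cross A (g • W) := by
      intro h h2
      have h3 : (g⁻¹ • A)ᶜ ⊂ A := by
        refine LE.le.ssubset_of_ne ?_ (fun h => hA.free' g⁻¹ (compl_eq_comm.1 h).symm)
        intro p hp
        by_contra h4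
        apply hp
        rw [Set.mem_smul_set_iff_inv_smul_mem, inv_inv]
        apply h
        intro h5
        rw [Set.smul_mem_smul_set_iff] at h5
        exact h4 h5
      apply hin g⁻¹ (Or.inr h3)
      rw [cross_smul_left, inv_inv]
      exact h2
    apply surg_aux hcr hcr2 (hWn g) (hA.nest g)
    · intro h
      exact hin g (Or.inl (LE.le.ssubset_of_ne h hne1))
    · exact hV1
    · intro h
      refine ⟨?_, hV2 h⟩
      exact hin g (Or.inr (LE.le.ssubset_of_ne h (fun h2 => hne2 (compl_eq_comm.1 h2).symm)))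
  refine ⟨hA.cl.inter hW, ?_, ?_, ?_, ?_⟩
  · obtain ⟨⟨p, hp⟩, -⟩ := hcr
    exact ⟨p, hp⟩
  · obtain ⟨p, hp⟩ := hA.nc
    exact ⟨p, fun h => hp h.1⟩
  · intro g
    by_cases hg : g = 1
    · subst hg
      rw [one_smul]
      rintro ⟨-, ⟨p, hp, hp'⟩, -⟩
      exact hp' hp
    · exact (main g hg).1
  · intro g hg
    by_contra h
    exact (main g h).2 hg

theorem Cr_surg {x : FreeGroup X} {t : X × Bool} (hcr : cross A (Hs x t)) :
    Cr (A ∩ Hs x t) ⊂ Cr A := by
  constructor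
  · rintro ⟨y, s⟩ h
    change cross (A ∩ Hs x t) (Hs y s) at h
    change cross A (Hs y s)
    have hn := nested_incl (Hs_nested x y t s)
    obtain ⟨⟨p1, h1, h1'⟩, ⟨p2, h2, h2'⟩, ⟨p3, h3, h3'⟩, ⟨p4, h4, h4'⟩⟩ := h
    obtain ⟨⟨a1, ha1, ha1'⟩, ⟨a2, ha2, ha2'⟩, ⟨a3, ha3, ha3'⟩, ⟨a4, ha4, ha4'⟩⟩ := hcr
    refine ⟨⟨p1, h1.1, h1'⟩, ⟨p2, h2.1, h2'⟩, ?_, ?_⟩
    · -- a point outside `A` and inside `Hs y s`
      by_contra hcon
      push Not at hcon
      have k1 : ∀ p, p ∈ Hs y s → p ∈ A := by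
        intro p hp
        by_contra h5
        exact hcon p h5 hp
      rcases hn with n | n | n | n
      · exact n p1 h1.2 h1'
      · exact ha3 (k1 _ (n _ ha3'))
      · exact h3 ⟨k1 _ h3', n _ h3'⟩
      · exact ha4 (k1 _ (n _ ha4'))
    · by_contra hcon
      push Not at hcon
      have k1 : ∀ p, p ∉ Hs y s → p ∈ A := by
        intro p hp
        by_contra h5
        exact hp (hcon p h5)
      rcases hn with n | n | n | n
      · exact ha3 (k1 _ (n _ ha3'))
      · exact h2' (n _ h2.2)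
      · exact ha4 (k1 _ (fun h => ha4' (n _ h)))
      · exact h4 ⟨k1 _ h4', by
          by_contra h6
          exact h4' (n _ h6)⟩
  · intro h
    have h1 : (x, t) ∈ Cr (A ∩ Hs x t) := h hcr
    obtain ⟨-, ⟨p, hp, hp'⟩, -⟩ := h1
    exact hp' hp.2

/-- **Surgery.** -/
theorem surgery (v : ι → FreeGroup X) (hA : FreeCut A) {x : FreeGroup X} {t : X × Bool}
    (hcr : cross A (Hs x t)) (hin : ∀ k : FreeGroup X, Ins (k • A) A → ¬ cross (k • A) (Hs x t))
    (hl : ∀ l : Line v, l ∈ crL v (Hs x t) → ¬ (pos l ∈ A ∧ neg l ∈ A)) :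
    ∃ P Q : Set (Endp X), FreeCut P ∧ FreeCut Q ∧ Cr P ⊂ Cr A ∧ Cr Q ⊂ Cr A ∧
      cnt v P + cnt v Q ≤ cnt v A ∧
      ∀ {κ : Type} [Finite κ] (u : κ → FreeGroup X), cnt u A ≤ cnt u P + cnt u Q := by
  refine ⟨A ∩ Hs x t, A ∩ (Hs x t)ᶜ, ?_, ?_, Cr_surg hcr, ?_, ?_, ?_⟩
  · apply surg hA (cl_Hs x t) _ hcr hin
    intro g
    rw [smul_Hs]
    exact Hs_nested _ _ _ _
  · apply surg hA (cl_Hs x t).compl _ (cross_compl_right.2 hcr)
    · intro k hk h
      rw [cross_compl_right] at h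
      exact hin k hk h
    · intro g
      rw [Set.smul_set_compl, cross_compl_left, cross_compl_right, smul_Hs]
      exact Hs_nested _ _ _ _
  · rw [Hs_compl]
    apply Cr_surg
    rw [← Hs_compl, cross_compl_right]
    exact hcr
  · have hP := hA.cl.inter (cl_Hs x t)
    have hQ := hA.cl.inter (cl_Hs x t).compl
    unfold cnt
    have hdisj : Disjoint (crL v (A ∩ Hs x t)) (crL v (A ∩ (Hs x t)ᶜ)) := by
      rw [Set.disjoint_left]
      intro l h1 h2
      have h3 := hl l
      simp only [mem_crL, Set.mem_inter_iff, Set.mem_compl_iff] at h1 h2 h3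
      tauto
    rw [← Set.ncard_union_eq hdisj (crL_finite v hP) (crL_finite v hQ)]
    apply Set.ncard_le_ncard _ (crL_finite v hA.cl)
    intro l h1
    have h3 := hl l
    simp only [mem_crL, Set.mem_union, Set.mem_inter_iff, Set.mem_compl_iff] at h1 h3 ⊢
    tauto
  · intro κ _ u
    have hP := hA.cl.inter (cl_Hs x t)
    have hQ := hA.cl.inter (cl_Hs x t).compl
    unfold cnt
    refine le_trans (Set.ncard_le_ncard ?_ ((crL_finite u hP).union (crL_finite u hQ)))
      (Set.ncard_union_le _ _)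
    intro l h1
    simp only [mem_crL, Set.mem_union, Set.mem_inter_iff, Set.mem_compl_iff] at h1 ⊢
    tauto

end Helper85.BTE
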