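import Pool.Agent.Helper85.BTE.Ends

/-!
Half-spaces, crossing, and the finite subtree of edges crossed by a clopen set.
-/

set_option autoImplicit false

namespace Helper85.BTE

open FreeGroup Pointwise

variable {X : Type} [DecidableEq X]

/-- No cancellation in the product `x * y`. -/
def NC (x y : FreeGroup X) : Prop := ∀ s, hd x⁻¹ = some s → hd y ≠ some s

theorem toWord_mul_of_nc {x y : FreeGroup X} (h : NC x y) :
    (x * y).toWord = x.toWord ++ y.toWord := by
  induction x using right_ind generalizing y with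
  | h1 => simp
  | hs x t ht ih =>
    have h1 : hd (x * lt t)⁻¹ = some (il t) := by
      rw [mul_inv_rev, lt_inv, hd_lt_mul, il_il]; exact ht
    have h2 : hd y ≠ some (il t) := h _ h1
    have h3 : NC x (lt t * y) := by
      intro s hs
      rw [hd_lt_mul t y |>.2 h2]
      intro h4
      rw [← h4] at hs
      exact ht hs
    have h4 : NC x (lt t) := by
      intro s hs
      rw [hd_lt]
      intro h4
      rw [← h4] at hs
      exact ht hs
    rw [mul_assoc, ih h3, ih h4, toWord_lt_mul, if_neg h2, toWord_lt]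
    simp

theorem norm_mul_of_nc {x y : FreeGroup X} (h : NC x y) :
    (x * y).norm = x.norm + y.norm := by
  unfold FreeGroup.norm
  rw [toWord_mul_of_nc h, List.length_append]

theorem hd_mul_of_nc {x y : FreeGroup X} (h : NC x y) (hx : x ≠ 1) :
    hd (x * y) = hd x := by
  unfold hd
  rw [toWord_mul_of_nc h]
  rcases hw : x.toWord with _ | ⟨a, L⟩
  · exact absurd (FreeGroup.toWord_eq_nil_iff.1 hw) hx
  · simp

/-- Crossing of two subsets. -/
def cross {α : Type} (A B : Set α) : Prop :=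
  (∃ p, p ∈ A ∧ p ∈ B) ∧ (∃ p, p ∈ A ∧ p ∉ B) ∧ (∃ p, p ∉ A ∧ p ∈ B) ∧ (∃ p, p ∉ A ∧ p ∉ B)

omit [DecidableEq X] in
theorem cross_symm {α : Type} {A B : Set α} : cross A B ↔ cross B A := by
  unfold cross
  constructor
  · rintro ⟨⟨p, hp⟩, ⟨q, hq⟩, ⟨r, hr⟩, ⟨t, ht⟩⟩
    exact ⟨⟨p, hp.2, hp.1⟩, ⟨r, hr.2, hr.1⟩, ⟨q, hq.2, hq.1⟩, ⟨t, ht.2, ht.1⟩⟩
  · rintro ⟨⟨p, hp⟩, ⟨q, hq⟩, ⟨r, hr⟩, ⟨t, ht⟩⟩
    exact ⟨⟨p, hp.2, hp.1⟩, ⟨r, hr.2, hr.1⟩, ⟨q, hq.2, hq.1⟩, ⟨t, ht.2, ht.1⟩⟩

omit [DecidableEq X] in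
theorem cross_compl_left {α : Type} {A B : Set α} : cross Aᶜ B ↔ cross A B := by
  unfold cross
  simp only [Set.mem_compl_iff, not_not]
  tauto

omit [DecidableEq X] in
theorem cross_compl_right {α : Type} {A B : Set α} : cross A Bᶜ ↔ cross A B := by
  unfold cross
  simp only [Set.mem_compl_iff, not_not]
  tauto

omit [DecidableEq X] in
theorem cross_smul {α : Type} {G : Type} [Group G] [MulAction G α] (g : G) {A B : Set α} :
    cross (g • A) (g • B) ↔ cross A B := by
  unfold cross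
  simp only [Set.mem_smul_set_iff_inv_smul_mem]
  constructor
  · rintro ⟨⟨p, hp⟩, ⟨q, hq⟩, ⟨r, hr⟩, ⟨t, ht⟩⟩
    exact ⟨⟨_, hp⟩, ⟨_, hq⟩, ⟨_, hr⟩, ⟨_, ht⟩⟩
  · rintro ⟨⟨p, hp⟩, ⟨q, hq⟩, ⟨r, hr⟩, ⟨t, ht⟩⟩
    refine ⟨⟨g • p, ?_⟩, ⟨g • q, ?_⟩, ⟨g • r, ?_⟩, ⟨g • t, ?_⟩⟩ <;> simpa

omit [DecidableEq X] in
theorem cross_smul_left {α : Type} {G : Type} [Group G] [MulAction G α] (g : G) {A B : Set α} :
    cross (g • A) B ↔ cross A (g⁻¹ • B) := by
  rw [← cross_smul g⁻¹, inv_smul_smul]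

section

variable [Finite X]

/-- The half-space at vertex `x` in direction `s`. -/
def Hs (x : FreeGroup X) (s : X × Bool) : Set (Endp X) := {p | dr x p = s}

theorem mem_Hs {x : FreeGroup X} {s : X × Bool} {p : Endp X} : p ∈ Hs x s ↔ dr x p = s := Iff.rfl

theorem smul_Hs (g x : FreeGroup X) (s : X × Bool) : g • Hs x s = Hs (g * x) s := by
  ext p
  rw [Set.mem_smul_set_iff_inv_smul_mem, mem_Hs, mem_Hs, ← dr_smul g x, smul_inv_smul]

theorem Hs_compl (x : FreeGroup X) (s : X × Bool) : (Hs x s)ᶜ = Hs (x * lt s) (il s) := by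
  ext p
  rw [Set.mem_compl_iff, mem_Hs, mem_Hs, dr_mul_lt]

/-- Group elements starting with a letter in `B`. -/
def WFB (B : Set (X × Bool)) : Set (FreeGroup X) := {h | ∃ s ∈ B, hd h = some s}

theorem ai_WFB (B : Set (X × Bool)) : AI (WFB B) := by
  apply AI.of_letters
  intro r
  refine (Set.toFinite ({1, lt (il r)} : Set (FreeGroup X))).subset ?_
  intro g hg
  simp only [Set.mem_insert_iff, Set.mem_singleton_iff]
  by_contra h
  push Not at h
  apply hg
  have h1 : ∀ s, hd (g * lt r) = some s ↔ hd g = some s := by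
    intro s
    rw [hd_mul_lt]
    · rintro ⟨h1, -⟩; exact h.1 h1
    · rintro ⟨h1, h2⟩
      apply h.2
      rw [← lt_inv]
      exact eq_inv_of_mul_eq_one_left h1
  simp only [WFB, Set.mem_ofPred_eq, h1]

/-- Ends with direction in `B` at the base vertex. -/
def WB (B : Set (X × Bool)) : Set (Endp X) := {p | dir p ∈ B}

theorem mem_WB {B : Set (X × Bool)} {p : Endp X} : p ∈ WB B ↔ dir p ∈ B := Iff.rfl

theorem WFB_mem_iff {p : Endp X} {B : Set (X × Bool)} : WFB B ∈ p.sets ↔ dir p ∈ B := by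
  have h0 : WF (dir p) ∈ p.sets := WF_mem_iff.2 rfl
  constructor
  · intro h
    by_contra h1
    apply p.inf (p.inter h h0)
    have : WFB B ∩ WF (dir p) = ∅ := by
      ext g
      simp only [WFB, WF, Set.mem_inter_iff, Set.mem_ofPred_eq, Set.mem_empty_iff_false, iff_false,
        not_and]
      rintro ⟨s, hs, h3⟩ h4
      rw [h3] at h4
      apply h1
      rw [← Option.some.inj h4]; exact hs
    rw [this]; exact Set.finite_empty
  · intro h
    refine p.mono h0 (ai_WFB B) ?_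
    have : WF (dir p) \ WFB B = ∅ := by
      ext g
      simp only [WFB, WF, Set.mem_sdiff, Set.mem_ofPred_eq, Set.mem_empty_iff_false, iff_false,
        not_and, not_not]
      intro h3
      exact ⟨_, h, h3⟩
    rw [this]; exact Set.finite_empty

theorem WB_eq_st (B : Set (X × Bool)) : WB B = st (WFB B) := by
  ext p
  exact WFB_mem_iff.symm

theorem cl_WB (B : Set (X × Bool)) : Cl (WB B) := ⟨_, ai_WFB B, WB_eq_st B⟩

theorem WB_singleton (s : X × Bool) : WB {s} = Hs 1 s := by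
  ext p
  rw [mem_WB, mem_Hs, dr_one, Set.mem_singleton_iff]

theorem cl_Hs (x : FreeGroup X) (s : X × Bool) : Cl (Hs x s) := by
  have h := (cl_WB {s}).smul x
  rwa [WB_singleton, smul_Hs, mul_one] at h

theorem finite_norm_le (R : ℕ) : {x : FreeGroup X | x.norm ≤ R}.Finite := by
  have h1 : {l : List (X × Bool) | l.length ≤ R}.Finite := List.finite_length_le _ _
  exact (h1.preimage (FreeGroup.toWord_injective.injOn))

theorem bdd_of_finite {D : Set (FreeGroup X)} (hD : D.Finite) : ∃ R, ∀ h ∈ D, h.norm < R := by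
  obtain ⟨R, hR⟩ := (hD.image FreeGroup.norm).bddAbove
  exact ⟨R + 1, fun h hh => Nat.lt_succ_of_le (hR ⟨h, hh, rfl⟩)⟩

/-- A clopen set is constant far away. -/
theorem pure_far {A : Set (Endp X)} (hA : Cl A) : ∃ R, ∀ x : FreeGroup X, R ≤ x.norm →
    ∀ s, hd x⁻¹ ≠ some s → (Hs x s ⊆ A ∨ Hs x s ⊆ Aᶜ) := by
  obtain ⟨S, hS, rfl⟩ := hA
  have hD : (⋃ s : X × Bool, {h | ¬ (h ∈ S ↔ h * lt s ∈ S)}).Finite :=
    Set.finite_iUnion (fun s => hS (lt s))
  obtain ⟨R, hR⟩ := bdd_of_finite hD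
  refine ⟨R, fun x hx s hs => ?_⟩
  have key : ∀ k : FreeGroup X, hd k = some s → (x * k ∈ S ↔ x * lt s ∈ S) := by
    intro k
    induction k using right_ind with
    | h1 => intro h; simp at h
    | hs y t ht ih =>
      intro h
      by_cases hy : y = 1
      · subst hy
        rw [one_mul, hd_lt] at h
        rw [one_mul, Option.some.inj h]
      · rw [hd_mul_lt_of_ne hy ht] at h
        rw [← ih h]
        have h1 : R ≤ (x * y).norm := by
          rw [norm_mul_of_nc]
          · omega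
          · intro r hr hy'
            rw [h] at hy'
            rw [← hy'] at hr
            exact hs hr
        by_contra h2
        have h3 := hR (x * y) (by
          rw [Set.mem_iUnion]
          refine ⟨t, ?_⟩
          simp only [Set.mem_ofPred_eq]
          rw [mul_assoc]
          tauto)
        omega
  have hmem : ∀ p ∈ Hs x s, (fun h => x * h) ⁻¹' ((fun h => x⁻¹ * h) ⁻¹' WF s) = WF s := by
    intro p _
    ext h; simp
  have hmem2 : ∀ p ∈ Hs x s, ((fun h => x⁻¹ * h) ⁻¹' WF s) ∈ p.sets := by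
    intro p hp
    have h1 : WF s ∈ (x⁻¹ • p).sets := WF_mem_iff.2 hp
    exact h1
  by_cases h : x * lt s ∈ S
  · left
    intro p hp
    refine p.mono (hmem2 p hp) hS ?_
    have : ((fun h => x⁻¹ * h) ⁻¹' WF s) \ S = ∅ := by
      ext g
      simp only [Set.mem_sdiff, Set.mem_preimage, Set.mem_empty_iff_false, iff_false, not_and,
        not_not]
      intro h3
      have := (key _ h3).2 h
      rwa [mul_inv_cancel_left] at this
    rw [this]; exact Set.finite_empty
  · right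
    intro p hp
    rw [← st_compl hS]
    refine p.mono (hmem2 p hp) hS.compl ?_
    have : ((fun h => x⁻¹ * h) ⁻¹' WF s) \ Sᶜ = ∅ := by
      ext g
      simp only [Set.mem_sdiff, Set.mem_preimage, Set.mem_empty_iff_false, iff_false, not_and,
        Set.mem_compl_iff, not_not]
      intro h3 h4
      apply h
      rw [← key _ h3, mul_inv_cancel_left]
      exact h4
    rw [this]; exact Set.finite_empty

/-- The set of (oriented) edges crossed by `A`. -/
def Cr (A : Set (Endp X)) : Set (FreeGroup X × (X × Bool)) := {e | cross A (Hs e.1 e.2)}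

theorem mem_Cr {A : Set (Endp X)} {x : FreeGroup X} {s : X × Bool} :
    (x, s) ∈ Cr A ↔ cross A (Hs x s) := Iff.rfl

theorem Cr_flip {A : Set (Endp X)} {x : FreeGroup X} {s : X × Bool} :
    (x * lt s, il s) ∈ Cr A ↔ (x, s) ∈ Cr A := by
  rw [mem_Cr, mem_Cr, ← Hs_compl, cross_compl_right]

theorem not_cross_of_pure {A : Set (Endp X)} {x : FreeGroup X} {s : X × Bool}
    (h : Hs x s ⊆ A ∨ Hs x s ⊆ Aᶜ) : ¬ cross A (Hs x s) := by
  rintro ⟨⟨p, hp⟩, -, ⟨q, hq⟩, -⟩
  rcases h with h | h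
  · exact hq.1 (h hq.2)
  · exact h hp.2 hp.1

theorem finite_Cr {A : Set (Endp X)} (hA : Cl A) : (Cr A).Finite := by
  obtain ⟨R, hR⟩ := pure_far hA
  refine ((finite_norm_le R).prod (Set.toFinite (Set.univ : Set (X × Bool)))).subset ?_
  rintro ⟨x, s⟩ hx
  simp only [Set.mem_prod, Set.mem_ofPred_eq, Set.mem_univ, and_true]
  by_contra h
  push Not at h
  by_cases hs : hd x⁻¹ = some s
  · have h1 := norm_mul_lt_of_eq hs
    have h2 : hd (x * lt s)⁻¹ ≠ some (il s) := by
      rw [mul_inv_rev, lt_inv]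
      intro h5
      rw [hd_lt_mul] at h5
      apply h5
      rw [il_il]; exact hs
    rw [← Cr_flip] at hx
    exact not_cross_of_pure (hR _ (by omega) _ h2) hx
  · exact not_cross_of_pure (hR _ h.le _ hs) hx

/-- Vertices of the crossed subtree. -/
def Vx (A : Set (Endp X)) : Set (FreeGroup X) := {x | ∃ s, (x, s) ∈ Cr A}

theorem finite_Vx {A : Set (Endp X)} (hA : Cl A) : (Vx A).Finite := by
  refine ((finite_Cr hA).image Prod.fst).subset ?_
  rintro x ⟨s, hs⟩
  exact ⟨_, hs, rfl⟩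

/-- At a vertex of the crossed subtree every mixed direction is crossed. -/
theorem cross_of_mixed {A : Set (Endp X)} {x : FreeGroup X} (hx : x ∈ Vx A) {s : X × Bool}
    (h1 : ∃ p, p ∈ A ∧ dr x p = s) (h2 : ∃ p, p ∉ A ∧ dr x p = s) : (x, s) ∈ Cr A := by
  obtain ⟨r, hr⟩ := hx
  by_cases hrs : r = s
  · rw [← hrs]; exact hr
  · obtain ⟨⟨p, hp⟩, -, ⟨q, hq⟩, -⟩ := hr
    refine ⟨h1, ⟨p, hp.1, ?_⟩, h2, ⟨q, hq.1, ?_⟩⟩
    · intro h3
      rw [mem_Hs] at h3
      have := hp.2
      rw [mem_Hs] at this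
      exact hrs (this.symm.trans h3)
    · intro h3
      rw [mem_Hs] at h3
      have := hq.2
      rw [mem_Hs] at this
      exact hrs (this.symm.trans h3)

/-- If a direction at a vertex of the crossed subtree is not crossed then it is pure. -/
theorem pure_of_not_cross {A : Set (Endp X)} {x : FreeGroup X} (hx : x ∈ Vx A) {s : X × Bool}
    (h : (x, s) ∉ Cr A) : (∀ p, dr x p = s → p ∈ A) ∨ (∀ p, dr x p = s → p ∉ A) := by
  by_contra h1
  push Not at h1
  obtain ⟨⟨p, hp, hp'⟩, ⟨q, hq, hq'⟩⟩ := h1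
  exact h (cross_of_mixed hx ⟨q, hq', hq⟩ ⟨p, hp', hp⟩)

/-- The direction towards another vertex of the crossed subtree is crossed. -/
theorem cross_dir_to {A : Set (Endp X)} {x y : FreeGroup X} (hx : x ∈ Vx A) (hy : y ∈ Vx A)
    (hxy : x ≠ y) {s : X × Bool} (hs : hd (x⁻¹ * y) = some s) : (x, s) ∈ Cr A := by
  obtain ⟨r, hr⟩ := hy
  by_cases h : hd (y⁻¹ * x) = some r
  · -- `r` points to `x`; use the complement
    obtain ⟨-, ⟨p, hp⟩, -, ⟨q, hq⟩⟩ := hr
    have key : ∀ p, dr y p ≠ r → dr x p = s := by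
      intro p hp
      have h1 := dr_of_ne hxy.symm (p := p) (by rw [h]; intro h2; exact hp (Option.some.inj h2).symm)
      rw [hs] at h1
      exact (Option.some.inj h1).symm
    exact cross_of_mixed hx ⟨p, hp.1, key p hp.2⟩ ⟨q, hq.1, key q hq.2⟩
  · obtain ⟨⟨p, hp⟩, -, ⟨q, hq⟩, -⟩ := hr
    have key : ∀ p, dr y p = r → dr x p = s := by
      intro p hp
      have h1 := dr_of_ne hxy.symm (p := p) (by rw [hp]; exact h)
      rw [hs] at h1
      exact (Option.some.inj h1).symm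
    exact cross_of_mixed hx ⟨p, hp.1, key p hp.2⟩ ⟨q, hq.1, key q hq.2⟩

/-- For an end there is at most one vertex of the crossed subtree at which its direction is not
crossed. -/
theorem proj_unique {A : Set (Endp X)} {x y : FreeGroup X} (hx : x ∈ Vx A) (hy : y ∈ Vx A)
    {p : Endp X} (h1 : (x, dr x p) ∉ Cr A) (h2 : (y, dr y p) ∉ Cr A) : x = y := by
  by_contra hxy
  have h3 : hd (x⁻¹ * y) ≠ some (dr x p) := fun h => h1 (cross_dir_to hx hy hxy h)
  have h4 := dr_of_ne hxy h3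
  exact h2 (cross_dir_to hy hx (Ne.symm hxy) h4)

end

end Helper85.BTE
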