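import Pool.Agent.Helper85.BTE.Norm

/-!
Whitehead automorphisms and their action on half-spaces.
-/

set_option autoImplicit false
set_option linter.unusedSectionVars false

namespace Helper85.BTE

open FreeGroup Pointwise Classical

variable {X : Type}

/-- The possible left factor. -/
noncomputable def bp (B : Set (X × Bool)) (b s : X × Bool) : FreeGroup X :=
  if s ∈ B then lt b else 1

noncomputable def whGen (B : Set (X × Bool)) (b : X × Bool) (x : X) : FreeGroup X :=
  if x = b.1 then FreeGroup.of x else bp B b (x, true) * FreeGroup.of x * (bp B b (x, false))⁻¹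

noncomputable def whHom (B : Set (X × Bool)) (b : X × Bool) : FreeGroup X →* FreeGroup X :=
  FreeGroup.lift (whGen B b)

theorem lt_true (x : X) : lt (x, true) = FreeGroup.of x := rfl

theorem lt_false (x : X) : lt (x, false) = (FreeGroup.of x)⁻¹ := rfl

theorem whHom_lt_eq (B : Set (X × Bool)) {b s : X × Bool} (h : s.1 = b.1) :
    whHom B b (lt s) = lt s := by
  rcases s with ⟨x, e⟩
  simp only at h
  have h1 : whHom B b (FreeGroup.of x) = FreeGroup.of x := by
    simp [whHom, whGen, h]
  cases e
  · rw [lt_false, _root_.map_inv, h1]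
  · rw [lt_true, h1]

theorem whHom_lt_ne (B : Set (X × Bool)) {b s : X × Bool} (h : s.1 ≠ b.1) :
    whHom B b (lt s) = bp B b s * lt s * (bp B b (il s))⁻¹ := by
  rcases s with ⟨x, e⟩
  simp only at h
  have h1 : whHom B b (FreeGroup.of x) =
      bp B b (x, true) * FreeGroup.of x * (bp B b (x, false))⁻¹ := by
    simp [whHom, whGen, h]
  cases e
  · rw [lt_false, _root_.map_inv, h1]
    simp only [il, Bool.not_false]
    group
  · rw [lt_true, h1]
    rfl

theorem whHom_bp (B : Set (X × Bool)) (b c s : X × Bool) (h : c.1 = b.1) :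
    whHom B b (bp B c s) = bp B c s := by
  unfold bp
  split_ifs
  · exact whHom_lt_eq B h
  · simp

theorem whHom_comp (B : Set (X × Bool)) (b : X × Bool) :
    (whHom B (il b)).comp (whHom B b) = MonoidHom.id _ := by
  ext x
  simp only [MonoidHom.comp_apply, MonoidHom.id_apply]
  by_cases h : x = b.1
  · have h1 := whHom_lt_eq B (b := b) (s := (x, true)) h
    rw [lt_true] at h1
    have h2 := whHom_lt_eq B (b := il b) (s := (x, true)) h
    rw [lt_true] at h2
    rw [h1, h2]
  · have h1 := whHom_lt_ne B (b := b) (s := (x, true)) h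
    rw [lt_true] at h1
    have h2 := whHom_lt_ne B (b := il b) (s := (x, true)) h
    rw [lt_true] at h2
    rw [h1, _root_.map_mul, _root_.map_mul, _root_.map_inv, h2,
      whHom_bp B (il b) b _ rfl, whHom_bp B (il b) b _ rfl]
    have h3 : ∀ s, bp B b s * bp B (il b) s = 1 := by
      intro s
      unfold bp
      split_ifs
      · rw [← lt_inv, mul_inv_cancel]
      · simp
    have e1 := h3 (x, true)
    have e2 := h3 (il (x, true))
    calc bp B b (x, true) * (bp B (il b) (x, true) * FreeGroup.of x *
          (bp B (il b) (il (x, true)))⁻¹) * (bp B b (il (x, true)))⁻¹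
        = (bp B b (x, true) * bp B (il b) (x, true)) * FreeGroup.of x *
          (bp B b (il (x, true)) * (bp B (il b) (il (x, true))))⁻¹ := by group
      _ = FreeGroup.of x := by rw [e1, e2]; simp

/-- The Whitehead automorphism with multiplier `b` and set `B`. -/
noncomputable def wh (B : Set (X × Bool)) (b : X × Bool) : MulAut (FreeGroup X) :=
  MonoidHom.toMulEquiv (whHom B b) (whHom B (il b)) (whHom_comp B b) (by
    have := whHom_comp B (il b)
    rwa [il_il] at this)

theorem wh_apply (B : Set (X × Bool)) (b : X × Bool) (g : FreeGroup X) :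
    wh B b g = whHom B b g := rfl

section

variable [DecidableEq X]

theorem bp_eq_one_or (B : Set (X × Bool)) (b s : X × Bool) : bp B b s = 1 ∨ bp B b s = lt b := by
  unfold bp; split_ifs
  · right; rfl
  · left; rfl

theorem step_bp {B : Set (X × Bool)} {b s t : X × Bool} {k : FreeGroup X}
    (h1 : t = b → k ≠ 1) (h2 : t ≠ il b) :
    hd (k * bp B b s) = some t ↔ hd k = some t := by
  rcases bp_eq_one_or B b s with h | h
  · rw [h, mul_one]
  · rw [h, hd_mul_lt]
    · rintro ⟨h3, h4⟩; exact h1 h4.symm h3
    · rintro ⟨h3, h4⟩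
      apply h2
      rw [h4, il_il]

theorem step_bp_inv {B : Set (X × Bool)} {b s t : X × Bool} {k : FreeGroup X}
    (h1 : t = b → k * (bp B b s)⁻¹ ≠ 1) (h2 : t ≠ il b) :
    hd (k * (bp B b s)⁻¹) = some t ↔ hd k = some t := by
  rcases bp_eq_one_or B b s with h | h
  · rw [h, inv_one, mul_one]
  · rw [h] at h1 ⊢
    rw [lt_inv] at h1 ⊢
    rw [hd_mul_lt]
    · rintro ⟨h3, h4⟩; exact h2 h4.symm
    · rintro ⟨h3, h4⟩
      exact h1 (by rw [il_inj] at h4; exact h4.symm) h3

theorem wh_ne_one {B : Set (X × Bool)} {b : X × Bool} {g : FreeGroup X} (h : g ≠ 1) :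
    wh B b g ≠ 1 := fun h1 => h ((map_eq_one_iff _ (wh B b).injective).1 h1)

theorem wh_preimage_b {B : Set (X × Bool)} {b : X × Bool} (hb : b ∈ B) (hb' : il b ∉ B) :
    (wh B b) ⁻¹' (WF b) = WFB B := by
  -- key formula
  have key : ∀ g s, s.1 ≠ b.1 → g * lt s ≠ 1 →
      (hd (wh B b (g * lt s)) = some b ↔ hd (wh B b g * bp B b s) = some b) := by
    intro g s hs hg
    have e : wh B b (g * lt s) = wh B b g * bp B b s * lt s * (bp B b (il s))⁻¹ := by
      rw [_root_.map_mul, wh_apply B b (lt s), whHom_lt_ne B hs]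
      group
    have hne := wh_ne_one (B := B) (b := b) hg
    rw [e] at hne ⊢
    rw [step_bp_inv (fun _ => hne) (il_ne b).symm, hd_mul_lt]
    · rintro ⟨-, h⟩; exact hs (by rw [h])
    · rintro ⟨-, h⟩; exact hs (by rw [h]; rfl)
  have key2 : ∀ g s, s.1 = b.1 → wh B b (g * lt s) = wh B b g * lt s := by
    intro g s hs
    rw [_root_.map_mul, wh_apply B b (lt s), whHom_lt_eq B hs]
  have hlt : ∀ s, hd (wh B b (lt s)) = some b ↔ s ∈ B := by
    intro s
    by_cases hs : s.1 = b.1
    · have h := key2 1 s hs
      rw [one_mul, _root_.map_one, one_mul] at h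
      rw [h, hd_lt, Option.some.injEq]
      constructor
      · rintro rfl; exact hb
      · intro h2
        by_contra h3
        have : s = il b := by
          rcases s with ⟨s1, s2⟩
          rcases b with ⟨b1, b2⟩
          simp only at hs
          subst hs
          simp only [il, Prod.mk.injEq, true_and]
          cases s2 <;> cases b2 <;> simp_all
        rw [this] at h2
        exact hb' h2
    · have h := key 1 s hs (by
        rw [one_mul]
        intro h
        have := congrArg hd h
        simp at this)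
      rw [one_mul, _root_.map_one, one_mul] at h
      rw [h]
      unfold bp
      split_ifs with h1
      · simp [h1]
      · simp [h1]
  apply eq_of_coboundary
  · simp [WF, WFB]
  · intro g s
    by_cases hg : g = 1
    · subst hg
      have e1 : (1 : FreeGroup X) ∉ (wh B b) ⁻¹' (WF b) := by simp [WF]
      have e2 : (1 : FreeGroup X) ∉ WFB B := by simp [WFB]
      have e3 : (1 * lt s ∈ (wh B b) ⁻¹' (WF b)) ↔ s ∈ B := by
        rw [one_mul]; exact hlt s
      have e4 : (1 * lt s ∈ WFB B) ↔ s ∈ B := by
        rw [one_mul]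
        simp only [WFB, Set.mem_ofPred_eq, hd_lt, Option.some.injEq]
        constructor
        · rintro ⟨r, hr, rfl⟩; exact hr
        · intro h; exact ⟨s, h, rfl⟩
      tauto
    · by_cases hg2 : g * lt s = 1
      · have e0 : g = lt (il s) := by rw [← lt_inv]; exact eq_inv_of_mul_eq_one_left hg2
        have e1 : g * lt s ∉ (wh B b) ⁻¹' (WF b) := by rw [hg2]; simp [WF]
        have e2 : g * lt s ∉ WFB B := by rw [hg2]; simp [WFB]
        have e3 : (g ∈ (wh B b) ⁻¹' (WF b)) ↔ il s ∈ B := by
          rw [e0]; exact hlt (il s)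
        have e4 : (g ∈ WFB B) ↔ il s ∈ B := by
          rw [e0]
          simp only [WFB, Set.mem_ofPred_eq, hd_lt, Option.some.injEq]
          constructor
          · rintro ⟨r, hr, rfl⟩; exact hr
          · intro h; exact ⟨il s, h, rfl⟩
        tauto
      · have h1 : (g ∈ WFB B ↔ g * lt s ∈ WFB B) := by
          have h1 : ∀ r, hd (g * lt s) = some r ↔ hd g = some r := by
            intro r
            rw [hd_mul_lt]
            · rintro ⟨h1, -⟩; exact hg h1
            · rintro ⟨h1, -⟩; exact hg2 h1
          simp only [WFB, Set.mem_ofPred_eq, h1]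
        have h2 : (g ∈ (wh B b) ⁻¹' (WF b) ↔ g * lt s ∈ (wh B b) ⁻¹' (WF b)) := by
          change hd (wh B b g) = some b ↔ hd (wh B b (g * lt s)) = some b
          by_cases hs : s.1 = b.1
          · have hne := wh_ne_one (B := B) (b := b) hg2
            rw [key2 g s hs] at hne ⊢
            rw [hd_mul_lt]
            · rintro ⟨h3, -⟩; exact wh_ne_one hg h3
            · rintro ⟨h3, -⟩; exact hne h3
          · rw [key g s hs hg2, step_bp (fun _ => wh_ne_one hg) (il_ne b).symm]
        tauto

theorem wh_preimage_t {B : Set (X × Bool)} {b t : X × Bool} (ht : t.1 ≠ b.1) :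
    (wh B b) ⁻¹' (WF t) = (fun x => bp B b t * x) ⁻¹' (WF t) := by
  have htb : t ≠ b := fun h => ht (by rw [h])
  have htb' : t ≠ il b := fun h => ht (by rw [h]; rfl)
  apply eq_of_coboundary
  · have h1 : (1 : FreeGroup X) ∉ (wh B b) ⁻¹' (WF t) := by simp [WF]
    have h2 : (1 : FreeGroup X) ∉ (fun x => bp B b t * x) ⁻¹' (WF t) := by
      simp only [Set.mem_preimage, mul_one]
      rcases bp_eq_one_or B b t with h | h
      · rw [h]; simp [WF]
      · rw [h]
        simp only [WF, Set.mem_ofPred_eq, hd_lt, Option.some.injEq]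
        exact htb.symm
    tauto
  · intro g s
    change ((hd (wh B b g) = some t ↔ hd (wh B b (g * lt s)) = some t) ↔
      (hd (bp B b t * g) = some t ↔ hd (bp B b t * (g * lt s)) = some t))
    rw [← mul_assoc (bp B b t) g (lt s)]
    by_cases hs : s.1 = b.1
    · have hst : s ≠ t := fun h => ht (by rw [← h]; exact hs)
      have hst' : s ≠ il t := fun h => ht (by rw [← hs, h]; rfl)
      have e1 : wh B b (g * lt s) = wh B b g * lt s := by
        rw [_root_.map_mul, wh_apply B b (lt s), whHom_lt_eq B hs]
      rw [e1, hd_mul_lt, hd_mul_lt]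
      · simp
      · rintro ⟨-, h⟩; exact hst h
      · rintro ⟨-, h⟩; exact hst' h
      · rintro ⟨-, h⟩; exact hst h
      · rintro ⟨-, h⟩; exact hst' h
    · have e : wh B b (g * lt s) = wh B b g * bp B b s * lt s * (bp B b (il s))⁻¹ := by
        rw [_root_.map_mul, wh_apply B b (lt s), whHom_lt_ne B hs]
        group
      have e2 : hd (wh B b (g * lt s)) = some t ↔ hd (wh B b g * bp B b s * lt s) = some t := by
        rw [e, step_bp_inv (fun h => absurd h htb) htb']
      have e3 : hd (wh B b g) = some t ↔ hd (wh B b g * bp B b s) = some t := by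
        rw [step_bp (fun h => absurd h htb) htb']
      rw [e2, e3]
      by_cases x1 : wh B b g * bp B b s = 1 ∧ s = t
      · -- first exceptional case
        obtain ⟨x1, rfl⟩ := x1
        have x2 : bp B b s * g = 1 := by
          have : wh B b (g * bp B b s) = 1 := by
            rw [_root_.map_mul, wh_apply B b (bp B b s), whHom_bp B b b s rfl]
            exact x1
          have h2 := (map_eq_one_iff _ (wh B b).injective).1 this
          have h3 := eq_inv_of_mul_eq_one_left h2
          rw [h3, mul_inv_cancel]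
        rw [x1, x2]
      · by_cases x2 : wh B b g * bp B b s * lt s = 1 ∧ s = il t
        · obtain ⟨x2, rfl⟩ := x2
          rw [il_il] at e
          rw [x2, one_mul] at e
          have x3 : bp B b t * (g * lt (il t)) = 1 := by
            have : wh B b (bp B b t * (g * lt (il t))) = 1 := by
              rw [_root_.map_mul, wh_apply B b (bp B b t), whHom_bp B b b t rfl, e, mul_inv_cancel]
            exact (map_eq_one_iff _ (wh B b).injective).1 this
          rw [← mul_assoc] at x3
          rw [x2, x3]
          have y1 : wh B b g * bp B b (il t) = lt t := by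
            have := eq_inv_of_mul_eq_one_left x2
            rwa [lt_inv, il_il] at this
          have y2 : bp B b t * g = lt t := by
            have := eq_inv_of_mul_eq_one_left x3
            rwa [lt_inv, il_il] at this
          rw [y1, y2]
        · rw [hd_mul_lt x1 x2]
          rw [hd_mul_lt]
          · simp
          · rintro ⟨h1, rfl⟩
            apply x1
            refine ⟨?_, rfl⟩
            have h2 : g = (bp B b s)⁻¹ := eq_inv_of_mul_eq_one_right h1
            rw [h2, _root_.map_inv, wh_apply B b (bp B b s), whHom_bp B b b s rfl, inv_mul_cancel]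
          · rintro ⟨h1, rfl⟩
            apply x2
            refine ⟨?_, rfl⟩
            have h2 : g * lt (il t) = (bp B b t)⁻¹ := by
              rw [mul_assoc] at h1
              exact eq_inv_of_mul_eq_one_right h1
            rw [h2, il_il, _root_.map_inv, wh_apply B b (bp B b t), whHom_bp B b b t rfl] at e
            have h3 : wh B b g * bp B b (il t) * lt (il t) = 1 := by
              have := congrArg (fun z => z * bp B b t) e
              simp only [inv_mul_cancel, inv_mul_cancel_right] at this
              exact this.symm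
            exact h3

section

variable [Fintype X]

theorem dir_wh_b {B : Set (X × Bool)} {b : X × Bool} (hb : b ∈ B) (hb' : il b ∉ B)
    (p : Endp X) : dir (wh B b • p) = b ↔ dir p ∈ B := by
  rw [← WF_mem_iff, mem_aut_smul_sets, wh_preimage_b hb hb', WFB_mem_iff]

theorem dir_wh_t {B : Set (X × Bool)} {b t : X × Bool} (ht : t.1 ≠ b.1)
    (p : Endp X) : dir (wh B b • p) = t ↔ dir (bp B b t • p) = t := by
  rw [← WF_mem_iff, mem_aut_smul_sets, wh_preimage_t ht, ← WF_mem_iff]
  rfl

theorem wh_inv_smul_b {B : Set (X × Bool)} {b : X × Bool} (hb : b ∈ B) (hb' : il b ∉ B) :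
    (wh B b)⁻¹ • Hs 1 b = WB B := by
  ext p
  rw [Set.mem_smul_set_iff_inv_smul_mem, inv_inv, mem_Hs, dr_one, dir_wh_b hb hb', mem_WB]

theorem wh_inv_smul_t {B : Set (X × Bool)} {b t : X × Bool} (ht : t.1 ≠ b.1) :
    (wh B b)⁻¹ • Hs 1 t = (bp B b t)⁻¹ • Hs 1 t := by
  ext p
  rw [Set.mem_smul_set_iff_inv_smul_mem, Set.mem_smul_set_iff_inv_smul_mem, inv_inv, inv_inv,
    mem_Hs, mem_Hs, dr_one, dr_one, dir_wh_t ht]

theorem Hs_il_eq (b : X × Bool) : Hs 1 (il b) = (lt b)⁻¹ • (Hs 1 b)ᶜ := by
  rw [Hs_compl, smul_Hs]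
  congr 1
  group

/-- Change of the total cost under a Whitehead automorphism. -/
theorem sum_wh {B : Set (X × Bool)} {b : X × Bool} (hb : b ∈ B) (hb' : il b ∉ B)
    (f : Set (Endp X) → ℕ) (hf1 : ∀ (g : FreeGroup X) A, f (g • A) = f A)
    (hf2 : ∀ A, f Aᶜ = f A) :
    ∑ s : X × Bool, f ((wh B b)⁻¹ • Hs 1 s) + 2 * f (Hs 1 b) =
      ∑ s : X × Bool, f (Hs 1 s) + 2 * f (WB B) := by
  have hne : il b ≠ b := il_ne b
  have hsplit : ∀ F : X × Bool → ℕ, ∑ s : X × Bool, F s =
      F b + (F (il b) + ∑ s ∈ (Finset.univ.erase b).erase (il b), F s) := by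
    intro F
    rw [← Finset.add_sum_erase _ F (Finset.mem_univ b)]
    congr 1
    rw [← Finset.add_sum_erase _ F (a := il b)]
    simp [hne]
  rw [hsplit, hsplit (fun s => f (Hs 1 s))]
  have e1 : f ((wh B b)⁻¹ • Hs 1 b) = f (WB B) := by rw [wh_inv_smul_b hb hb']
  have e2 : f ((wh B b)⁻¹ • Hs 1 (il b)) = f (WB B) := by
    rw [Hs_il_eq, aut_smul_set, hf1, Set.smul_set_compl, hf2, wh_inv_smul_b hb hb']
  have e3 : f (Hs 1 (il b)) = f (Hs 1 b) := by
    rw [Hs_il_eq, hf1, hf2]
  have e4 : ∑ s ∈ (Finset.univ.erase b).erase (il b), f ((wh B b)⁻¹ • Hs 1 s) =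
      ∑ s ∈ (Finset.univ.erase b).erase (il b), f (Hs 1 s) := by
    apply Finset.sum_congr rfl
    intro s hs
    simp only [Finset.mem_erase, Finset.mem_univ, and_true] at hs
    have h1 : s.1 ≠ b.1 := by
      intro h
      rcases s with ⟨s1, s2⟩
      rcases b with ⟨b1, b2⟩
      simp only at h
      subst h
      simp only [il, Prod.mk.injEq, true_and, ne_eq] at hs
      cases s2 <;> cases b2 <;> simp_all
    rw [wh_inv_smul_t h1, hf1]
  rw [e1, e2, e3, e4]
  ring

/-- Number of translates of `A` crossing `S`. -/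
noncomputable def nA (A S : Set (Endp X)) : ℕ := {g : FreeGroup X | cross (g • A) S}.ncard

theorem nA_smul (A S : Set (Endp X)) (g : FreeGroup X) : nA A (g • S) = nA A S := by
  unfold nA
  have : {k : FreeGroup X | cross (k • A) (g • S)} = (fun k => g * k) '' {k | cross (k • A) S} := by
    ext k
    simp only [Set.mem_ofPred_eq, Set.mem_image]
    constructor
    · intro h
      refine ⟨g⁻¹ * k, ?_, by group⟩
      rw [← cross_smul g, smul_smul, mul_inv_cancel_left]
      exact h
    · rintro ⟨j, hj, rfl⟩
      rw [mul_smul, cross_smul]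
      exact hj
  rw [this, Set.ncard_image_of_injective _ (mul_right_injective g)]

theorem nA_compl (A S : Set (Endp X)) : nA A Sᶜ = nA A S := by
  unfold nA
  simp only [cross_compl_right]

theorem nA_smul_left (A S : Set (Endp X)) (g : FreeGroup X) : nA (g • A) S = nA A S := by
  unfold nA
  have : {k : FreeGroup X | cross (k • A) S} = (fun k => k * g) '' {k | cross (k • g • A) S} := by
    ext k
    simp only [Set.mem_ofPred_eq, Set.mem_image]
    constructor
    · intro h
      refine ⟨k * g⁻¹, ?_, by group⟩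
      rw [smul_smul, inv_mul_cancel_right]
      exact h
    · rintro ⟨j, hj, rfl⟩
      rw [mul_smul]
      exact hj
  rw [this, Set.ncard_image_of_injective _ (mul_left_injective g)]

theorem nA_aut (A S : Set (Endp X)) (φ : MulAut (FreeGroup X)) :
    nA (φ • A) S = nA A (φ⁻¹ • S) := by
  unfold nA
  have : {k : FreeGroup X | cross (k • φ • A) S} = φ '' {k | cross (k • A) (φ⁻¹ • S)} := by
    ext k
    simp only [Set.mem_ofPred_eq, Set.mem_image]
    constructor
    · intro h
      refine ⟨(φ⁻¹ : MulAut (FreeGroup X)) k, ?_, MulAut.apply_inv_self _ φ k⟩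
      rw [← cross_smul φ, smul_inv_smul, aut_smul_set, MulAut.apply_inv_self]
      exact h
    · rintro ⟨j, hj, rfl⟩
      rw [← aut_smul_set, ← cross_smul φ⁻¹, inv_smul_smul]
      exact hj
  rw [this, Set.ncard_image_of_injective _ φ.injective]

/-- The number of crossed oriented edges is the total cost. -/
theorem ncard_Cr {A : Set (Endp X)} (hA : Cl A) :
    (Cr A).ncard = ∑ s : X × Bool, nA A (Hs 1 s) := by
  have hfin := finite_Cr hA
  have h1 : ∀ s : X × Bool, nA A (Hs 1 s) = {e ∈ Cr A | e.2 = s}.ncard := by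
    intro s
    unfold nA
    have : {e ∈ Cr A | e.2 = s} = (fun g : FreeGroup X => (g⁻¹, s)) '' {g | cross (g • A) (Hs 1 s)} := by
      ext ⟨x, r⟩
      simp only [Set.mem_ofPred_eq, Set.mem_image, Prod.mk.injEq]
      constructor
      · rintro ⟨h1, rfl⟩
        refine ⟨x⁻¹, ?_, by simp⟩
        rw [mem_Cr, ← cross_smul x⁻¹, smul_Hs, inv_mul_cancel] at h1
        exact h1
      · rintro ⟨g, hg, rfl, rfl⟩
        refine ⟨?_, rfl⟩
        rw [mem_Cr, ← cross_smul g, smul_Hs, mul_inv_cancel]
        exact hg
    rw [this, Set.ncard_image_of_injective]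
    intro a b h
    simpa using h
  simp only [h1]
  rw [Set.ncard_eq_toFinset_card _ hfin]
  rw [Finset.card_eq_sum_card_fiberwise (f := Prod.snd) (t := Finset.univ)
        (fun _ _ => Finset.mem_coe.2 (Finset.mem_univ _))]
  apply Finset.sum_congr rfl
  intro s _
  rw [← Set.ncard_coe_finset]
  congr 1
  ext e
  simp

theorem nl_wh {ι : Type} [Finite ι] {B : Set (X × Bool)} {b : X × Bool} (hb : b ∈ B)
    (hb' : il b ∉ B) (v : ι → FreeGroup X) :
    nl (fun i => wh B b (v i)) + 2 * cnt v (Hs 1 b) = nl v + 2 * cnt v (WB B) := by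
  have h := sum_wh hb hb' (cnt v) (fun g A => cnt_smul v g A) (fun A => cnt_compl v A)
  have h2 : nl (fun i => wh B b (v i)) = ∑ s : X × Bool, cnt v ((wh B b)⁻¹ • Hs 1 s) := by
    unfold nl
    apply Finset.sum_congr rfl
    intro s _
    have h3 := cnt_aut (wh B b) v ((cl_Hs 1 s).aut (wh B b)⁻¹)
    rw [smul_inv_smul] at h3
    exact h3
  rw [h2, h]
  rfl

theorem Cr_wh {B : Set (X × Bool)} {b : X × Bool} (hb : b ∈ B)
    (hb' : il b ∉ B) {A : Set (Endp X)} (hA : Cl A) :
    (Cr (wh B b • A)).ncard + 2 * nA A (Hs 1 b) = (Cr A).ncard + 2 * nA A (WB B) := by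
  have h := sum_wh hb hb' (nA A) (fun g S => nA_smul A S g) (fun S => nA_compl A S)
  rw [ncard_Cr (hA.aut _), ncard_Cr hA]
  simp only [nA_aut]
  exact h

end

end

end Helper85.BTE
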