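import Pool.Agent.Helper85.BTE.Len

/-!
The zero condition: from letters to sets of letters, and its necessity in rank at least three.
-/

set_option autoImplicit false
set_option linter.unusedSectionVars false
set_option linter.unusedVariables false

namespace Helper85.BTE

open FreeGroup Pointwise Classical Filter

variable {X : Type} [DecidableEq X] [Fintype X]

theorem crL_empty_of {ι : Type} [Finite ι] {v : ι → FreeGroup X} {A : Set (Endp X)} (hA : Cl A)
    (h : cnt v A = 0) : ∀ l : Line v, (pos l ∈ A ↔ neg l ∈ A) := by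
  intro l
  unfold cnt at h
  rw [Set.ncard_eq_zero (crL_finite v hA)] at h
  by_contra h2
  have : l ∈ crL v A := h2
  rw [h] at this
  exact this

theorem cnt_zero_of {ι : Type} [Finite ι] {v : ι → FreeGroup X} {A : Set (Endp X)}
    (h : ∀ l : Line v, (pos l ∈ A ↔ neg l ∈ A)) : cnt v A = 0 := by
  unfold cnt
  have : crL v A = ∅ := by
    ext l
    rw [mem_crL]
    simp [h l]
  rw [this]; simp

/-- If no direction in `B` is crossed then `B` is not crossed. -/
theorem cnt_WB_zero {ι : Type} [Finite ι] (v : ι → FreeGroup X) (B : Set (X × Bool))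
    (h : ∀ b ∈ B, cnt v (Hs 1 b) = 0) : cnt v (WB B) = 0 := by
  apply cnt_zero_of
  intro l
  rw [mem_WB, mem_WB]
  constructor
  · intro h1
    have h2 := (crL_empty_of (cl_Hs 1 _) (h _ h1) l).1 (by rw [mem_Hs, dr_one])
    rw [mem_Hs, dr_one] at h2
    rwa [h2]
  · intro h1
    have h2 := (crL_empty_of (cl_Hs 1 _) (h _ h1) l).2 (by rw [mem_Hs, dr_one])
    rw [mem_Hs, dr_one] at h2
    rwa [h2]

theorem WB_compl (B : Set (X × Bool)) : (WB Bᶜ : Set (Endp X)) = (WB B)ᶜ := rfl

/-- For one element: if a symmetric set of directions is not crossed then all letters used are in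
it, or none. -/
theorem single_type (w : FreeGroup X) (B : Set (X × Bool)) (hB : ∀ b, b ∈ B ↔ il b ∈ B)
    (h0 : c1 w (WB B) = 0) :
    (∀ b ∈ B, c1 w (Hs 1 b) = 0) ∨ (∀ b, b ∉ B → c1 w (Hs 1 b) = 0) := by
  by_contra hcon
  push Not at hcon
  obtain ⟨⟨b, hb, hb0⟩, ⟨b', hb', hb0'⟩⟩ := hcon
  -- types agree along a line
  have htype : ∀ (l : Line (fun _ : Unit => w)) (x : FreeGroup X),
      (dr x (pos l) ∈ B ↔ dr x (neg l) ∈ B) := by
    intro l x
    have h1 := crL_empty_of (cl_WB B) h0 (x⁻¹ • l)
    rw [mem_WB, mem_WB, pos_smul, neg_smul] at h1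
    exact h1
  have key : ∀ (l : Line (fun _ : Unit => w)) (n : ℕ) (x y : FreeGroup X), (x⁻¹ * y).norm = n →
      dr x (pos l) ≠ dr x (neg l) → dr y (pos l) ≠ dr y (neg l) →
      (dr x (pos l) ∈ B ↔ dr y (pos l) ∈ B) := by
    intro l n
    induction n with
    | zero =>
      intro x y hn _ _
      rw [FreeGroup.norm_eq_zero, inv_mul_eq_one] at hn
      rw [hn]
    | succ n ih =>
      intro x y hn hx hy
      have hxy : x ≠ y := by
        rintro rfl
        simp at hn
      obtain ⟨r, hr⟩ := exists_hd (fun h : x⁻¹ * y = 1 => hxy (inv_mul_eq_one.1 h))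
      have hn' : ((x * lt r)⁻¹ * y).norm = n := by
        have h1 : (x * lt r)⁻¹ * y = lt (il r) * (x⁻¹ * y) := by
          rw [mul_inv_rev, lt_inv, mul_assoc]
        have h2 := norm_lt_mul_of_eq (s := il r) (g := x⁻¹ * y) (by rw [il_il]; exact hr)
        rw [h1]; omega
      by_cases e1 : dr x (pos l) = r
      · have e2 : dr x (neg l) ≠ r := fun h => hx (e1.trans h.symm)
        have e3 : dr (x * lt r) (neg l) = il r := (dr_mul_lt x r (neg l)).2 e2
        have e4 : dr (x * lt r) (pos l) ≠ il r := fun h => ((dr_mul_lt x r (pos l)).1 h) e1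
        rw [← ih (x * lt r) y hn' (by rw [e3]; exact e4) hy, htype l (x * lt r), e3, e1]
        exact hB r
      · by_cases e2 : dr x (neg l) = r
        · have e3 : dr (x * lt r) (pos l) = il r := (dr_mul_lt x r (pos l)).2 e1
          have e4 : dr (x * lt r) (neg l) ≠ il r := fun h => ((dr_mul_lt x r (neg l)).1 h) e2
          rw [← ih (x * lt r) y hn' (by rw [e3]; exact e4.symm) hy, htype l x, e3, e2]
          exact hB r
        · exfalso
          apply hy
          have h3 := dr_of_ne hxy (p := pos l) (by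
            rw [hr]; intro h; exact e1 (Option.some.inj h).symm)
          have h4 := dr_of_ne hxy (p := neg l) (by
            rw [hr]; intro h; exact e2 (Option.some.inj h).symm)
          rw [h3] at h4
          exact Option.some.inj h4
  -- lines crossing `b` and `b'`
  have hne1 : (crL (fun _ : Unit => w) (Hs 1 b)).Nonempty := by
    by_contra h
    rw [Set.not_nonempty_iff_eq_empty] at h
    apply hb0
    unfold c1 cnt
    rw [h]; simp
  have hne2 : (crL (fun _ : Unit => w) (Hs 1 b')).Nonempty := by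
    by_contra h
    rw [Set.not_nonempty_iff_eq_empty] at h
    apply hb0'
    unfold c1 cnt
    rw [h]; simp
  obtain ⟨l, hl⟩ := hne1
  obtain ⟨l', hl'⟩ := hne2
  obtain ⟨g, rfl⟩ : ∃ g : FreeGroup X, l' = g • l := by
    obtain ⟨i, q⟩ := l
    obtain ⟨j, q'⟩ := l'
    induction q using QuotientGroup.induction_on with
    | H a =>
      induction q' using QuotientGroup.induction_on with
      | H c =>
        refine ⟨c * a⁻¹, ?_⟩
        have hij : i = j := Subtype.ext rfl
        subst hij
        change _ = (⟨i, QuotientGroup.mk (c * a⁻¹ * a)⟩ : Line (fun _ : Unit => w))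
        rw [inv_mul_cancel_right]
  rw [mem_crL, mem_Hs, mem_Hs] at hl hl'
  rw [pos_smul, neg_smul] at hl'
  have e1 : ∀ p : Endp X, dr 1 (g • p) = dr g⁻¹ p := by
    intro p
    have := dr_smul g g⁻¹ p
    rw [mul_inv_cancel] at this
    exact this
  rw [e1, e1] at hl'
  have hx : dr 1 (pos l) ≠ dr 1 (neg l) := by
    intro h; rw [h] at hl; exact hl Iff.rfl
  have hy : dr g⁻¹ (pos l) ≠ dr g⁻¹ (neg l) := by
    intro h; rw [h] at hl'; exact hl' Iff.rfl
  have hk := key l _ 1 g⁻¹ rfl hx hy
  have t1 := htype l 1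
  have t2 := htype l g⁻¹
  have f1 : dr 1 (pos l) ∈ B := by
    by_cases h : dr 1 (pos l) = b
    · rw [h]; exact hb
    · have : dr 1 (neg l) = b := by
        by_contra h2
        exact hl ⟨fun h3 => absurd h3 h, fun h3 => absurd h3 h2⟩
      rw [t1, this]; exact hb
  have f2 : dr g⁻¹ (pos l) ∉ B := by
    by_cases h : dr g⁻¹ (pos l) = b'
    · rw [h]; exact hb'
    · have : dr g⁻¹ (neg l) = b' := by
        by_contra h2
        exact hl' ⟨fun h3 => absurd h3 h, fun h3 => absurd h3 h2⟩
      rw [t2, this]; exact hb'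
  exact f2 (hk.1 f1)

/-- From the letter-zero condition to the zero condition for all sets of letters. -/
theorem zero_of_letters (u v : FreeGroup X) (S : Set (MulAut (FreeGroup X)))
    (hcl : ∀ ψ ∈ S, ∀ (B : Set (X × Bool)) (b : X × Bool), b ∈ B → il b ∉ B →
      n1 (wh B b (ψ v)) ≤ n1 (ψ v) → wh B b * ψ ∈ S)
    (hL : ∀ ψ ∈ S, ∀ s : X × Bool, c1 (ψ v) (Hs 1 s) = 0 → c1 (ψ u) (Hs 1 s) = 0) :
    ∀ ψ ∈ S, ∀ B : Set (X × Bool), c1 (ψ v) (WB B) = 0 → c1 (ψ u) (WB B) = 0 := by
  intro ψ hψ B h0
  by_cases hB : ∃ b ∈ B, il b ∉ B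
  · obtain ⟨b, hb, hb'⟩ := hB
    have h1 := n1_wh hb hb' (ψ v)
    have h2 := hcl ψ hψ B b hb hb' (by omega)
    have h3 := hL _ h2 b
    have e1 : (wh B b * ψ) v = wh B b (ψ v) := rfl
    have e2 : (wh B b * ψ) u = wh B b (ψ u) := rfl
    rw [e1, e2, c1_wh hb hb', c1_wh hb hb'] at h3
    exact h3 h0
  · push Not at hB
    have hB' : ∀ b, b ∈ B ↔ il b ∈ B := by
      intro b
      constructor
      · exact hB b
      · intro h
        have := hB _ h
        rwa [il_il] at this
    rcases single_type (ψ v) B hB' h0 with h | h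
    · exact cnt_WB_zero _ B (fun b hb => hL ψ hψ b (h b hb))
    · have h1 : cnt (fun _ : Unit => ψ u) (WB Bᶜ) = 0 :=
        cnt_WB_zero _ Bᶜ (fun b hb => hL ψ hψ b (h b hb))
      rw [WB_compl, cnt_compl] at h1
      exact h1

/-! ### Necessity of the letter-zero condition in rank at least three -/

theorem dir_lt_pow_smul {t : X × Bool} {p : Endp X} (h : dir p ≠ il t) (m : ℕ) :
    dir ((lt t) ^ (m + 1) • p) = t := by
  induction m with
  | zero => rw [zero_add, pow_one, dir_lt_smul]; exact h
  | succ m ih =>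
    rw [pow_succ', mul_smul, dir_lt_smul, ih]
    exact (il_ne t).symm

/-- The growing half-spaces. -/
def Sk (t β : X × Bool) (k : ℕ) : Set (Endp X) :=
  {p | dir p = il t ∨ ∃ j < k, dir ((lt (il t)) ^ j • p) = β}

theorem wh_pow_smul {t β : X × Bool} (h1 : β.1 ≠ t.1) (k : ℕ) :
    ((wh {il t, β} (il t))⁻¹ ^ k) • Hs 1 (il t) = Sk t β k := by
  have hb : il t ∈ ({il t, β} : Set (X × Bool)) := by simp
  have hb' : il (il t) ∉ ({il t, β} : Set (X × Bool)) := by
    rw [il_il]
    simp only [Set.mem_insert_iff, Set.mem_singleton_iff, not_or]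
    refine ⟨(il_ne t).symm, fun h => h1 (by rw [h])⟩
  have hβ : β ∈ ({il t, β} : Set (X × Bool)) := by simp
  induction k with
  | zero =>
    rw [pow_zero, one_smul]
    ext p
    rw [mem_Hs, dr_one]
    unfold Sk
    simp
  | succ k ih =>
    rw [pow_succ', mul_smul, ih]
    ext p
    rw [Set.mem_smul_set_iff_inv_smul_mem, inv_inv]
    unfold Sk
    simp only [Set.mem_ofPred_eq]
    have e1 : dir (wh {il t, β} (il t) • p) = il t ↔ dir p ∈ ({il t, β} : Set (X × Bool)) :=
      dir_wh_b hb hb' p
    have e2 : ∀ j, (dir ((lt (il t)) ^ j • (wh {il t, β} (il t) • p)) = β ↔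
        dir ((lt (il t)) ^ (j + 1) • p) = β) := by
      intro j
      have h2 : (lt (il t)) ^ j • (wh {il t, β} (il t) • p) =
          wh {il t, β} (il t) • ((lt (il t)) ^ j • p) := by
        rw [aut_smul_smul, map_pow, wh_apply, whHom_lt_eq _ rfl]
      rw [h2, dir_wh_t (t := β) (by exact h1)]
      have h3 : bp ({il t, β} : Set (X × Bool)) (il t) β = lt (il t) := by
        unfold bp; rw [if_pos hβ]
      rw [h3, smul_smul, ← pow_succ']
    rw [e1]
    simp only [e2, Set.mem_insert_iff, Set.mem_singleton_iff]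
    constructor
    · rintro ((h | h) | ⟨j, hj, h⟩)
      · exact Or.inl h
      · exact Or.inr ⟨0, by omega, by simpa using h⟩
      · exact Or.inr ⟨j + 1, by omega, h⟩
    · rintro (h | ⟨j, hj, h⟩)
      · exact Or.inl (Or.inl h)
      · rcases j with _ | j
        · exact Or.inl (Or.inr (by simpa using h))
        · exact Or.inr ⟨j, by omega, h⟩

theorem aut_pow_inv (φ : MulAut (FreeGroup X)) (k : ℕ) : (φ ^ k)⁻¹ = φ⁻¹ ^ k := (inv_pow φ k).symm

theorem pow_succ_apply (φ : MulAut (FreeGroup X)) (k : ℕ) (x : FreeGroup X) :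
    (φ ^ (k + 1)) x = φ ((φ ^ k) x) := by
  rw [pow_succ']; rfl

/-- In rank at least three, a letter missing in `v` but present in `u` excludes domination. -/
theorem not_dom_of_zero (hX : 3 ≤ Fintype.card X) (u v : FreeGroup X) (b : X × Bool)
    (hv : c1 v (Hs 1 b) = 0) (hu : c1 u (Hs 1 b) ≠ 0) (C : ℕ) :
    ∃ φ : MulAut (FreeGroup X), C * n1 (φ v) < n1 (φ u) := by
  -- a line of `u` crossing `b`
  have hne1 : (crL (fun _ : Unit => u) (Hs 1 b)).Nonempty := by
    by_contra h
    rw [Set.not_nonempty_iff_eq_empty] at h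
    apply hu
    unfold c1 cnt
    rw [h]; simp
  obtain ⟨l, hl⟩ := hne1
  rw [mem_crL, mem_Hs, mem_Hs, dr_one, dr_one] at hl
  -- the other direction
  set d : X × Bool := if dir (pos l) = b then dir (neg l) else dir (pos l) with hd'
  have hdb : d ≠ b := by
    rw [hd']
    split_ifs with h
    · intro h2; exact hl ⟨fun _ => h2, fun _ => h⟩
    · exact h
  obtain ⟨x, hx1, hx2⟩ : ∃ x : X, x ≠ b.1 ∧ x ≠ d.1 := by
    by_contra hcon
    push Not at hcon
    have h1 : (Finset.univ : Finset X) ⊆ {b.1, d.1} := by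
      intro c _
      simp only [Finset.mem_insert, Finset.mem_singleton]
      by_cases hc : c = b.1
      · exact Or.inl hc
      · exact Or.inr (hcon c hc)
    have h2 := Finset.card_le_card h1
    have h3 := Finset.card_le_two (a := b.1) (b := d.1)
    rw [Finset.card_univ] at h2
    omega
  set t : X × Bool := (x, true) with ht
  have htb : b.1 ≠ t.1 := fun h => hx1 h.symm
  have htd : d.1 ≠ t.1 := fun h => hx2 h.symm
  set τ := wh ({il t, b} : Set (X × Bool)) (il t) with hτ
  have hb : il t ∈ ({il t, b} : Set (X × Bool)) := by simp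
  have hb' : il (il t) ∉ ({il t, b} : Set (X × Bool)) := by
    rw [il_il]
    simp only [Set.mem_insert_iff, Set.mem_singleton_iff, not_or]
    refine ⟨(il_ne t).symm, fun h => htb (by rw [h])⟩
  have hbm : b ∈ ({il t, b} : Set (X × Bool)) := by simp
  -- `v` does not get longer
  have hvk : ∀ k : ℕ, n1 ((τ ^ k) v) ≤ n1 v ∧ c1 ((τ ^ k) v) (Hs 1 b) = 0 := by
    intro k
    induction k with
    | zero => simp only [pow_zero, MulAut.one_apply]; exact ⟨le_rfl, hv⟩
    | succ k ih =>
      rw [pow_succ_apply]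
      set w := (τ ^ k) v
      have h1 := n1_wh hb hb' w
      have h2 : c1 w (WB {il t, b}) ≤ c1 w (Hs 1 (il t)) := by
        unfold c1 cnt
        apply Set.ncard_le_ncard _ (crL_finite _ (cl_Hs 1 _))
        intro m hm
        have h3 := crL_empty_of (cl_Hs 1 b) ih.2 m
        rw [mem_Hs, mem_Hs, dr_one, dr_one] at h3
        rw [mem_crL, mem_WB, mem_WB] at hm
        rw [mem_crL, mem_Hs, mem_Hs, dr_one, dr_one]
        simp only [Set.mem_insert_iff, Set.mem_singleton_iff] at hm
        tauto
      refine ⟨?_, ?_⟩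
      · have h4 := ih.1
        rw [← hτ] at h1
        omega
      · rw [c1_aut' _ _ (cl_Hs 1 b), wh_inv_smul_t (by exact htb)]
        have : c1 w ((bp ({il t, b} : Set (X × Bool)) (il t) b)⁻¹ • Hs 1 b) = c1 w (Hs 1 b) :=
          cnt_smul _ _ _
        rw [this]; exact ih.2
  -- `u` gets longer
  have huk : ∀ k : ℕ, k ≤ n1 ((τ ^ k) u) := by
    intro k
    have h1 : c1 ((τ ^ k) u) (Hs 1 (il t)) ≤ n1 ((τ ^ k) u) :=
      Finset.single_le_sum (f := fun s => cnt (fun _ : Unit => (τ ^ k) u) (Hs 1 s))
        (fun _ _ => Nat.zero_le _) (Finset.mem_univ (il t))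
    refine le_trans ?_ h1
    rw [c1_aut' _ _ (cl_Hs 1 _), aut_pow_inv, wh_pow_smul htb]
    have hclS : Cl (Sk t b k) := by
      rw [← wh_pow_smul htb k]
      exact (cl_Hs 1 _).aut _
    unfold c1 cnt
    have h2 : (Finset.range k : Finset ℕ).card = k := Finset.card_range k
    conv_lhs => rw [← h2]
    rw [← Set.ncard_coe_finset]
    -- membership facts
    have hin : ∀ p : Endp X, dir p = b → ∀ j < k, (lt t) ^ j • p ∈ Sk t b k := by
      intro p hp j hj
      right
      refine ⟨j, hj, ?_⟩
      rw [smul_smul, ← lt_inv, inv_pow, inv_mul_cancel, one_smul]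
      exact hp
    have hmul : ∀ (i j : ℕ), i ≤ j → (lt (il t)) ^ i * (lt t) ^ j = (lt t) ^ (j - i) := by
      intro i j hij
      rw [← lt_inv, inv_pow, inv_mul_eq_iff_eq_mul, ← pow_add]
      congr 1; omega
    have hmul2 : ∀ (i j : ℕ), j ≤ i → (lt (il t)) ^ i * (lt t) ^ j = (lt (il t)) ^ (i - j) := by
      intro i j hij
      rw [← lt_inv, inv_pow, inv_pow, inv_mul_eq_iff_eq_mul, eq_mul_inv_iff_mul_eq, ← pow_add]
      congr 1; omega
    have hout : ∀ q : Endp X, dir q = d → ∀ j < k, (lt t) ^ j • q ∉ Sk t b k := by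
      intro q hq j hj
      have hq1 : dir q ≠ il t := by rw [hq]; intro h; exact htd (by rw [h]; rfl)
      have hq2 : dir q ≠ il (il t) := by rw [hq, il_il]; intro h; exact htd (by rw [h])
      rintro (h | ⟨i, hi, h⟩)
      · rcases j with _ | j
        · rw [pow_zero, one_smul] at h
          exact hq1 h
        · rw [dir_lt_pow_smul hq1] at h
          exact il_ne t h.symm
      · rw [smul_smul] at h
        rcases lt_trichotomy i j with h3 | h3 | h3
        · rw [hmul i j h3.le, show j - i = (j - i - 1) + 1 by omega, dir_lt_pow_smul hq1] at h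
          exact htb (by rw [← h])
        · subst h3
          rw [hmul i i le_rfl, Nat.sub_self, pow_zero, one_smul, hq] at h
          exact hdb h
        · rw [hmul2 i j h3.le, show i - j = (i - j - 1) + 1 by omega, dir_lt_pow_smul hq2] at h
          exact htb (by rw [← h]; rfl)
    have hcross : ∀ j < k, (lt t) ^ j • l ∈ crL (fun _ : Unit => u) (Sk t b k) := by
      intro j hj
      rw [mem_crL, pos_smul, neg_smul]
      by_cases h : dir (pos l) = b
      · have h3 : dir (neg l) = d := by rw [hd', if_pos h]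
        intro h4
        exact hout _ h3 j hj (h4.1 (hin _ h j hj))
      · have h3 : dir (pos l) = d := by rw [hd', if_neg h]
        have h5 : dir (neg l) = b := by
          by_contra h2
          exact hl ⟨fun h3 => absurd h3 h, fun h3 => absurd h3 h2⟩
        intro h4
        exact hout _ h3 j hj (h4.2 (hin _ h5 j hj))
    apply Set.ncard_le_ncard_of_injOn (fun j : ℕ => (lt t) ^ j • l) _ _ (crL_finite _ hclS)
    · intro j hj
      exact hcross j (by simpa using hj)
    · -- injectivity
      have key : ∀ i j : ℕ, i < j → (lt t) ^ i • l = (lt t) ^ j • l → False := by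
        intro i j hij h
        have hp : ∃ p : Endp X, dir p = b ∧ (lt t) ^ i • p = (lt t) ^ j • p := by
          by_cases h2 : dir (pos l) = b
          · refine ⟨pos l, h2, ?_⟩
            rw [← pos_smul, ← pos_smul, h]
          · refine ⟨neg l, ?_, ?_⟩
            · by_contra h3
              exact hl ⟨fun h4 => absurd h4 h2, fun h4 => absurd h4 h3⟩
            · rw [← neg_smul, ← neg_smul, h]
        obtain ⟨p, hp1, hp2⟩ := hp
        have h3 : p = (lt t) ^ (j - i) • p := by
          have h4 : (lt t) ^ j = (lt t) ^ i * (lt t) ^ (j - i) := by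
            rw [← pow_add]; congr 1; omega
          rw [h4, mul_smul] at hp2
          exact smul_left_cancel _ hp2
        have h5 : dir p = t := by
          rw [h3, show j - i = (j - i - 1) + 1 by omega]
          apply dir_lt_pow_smul
          rw [hp1]
          intro h6
          exact htb (by rw [h6]; rfl)
        rw [hp1] at h5
        exact htb (by rw [h5])
      intro i _ j _ h
      simp only at h
      rcases lt_trichotomy i j with h3 | h3 | h3
      · exact absurd h (fun h => key i j h3 h)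
      · exact h3
      · exact absurd h.symm (fun h => key j i h3 h)
  refine ⟨τ ^ (C * n1 v + 1), ?_⟩
  have h1 := huk (C * n1 v + 1)
  have h2 := (hvk (C * n1 v + 1)).1
  have h3 := Nat.mul_le_mul_left C h2
  omega

end Helper85.BTE
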